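import Pool.Agent.Lib.MP_ff3ed7_lc.MH.SpecF

/-!
# PROJECT MH, part F: gap version (SBP, PP)
-/

set_option autoImplicit false

open Finset

namespace Pool.Agent.Lib.MP_ff3ed7_lc.MH

open Pool.Agent.Lib.MP_ff3ed7_lc.PLT
open Pool.Agent.Lib.MP_ff3ed7_lc.B

private lemma Cgp_num (m u : ℕ) (e : ℝ) (he0 : 0 ≤ e) (he : e ≤ (1 / 2) ^ (2 * m + u + 10)) :
    (2 : ℝ) ^ m * e ≤ (1 / 2) ^ u / 1024 := by
  have h1 : ((1 : ℝ) / 2) ^ (2 * m + u + 10) = (1 / 2) ^ m * ((1 / 2) ^ m * ((1 / 2) ^ u / 1024)) := by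
    rw [show 2 * m + u + 10 = m + (m + (u + 10)) by ring, pow_add, pow_add, pow_add]
    norm_num
    ring
  have h2 : (2 : ℝ) ^ m * (1 / 2) ^ m = 1 := by
    rw [← mul_pow]
    norm_num
  have h3 : ((1 : ℝ) / 2) ^ m ≤ 1 := pow_le_one₀ (by norm_num) (by norm_num)
  have h4 : (0 : ℝ) ≤ (1 / 2) ^ u / 1024 := by positivity
  calc (2 : ℝ) ^ m * e ≤ 2 ^ m * ((1 / 2) ^ m * ((1 / 2) ^ m * ((1 / 2) ^ u / 1024))) := by
        rw [← h1]
        exact mul_le_mul_of_nonneg_left he (by positivity)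
    _ = (1 / 2) ^ m * ((1 / 2) ^ u / 1024) := by
        rw [← mul_assoc, h2, one_mul]
    _ ≤ 1 * ((1 / 2) ^ u / 1024) := mul_le_mul_of_nonneg_right h3 h4
    _ = (1 / 2) ^ u / 1024 := one_mul _

open Classical in
private lemma Cgp_prob (r : ℕ) (E : (Fin r → Bool) → Prop) :
    prob r E = ∑ ρ : Fin r → Bool, (1 / 2 ^ r : ℝ) * (if E ρ then (1 : ℝ) else 0) := by
  unfold prob
  rw [← Finset.mul_sum, Finset.sum_boole, Nat.card_eq_fintype_card, Fintype.card_subtype]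
  ring

theorem tCgp : S_Cgp := by
  classical
  intro hInv hJrc hTr hCnd m u r D Ω _ _ f V A a e he0 hdual hV hA he hyes hno
  have hnum := Cgp_num m u e he0 he
  have hu1 : ((1 : ℝ) / 2) ^ u ≤ 1 := pow_le_one₀ (by norm_num) (by norm_num)
  have hu0 : (0 : ℝ) < (1 / 2) ^ u := by positivity
  obtain ⟨hpos, hG⟩ := hTr hInv hJrc m D Ω V e he0 hV (by linarith)
  obtain ⟨hlin, hge, hle⟩ := hCnd m Ω V hpos
  set g : (Fin r → Bool) → Ω → ℝ := fun ρ ω => if A ρ ω then (1 : ℝ) else 0 with hg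
  have hG' : ∀ ρ : Fin r → Bool, ∃ G ∈ JR (Fin m) Bool D,
      ∀ X, |cnd V (g ρ) X - G X| ≤ 2 * (2 ^ m * e) := by
    intro ρ
    refine hG (g ρ) (fun ω => ?_) (fun S hS => ?_)
    · simp only [hg]
      split_ifs <;> norm_num
    · exact hA ρ S hS
  choose G hGJ hGX using hG'
  set δ : ℝ := 2 * (2 ^ m * e) with hδ
  have hδ1 : δ ≤ (1 / 2) ^ u / 512 := by
    rw [hδ]; linarith
  have hδ0 : 0 ≤ δ := by
    rw [hδ]; positivity
  let Q : Ω → ℝ := fun ω => prob r fun ρ => A ρ ω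
  let H : (Fin m → Bool) → ℝ := fun X => ∑ ρ : Fin r → Bool, (1 / 2 ^ r : ℝ) * G ρ X
  have hH : H ∈ JR (Fin m) Bool D :=
    CM_sum _ (fun ρ X => (1 / 2 ^ r : ℝ) * G ρ X) fun ρ _ => CM_smul _ (hGJ ρ)
  have hQ : ∀ X, cnd V Q X = ∑ ρ : Fin r → Bool, (1 / 2 ^ r : ℝ) * cnd V (g ρ) X := by
    intro X
    have h1 : Q = fun ω => ∑ ρ : Fin r → Bool, (1 / 2 ^ r : ℝ) * g ρ ω := by
      funext ω
      exact Cgp_prob r fun ρ => A ρ ω
    rw [h1]
    exact hlin _ univ (fun _ => (1 / 2 ^ r : ℝ)) g X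
  have hclose : ∀ X, |cnd V Q X - H X| ≤ δ := by
    intro X
    have h1 : cnd V Q X - H X = ∑ ρ : Fin r → Bool, (1 / 2 ^ r : ℝ) * (cnd V (g ρ) X - G ρ X) := by
      rw [hQ X]
      simp only [H]
      rw [← Finset.sum_sub_distrib]
      exact Finset.sum_congr rfl fun ρ _ => by ring
    rw [h1]
    have hr : (0 : ℝ) < 2 ^ r := by positivity
    calc |∑ ρ : Fin r → Bool, (1 / 2 ^ r : ℝ) * (cnd V (g ρ) X - G ρ X)|
        ≤ ∑ ρ : Fin r → Bool, |(1 / 2 ^ r : ℝ) * (cnd V (g ρ) X - G ρ X)| :=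
          Finset.abs_sum_le_sum_abs _ _
      _ ≤ ∑ _ρ : Fin r → Bool, (1 / 2 ^ r : ℝ) * δ := by
          refine Finset.sum_le_sum fun ρ _ => ?_
          rw [abs_mul, abs_of_nonneg (by positivity : (0 : ℝ) ≤ 1 / 2 ^ r)]
          exact mul_le_mul_of_nonneg_left (hGX ρ X) (by positivity)
      _ = δ := by
          rw [Finset.sum_const, nsmul_eq_mul]
          have hc : ((univ : Finset (Fin r → Bool)).card : ℝ) = 2 ^ r := by
            simp
          rw [hc]
          field_simp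
  obtain ⟨α, β, hα, hβ, hα1, hβ1, hαf, hβf, hd⟩ := hdual
  have hid := CM_dualE hd hH
  have hlow : a + (1 / 2) ^ u - δ ≤ ∑ x, α x * H x := by
    calc a + (1 / 2) ^ u - δ = ∑ x, α x * (a + (1 / 2) ^ u - δ) := by
          rw [← Finset.sum_mul, hα1, one_mul]
      _ ≤ ∑ x, α x * H x := by
          refine Finset.sum_le_sum fun x _ => ?_
          by_cases hx : α x = 0
          · rw [hx, zero_mul, zero_mul]
          · refine mul_le_mul_of_nonneg_left ?_ (hα x)
            have h1 : a + (1 / 2) ^ u ≤ cnd V Q x := by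
              refine hge Q _ x fun ω hω => ?_
              exact hyes ω (by rw [hω]; exact hαf x hx)
            have h2 := abs_le.mp (hclose x)
            linarith [h2.1, h2.2]
  have hup : ∑ x, β x * H x ≤ a + δ := by
    calc ∑ x, β x * H x ≤ ∑ x, β x * (a + δ) := by
          refine Finset.sum_le_sum fun x _ => ?_
          by_cases hx : β x = 0
          · rw [hx, zero_mul, zero_mul]
          · refine mul_le_mul_of_nonneg_left ?_ (hβ x)
            have h1 : cnd V Q x ≤ a := by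
              refine hle Q _ x fun ω hω => ?_
              exact hno ω (by rw [hω]; exact hβf x hx)
            have h2 := abs_le.mp (hclose x)
            linarith [h2.1, h2.2]
      _ = a + δ := by
          rw [← Finset.sum_mul, hβ1, one_mul]
  linarith

end Pool.Agent.Lib.MP_ff3ed7_lc.MH
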