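import Pool.Agent.Lib.MP_ff3ed7_lc.MH.SpecU
import Pool.Agent.Lib.MP_ff3ed7_lc.PLT.Cls

/-!
# PROJECT MH, module ClM: a language with large slices is not in `MAmh`
-/

set_option autoImplicit false

open Finset

namespace Pool.Agent.Lib.MP_ff3ed7_lc.MH

open Pool.Agent.Lib.MP_ff3ed7_lc.PLT
open Pool.Agent.Lib.MP_ff3ed7_lc.SQ (dst ql)

/-- **MA.** -/
theorem ClM_of (hS : S_HSm) {L : Set (List Bool)} {j : ℕ} {k t S : ℕ → ℕ} (h : L ∈ MAh j k t S) :
    ∃ K, ∀ n, HasMAh j (slice L n) (k n) (K * (S n + 1)) (t n) := by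
  obtain ⟨P, h1, h2⟩ := h
  obtain ⟨K, hK⟩ := hS j P
  refine ⟨K, fun n => ?_⟩
  obtain ⟨Q, hQ, hcard, hM⟩ := hK (S n)
  have h3 : ∀ y ρ : Fin (k n) → Bool, ∃ M : HM j Q,
      (∀ (x : Fin n → Bool) T, (M.run (tape x) T).mot ≤ t n) ∧
      ∀ x : Fin n → Bool, M.Acc (tape x) ↔ HAcc P (word x) (cd (k n) y).1 (cd (k n) ρ).1 := by
    intro y ρ
    refine hM n _ _ _ fun x => ?_
    have h4 := h1 (word x) (cd (k n) y).1 (cd (k n) ρ).1
    rw [word_length] at h4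
    exact h4 (cd (k n) y).2 (cd (k n) ρ).2
  choose M hM1 hM2 using h3
  refine ⟨k n, Q, hQ, M, hcard, fun m ρ x T => hM1 m ρ x T, fun x hx => ?_, fun x hx y => ?_⟩
  · obtain ⟨y, hy, h4⟩ := (h2 (word x)).1 (slice_eq_true.mp hx)
    rw [word_length] at hy h4
    refine ⟨(cd (k n)).symm ⟨y, hy⟩, ?_⟩
    simp only [hM2, Equiv.apply_symm_apply]
    rw [prob_pr (k n) fun r => HAcc P (word x) y r]
    exact h4
  · have h4 := (h2 (word x)).2 (slice_eq_false.mp hx) (cd (k n) y).1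
    rw [word_length] at h4
    simp only [hM2]
    rw [prob_pr (k n) fun r => HAcc P (word x) (cd (k n) y).1 r]
    exact h4 (cd (k n) y).2

private lemma ql_div' (d n : ℕ) (hn : 1 ≤ n) : ql d n / n + 1 ≤ 3 * pl d n := by
  have h1 := one_le_pl d n
  have h2 : ql d n ≤ 2 * pl d n * n := by
    unfold ql
    nlinarith
  have h3 : ql d n / n ≤ 2 * pl d n := Nat.div_le_of_le_mul (by rw [mul_comm]; exact h2)
  omega

private lemma pl_add' (a b N : ℕ) : pl a N * pl b N = pl (a + b) N := (pow_add _ _ _).symm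

private lemma ex_pl' (K e N : ℕ) : K * (pl e N + 1) + 1 ≤ (2 * K + 1) * pl e N := by
  have h1 := one_le_pl e N
  nlinarith

/-- **ClM.** -/
theorem tClM : S_ClM := by
  intro hS L hC hL
  obtain ⟨C, h⟩ := hC
  obtain ⟨j, c, d, e, hL⟩ := hL
  obtain ⟨K, hK⟩ := ClM_of hS hL
  obtain ⟨N, hN⟩ := growth (C * ((j + 1) * (2 * (2 * K + 1) * 3)) ^ C) ((c + e + d) * C)
  have hN1 : 1 ≤ N := by omega
  have h1 := h N _ _ _ _ (hK N)
  have h2 : (j + 1) * (pl c N + 1) * (K * (pl e N + 1) + 1) * (ql d N / N + 1) ≤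
      (j + 1) * (2 * (2 * K + 1) * 3) * pl (c + e + d) N := by
    have a1 : pl c N + 1 ≤ 2 * pl c N := by
      have := one_le_pl c N
      omega
    calc (j + 1) * (pl c N + 1) * (K * (pl e N + 1) + 1) * (ql d N / N + 1)
        ≤ (j + 1) * (2 * pl c N) * ((2 * K + 1) * pl e N) * (3 * pl d N) :=
          Nat.mul_le_mul (Nat.mul_le_mul (Nat.mul_le_mul_left _ a1) (ex_pl' _ _ _))
            (ql_div' d N hN1)
      _ = (j + 1) * (2 * (2 * K + 1) * 3) * (pl c N * pl e N * pl d N) := by ring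
      _ = _ := by rw [pl_add', pl_add']
  have h3 : N ≤ C * ((j + 1) * (2 * (2 * K + 1) * 3)) ^ C * pl ((c + e + d) * C) N := by
    calc N ≤ C * ((j + 1) * (pl c N + 1) * (K * (pl e N + 1) + 1) * (ql d N / N + 1)) ^ C := h1
      _ ≤ C * ((j + 1) * (2 * (2 * K + 1) * 3) * pl (c + e + d) N) ^ C :=
        Nat.mul_le_mul_left _ (Nat.pow_le_pow_left h2 C)
      _ = C * ((j + 1) * (2 * (2 * K + 1) * 3)) ^ C * pl ((c + e + d) * C) N := by
        rw [mul_pow, pl_pow, ← mul_assoc]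
  omega

end Pool.Agent.Lib.MP_ff3ed7_lc.MH
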