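import Pool.Agent.Lib.MP_ff3ed7_lc.MH.SpecU
import Pool.Agent.Lib.MP_ff3ed7_lc.PLT.Cls

/-!
# PROJECT MH: a language with large slices is not in `PPmh`
-/

set_option autoImplicit false

open Finset

namespace Pool.Agent.Lib.MP_ff3ed7_lc.MH

open Pool.Agent.Lib.MP_ff3ed7_lc.PLT
open Pool.Agent.Lib.MP_ff3ed7_lc.SQ (dst ql)

private lemma ClP_ql_div (d n : ℕ) (hn : 1 ≤ n) : ql d n / n + 1 ≤ 3 * pl d n := by
  have h1 := one_le_pl d n
  have h2 : ql d n ≤ 2 * pl d n * n := by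
    unfold ql
    nlinarith
  have h3 : ql d n / n ≤ 2 * pl d n := Nat.div_le_of_le_mul (by rw [mul_comm]; exact h2)
  omega

private lemma ClP_pl_add (a b N : ℕ) : pl a N * pl b N = pl (a + b) N := (pow_add _ _ _).symm

private lemma ClP_ex_pl (K e N : ℕ) : K * (pl e N + 1) + 1 + 1 ≤ (2 * K + 2) * pl e N := by
  have h1 := one_le_pl e N
  nlinarith

/-- Uniform verifiers are nonuniform ones. -/
theorem ClP_of (hS : S_HSm) {L : Set (List Bool)} {k : ℕ} {κ t S : ℕ → ℕ} (h : L ∈ PPh k κ t S) :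
    ∃ K, ∀ n, HasPPh k (slice L n) (κ n + 1) (K * (S n + 1)) (t n) := by
  obtain ⟨P, h1, h2⟩ := h
  obtain ⟨K, hK⟩ := hS k P
  refine ⟨K, fun n => ?_⟩
  obtain ⟨Q, hQ, hcard, hM⟩ := hK (S n)
  have h3 : ∀ ρ : Fin (κ n) → Bool, ∃ M : HM k Q,
      (∀ (x : Fin n → Bool) T, (M.run (tape x) T).mot ≤ t n) ∧
      ∀ x : Fin n → Bool, M.Acc (tape x) ↔ HAcc P (word x) 0 (cd (κ n) ρ).1 := by
    intro ρ
    refine hM n _ _ _ fun x => ?_
    have h4 := h1 (word x) 0 (cd (κ n) ρ).1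
    rw [word_length] at h4
    exact h4 (by positivity) (cd (κ n) ρ).2
  choose M hM1 hM2 using h3
  refine ⟨κ n, Q, hQ, M, hcard, fun ρ x T => hM1 ρ x T, fun x hx => ?_, fun x hx => ?_⟩
  · have h4 := (h2 (word x)).mp (slice_eq_true.mp hx)
    rw [word_length] at h4
    simp only [hM2]
    rw [prob_pr (κ n) fun r => HAcc P (word x) 0 r]
    unfold pr at h4 ⊢
    set c := Nat.card {r : Fin (2 ^ κ n) // HAcc P (word x) 0 r} with hc
    have h2k : (0 : ℝ) < 2 ^ κ n := by positivity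
    rw [lt_div_iff₀ h2k] at h4
    rw [le_div_iff₀ h2k]
    have h5 : (1 / 2 + (1 / 2) ^ (κ n + 1) : ℝ) * 2 ^ κ n = (2 ^ κ n + 1) / 2 := by
      rw [add_mul, pow_succ]
      have : ((1 : ℝ) / 2) ^ κ n * 2 ^ κ n = 1 := by
        rw [← mul_pow]
        norm_num
      have h6 : ((1 / 2) ^ κ n * (1 / 2) * 2 ^ κ n : ℝ) = ((1 / 2) ^ κ n * 2 ^ κ n) * (1 / 2) := by
        ring
      rw [h6, this]
      ring
    rw [h5]
    have h7 : (2 ^ κ n : ℝ) < 2 * c := by linarith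
    have h8 : 2 ^ κ n < 2 * c := by exact_mod_cast h7
    have h9 : 2 ^ κ n + 1 ≤ 2 * c := h8
    have h10 : (2 ^ κ n + 1 : ℝ) ≤ 2 * c := by exact_mod_cast h9
    linarith
  · have h4 : ¬ (1 / 2 < pr (κ (word x).length) fun r => HAcc P (word x) 0 r) :=
      fun h => slice_eq_false.mp hx ((h2 (word x)).mpr h)
    rw [word_length] at h4
    simp only [hM2]
    rw [prob_pr (κ n) fun r => HAcc P (word x) 0 r]
    exact not_lt.mp h4

theorem tClP : S_ClP := by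
  intro hS L hC
  obtain ⟨C, h⟩ := hC
  rintro ⟨k, c, d, e, hL⟩
  obtain ⟨K, hK⟩ := ClP_of hS hL
  obtain ⟨N, hN⟩ := growth (C * ((k + 1) * 3 * (2 * K + 2) * 3) ^ C) ((c + e + d) * C)
  have hN1 : 1 ≤ N := by omega
  have h1 := h N _ _ _ _ (hK N)
  have h2 : (k + 1) * (pl c N + 1 + 1) * (K * (pl e N + 1) + 1) * (ql d N / N + 1) ≤
      (k + 1) * 3 * (2 * K + 2) * 3 * pl (c + e + d) N := by
    have a1 : pl c N + 1 + 1 ≤ 3 * pl c N := by
      have := one_le_pl c N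
      omega
    have a2 : K * (pl e N + 1) + 1 ≤ (2 * K + 2) * pl e N :=
      (Nat.le_succ _).trans (ClP_ex_pl K e N)
    calc (k + 1) * (pl c N + 1 + 1) * (K * (pl e N + 1) + 1) * (ql d N / N + 1)
        ≤ (k + 1) * (3 * pl c N) * ((2 * K + 2) * pl e N) * (3 * pl d N) :=
          Nat.mul_le_mul (Nat.mul_le_mul (Nat.mul_le_mul le_rfl a1) a2) (ClP_ql_div d N hN1)
      _ = (k + 1) * 3 * (2 * K + 2) * 3 * (pl c N * pl e N * pl d N) := by ring
      _ = _ := by rw [ClP_pl_add, ClP_pl_add]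
  have h3 : N ≤ C * ((k + 1) * 3 * (2 * K + 2) * 3) ^ C * pl ((c + e + d) * C) N := by
    calc N ≤ C * ((k + 1) * (pl c N + 1 + 1) * (K * (pl e N + 1) + 1) * (ql d N / N + 1)) ^ C := h1
      _ ≤ C * ((k + 1) * 3 * (2 * K + 2) * 3 * pl (c + e + d) N) ^ C :=
        Nat.mul_le_mul_left _ (Nat.pow_le_pow_left h2 C)
      _ = C * ((k + 1) * 3 * (2 * K + 2) * 3) ^ C * pl ((c + e + d) * C) N := by
        rw [mul_pow _ (pl (c + e + d) N), pl_pow, ← mul_assoc]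
  omega

end Pool.Agent.Lib.MP_ff3ed7_lc.MH
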