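import Pool.Agent.Lib.MP_ff3ed7_lc.MH.SpecU
import Pool.Agent.Lib.MP_ff3ed7_lc.PLT.Cls

/-!
# PROJECT MH: a language with large slices is not in `SBPmh`
-/

set_option autoImplicit false

open Finset

namespace Pool.Agent.Lib.MP_ff3ed7_lc.MH

open Pool.Agent.Lib.MP_ff3ed7_lc.PLT
open Pool.Agent.Lib.MP_ff3ed7_lc.SQ (dst ql)

private theorem ClS_of (hS : S_HSm) {L : Set (List Bool)} {k : ℕ} {κ t S u : ℕ → ℕ}
    (h : L ∈ SBPh k κ t S u) :
    ∃ K, ∀ n, HasSBPh k (slice L n) (u n) (K * (S n + 1)) (t n) := by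
  obtain ⟨P, h1, h2⟩ := h
  obtain ⟨K, hK⟩ := hS k P
  refine ⟨K, fun n => ?_⟩
  obtain ⟨Q, hQ, hcard, hM⟩ := hK (S n)
  have h3 : ∀ ρ : Fin (κ n) → Bool, ∃ M : HM k Q,
      (∀ (x : Fin n → Bool) T, (M.run (tape x) T).mot ≤ t n) ∧
      ∀ x : Fin n → Bool, M.Acc (tape x) ↔ HAcc P (word x) 0 (cd (κ n) ρ).1 := by
    intro ρ
    refine hM n _ _ _ fun x => ?_
    have h4 := h1 (word x) 0 (cd (κ n) ρ).1
    rw [word_length] at h4
    exact h4 (by positivity) (cd (κ n) ρ).2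
  choose M hM1 hM2 using h3
  refine ⟨κ n, Q, hQ, M, hcard, fun ρ x T => hM1 ρ x T, fun x hx => ?_, fun x hx => ?_⟩
  · have h4 := (h2 (word x)).1 (slice_eq_true.mp hx)
    rw [word_length] at h4
    simp only [hM2]
    rw [prob_pr (κ n) fun r => HAcc P (word x) 0 r]
    exact h4
  · have h4 := (h2 (word x)).2 (slice_eq_false.mp hx)
    rw [word_length] at h4
    simp only [hM2]
    rw [prob_pr (κ n) fun r => HAcc P (word x) 0 r]
    exact h4

private lemma ClS_ql_div (d n : ℕ) (hn : 1 ≤ n) : ql d n / n + 1 ≤ 3 * pl d n := by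
  have h1 := one_le_pl d n
  have h2 : ql d n ≤ 2 * pl d n * n := by
    unfold ql
    nlinarith
  have h3 : ql d n / n ≤ 2 * pl d n := Nat.div_le_of_le_mul (by rw [mul_comm]; exact h2)
  omega

private lemma ClS_pl_add (a b N : ℕ) : pl a N * pl b N = pl (a + b) N := (pow_add _ _ _).symm

private lemma ClS_ex_pl (K e N : ℕ) : K * (pl e N + 1) + 1 ≤ (2 * K + 1) * pl e N := by
  have h1 := one_le_pl e N
  nlinarith

/-- A language with large slices is not in `SBPmh`. -/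
theorem tClS : S_ClS := by
  intro hS L hL
  obtain ⟨C, h⟩ := hL
  rintro ⟨k, c, d, e, f, hm⟩
  obtain ⟨K, hK⟩ := ClS_of hS hm
  obtain ⟨N, hN⟩ := growth (C * ((k + 1) * 2 * (2 * K + 1) * 3) ^ C) ((f + e + d) * C)
  have hN1 : 1 ≤ N := by omega
  have h1 := h N _ _ _ _ (hK N)
  have h2 : (k + 1) * (pl f N + 1) * (K * (pl e N + 1) + 1) * (ql d N / N + 1) ≤
      (k + 1) * 2 * (2 * K + 1) * 3 * pl (f + e + d) N := by
    have a1 : pl f N + 1 ≤ 2 * pl f N := by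
      have := one_le_pl f N
      omega
    calc (k + 1) * (pl f N + 1) * (K * (pl e N + 1) + 1) * (ql d N / N + 1)
        ≤ (k + 1) * (2 * pl f N) * ((2 * K + 1) * pl e N) * (3 * pl d N) :=
          Nat.mul_le_mul (Nat.mul_le_mul (Nat.mul_le_mul_left _ a1) (ClS_ex_pl _ _ _))
            (ClS_ql_div d N hN1)
      _ = (k + 1) * 2 * (2 * K + 1) * 3 * (pl f N * pl e N * pl d N) := by ring
      _ = _ := by rw [ClS_pl_add, ClS_pl_add]
  have h3 : N ≤ C * ((k + 1) * 2 * (2 * K + 1) * 3) ^ C * pl ((f + e + d) * C) N := by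
    calc N ≤ C * ((k + 1) * (pl f N + 1) * (K * (pl e N + 1) + 1) * (ql d N / N + 1)) ^ C := h1
      _ ≤ C * ((k + 1) * 2 * (2 * K + 1) * 3 * pl (f + e + d) N) ^ C :=
        Nat.mul_le_mul_left _ (Nat.pow_le_pow_left h2 C)
      _ = C * ((k + 1) * 2 * (2 * K + 1) * 3) ^ C * pl ((f + e + d) * C) N := by
        rw [mul_pow, pl_pow, ← mul_assoc]
  omega

end Pool.Agent.Lib.MP_ff3ed7_lc.MH
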