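import Pool.Agent.Lib.MP_ff3ed7_lc.MH.SpecF

/-!
# PROJECT MH, module Cma: Merlin-Arthur, signed dual object
-/

set_option autoImplicit false

open Finset

namespace Pool.Agent.Lib.MP_ff3ed7_lc.MH

open Pool.Agent.Lib.MP_ff3ed7_lc.PLT
open Pool.Agent.Lib.MP_ff3ed7_lc.B

private theorem Cma_le_one (r : ℕ) (E : (Fin r → Bool) → Prop) : prob r E ≤ 1 := by
  classical
  have h1 : prob r E = prob r (fun ρ => (decide (E ρ)) = true) := by
    refine congrArg (prob r) ?_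
    funext ρ
    simp
  rw [h1]
  exact CM_prob_le r fun ρ => decide (E ρ)

private theorem Cma_half (m k : ℕ) (e : ℝ) (he : e ≤ (1 / 2) ^ (2 * m + k + 10)) :
    2 ^ m * e ≤ 1 / 2 := by
  have h1 : (2 : ℝ) ^ m * (1 / 2) ^ m = 1 := by
    rw [← mul_pow]; norm_num
  have h2 : (2 : ℝ) ^ m * (1 / 2) ^ (2 * m + k + 10) = (1 / 2) ^ (m + k + 10) := by
    rw [show 2 * m + k + 10 = m + (m + k + 10) by omega, pow_add, ← mul_assoc, h1, one_mul]
  have h3 : ((1 : ℝ) / 2) ^ (m + k + 10) ≤ (1 / 2) ^ 1 :=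
    pow_le_pow_of_le_one (by norm_num) (by norm_num) (by omega)
  calc (2 : ℝ) ^ m * e ≤ 2 ^ m * (1 / 2) ^ (2 * m + k + 10) :=
        mul_le_mul_of_nonneg_left he (by positivity)
    _ = (1 / 2) ^ (m + k + 10) := h2
    _ ≤ (1 / 2) ^ 1 := h3
    _ = 1 / 2 := by norm_num

theorem tCma : S_Cma := by
  intro hInv hJrc hTr hCnd hPow hNma hJma m p r D Ω _ _ f V A e he hD hchi hA hsmall hyes hno
  have hhalf : 2 ^ m * e ≤ 1 / 2 := Cma_half m (20 * (p + 1)) e hsmall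
  obtain ⟨hfib, -⟩ := hTr hInv hJrc m D Ω V e he hchi hhalf
  obtain ⟨-, hlow, hup⟩ := hCnd m Ω V hfib
  obtain ⟨G, hG, hGe⟩ := hJma hInv hJrc hTr hCnd hPow m p r D Ω V A e he hchi hhalf hA
  obtain ⟨α, β, γ, hα, hα1, hαf, hβf, hβn, hγn, hdual⟩ := hD
  set k := 6 * (p + 1) with hk
  set Q : Ω → ℝ := fun ω => ∑ y, (prob r fun ρ => A y ρ ω) ^ k with hQ
  set δ : ℝ := 2 ^ p * (2 * (2 ^ m * e)) with hδ
  have hδ0 : 0 ≤ δ := by positivity
  have hP0 : ∀ y ω, 0 ≤ prob r fun ρ => A y ρ ω := fun y ω => CM_prob_nonneg r _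
  have hP1 : ∀ y ω, (prob r fun ρ => A y ρ ω) ≤ 1 := fun y ω => Cma_le_one r _
  have hQ0 : ∀ ω, 0 ≤ Q ω := fun ω => Finset.sum_nonneg fun y _ => pow_nonneg (hP0 y ω) k
  have hbd : ∀ ω (c : ℝ), (∀ y, (prob r fun ρ => A y ρ ω) ≤ c) → Q ω ≤ 2 ^ p * c ^ k := by
    intro ω c hc
    calc Q ω ≤ ∑ _y : Fin p → Bool, c ^ k :=
          Finset.sum_le_sum fun y _ => pow_le_pow_left₀ (hP0 y ω) (hc y) k
      _ = 2 ^ p * c ^ k := by simp
  have hc0 : ∀ X, 0 ≤ cnd V Q X := fun X => hlow Q 0 X fun ω _ => hQ0 ω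
  have hc1 : ∀ X, cnd V Q X ≤ 2 ^ p := by
    intro X
    refine hup Q (2 ^ p) X fun ω _ => ?_
    have h1 := hbd ω 1 fun y => hP1 y ω
    simpa using h1
  have hcy : ∀ X, f X = true → (2 / 3) ^ k ≤ cnd V Q X := by
    intro X hX
    refine hlow Q _ X fun ω hω => ?_
    obtain ⟨y, hy⟩ := hyes ω (by rw [hω]; exact hX)
    calc ((2 : ℝ) / 3) ^ k ≤ (prob r fun ρ => A y ρ ω) ^ k :=
          pow_le_pow_left₀ (by norm_num) hy k
      _ ≤ Q ω := Finset.single_le_sum (f := fun y => (prob r fun ρ => A y ρ ω) ^ k)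
          (fun y _ => pow_nonneg (hP0 y ω) k) (Finset.mem_univ y)
  have hcn : ∀ X, f X = false → cnd V Q X ≤ 2 ^ p * (1 / 3) ^ k := by
    intro X hX
    refine hup Q _ X fun ω hω => ?_
    exact hbd ω _ fun y => hno ω (by rw [hω]; exact hX) y
  have hid := CM_dualS hdual hG
  have hlo : ((2 : ℝ) / 3) ^ k - δ ≤ ∑ x, α x * G x := by
    calc ((2 : ℝ) / 3) ^ k - δ = ∑ x, α x * (((2 : ℝ) / 3) ^ k - δ) := by
          rw [← Finset.sum_mul, hα1, one_mul]
      _ ≤ ∑ x, α x * G x := by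
          refine Finset.sum_le_sum fun x _ => ?_
          by_cases hx : α x = 0
          · rw [hx, zero_mul, zero_mul]
          · have h1 := hcy x (hαf x hx)
            have h2 := (abs_le.1 (hGe x)).2
            exact mul_le_mul_of_nonneg_left (by linarith) (hα x)
  have hβ : ∑ x, β x * G x ≤ 22 ^ (p + 1) * (2 ^ p * (1 / 3) ^ k + δ) := by
    refine (CM_signed β G (2 ^ p * (1 / 3) ^ k + δ) fun x hx => ?_).trans ?_
    · have h1 := hcn x (hβf x hx)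
      have h2 := hc0 x
      have h3 := abs_le.1 (hGe x)
      have h4 : (0 : ℝ) ≤ 2 ^ p * (1 / 3) ^ k := by positivity
      rw [abs_le]
      constructor
      · linarith [h3.2]
      · linarith [h3.1]
    · exact mul_le_mul_of_nonneg_right hβn (by positivity)
  have hγ : ∑ x, γ x * G x ≤ 4 * (1 / 128) ^ (p + 1) * (2 ^ p + δ) := by
    refine (CM_signed γ G (2 ^ p + δ) fun x _ => ?_).trans ?_
    · have h1 := hc1 x
      have h2 := hc0 x
      have h3 := abs_le.1 (hGe x)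
      have h4 : (0 : ℝ) ≤ 2 ^ p := by positivity
      rw [abs_le]
      constructor
      · linarith [h3.2]
      · linarith [h3.1]
    · exact mul_le_mul_of_nonneg_right hγn (by positivity)
  have hnum := hNma m p e he hsmall
  rw [← hk, ← hδ] at hnum
  have h5 : (22 : ℝ) ^ (p + 1) * (2 ^ p * (1 / 3) ^ k + δ) +
      4 * (1 / 128) ^ (p + 1) * (2 ^ p + δ) + δ =
      22 ^ (p + 1) * (2 ^ p * (1 / 3) ^ k) + 4 * (1 / 128) ^ (p + 1) * 2 ^ p +
        (1 + 22 ^ (p + 1) + 4 * (1 / 128) ^ (p + 1)) * δ := by ring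
  linarith

end Pool.Agent.Lib.MP_ff3ed7_lc.MH
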