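import Pool.Agent.Lib.MP_ff3ed7_lc.MH.SpecF

/-!
PROJECT MH, part F, module Cme (helper92): Merlin-Arthur protocols against an exact dual object.
-/

set_option autoImplicit false

open Finset

namespace Pool.Agent.Lib.MP_ff3ed7_lc.MH

open Pool.Agent.Lib.MP_ff3ed7_lc.PLT
open Pool.Agent.Lib.MP_ff3ed7_lc.B

private theorem Cme_small (m p : ℕ) (e : ℝ) (h : e ≤ (1 / 2) ^ (2 * m + 20 * (p + 1) + 10)) :
    2 ^ m * e ≤ 1 / 2 := by
  have h1 : ((1 : ℝ) / 2) ^ (2 * m + 20 * (p + 1) + 10) ≤ (1 / 2) ^ (m + 1) :=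
    pow_le_pow_of_le_one (by norm_num) (by norm_num) (by omega)
  have h2 : (2 : ℝ) ^ m * (1 / 2) ^ (m + 1) = 1 / 2 := by
    rw [pow_succ, ← mul_assoc, ← mul_pow]
    norm_num
  calc 2 ^ m * e ≤ 2 ^ m * (1 / 2) ^ (m + 1) :=
        mul_le_mul_of_nonneg_left (h.trans h1) (by positivity)
    _ = 1 / 2 := h2

theorem tCme : S_Cme := by
  intro hInv hJrc hTr hCnd hPow hNma hJma m p r D Ω _ _ f V A e he hdualf hV hA heb hyes hno
  have h2 : 2 ^ m * e ≤ 1 / 2 := Cme_small m p e heb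
  obtain ⟨hfib, -⟩ := hTr hInv hJrc m D Ω V e he hV h2
  obtain ⟨-, hc2, hc3⟩ := hCnd m Ω V hfib
  obtain ⟨G, hG, hGX⟩ := hJma hInv hJrc hTr hCnd hPow m p r D Ω V A e he hV h2 hA
  obtain ⟨α, β, hα, hβ, hα1, hβ1, hαf, hβf, hdual⟩ := hdualf
  have hid := CM_dualE hdual hG
  have hnum := hNma m p e he heb
  have hlow : ∀ X, f X = true → ((2 : ℝ) / 3) ^ (6 * (p + 1)) - 2 ^ p * (2 * (2 ^ m * e)) ≤ G X := by
    intro X hX
    have h3 : ((2 : ℝ) / 3) ^ (6 * (p + 1)) ≤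
        cnd V (fun ω => ∑ y, (prob r fun ρ => A y ρ ω) ^ (6 * (p + 1))) X := by
      refine hc2 _ _ X fun ω hω => ?_
      obtain ⟨y, hy⟩ := hyes ω (by rw [hω]; exact hX)
      calc ((2 : ℝ) / 3) ^ (6 * (p + 1)) ≤ (prob r fun ρ => A y ρ ω) ^ (6 * (p + 1)) :=
            pow_le_pow_left₀ (by norm_num) hy _
        _ ≤ ∑ y, (prob r fun ρ => A y ρ ω) ^ (6 * (p + 1)) :=
            Finset.single_le_sum (f := fun y => (prob r fun ρ => A y ρ ω) ^ (6 * (p + 1)))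
              (fun y _ => pow_nonneg (CM_prob_nonneg r _) _) (Finset.mem_univ y)
    have h4 := (abs_le.mp (hGX X)).2
    linarith
  have hup : ∀ X, f X = false →
      G X ≤ 2 ^ p * (1 / 3) ^ (6 * (p + 1)) + 2 ^ p * (2 * (2 ^ m * e)) := by
    intro X hX
    have h3 : cnd V (fun ω => ∑ y, (prob r fun ρ => A y ρ ω) ^ (6 * (p + 1))) X ≤
        2 ^ p * (1 / 3) ^ (6 * (p + 1)) := by
      refine hc3 _ _ X fun ω hω => ?_
      have h5 := hno ω (by rw [hω]; exact hX)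
      calc ∑ y, (prob r fun ρ => A y ρ ω) ^ (6 * (p + 1)) ≤
            ∑ _y : Fin p → Bool, ((1 : ℝ) / 3) ^ (6 * (p + 1)) :=
            Finset.sum_le_sum fun y _ => pow_le_pow_left₀ (CM_prob_nonneg r _) (h5 y) _
        _ = 2 ^ p * (1 / 3) ^ (6 * (p + 1)) := by simp
    have h4 := (abs_le.mp (hGX X)).1
    linarith
  have h6 : ((2 : ℝ) / 3) ^ (6 * (p + 1)) - 2 ^ p * (2 * (2 ^ m * e)) ≤ ∑ X, α X * G X := by
    calc ((2 : ℝ) / 3) ^ (6 * (p + 1)) - 2 ^ p * (2 * (2 ^ m * e))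
        = ∑ X, α X * (((2 : ℝ) / 3) ^ (6 * (p + 1)) - 2 ^ p * (2 * (2 ^ m * e))) := by
          rw [← Finset.sum_mul, hα1, one_mul]
      _ ≤ ∑ X, α X * G X := by
          refine Finset.sum_le_sum fun X _ => ?_
          by_cases hx : α X = 0
          · rw [hx, zero_mul, zero_mul]
          · exact mul_le_mul_of_nonneg_left (hlow X (hαf X hx)) (hα X)
  have h7 : ∑ X, β X * G X ≤ 2 ^ p * (1 / 3) ^ (6 * (p + 1)) + 2 ^ p * (2 * (2 ^ m * e)) := by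
    calc ∑ X, β X * G X ≤
          ∑ X, β X * (2 ^ p * (1 / 3) ^ (6 * (p + 1)) + 2 ^ p * (2 * (2 ^ m * e))) := by
          refine Finset.sum_le_sum fun X _ => ?_
          by_cases hx : β X = 0
          · rw [hx, zero_mul, zero_mul]
          · exact mul_le_mul_of_nonneg_left (hup X (hβf X hx)) (hβ X)
      _ = 2 ^ p * (1 / 3) ^ (6 * (p + 1)) + 2 ^ p * (2 * (2 ^ m * e)) := by
          rw [← Finset.sum_mul, hβ1, one_mul]
  have h8 : (1 : ℝ) ≤ 22 ^ (p + 1) := one_le_pow₀ (by norm_num)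
  have h9 : (0 : ℝ) ≤ 2 ^ p * (1 / 3) ^ (6 * (p + 1)) := by positivity
  have h10 : (0 : ℝ) ≤ 2 ^ p * (2 * (2 ^ m * e)) := by positivity
  have h11 : (0 : ℝ) ≤ 4 * (1 / 128) ^ (p + 1) := by positivity
  have h12 : (0 : ℝ) ≤ 4 * (1 / 128) ^ (p + 1) * 2 ^ p := by positivity
  have h13 : 2 ^ p * ((1 : ℝ) / 3) ^ (6 * (p + 1)) ≤
      22 ^ (p + 1) * (2 ^ p * (1 / 3) ^ (6 * (p + 1))) := le_mul_of_one_le_left h9 h8
  have h14 : 2 * (2 ^ p * (2 * (2 ^ m * e))) ≤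
      (1 + 22 ^ (p + 1) + 4 * (1 / 128) ^ (p + 1)) * (2 ^ p * (2 * (2 ^ m * e))) :=
    mul_le_mul_of_nonneg_right (by linarith) h10
  linarith

end Pool.Agent.Lib.MP_ff3ed7_lc.MH
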