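import Pool.Agent.Lib.MP_ff3ed7_lc.MH.SpecF

/-!
# PROJECT MH, module Cnd: simple properties of the conditional expectation
-/

set_option autoImplicit false

open Finset

namespace Pool.Agent.Lib.MP_ff3ed7_lc.MH

open Pool.Agent.Lib.MP_ff3ed7_lc.PLT
open Pool.Agent.Lib.MP_ff3ed7_lc.B (JR HasSDual)

private theorem Cnd_fib_sum {m : ℕ} {Ω : Type} [Fintype Ω] (V : Ω → Fin m → Bool) {I : Type}
    (s : Finset I) (w : I → ℝ) (g : I → Ω → ℝ) (X : Fin m → Bool) :
    fib V (fun ω => ∑ i ∈ s, w i * g i ω) X = ∑ i ∈ s, w i * fib V (g i) X := by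
  unfold fib
  simp only [Finset.mul_sum]
  rw [Finset.sum_comm]
  refine Finset.sum_congr rfl fun ω _ => ?_
  by_cases h : V ω = X
  · simp only [if_pos h]
  · simp only [if_neg h, mul_zero, Finset.sum_const_zero]

private theorem Cnd_fib_mono {m : ℕ} {Ω : Type} [Fintype Ω] (V : Ω → Fin m → Bool)
    (g g' : Ω → ℝ) (X : Fin m → Bool) (h : ∀ ω, V ω = X → g ω ≤ g' ω) :
    fib V g X ≤ fib V g' X := by
  unfold fib
  refine Finset.sum_le_sum fun ω _ => ?_
  by_cases hX : V ω = X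
  · rw [if_pos hX, if_pos hX]
    exact h ω hX
  · rw [if_neg hX, if_neg hX]

private theorem Cnd_fib_const {m : ℕ} {Ω : Type} [Fintype Ω] (V : Ω → Fin m → Bool) (c : ℝ)
    (X : Fin m → Bool) : fib V (fun _ => c) X = c * fib V (fun _ => 1) X := by
  unfold fib
  rw [Finset.mul_sum]
  refine Finset.sum_congr rfl fun ω _ => ?_
  by_cases hX : V ω = X
  · rw [if_pos hX, if_pos hX, mul_one]
  · rw [if_neg hX, if_neg hX, mul_zero]

theorem tCnd : S_Cnd := by
  intro m Ω _ V hV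
  refine ⟨fun I s w g X => ?_, fun g c X h => ?_, fun g c X h => ?_⟩
  · unfold cnd
    rw [Cnd_fib_sum, Finset.sum_div]
    exact Finset.sum_congr rfl fun i _ => mul_div_assoc _ _ _
  · unfold cnd
    rw [le_div_iff₀ (hV X), ← Cnd_fib_const]
    exact Cnd_fib_mono V _ _ X h
  · unfold cnd
    rw [div_le_iff₀ (hV X), ← Cnd_fib_const]
    exact Cnd_fib_mono V _ _ X h

end Pool.Agent.Lib.MP_ff3ed7_lc.MH
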