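import Pool.Agent.Lib.MP_ff3ed7_lc.SQ.Def

/-!
# PROJECT MH: machines with several input heads and small memory

The input is read-only, in the cells `0, ..., n - 1`; cell `n` and the cells behind it are blank.
There are `k` heads; moving head `i` from cell `h` to cell `j` costs `|j - h|`.
-/

set_option autoImplicit false

open Finset

namespace Pool.Agent.Lib.MP_ff3ed7_lc.MH

open Pool.Agent.Lib.MP_ff3ed7_lc.PLT
open Pool.Agent.Lib.MP_ff3ed7_lc.SQ (dst ql)

/-! ### Programs -/

/-- Programs with registers and `k` input heads. -/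
inductive HProg (k : ℕ) : Type
  /-- register `i` gets the value of `e` -/
  | set (i : ℕ) (e : Expr) : HProg k
  /-- head `h` moves to cell `e` (to cell `n` if `n < e`), and register `i` gets the bit there -/
  | read (i : ℕ) (h : Fin k) (e : Expr) : HProg k
  /-- first `p`, then `q` -/
  | seq (p q : HProg k) : HProg k
  /-- if `e ≠ 0` then `p` else `q` -/
  | ite (e : Expr) (p q : HProg k) : HProg k
  /-- while `e ≠ 0` do `p` -/
  | loop (e : Expr) (p : HProg k) : HProg k

/-- `HRun x S p s h s' h' c`: on the input `x` the program `p`, started with the registers `s` and the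
heads on the cells `h`, stops with the registers `s'` and the heads on the cells `h'` after time `c`, and
all numbers which are put into registers have at most `S` bits. -/
inductive HRun {k : ℕ} (x : List Bool) (S : ℕ) :
    HProg k → (ℕ → ℕ) → (Fin k → ℕ) → (ℕ → ℕ) → (Fin k → ℕ) → ℕ → Prop
  | set (i : ℕ) (e : Expr) (s : ℕ → ℕ) (h : Fin k → ℕ) (hS : e.val s < 2 ^ S) :
      HRun x S (.set i e) s h (Function.update s i (e.val s)) h (e.cost s)
  | read (i : ℕ) (a : Fin k) (e : Expr) (s : ℕ → ℕ) (h : Fin k → ℕ)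
      (hS : bit x (e.val s) < 2 ^ S) :
      HRun x S (.read i a e) s h (Function.update s i (bit x (e.val s)))
        (Function.update h a (min (e.val s) x.length))
        (e.cost s + dst (min (e.val s) x.length) (h a))
  | seq {p q : HProg k} {s s' s'' : ℕ → ℕ} {h h' h'' : Fin k → ℕ} {c c' : ℕ}
      (a : HRun x S p s h s' h' c) (b : HRun x S q s' h' s'' h'' c') :
      HRun x S (.seq p q) s h s'' h'' (c + c')
  | iteT {e : Expr} {p q : HProg k} {s s' : ℕ → ℕ} {h h' : Fin k → ℕ} {c : ℕ} (he : e.val s ≠ 0)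
      (a : HRun x S p s h s' h' c) : HRun x S (.ite e p q) s h s' h' (e.cost s + c)
  | iteF {e : Expr} {p q : HProg k} {s s' : ℕ → ℕ} {h h' : Fin k → ℕ} {c : ℕ} (he : e.val s = 0)
      (a : HRun x S q s h s' h' c) : HRun x S (.ite e p q) s h s' h' (e.cost s + c)
  | loopT {e : Expr} {p : HProg k} {s s' s'' : ℕ → ℕ} {h h' h'' : Fin k → ℕ} {c c' : ℕ}
      (he : e.val s ≠ 0) (a : HRun x S p s h s' h' c)
      (b : HRun x S (.loop e p) s' h' s'' h'' c') :
      HRun x S (.loop e p) s h s'' h'' (e.cost s + c + c')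
  | loopF {e : Expr} {p : HProg k} {s : ℕ → ℕ} {h : Fin k → ℕ} (he : e.val s = 0) :
      HRun x S (.loop e p) s h s h (e.cost s)

/-- The program `P` stops within time `t` on the input `x`, the message `y` and the coins `r` (all
heads on cell `0`), and every register always contains a number of at most `S` bits. -/
def HStops {k : ℕ} (P : HProg k) (x : List Bool) (y r t S : ℕ) : Prop :=
  x.length < 2 ^ S ∧ y < 2 ^ S ∧ r < 2 ^ S ∧
    ∃ s h c, HRun x S P (ini x.length y r) (fun _ => 0) s h c ∧ c ≤ t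

/-- `V(x, y, r) = 1`: the program `P` accepts (it stops and register `0` contains `1`). -/
def HAcc {k : ℕ} (P : HProg k) (x : List Bool) (y r : ℕ) : Prop :=
  ∃ S s h c, HRun x S P (ini x.length y r) (fun _ => 0) s h c ∧ s 0 = 1

/-- Verifiers with `k` input heads, `κ n` bits of message and `κ n` coins, running time `t n` and
registers of `S n` bits on the inputs of length `n`. -/
def IsHVer {k : ℕ} (P : HProg k) (κ t S : ℕ → ℕ) : Prop :=
  ∀ (x : List Bool) (y r : ℕ), y < 2 ^ κ x.length → r < 2 ^ κ x.length →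
    HStops P x y r (t x.length) (S x.length)

/-- Merlin-Arthur with `k` input heads. -/
def MAh (k : ℕ) (κ t S : ℕ → ℕ) : Set (Set (List Bool)) :=
  {L | ∃ P : HProg k, IsHVer P κ t S ∧ ∀ x : List Bool,
    (x ∈ L → ∃ y < 2 ^ κ x.length, 2 / 3 ≤ pr (κ x.length) fun r => HAcc P x y r) ∧
    (x ∉ L → ∀ y < 2 ^ κ x.length, pr (κ x.length) (fun r => HAcc P x y r) ≤ 1 / 3)}

/-- Arthur-Merlin with `k` input heads. -/
def AMh (k : ℕ) (κ t S : ℕ → ℕ) : Set (Set (List Bool)) :=
  {L | ∃ P : HProg k, IsHVer P κ t S ∧ ∀ x : List Bool,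
    (x ∈ L → 2 / 3 ≤ pr (κ x.length) fun r => ∃ y < 2 ^ κ x.length, HAcc P x y r) ∧
    (x ∉ L → pr (κ x.length) (fun r => ∃ y < 2 ^ κ x.length, HAcc P x y r) ≤ 1 / 3)}

/-- Small bounded error probability with `k` input heads: the threshold is `2 ^ (-u)`. -/
def SBPh (k : ℕ) (κ t S u : ℕ → ℕ) : Set (Set (List Bool)) :=
  {L | ∃ P : HProg k, IsHVer P κ t S ∧ ∀ x : List Bool,
    (x ∈ L → 2 * (1 / 2) ^ u x.length ≤ pr (κ x.length) fun r => HAcc P x 0 r) ∧
    (x ∉ L → pr (κ x.length) (fun r => HAcc P x 0 r) ≤ (1 / 2) ^ u x.length)}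

/-- Probabilistic time with unbounded error with `k` input heads. -/
def PPh (k : ℕ) (κ t S : ℕ → ℕ) : Set (Set (List Bool)) :=
  {L | ∃ P : HProg k, IsHVer P κ t S ∧ ∀ x : List Bool,
    (x ∈ L ↔ 1 / 2 < pr (κ x.length) fun r => HAcc P x 0 r)}

/-- `MA` with any number of input heads, quasilinear time and polylogarithmic memory. -/
def MAmh : Set (Set (List Bool)) := {L | ∃ k c d e, L ∈ MAh k (pl c) (ql d) (pl e)}

/-- `AM` with any number of input heads, quasilinear time and polylogarithmic memory. -/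
def AMmh : Set (Set (List Bool)) := {L | ∃ k c d e, L ∈ AMh k (pl c) (ql d) (pl e)}

/-- `SBP` with any number of input heads, quasilinear time and polylogarithmic memory. -/
def SBPmh : Set (Set (List Bool)) := {L | ∃ k c d e f, L ∈ SBPh k (pl c) (ql d) (pl e) (pl f)}

/-- `PP` with any number of input heads, quasilinear time and polylogarithmic memory. -/
def PPmh : Set (Set (List Bool)) := {L | ∃ k c d e, L ∈ PPh k (pl c) (ql d) (pl e)}

/-! ### Machines (nonuniform) -/

/-- What a machine with `k` input heads and the memory states `Q` does in a memory state: it stops with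
an answer; or it changes the memory state; or it moves head `i` to cell `j` and changes the memory state
depending on the symbol there. -/
inductive HAct (k : ℕ) (Q : Type) : Type
  | stop (b : Bool) : HAct k Q
  | jump (q : Q) : HAct k Q
  | visit (i : Fin k) (j : ℕ) (f : Option Bool → Q) : HAct k Q

/-- Machines with `k` input heads. -/
structure HM (k : ℕ) (Q : Type) where
  start : Q
  act : Q → HAct k Q

/-- Configurations: memory state, positions of the heads, distance covered by all heads. -/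
structure HCfg (k : ℕ) (Q : Type) where
  q : Q
  h : Fin k → ℕ
  mot : ℕ

variable {k : ℕ} {Q : Type}

/-- One step on the (read-only) tape `τ`. -/
def HM.step (M : HM k Q) (τ : ℕ → Option Bool) (C : HCfg k Q) : HCfg k Q :=
  match M.act C.q with
  | .stop _ => C
  | .jump q => ⟨q, C.h, C.mot⟩
  | .visit i j f => ⟨f (τ j), Function.update C.h i j, C.mot + dst j (C.h i)⟩

/-- The configuration after `T` steps. -/
def HM.run (M : HM k Q) (τ : ℕ → Option Bool) (T : ℕ) : HCfg k Q :=
  (M.step τ)^[T] ⟨M.start, fun _ => 0, 0⟩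

/-- The machine accepts the tape `τ`. -/
def HM.Acc (M : HM k Q) (τ : ℕ → Option Bool) : Prop := ∃ T, M.act (M.run τ T).q = .stop true

/-- The tape with the input `x`. -/
def tape {N : ℕ} (x : Fin N → Bool) (j : ℕ) : Option Bool := if h : j < N then some (x ⟨j, h⟩) else none

/-- `f` has a Merlin-Arthur protocol with a message of `p` bits and machines with `k` input heads and
`2 ^ s` memory states whose heads cover a distance of at most `t` (one machine for every message and
every outcome of the coins). -/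
def HasMAh (k : ℕ) {N : ℕ} (f : (Fin N → Bool) → Bool) (p s t : ℕ) : Prop :=
  ∃ (r : ℕ) (Q : Type) (_ : Fintype Q) (M : (Fin p → Bool) → (Fin r → Bool) → HM k Q),
    Fintype.card Q ≤ 2 ^ s ∧ (∀ m ρ (x : Fin N → Bool) T, ((M m ρ).run (tape x) T).mot ≤ t) ∧
    (∀ x, f x = true → ∃ m, 2 / 3 ≤ prob r fun ρ => (M m ρ).Acc (tape x)) ∧
    (∀ x, f x = false → ∀ m, prob r (fun ρ => (M m ρ).Acc (tape x)) ≤ 1 / 3)

/-- `f` has an `SBP` protocol with the threshold `2 ^ (-u)` and machines with `k` input heads and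
`2 ^ s` memory states whose heads cover a distance of at most `t`. -/
def HasSBPh (k : ℕ) {N : ℕ} (f : (Fin N → Bool) → Bool) (u s t : ℕ) : Prop :=
  ∃ (r : ℕ) (Q : Type) (_ : Fintype Q) (M : (Fin r → Bool) → HM k Q),
    Fintype.card Q ≤ 2 ^ s ∧ (∀ ρ (x : Fin N → Bool) T, ((M ρ).run (tape x) T).mot ≤ t) ∧
    (∀ x, f x = true → 2 * (1 / 2) ^ u ≤ prob r fun ρ => (M ρ).Acc (tape x)) ∧
    (∀ x, f x = false → prob r (fun ρ => (M ρ).Acc (tape x)) ≤ (1 / 2) ^ u)

/-- `f` has a `PP` protocol with the gap `2 ^ (-g)` and machines with `k` input heads and `2 ^ s` memory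
states whose heads cover a distance of at most `t`. -/
def HasPPh (k : ℕ) {N : ℕ} (f : (Fin N → Bool) → Bool) (g s t : ℕ) : Prop :=
  ∃ (r : ℕ) (Q : Type) (_ : Fintype Q) (M : (Fin r → Bool) → HM k Q),
    Fintype.card Q ≤ 2 ^ s ∧ (∀ ρ (x : Fin N → Bool) T, ((M ρ).run (tape x) T).mot ≤ t) ∧
    (∀ x, f x = true → 1 / 2 + (1 / 2) ^ g ≤ prob r fun ρ => (M ρ).Acc (tape x)) ∧
    (∀ x, f x = false → prob r (fun ρ => (M ρ).Acc (tape x)) ≤ 1 / 2)

/-! ### The language

`lam = log_2 N`, `mu = lam / 8`; there are `2 ^ mu` virtual bits.  Header: for `r < 160` and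
`j < 2 ^ mu` the number `T r j < 2 ^ (3 mu)`, with the binary digits in the cells
`(r * 2 ^ mu + j) * (3 * mu) + i`, `i < 3 * mu`.  Block `(r, a)`, `a < 2 ^ (3 mu)`: the `B` cells
from `2 ^ (lam - 1) + (r * 2 ^ (3 mu) + a) * (2 * B)` on, `B = 2 ^ (lam - 10 - 3 mu)`. -/

/-- The number of virtual bits. -/
def vm (N : ℕ) : ℕ := 2 ^ (Nat.log 2 N / 8)

/-- The number of positions in each region. -/
def vp (N : ℕ) : ℕ := 2 ^ (3 * (Nat.log 2 N / 8))

/-- The length of a block. -/
def vB (N : ℕ) : ℕ := 2 ^ (Nat.log 2 N - 10 - 3 * (Nat.log 2 N / 8))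

/-- The cell of the header with digit `i` of `T r j`. -/
def hdc (N r j i : ℕ) : ℕ := (r * vm N + j) * (3 * (Nat.log 2 N / 8)) + i

/-- The number `T r j` in the header. -/
def hdT (z : List Bool) (r j : ℕ) : ℕ :=
  ∑ i ∈ range (3 * (Nat.log 2 z.length / 8)), bit z (hdc z.length r j i) * 2 ^ i

/-- Cell `i` of the block `(r, a)`. -/
def blc (N r a i : ℕ) : ℕ := 2 ^ (Nat.log 2 N - 1) + (r * vp N + a) * (2 * vB N) + i

/-- The inner product of the blocks `(2 u, T (2 u) j)` and `(2 u + 1, T (2 u + 1) j)`. -/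
def vip (z : List Bool) (j u : ℕ) : ℕ :=
  ∑ i ∈ range (vB z.length), bit z (blc z.length (2 * u) (hdT z (2 * u) j) i) *
    bit z (blc z.length (2 * u + 1) (hdT z (2 * u + 1) j) i)

/-- Virtual bit number `j`. -/
def hbit (z : List Bool) (j : ℕ) : Bool := decide ((∑ u ∈ range 80, vip z j u) % 2 = 1)

/-- The virtual word. -/
def hw (z : List Bool) : List Bool := List.ofFn fun j : Fin (vm z.length) => hbit z j

/-- The language of the words (of length at least `2 ^ 320`) whose virtual words are in `L`. -/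
def hlang (L : Set (List Bool)) : Set (List Bool) := {z | 2 ^ 320 ≤ z.length ∧ hw z ∈ L}

end Pool.Agent.Lib.MP_ff3ed7_lc.MH
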