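import Pool.Agent.Lib.MP_ff3ed7_lc.MH.Def
import Pool.Agent.Lib.MP_ff3ed7_lc.DefsCC

/-!
# PROJECT MH: characters and conditional expectations
-/

set_option autoImplicit false

open Finset

namespace Pool.Agent.Lib.MP_ff3ed7_lc.MH

/-- The character of `S`. -/
def chi {m : ℕ} (S : Finset (Fin m)) (X : Fin m → Bool) : ℝ := ∏ j ∈ S, (if X j then -1 else 1)

open Classical in
/-- The sum of `g` over the fibre of `V` over `X`. -/
noncomputable def fib {m : ℕ} {Ω : Type} [Fintype Ω] (V : Ω → Fin m → Bool) (g : Ω → ℝ)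
    (X : Fin m → Bool) : ℝ := ∑ ω, if V ω = X then g ω else 0

/-- The conditional expectation of `g` given `V = X`. -/
noncomputable def cnd {m : ℕ} {Ω : Type} [Fintype Ω] (V : Ω → Fin m → Bool) (g : Ω → ℝ)
    (X : Fin m → Bool) : ℝ := fib V g X / fib V (fun _ => 1) X

end Pool.Agent.Lib.MP_ff3ed7_lc.MH
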