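import Pool.Agent.Lib.MP_ff3ed7_lc.MH.SpecF

/-!
# PROJECT MH, module Dua: dual objects of the slices
-/

set_option autoImplicit false

open Finset

namespace Pool.Agent.Lib.MP_ff3ed7_lc.MH

open Pool.Agent.Lib.MP_ff3ed7_lc.PLT
open Pool.Agent.Lib.MP_ff3ed7_lc.B

private theorem Dua_one (hP : S_Psh) (m J D : ℕ) (hm : 2 ^ 36 ≤ m) (h1 : 1 ≤ J)
    (h2 : J ≤ 2 ^ levB m) (h3 : D ≤ 2 ^ levB m) : HasSDual (slice LB m) J D := by
  classical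
  have hinj : Function.Injective
      (fun c => (⟨codeB (2 ^ levB m) c, codeB_lt hm c⟩ : Fin m)) :=
    fun a b h => (codeB_inj Nat.one_le_two_pow).1 (by simpa using h)
  exact (hP (Fin m) (BCl (2 ^ levB m)) _ hinj (slice LB m) (fB (levB m)) (slice_LB hm)).1 J D
    (sd (hid gap) (val gap) mom B.wt prd (levB m) J D h1 h2 h3)

private theorem Dua_two (hP : S_Psh) (m D : ℕ) (hN : 2 ^ 61 ≤ m) (hD : 9 * D ≤ pw 61 10 m) :
    HasExactDual (slice LG m) D := by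
  classical
  obtain ⟨ℓ, hℓ⟩ : ∃ ℓ, pw 61 10 m = 2 ^ ℓ := ⟨_, rfl⟩
  have hbd : 2 ^ 61 * (2 ^ ℓ) ^ 10 ≤ m := by
    rw [← hℓ]
    exact pw_le hN
  have hn1 : 1 ≤ 2 ^ ℓ := Nat.one_le_two_pow
  let cd' : Cl (2 ^ ℓ) → Fin m := fun c =>
    ⟨code (gR (2 ^ ℓ)) (gB (2 ^ ℓ)) (gP (gB (2 ^ ℓ))) (gX (gB (2 ^ ℓ))) (gQ (gB (2 ^ ℓ))) c,
      gcode_lt hn1 hbd c⟩
  have hinj : Function.Injective cd' := by
    intro c c' h
    exact gcode_inj hn1 (congrArg Fin.val h)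
  have hfg : ∀ x : Fin m → Bool, slice LG m x = fb ℓ fun c => x (cd' c) := by
    intro x
    have h1 : F2 (gtab (word x) (2 ^ ℓ)) = fb ℓ fun c => x (cd' c) := by
      have h2 : gtab (word x) (2 ^ ℓ) = fun c => bz (x (cd' c)) := by
        funext c
        exact cast_bit_word x _
      rw [h2]
      rfl
    rw [← h1]
    rw [Bool.eq_iff_iff, slice_eq_true, word_mem_LG, hℓ]
    exact ⟨fun h => h.2, fun h => ⟨hN, h⟩⟩
  rw [hℓ] at hD
  exact (hP (Fin m) (Cl (2 ^ ℓ)) cd' hinj (slice LG m) (fb ℓ) hfg).2 D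
    (exactDual_fb (by omega))

theorem tDua : S_Dua := by
  intro hP
  exact ⟨Dua_one hP, Dua_two hP⟩

end Pool.Agent.Lib.MP_ff3ed7_lc.MH
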