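import Pool.Agent.Lib.MP_ff3ed7_lc.MH.SpecL

set_option autoImplicit false

open Finset

namespace Pool.Agent.Lib.MP_ff3ed7_lc.MH

open Pool.Agent.Lib.MP_ff3ed7_lc.PLT
open Pool.Agent.Lib.MP_ff3ed7_lc.SQ (dst)

theorem tFoA : S_FoA := by
  intro hV d m P B n t T bl hd hB hG hGeo k K Q M τ h hmot hHis S hS hne
  by_contra hcon
  have key : ∀ (x : {x // x ∈ S}) (u : Fin d), ∃ (p : Fin K × Fin k × Fin k) (l : ℕ)
      (z : Fin k → Option ((Fin d × Bool) × Fin P)),
      (zs bl (M p.1) (fun _ => none) (h p.1))[l]? = some z ∧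
      z p.2.1 = some ((u, false), T u false x.1) ∧ z p.2.2 = some ((u, true), T u true x.1) := by
    intro x u
    by_contra hc
    apply hcon
    refine ⟨x.1, x.2, u, ?_⟩
    intro c z hz hzz
    obtain ⟨⟨i, hi⟩, ⟨i', hi'⟩⟩ := hzz
    obtain ⟨l, hl⟩ := List.mem_iff_getElem?.1 hz
    exact hc ⟨(c, i, i'), l, z, hl, hi, hi'⟩
  choose g l z hz hz1 hz2 using key
  obtain ⟨j0, hj0⟩ := hne
  have hcard : (univ : Finset (Fin d → Fin K × Fin k × Fin k)).card * n ≤ S.attach.card := by
    rw [Finset.card_univ, Finset.card_attach]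
    simp only [Fintype.card_fun, Fintype.card_prod, Fintype.card_fin]
    calc (K * (k * k)) ^ d * n = n * (K * k ^ 2) ^ d := by rw [sq]; ring
      _ ≤ S.card := hS
  obtain ⟨y, -, hy⟩ := Finset.exists_le_card_fiber_of_mul_le_card_of_maps_to
    (f := g) (s := S.attach) (t := (univ : Finset (Fin d → Fin K × Fin k × Fin k))) (n := n)
    (fun a _ => mem_univ _) ⟨g ⟨j0, hj0⟩, mem_univ _⟩ hcard
  obtain ⟨S2, hS2, hS2c⟩ := Finset.exists_subset_card_eq hy
  have hgy : ∀ x ∈ S2, g x = y := fun x hx => (Finset.mem_filter.1 (hS2 hx)).2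
  obtain ⟨hinj, hgood⟩ := hG
  obtain ⟨u, hu⟩ := hgood (S2.map (Function.Embedding.subtype _)) (by rw [card_map, hS2c])
  have hlinj : Set.InjOn (fun x => l x u) (S2 : Set {x // x ∈ S}) := by
    intro x hx x' hx' hxx
    have hx1 : g x u = y u := by rw [hgy x hx]
    have hx2 : g x' u = y u := by rw [hgy x' hx']
    have e1 := hz x u
    have e2 := hz x' u
    rw [hx1] at e1
    rw [hx2] at e2
    simp only at hxx
    rw [hxx] at e1
    have hzz : z x u = z x' u := Option.some.inj (e1.symm.trans e2)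
    have f1 := hz1 x u
    have f2 := hz1 x' u
    rw [hx1] at f1
    rw [hx2] at f2
    rw [hzz] at f1
    have f3 := Option.some.inj (f1.symm.trans f2)
    have f4 : T u false x.1 = T u false x'.1 := (Prod.mk.inj f3).2
    exact Subtype.ext (hinj u false f4)
  have hF : (S2.image (fun x => l x u)).card = n := by
    rw [Finset.card_image_of_injOn hlinj, hS2c]
  have hex : ∀ e : Fin n, ∃ x ∈ S2, l x u = (S2.image (fun x => l x u)).orderEmbOfFin hF e := by
    intro e
    have := Finset.orderEmbOfFin_mem (S2.image (fun x => l x u)) hF e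
    obtain ⟨x, hx, hxe⟩ := Finset.mem_image.1 this
    exact ⟨x, hx, hxe⟩
  choose σ hσ hσl using hex
  have hσinj : Function.Injective (fun e => (σ e).1) := by
    intro e e' hee
    have h1 : σ e = σ e' := Subtype.ext hee
    have h2 := hσl e
    rw [h1, hσl e'] at h2
    exact ((S2.image (fun x => l x u)).orderEmbOfFin hF).injective h2.symm
  have hmain := hu (fun e => (σ e).1) hσinj (fun e => by
    rw [Finset.mem_map]
    exact ⟨σ e, hσ e, rfl⟩)
  have hA : tv (fun e => ((T u false (σ e).1 : Fin P) : ℕ)) ≤ t / B := by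
    apply hV k Q (Fin d × Bool) P B t bl (M (y u).1) τ (h (y u).1) hB hGeo (hmot _) (hHis _)
      (y u).2.1 (u, false) n (fun e => (S2.image (fun x => l x u)).orderEmbOfFin hF e)
      (fun e => T u false (σ e).1)
      ((S2.image (fun x => l x u)).orderEmbOfFin hF).strictMono
    intro e
    refine ⟨z (σ e) u, ?_, ?_⟩
    · have e1 := hz (σ e) u
      rw [hgy _ (hσ e), hσl e] at e1
      exact e1
    · have e1 := hz1 (σ e) u
      rw [hgy _ (hσ e)] at e1
      exact e1
  have hB' : tv (fun e => ((T u true (σ e).1 : Fin P) : ℕ)) ≤ t / B := by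
    apply hV k Q (Fin d × Bool) P B t bl (M (y u).1) τ (h (y u).1) hB hGeo (hmot _) (hHis _)
      (y u).2.2 (u, true) n (fun e => (S2.image (fun x => l x u)).orderEmbOfFin hF e)
      (fun e => T u true (σ e).1)
      ((S2.image (fun x => l x u)).orderEmbOfFin hF).strictMono
    intro e
    refine ⟨z (σ e) u, ?_, ?_⟩
    · have e1 := hz (σ e) u
      rw [hgy _ (hσ e), hσl e] at e1
      exact e1
    · have e1 := hz2 (σ e) u
      rw [hgy _ (hσ e)] at e1
      exact e1
  rcases hmain with h1 | h1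
  · exact absurd hA (not_le.2 h1)
  · exact absurd hB' (not_le.2 h1)

end Pool.Agent.Lib.MP_ff3ed7_lc.MH

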