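import Pool.Agent.Lib.MP_ff3ed7_lc.MH.SpecL

/-!
# PROJECT MH: a rectangle has small correlation with the character
-/

set_option autoImplicit false

open Finset

namespace Pool.Agent.Lib.MP_ff3ed7_lc.MH

open Pool.Agent.Lib.MP_ff3ed7_lc.PLT
open Pool.Agent.Lib.MP_ff3ed7_lc.SQ (dst)

/-- Averaging over one coordinate: `(x, v) ↦ (update x b v, x b)` is an involution. -/
private theorem FoB_avg {β V : Type} [Fintype β] [DecidableEq β] [Fintype V] (b : β)
    (f : (β → V) → ℝ) :
    ∑ x : β → V, ∑ v : V, f (Function.update x b v) =
      (Fintype.card V : ℝ) * ∑ x : β → V, f x := by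
  have h1 : ∑ p : (β → V) × V, f (Function.update p.1 b p.2) = ∑ p : (β → V) × V, f p.1 := by
    refine Fintype.sum_bijective
      (fun p : (β → V) × V => (Function.update p.1 b p.2, p.1 b)) ?_ _ _ (fun p => rfl)
    apply Function.Involutive.bijective
    intro p
    simp
  rw [← Fintype.sum_prod_type' (fun (x : β → V) (v : V) => f (Function.update x b v)), h1,
    Fintype.sum_prod_type]
  simp [Finset.mul_sum]

/-- Averaging over two coordinates. -/
private theorem FoB_avg2 {β V : Type} [Fintype β] [DecidableEq β] [Fintype V] (b b' : β)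
    (f : (β → V) → ℝ) :
    ∑ x : β → V, ∑ v : V, ∑ w : V, f (Function.update (Function.update x b v) b' w) =
      (Fintype.card V : ℝ) ^ 2 * ∑ x : β → V, f x := by
  rw [FoB_avg b (fun z => ∑ w : V, f (Function.update z b' w)), FoB_avg b' f]
  ring

/-- The sign of a number. -/
private theorem FoB_sign (n : ℕ) :
    (if decide (n % 2 = 1) = true then (-1 : ℝ) else 1) = (-1) ^ n := by
  rcases Nat.even_or_odd n with h | h
  · rw [h.neg_one_pow, if_neg]
    rw [decide_eq_true_iff]
    have := Nat.even_iff.1 h
    omega
  · rw [h.neg_one_pow, if_pos]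
    rw [decide_eq_true_iff]
    exact Nat.odd_iff.1 h

/-- The absolute value of the sign of an inner product. -/
private theorem FoB_abs {B : ℕ} (a b : Fin B → Bool) : |ips a b| = 1 := by
  unfold ips
  rw [abs_pow, abs_neg, abs_one, one_pow]

/-- The character as a product of signs of inner products. -/
private theorem FoB_chi {d m P B : ℕ} (T : Fin d → Bool → Fin m → Fin P) (S : Finset (Fin m))
    (y : (Fin d × Bool) × Fin P → Fin B → Bool) :
    chi S (vx T y) = ∏ p ∈ S ×ˢ (Finset.univ : Finset (Fin d)),
      ips (y ((p.2, false), T p.2 false p.1)) (y ((p.2, true), T p.2 true p.1)) := by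
  unfold chi
  rw [Finset.prod_product]
  refine Finset.prod_congr rfl fun j' _ => ?_
  unfold vx
  rw [FoB_sign, ← Finset.prod_pow_eq_pow_sum]
  rfl

/-- The inner sum over a rectangle. -/
private theorem FoB_rect (hLin : S_Lin) {B : ℕ} (A A' : (Fin B → Bool) → Prop)
    (g : (Fin B → Bool) → (Fin B → Bool) → ℝ)
    (hg1 : ∀ v w, A v ∧ A' w → g v w = ips v w) (hg0 : ∀ v w, ¬ (A v ∧ A' w) → g v w = 0) :
    |∑ v : Fin B → Bool, ∑ w : Fin B → Bool, g v w| ≤ (1 / 2) ^ (B / 2) * ((2 : ℝ) ^ B) ^ 2 := by
  classical
  have h1 := hLin.1 B A A'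
  have e : ∑ v : Fin B → Bool, ∑ w : Fin B → Bool, g v w =
      ∑ a : Fin B → Bool, ∑ b : Fin B → Bool, if A a ∧ A' b then ips a b else 0 := by
    refine Finset.sum_congr rfl fun v _ => Finset.sum_congr rfl fun w _ => ?_
    by_cases h : A v ∧ A' w
    · rw [if_pos h]; exact hg1 v w h
    · rw [if_neg h]; exact hg0 v w h
  have h2 : (∑ v : Fin B → Bool, ∑ w : Fin B → Bool, g v w) ^ 2 ≤ (2 : ℝ) ^ (3 * B) := by
    rw [e]
    convert h1
  refine abs_le_of_sq_le_sq (h2.trans ?_) (by positivity)
  rw [mul_pow, ← pow_mul, ← pow_mul, ← pow_mul]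
  have h3 : ((1 : ℝ) / 2) ^ B ≤ (1 / 2) ^ (B / 2 * 2) :=
    pow_le_pow_of_le_one (by norm_num) (by norm_num) (by omega)
  calc (2 : ℝ) ^ (3 * B) = (1 / 2) ^ B * 2 ^ (B * (2 * 2)) := by
        rw [one_div, inv_pow, eq_inv_mul_iff_mul_eq₀ (by positivity), ← pow_add]
        congr 1
        ring
    _ ≤ (1 / 2) ^ (B / 2 * 2) * 2 ^ (B * (2 * 2)) :=
        mul_le_mul_of_nonneg_right h3 (by positivity)

/-- **FoB** (a rectangle has small correlation with the character).  Proof as in the docstring of
`S_FoB`: average over the two blocks, split off the factor of the pair `(j, u)`, Lindsey's lemma. -/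
theorem tFoB : S_FoB := by
  intro hLin d m P B T R S j u hinj hj hrect
  classical
  set b : (Fin d × Bool) × Fin P := ((u, false), T u false j) with hb
  set b' : (Fin d × Bool) × Fin P := ((u, true), T u true j) with hb'
  have hbb : b ≠ b' := by
    rw [hb, hb']
    simp
  have hcard : (Fintype.card (Fin B → Bool) : ℝ) = 2 ^ B := by simp
  have hfix : ∀ x : (Fin d × Bool) × Fin P → Fin B → Bool,
      |∑ v : Fin B → Bool, ∑ w : Fin B → Bool,
        (if R (Function.update (Function.update x b v) b' w) then (1 : ℝ) else 0) *
          chi S (vx T (Function.update (Function.update x b v) b' w))| ≤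
        (1 / 2) ^ (B / 2) * ((2 : ℝ) ^ B) ^ 2 := by
    intro x
    obtain ⟨A, A', hA⟩ := hrect x
    set c : ℝ := ∏ p ∈ (S ×ˢ (Finset.univ : Finset (Fin d))).erase (j, u),
      ips (x ((p.2, false), T p.2 false p.1)) (x ((p.2, true), T p.2 true p.1)) with hc
    have hcabs : |c| = 1 := by
      rw [hc, Finset.abs_prod]
      exact Finset.prod_eq_one fun p _ => FoB_abs _ _
    have hchi : ∀ v w : Fin B → Bool,
        chi S (vx T (Function.update (Function.update x b v) b' w)) = ips v w * c := by
      intro v w
      rw [FoB_chi, ← Finset.mul_prod_erase (S ×ˢ (Finset.univ : Finset (Fin d))) _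
        (Finset.mem_product.2 ⟨hj, Finset.mem_univ u⟩ : ((j, u) : Fin m × Fin d) ∈ _)]
      have e1 : Function.update (Function.update x b v) b' w b = v := by
        rw [Function.update_of_ne hbb, Function.update_self]
      have e2 : Function.update (Function.update x b v) b' w b' = w := Function.update_self _ _ _
      have e3 : ∀ p ∈ (S ×ˢ (Finset.univ : Finset (Fin d))).erase (j, u),
          ips (Function.update (Function.update x b v) b' w ((p.2, false), T p.2 false p.1))
            (Function.update (Function.update x b v) b' w ((p.2, true), T p.2 true p.1)) =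
          ips (x ((p.2, false), T p.2 false p.1)) (x ((p.2, true), T p.2 true p.1)) := by
        intro p hp
        have hne := Finset.ne_of_mem_erase hp
        have key : ∀ q : Bool, p.2 = u → T p.2 q p.1 = T u q j → False := by
          intro q h1 h2
          rw [h1] at h2
          exact hne (Prod.ext (hinj u q h2) h1)
        have n1 : ((p.2, false), T p.2 false p.1) ≠ b := by
          intro h
          rw [hb, Prod.mk.injEq, Prod.mk.injEq] at h
          exact key false h.1.1 h.2
        have n2 : ((p.2, false), T p.2 false p.1) ≠ b' := by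
          intro h
          rw [hb', Prod.mk.injEq, Prod.mk.injEq] at h
          exact Bool.false_ne_true h.1.2
        have n3 : ((p.2, true), T p.2 true p.1) ≠ b := by
          intro h
          rw [hb, Prod.mk.injEq, Prod.mk.injEq] at h
          exact Bool.false_ne_true h.1.2.symm
        have n4 : ((p.2, true), T p.2 true p.1) ≠ b' := by
          intro h
          rw [hb', Prod.mk.injEq, Prod.mk.injEq] at h
          exact key true h.1.1 h.2
        rw [Function.update_of_ne n2, Function.update_of_ne n1, Function.update_of_ne n4,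
          Function.update_of_ne n3]
      rw [Finset.prod_congr rfl e3, ← hc]
      show ips (Function.update (Function.update x b v) b' w b)
        (Function.update (Function.update x b v) b' w b') * c = _
      rw [e1, e2]
    have h4 := FoB_rect hLin A A'
      (fun v w => (if R (Function.update (Function.update x b v) b' w) then (1 : ℝ) else 0) *
        ips v w)
      (fun v w h => by
        show (if R (Function.update (Function.update x b v) b' w) then (1 : ℝ) else 0) *
          ips v w = ips v w
        rw [if_pos ((hA v w).2 h), one_mul])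
      (fun v w h => by
        show (if R (Function.update (Function.update x b v) b' w) then (1 : ℝ) else 0) *
          ips v w = 0
        rw [if_neg (fun h' => h ((hA v w).1 h')), zero_mul])
    have h5 : ∑ v : Fin B → Bool, ∑ w : Fin B → Bool,
        (if R (Function.update (Function.update x b v) b' w) then (1 : ℝ) else 0) *
          chi S (vx T (Function.update (Function.update x b v) b' w)) =
        (∑ v : Fin B → Bool, ∑ w : Fin B → Bool,
          (if R (Function.update (Function.update x b v) b' w) then (1 : ℝ) else 0) *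
            ips v w) * c := by
      rw [Finset.sum_mul]
      refine Finset.sum_congr rfl fun v _ => ?_
      rw [Finset.sum_mul]
      refine Finset.sum_congr rfl fun w _ => ?_
      rw [hchi]
      ring
    rw [h5, abs_mul, hcabs, mul_one]
    exact h4
  have havg := FoB_avg2 b b' (fun y : (Fin d × Bool) × Fin P → Fin B → Bool =>
    (if R y then (1 : ℝ) else 0) * chi S (vx T y))
  have hpos : (0 : ℝ) < ((2 : ℝ) ^ B) ^ 2 := by positivity
  rw [hcard] at havg
  have h6 : ((2 : ℝ) ^ B) ^ 2 * |∑ x : (Fin d × Bool) × Fin P → Fin B → Bool,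
      (if R x then (1 : ℝ) else 0) * chi S (vx T x)| ≤
      ((2 : ℝ) ^ B) ^ 2 * ((1 / 2) ^ (B / 2) *
        Fintype.card ((Fin d × Bool) × Fin P → Fin B → Bool)) := by
    rw [← abs_of_pos hpos, ← abs_mul, ← havg, abs_of_pos hpos]
    refine (Finset.abs_sum_le_sum_abs _ _).trans ((Finset.sum_le_sum fun x _ => hfix x).trans ?_)
    rw [Finset.sum_const, nsmul_eq_mul, Finset.card_univ]
    exact le_of_eq (by ring)
  have h7 := le_of_mul_le_mul_left h6 hpos
  convert h7

end Pool.Agent.Lib.MP_ff3ed7_lc.MH
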