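import Pool.Agent.Lib.MP_ff3ed7_lc.MH.SpecL

/-!
# PROJECT MH: the Fourier coefficients of high order are tiny

The event that all machines accept is the disjoint union over the families of histories; every family
gives a rectangle for a pair of blocks which is never visited.  `S_FoA` and `S_FoB` are used, so the
hypotheses `S_HiV` and `S_Lin` of these statements are needed too; they are explicit hypotheses here.
-/

set_option autoImplicit false

open Finset

namespace Pool.Agent.Lib.MP_ff3ed7_lc.MH

open Pool.Agent.Lib.MP_ff3ed7_lc.PLT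
open Pool.Agent.Lib.MP_ff3ed7_lc.SQ (dst)

/-- The number of the lists of length at most `R`. -/
private theorem Fou_lists (Q : Type) [Fintype Q] (R : ℕ) :
    ∃ F : Finset (List Q), (∀ l : List Q, l.length ≤ R → l ∈ F) ∧
      F.card ≤ (Fintype.card Q + 1) ^ R := by
  classical
  refine ⟨(List.finite_length_le Q R).toFinset, fun l hl => by simpa using hl, ?_⟩
  have h : ((List.finite_length_le Q R).toFinset).card ≤
      (Finset.univ : Finset (Fin R → Option Q)).card := by
    refine Finset.card_le_card_of_injOn (fun l i => l[(i : ℕ)]?)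
      (fun _ _ => Finset.mem_coe.2 (Finset.mem_univ _)) ?_
    intro l hl l' hl' h
    have hl1 : l.length ≤ R := by simpa using hl
    have hl2 : l'.length ≤ R := by simpa using hl'
    apply List.ext_getElem?
    intro i
    by_cases hi : i < R
    · exact congrFun h ⟨i, hi⟩
    · rw [List.getElem?_eq_none (by omega), List.getElem?_eq_none (by omega)]
  rw [Finset.card_univ] at h
  simpa using h

open Classical in
/-- The sum over a disjoint union of events. -/
private theorem Fou_sum {Ω ι : Type} [Fintype Ω] (Fam : Finset ι) (E : Ω → Prop) (R : ι → Ω → Prop)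
    (g : Ω → ℝ) (c : ℝ)
    (h1 : ∀ x, E x → ∃ h ∈ Fam, R h x) (h2 : ∀ x h, R h x → E x)
    (h3 : ∀ x h h', R h x → R h' x → h = h')
    (h4 : ∀ h, |∑ x, (if R h x then (1 : ℝ) else 0) * g x| ≤ c) :
    |∑ x, (if E x then (1 : ℝ) else 0) * g x| ≤ Fam.card * c := by
  have e : ∀ x, (if E x then (1 : ℝ) else 0) = ∑ h ∈ Fam, if R h x then (1 : ℝ) else 0 := by
    intro x
    by_cases hx : E x
    · obtain ⟨h, hh, hR⟩ := h1 x hx
      rw [if_pos hx, Finset.sum_eq_single h, if_pos hR]
      · intro h' _ hne
        rw [if_neg (fun hR' => hne (h3 x h' h hR' hR))]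
      · exact fun hn => absurd hh hn
    · rw [if_neg hx]
      symm
      apply Finset.sum_eq_zero
      intro h _
      rw [if_neg (fun hR => hx (h2 x h hR))]
  have e2 : ∑ x, (if E x then (1 : ℝ) else 0) * g x =
      ∑ h ∈ Fam, ∑ x, (if R h x then (1 : ℝ) else 0) * g x := by
    rw [Finset.sum_comm]
    refine Finset.sum_congr rfl fun x _ => ?_
    rw [e x, Finset.sum_mul]
  rw [e2]
  calc |∑ h ∈ Fam, ∑ x, (if R h x then (1 : ℝ) else 0) * g x|
      ≤ ∑ h ∈ Fam, |∑ x, (if R h x then (1 : ℝ) else 0) * g x| := Finset.abs_sum_le_sum_abs _ _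
    _ ≤ ∑ _h ∈ Fam, c := Finset.sum_le_sum fun h _ => h4 h
    _ = Fam.card * c := by rw [Finset.sum_const, nsmul_eq_mul]

/-- The number of families. -/
private theorem Fou_num (s R K F : ℕ) (hF : F ≤ (2 ^ s + 1) ^ R) :
    ((F ^ K : ℕ) : ℝ) ≤ 2 ^ (K * (s + 1) * (R + 1)) := by
  have h1 : 2 ^ s + 1 ≤ 2 ^ (s + 1) := by
    have := Nat.one_le_two_pow (n := s)
    rw [pow_succ]
    omega
  have h2 : F ^ K ≤ 2 ^ (K * (s + 1) * (R + 1)) := by
    calc F ^ K ≤ ((2 ^ s + 1) ^ R) ^ K := Nat.pow_le_pow_left hF K
      _ ≤ ((2 ^ (s + 1)) ^ R) ^ K := Nat.pow_le_pow_left (Nat.pow_le_pow_left h1 R) K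
      _ = 2 ^ (K * (s + 1) * R) := by
        rw [← pow_mul, ← pow_mul]
        congr 1
        ring
      _ ≤ 2 ^ (K * (s + 1) * (R + 1)) :=
        Nat.pow_le_pow_right (by norm_num) (Nat.mul_le_mul_left _ (Nat.le_succ R))
  exact_mod_cast h2

open Classical in
/-- The Fourier coefficients of high order are tiny (`S_HiV` and `S_Lin` are used by `S_FoA` and
`S_FoB`). -/
theorem tFou (hHiV : S_HiV) (hLin : S_Lin) : S_Fou := by
  intro hHiA hHiL hHiR hFoA hFoB d m P B n t T bl rd hd hB hG hgeo hrd
  constructor
  · intro S hS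
    obtain ⟨j, hj⟩ := hS
    have h := hFoB hLin d m P B T (fun _ => True) S j ⟨0, hd⟩ hG.1 hj
      (fun x => ⟨fun _ => True, fun _ => True, fun v w => by simp⟩)
    simpa using h
  · intro k s K Q _ M hQ hmot S hnS hS
    obtain ⟨F, hF, hFc⟩ := Fou_lists Q (k + t / B)
    have hc0 : (0 : ℝ) ≤ (1 / 2) ^ (B / 2) *
        Fintype.card ((Fin d × Bool) × Fin P → Fin B → Bool) := by positivity
    have key := Fou_sum (Ω := (Fin d × Bool) × Fin P → Fin B → Bool)
      (Fintype.piFinset (fun _ : Fin K => F))
      (fun x => ∀ c, (M c).Acc (rd x))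
      (fun h x => ∀ c, His bl (M c) (rd x) (fun _ => none) (M c).start (h c))
      (fun x => chi S (vx T x))
      ((1 / 2) ^ (B / 2) * Fintype.card ((Fin d × Bool) × Fin P → Fin B → Bool))
      (by
        intro x hx
        have h1 : ∀ c, ∃ h, His bl (M c) (rd x) (fun _ => none) (M c).start h := fun c =>
          (hHiA k Q ((Fin d × Bool) × Fin P) bl (M c) (rd x)).1.1 (hx c)
        choose h hh using h1
        refine ⟨h, ?_, hh⟩
        rw [Fintype.mem_piFinset]
        intro c
        exact hF _ (hHiL k Q (Fin d × Bool) P B t bl (M c) (rd x) (h c) hB hgeo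
          (fun U => hmot c x U) (hh c)))
      (by
        intro x h hR c
        exact (hHiA k Q ((Fin d × Bool) × Fin P) bl (M c) (rd x)).1.2 ⟨h c, hR c⟩)
      (by
        intro x h h' hR hR'
        funext c
        exact (hHiA k Q ((Fin d × Bool) × Fin P) bl (M c) (rd x)).2 _ _ (hR c) (hR' c))
      (by
        intro h
        by_cases hex : ∃ x, ∀ c, His bl (M c) (rd x) (fun _ => none) (M c).start (h c)
        · obtain ⟨x0, hx0⟩ := hex
          obtain ⟨j, hj, u, hu⟩ := hFoA hHiV d m P B n t T bl hd hB hG hgeo k K Q M (rd x0) h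
            (fun c U => hmot c x0 U) hx0 S hnS hS
          exact hFoB hLin d m P B T
            (fun x => ∀ c, His bl (M c) (rd x) (fun _ => none) (M c).start (h c)) S j u hG.1 hj
            (by
              intro x
              have h1 : ∀ c, ∃ A A' : (Fin B → Bool) → Prop, ∀ v w,
                  His bl (M c) (rd (Function.update (Function.update x
                    ((u, false), T u false j) v) ((u, true), T u true j) w))
                    (fun _ => none) (M c).start (h c) ↔ A v ∧ A' w := fun c =>
                hHiR k Q ((Fin d × Bool) × Fin P) B bl (M c) rd hrd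
                  ((u, false), T u false j) ((u, true), T u true j) (h c)
                  (by simp) (hu c) x
              choose A A' hA using h1
              refine ⟨fun v => ∀ c, A c v, fun w => ∀ c, A' c w, fun v w => ?_⟩
              constructor
              · intro hx
                exact ⟨fun c => ((hA c v w).1 (hx c)).1, fun c => ((hA c v w).1 (hx c)).2⟩
              · intro hx c
                exact (hA c v w).2 ⟨hx.1 c, hx.2 c⟩)
        · rw [Finset.sum_eq_zero, abs_zero]
          · exact hc0
          · intro x _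
            rw [if_neg (fun hx => hex ⟨x, hx⟩), zero_mul])
    refine le_trans (le_trans (le_of_eq ?_) key) ?_
    · congr 1
      refine Finset.sum_congr rfl fun x _ => ?_
      congr 1
      split_ifs <;> rfl
    · rw [Fintype.card_piFinset_const, mul_assoc]
      refine mul_le_mul_of_nonneg_right ?_ hc0
      refine Fou_num s (k + t / B) K F.card (le_trans hFc ?_)
      exact Nat.pow_le_pow_left (Nat.add_le_add_right hQ 1) _

end Pool.Agent.Lib.MP_ff3ed7_lc.MH
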