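import Pool.Agent.Lib.MP_ff3ed7_lc.MH.Def
import Pool.Agent.Lib.MP_ff3ed7_lc.SQ.SGen2

/-!
# PROJECT MH: runs of programs with several heads, basic facts
-/

set_option autoImplicit false

open Finset

namespace Pool.Agent.Lib.MP_ff3ed7_lc.MH

open Pool.Agent.Lib.MP_ff3ed7_lc.PLT
open Pool.Agent.Lib.MP_ff3ed7_lc.SQ (dst ql NR)

variable {k : ℕ}

/-- All registers of the program are smaller than `R`. -/
def HProg.Lt (R : ℕ) : HProg k → Prop
  | .set i e => i < R ∧ e.Lt R
  | .read i _ e => i < R ∧ e.Lt R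
  | .seq p q => p.Lt R ∧ q.Lt R
  | .ite e p q => e.Lt R ∧ p.Lt R ∧ q.Lt R
  | .loop e p => e.Lt R ∧ p.Lt R

lemma HProg.Lt.mono {R R' : ℕ} (h : R ≤ R') {p : HProg k} (hp : p.Lt R) : p.Lt R' := by
  induction p with
  | set i e => exact ⟨by have := hp.1; omega, hp.2.mono h⟩
  | read i a e => exact ⟨by have := hp.1; omega, hp.2.mono h⟩
  | seq p q ihp ihq => exact ⟨ihp hp.1, ihq hp.2⟩
  | ite e p q ihp ihq => exact ⟨hp.1.mono h, ihp hp.2.1, ihq hp.2.2⟩
  | loop e p ih => exact ⟨hp.1.mono h, ih hp.2⟩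

lemma HProg.exists_lt (p : HProg k) : ∃ R, 3 ≤ R ∧ p.Lt R := by
  suffices h : ∃ R, p.Lt R by
    obtain ⟨R, hR⟩ := h
    exact ⟨max 3 R, le_max_left _ _, hR.mono (le_max_right _ _)⟩
  induction p with
  | set i e =>
    obtain ⟨R, hR⟩ := e.exists_lt
    exact ⟨max (i + 1) R, by omega, hR.mono (le_max_right _ _)⟩
  | read i a e =>
    obtain ⟨R, hR⟩ := e.exists_lt
    exact ⟨max (i + 1) R, by omega, hR.mono (le_max_right _ _)⟩
  | seq p q ihp ihq =>
    obtain ⟨R, hR⟩ := ihp
    obtain ⟨R', hR'⟩ := ihq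
    exact ⟨max R R', hR.mono (le_max_left _ _), hR'.mono (le_max_right _ _)⟩
  | ite e p q ihp ihq =>
    obtain ⟨R, hR⟩ := ihp
    obtain ⟨R', hR'⟩ := ihq
    obtain ⟨R'', hR''⟩ := e.exists_lt
    exact ⟨max R'' (max R R'), hR''.mono (le_max_left _ _), hR.mono (by omega), hR'.mono (by omega)⟩
  | loop e p ih =>
    obtain ⟨R, hR⟩ := ih
    obtain ⟨R'', hR''⟩ := e.exists_lt
    exact ⟨max R'' R, hR''.mono (le_max_left _ _), hR.mono (le_max_right _ _)⟩

/-- More memory. -/
theorem HRun.mem_mono {x : List Bool} {S : ℕ} {p : HProg k} {s s' : ℕ → ℕ} {h h' : Fin k → ℕ}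
    {c : ℕ} (a : HRun x S p s h s' h' c) {S' : ℕ} (hS' : S ≤ S') : HRun x S' p s h s' h' c := by
  have hp : 2 ^ S ≤ 2 ^ S' := Nat.pow_le_pow_right (by norm_num) hS'
  induction a with
  | set i e s h hS => exact HRun.set i e s h (hS.trans_le hp)
  | read i a e s h hS => exact HRun.read i a e s h (hS.trans_le hp)
  | seq a b iha ihb => exact HRun.seq iha ihb
  | iteT he a ih => exact HRun.iteT he ih
  | iteF he a ih => exact HRun.iteF he ih
  | loopT he a b iha ihb => exact HRun.loopT he iha ihb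
  | loopF he => exact HRun.loopF he

/-- The result of a run is unique. -/
theorem HRun.det {x : List Bool} {S S' : ℕ} {p : HProg k} {s s₁ s₂ : ℕ → ℕ}
    {h h₁ h₂ : Fin k → ℕ} {c₁ c₂ : ℕ}
    (a₁ : HRun x S p s h s₁ h₁ c₁) (a₂ : HRun x S' p s h s₂ h₂ c₂) :
    s₁ = s₂ ∧ h₁ = h₂ ∧ c₁ = c₂ := by
  induction a₁ generalizing s₂ h₂ c₂ with
  | set i e s h hS => cases a₂; exact ⟨rfl, rfl, rfl⟩
  | read i a e s h hS => cases a₂; exact ⟨rfl, rfl, rfl⟩
  | seq a b iha ihb =>
    cases a₂ with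
    | seq a' b' =>
      obtain ⟨rfl, rfl, rfl⟩ := iha a'
      obtain ⟨rfl, rfl, rfl⟩ := ihb b'
      exact ⟨rfl, rfl, rfl⟩
  | iteT he a ih =>
    cases a₂ with
    | iteT he' a' =>
      obtain ⟨rfl, rfl, rfl⟩ := ih a'
      exact ⟨rfl, rfl, rfl⟩
    | iteF he' a' => exact absurd he' he
  | iteF he a ih =>
    cases a₂ with
    | iteT he' a' => exact absurd he he'
    | iteF he' a' =>
      obtain ⟨rfl, rfl, rfl⟩ := ih a'
      exact ⟨rfl, rfl, rfl⟩
  | loopT he a b iha ihb =>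
    cases a₂ with
    | loopT he' a' b' =>
      obtain ⟨rfl, rfl, rfl⟩ := iha a'
      obtain ⟨rfl, rfl, rfl⟩ := ihb b'
      exact ⟨rfl, rfl, rfl⟩
    | loopF he' => exact absurd he' he
  | loopF he =>
    cases a₂ with
    | loopT he' a' b' => exact absurd he he'
    | loopF he' => exact ⟨rfl, rfl, rfl⟩

/-- The registers after a run. -/
theorem HRun.bd {x : List Bool} {S : ℕ} {p : HProg k} {s s' : ℕ → ℕ} {h h' : Fin k → ℕ} {c : ℕ}
    (a : HRun x S p s h s' h' c) {B : ℕ} (hSB : S ≤ B) : PLT.Bd s B → PLT.Bd s' B := by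
  have hp : 2 ^ S ≤ 2 ^ B := Nat.pow_le_pow_right (by norm_num) hSB
  have key : ∀ {s : ℕ → ℕ} {i v : ℕ}, v < 2 ^ S → PLT.Bd s B →
      PLT.Bd (Function.update s i v) B := by
    intro s i v hv hs j
    by_cases hji : j = i
    · subst hji; rw [Function.update_self]; exact hv.trans_le hp
    · rw [Function.update_of_ne hji]; exact hs j
  induction a with
  | set i e s h hS => exact key hS
  | read i a e s h hS => exact key hS
  | seq a b iha ihb => exact fun h => ihb (iha h)
  | iteT he a ih => exact ih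
  | iteF he a ih => exact ih
  | loopT he a b iha ihb => exact fun h => ihb (iha h)
  | loopF he => exact id

/-- **Frame lemma.** -/
theorem HRun.frame {x : List Bool} {S R : ℕ} {p : HProg k} {s s' : ℕ → ℕ} {h h' : Fin k → ℕ}
    {c : ℕ} (a : HRun x S p s h s' h' c) :
    p.Lt R → ∀ u : ℕ → ℕ, (∀ i < R, s i = u i) → ∃ u', HRun x S p u h u' h' c ∧
      (∀ i < R, s' i = u' i) ∧ ∀ i, R ≤ i → u' i = u i := by
  induction a with
  | set i e s h hS =>
    intro hp u hu
    obtain ⟨h1, h2⟩ := hp.2.congr hu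
    rw [h1] at hS
    rw [h1, h2]
    refine ⟨_, HRun.set i e u h hS, fun j hj => ?_, fun j hj => ?_⟩
    · by_cases hji : j = i
      · subst hji; simp
      · simp [Function.update_of_ne hji, hu j hj]
    · have : j ≠ i := by have := hp.1; omega
      simp [Function.update_of_ne this]
  | read i a e s h hS =>
    intro hp u hu
    obtain ⟨h1, h2⟩ := hp.2.congr hu
    rw [h1] at hS
    rw [h1, h2]
    refine ⟨_, HRun.read i a e u h hS, fun j hj => ?_, fun j hj => ?_⟩
    · by_cases hji : j = i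
      · subst hji; simp
      · simp [Function.update_of_ne hji, hu j hj]
    · have : j ≠ i := by have := hp.1; omega
      simp [Function.update_of_ne this]
  | seq a b iha ihb =>
    intro hp u hu
    obtain ⟨u', a1, a2, a3⟩ := iha hp.1 u hu
    obtain ⟨u'', b1, b2, b3⟩ := ihb hp.2 u' a2
    exact ⟨u'', HRun.seq a1 b1, b2, fun i hi => (b3 i hi).trans (a3 i hi)⟩
  | iteT he a ih =>
    intro hp u hu
    obtain ⟨h1, h2⟩ := hp.1.congr hu
    obtain ⟨u', a1, a2, a3⟩ := ih hp.2.1 u hu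
    rw [h2]
    exact ⟨u', HRun.iteT (by rwa [← h1]) a1, a2, a3⟩
  | iteF he a ih =>
    intro hp u hu
    obtain ⟨h1, h2⟩ := hp.1.congr hu
    obtain ⟨u', a1, a2, a3⟩ := ih hp.2.2 u hu
    rw [h2]
    exact ⟨u', HRun.iteF (by rwa [← h1]) a1, a2, a3⟩
  | loopT he a b iha ihb =>
    intro hp u hu
    obtain ⟨h1, h2⟩ := hp.1.congr hu
    obtain ⟨u', a1, a2, a3⟩ := iha hp.2 u hu
    obtain ⟨u'', b1, b2, b3⟩ := ihb hp u' a2
    rw [h2]
    exact ⟨u'', HRun.loopT (by rwa [← h1]) a1 b1, b2, fun i hi => (b3 i hi).trans (a3 i hi)⟩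
  | loopF he =>
    intro hp u hu
    obtain ⟨h1, h2⟩ := hp.1.congr hu
    rw [h2]
    exact ⟨u, HRun.loopF (by rwa [← h1]), hu, fun i _ => rfl⟩

/-- Other initial positions of the heads. -/
theorem HRun.move {x : List Bool} {S : ℕ} {p : HProg k} {s s' : ℕ → ℕ} {h h' : Fin k → ℕ} {c : ℕ}
    (a : HRun x S p s h s' h' c) :
    ∀ g : Fin k → ℕ, ∃ g' c', HRun x S p s g s' g' c' ∧
      c' + ∑ i, dst (g' i) (h' i) ≤ c + ∑ i, dst (g i) (h i) := by
  induction a with
  | set i e s h hS => intro g; exact ⟨g, _, HRun.set i e s g hS, le_rfl⟩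
  | read i a e s h hS =>
    intro g
    refine ⟨_, _, HRun.read i a e s g hS, ?_⟩
    rw [← Finset.add_sum_erase univ _ (Finset.mem_univ a),
      ← Finset.add_sum_erase (univ : Finset (Fin k)) (fun i => dst (g i) (h i)) (Finset.mem_univ a)]
    have h1 : ∑ i ∈ univ.erase a, dst (Function.update g a (min (e.val s) x.length) i)
        (Function.update h a (min (e.val s) x.length) i) = ∑ i ∈ univ.erase a, dst (g i) (h i) := by
      refine Finset.sum_congr rfl fun i hi => ?_
      rw [Function.update_of_ne (Finset.ne_of_mem_erase hi),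
        Function.update_of_ne (Finset.ne_of_mem_erase hi)]
    rw [h1, Function.update_self, Function.update_self]
    unfold dst
    omega
  | seq a b iha ihb =>
    intro g
    obtain ⟨g1, c1, r1, l1⟩ := iha g
    obtain ⟨g2, c2, r2, l2⟩ := ihb g1
    exact ⟨_, _, HRun.seq r1 r2, by omega⟩
  | iteT he a ih =>
    intro g
    obtain ⟨g1, c1, r1, l1⟩ := ih g
    exact ⟨_, _, HRun.iteT he r1, by omega⟩
  | iteF he a ih =>
    intro g
    obtain ⟨g1, c1, r1, l1⟩ := ih g
    exact ⟨_, _, HRun.iteF he r1, by omega⟩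
  | loopT he a b iha ihb =>
    intro g
    obtain ⟨g1, c1, r1, l1⟩ := iha g
    obtain ⟨g2, c2, r2, l2⟩ := ihb g1
    exact ⟨_, _, HRun.loopT he r1 r2, by omega⟩
  | loopF he => intro g; exact ⟨_, _, HRun.loopF he, le_rfl⟩

/-- The heads stay on the input. -/
theorem HRun.head_le {x : List Bool} {S : ℕ} {p : HProg k} {s s' : ℕ → ℕ} {h h' : Fin k → ℕ}
    {c : ℕ} (a : HRun x S p s h s' h' c) : (∀ i, h i ≤ x.length) → ∀ i, h' i ≤ x.length := by
  induction a with
  | set i e s h hS => exact id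
  | read i a e s h hS =>
    intro hh j
    by_cases hja : j = a
    · subst hja; rw [Function.update_self]; exact min_le_right _ _
    · rw [Function.update_of_ne hja]; exact hh j
  | seq a b iha ihb => exact fun h => ihb (iha h)
  | iteT he a ih => exact ih
  | iteF he a ih => exact ih
  | loopT he a b iha ihb => exact fun h => ihb (iha h)
  | loopF he => exact id

/-- The program, for the other kind of programs (for programs that do not read the input). -/
def hup (k : ℕ) : Prog → HProg k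
  | .set i e => .set i e
  | .read i e => .set i e
  | .seq p q => .seq (hup k p) (hup k q)
  | .ite e p q => .ite e (hup k p) (hup k q)
  | .loop e p => .loop e (hup k p)

/-- A run of a program that does not read the input. -/
theorem hlift {x z : List Bool} {p : Prog} {s s' : ℕ → ℕ} {c : ℕ} (a : Run x p s s' c) :
    NR p → ∀ S, c ≤ S → ∀ h : Fin k → ℕ, HRun z S (hup k p) s h s' h c := by
  induction a with
  | set i e s =>
    intro _ S hS h
    exact HRun.set i e s h (Nat.size_le.mp ((e.size_le_cost s).trans hS))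
  | read i e s => intro hn; exact hn.elim
  | seq a b iha ihb =>
    intro hn S hS h
    exact HRun.seq (iha hn.1 S (by omega) h) (ihb hn.2 S (by omega) h)
  | iteT he a ih => intro hn S hS h; exact HRun.iteT he (ih hn.1 S (by omega) h)
  | iteF he a ih => intro hn S hS h; exact HRun.iteF he (ih hn.2 S (by omega) h)
  | loopT he a b iha ihb =>
    intro hn S hS h
    exact HRun.loopT he (iha hn S (by omega) h) (ihb hn S (by omega) h)
  | loopF he => intro hn S hS h; exact HRun.loopF he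

/-- A loop. -/
theorem hloop_of {x : List Bool} {S : ℕ} {e : Expr} {p : HProg k}
    {I : ℕ → (ℕ → ℕ) → (Fin k → ℕ) → Prop} {C : ℕ}
    (hend : ∀ s h, I 0 s h → e.val s = 0 ∧ e.cost s ≤ C)
    (hstep : ∀ j s h, I (j + 1) s h →
      e.val s ≠ 0 ∧ ∃ s' h' c, HRun x S p s h s' h' c ∧ e.cost s + c ≤ C ∧ I j s' h') :
    ∀ j s h, I j s h → ∃ s' h' c, HRun x S (.loop e p) s h s' h' c ∧ c ≤ C * (j + 1) ∧
      I 0 s' h' := by
  intro j
  induction j with
  | zero =>
    intro s h hs
    obtain ⟨h1, h2⟩ := hend s h hs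
    exact ⟨s, h, _, HRun.loopF h1, by omega, hs⟩
  | succ j ih =>
    intro s h hs
    obtain ⟨h1, s', h', c, h2, h3, h4⟩ := hstep j s h hs
    obtain ⟨s'', h'', c', h5, h6, h7⟩ := ih s' h' h4
    refine ⟨s'', h'', _, HRun.loopT h1 h2 h5, ?_, h7⟩
    have : C * (j + 1 + 1) = C * (j + 1) + C := by ring
    omega

/-- More time and memory. -/
lemma HStops.mono {P : HProg k} {x : List Bool} {y r t t' S S' : ℕ}
    (h : HStops P x y r t S) (ht : t ≤ t') (hS : S ≤ S') : HStops P x y r t' S' := by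
  obtain ⟨w1, w2, w3, s, j, c, hw, hcw⟩ := h
  have hp : 2 ^ S ≤ 2 ^ S' := Nat.pow_le_pow_right (by norm_num) hS
  exact ⟨w1.trans_le hp, w2.trans_le hp, w3.trans_le hp, s, j, c, hw.mem_mono hS, hcw.trans ht⟩

/-- Acceptance and a given run. -/
lemma HRun.acc {P : HProg k} {x : List Bool} {y r S : ℕ} {s : ℕ → ℕ} {h : Fin k → ℕ} {c : ℕ}
    (a : HRun x S P (ini x.length y r) (fun _ => 0) s h c) : HAcc P x y r ↔ s 0 = 1 := by
  constructor
  · rintro ⟨S', s', h', c', b, hb⟩
    obtain ⟨rfl, -⟩ := a.det b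
    exact hb
  · intro hs
    exact ⟨S, s, h, c, a, hs⟩

end Pool.Agent.Lib.MP_ff3ed7_lc.MH
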