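import Pool.Agent.Lib.MP_ff3ed7_lc.MH.SpecI

/-!
# PROJECT MH, part I: the general program transformation for several input heads
-/

set_option autoImplicit false

open Finset

namespace Pool.Agent.Lib.MP_ff3ed7_lc.MH

open Pool.Agent.Lib.MP_ff3ed7_lc.PLT
open Pool.Agent.Lib.MP_ff3ed7_lc.SQ (dst ql NR sprep)

/-- **The general program transformation.** -/
theorem tHGen : S_HGen := by
  intro hEng k P R hR hP c e EY ER EM ET fY fR fM fT hY hRR hM hT
  obtain ⟨Q, K1, hQ, hK1, h1⟩ := sprep R hR c e EY ER EM fY fR fM hY hRR hM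
  obtain ⟨K2, hK2, h2⟩ := hEng k P R hR hP
  let A9 : Prog := .set 0 ET
  obtain ⟨K3, hK3, h3⟩ := Prog.cost_exec A9 trivial
  refine ⟨.seq (hup k Q) (.seq (heng P R) (hup k A9)), K1 + K2 * K1 + K3 * K1 + 1, by omega, ?_⟩
  intro x y r t B κ u Y RR M hk hu hYv hRv hMv hB hkB huB hxB hyB hrB hst
  obtain ⟨s7, d, r7, hd, b7, z0, z1, z2, z3, z4, z5, z6, z7, z8, z9, z10⟩ :=
    h1 x y r B κ u Y RR M hk hu hYv hRv hMv hB hkB huB hxB hyB hrB
  obtain ⟨X, hX⟩ : ∃ X, X = B * B := ⟨_, rfl⟩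
  have x1 : B ≤ X := hX ▸ Nat.le_mul_of_pos_left B hB
  rw [← hX] at hd ⊢
  obtain ⟨S, hS⟩ : ∃ S, S = (K1 + K2 * K1 + K3 * K1 + 1) * X := ⟨_, rfl⟩
  rw [← hS]
  have hB1 : B ≤ K1 * B := Nat.le_mul_of_pos_left B hK1
  have e1 : K2 * (K1 * B) ≤ K2 * K1 * X := by
    rw [← Nat.mul_assoc]; exact Nat.mul_le_mul_left _ x1
  have e2 : K3 * (K1 * B) ≤ K3 * K1 * X := by
    rw [← Nat.mul_assoc]; exact Nat.mul_le_mul_left _ x1
  have eS : S = K1 * X + K2 * K1 * X + K3 * K1 * X + X := by rw [hS]; ring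
  have l1 : d ≤ S := by omega
  have l2 : K2 * (K1 * B) ≤ S := by omega
  have l3 : K3 * (K1 * B) ≤ S := by omega
  have l4 : B ≤ S := by omega
  obtain ⟨s8, g8, d8, r8, c8, v8, -, -, -, f8, b8, -⟩ := h2 x Y RR κ M t (K1 * B) S (fun _ => 0) s7
    z0 z1 z2 z3 z4 z5 (fun i hi => (hst i hi).mono le_rfl hB1)
    (hB.trans hB1) l2 (fun _ => Nat.zero_le _) b7
  obtain ⟨c9, -⟩ := h3 x s8 (K1 * B) (hB.trans hB1) b8
  have r9 := Prog.LF.run (x := x) (p := A9) trivial s8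
  have hrun : HRun x S (.seq (hup k Q) (.seq (heng P R) (hup k A9))) (ini x.length y r)
      (fun _ => 0) (A9.exec x s8) g8 (d + (d8 + A9.tim x s8)) :=
    HRun.seq (hlift r7 hQ S l1 _) (HRun.seq r8 (hlift r9 trivial S (c9.trans l3) g8))
  have fin : A9.exec x s8 0 =
      fT y r κ (2 ^ κ) (2 ^ u) (Nat.card {i : Fin M // HAcc P x Y (blk κ RR i)}) := by
    simp only [A9, Prog.exec, Function.update_self, hT]
    rw [f8 (R + 6) (by omega), f8 (R + 7) (by omega), f8 (R + 8) (by omega), f8 (R + 9) (by omega),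
      f8 (R + 10) (by omega), z6, z7, z8, z9, z10, v8]
  have hpS : 2 ^ B ≤ 2 ^ S := Nat.pow_le_pow_right (by norm_num) l4
  constructor
  · refine ⟨hxB.trans_le hpS, hyB.trans_le hpS, hrB.trans_le hpS, _, _, _, hrun, ?_⟩
    obtain ⟨T, hT'⟩ : ∃ T, T = t + k * x.length := ⟨_, rfl⟩
    rw [← hT'] at c8 ⊢
    have m1 : 1 ≤ M + 1 := Nat.succ_pos M
    calc d + (d8 + A9.tim x s8)
        ≤ K1 * X * (M + 1) + ((K2 * K1 * X + T) * (M + 1) + K3 * K1 * X * (M + 1)) := by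
          refine Nat.add_le_add (hd.trans (Nat.le_mul_of_pos_right _ m1)) (Nat.add_le_add
            (c8.trans (Nat.mul_le_mul_right _ (Nat.add_le_add_right e1 _)))
            ((c9.trans e2).trans (Nat.le_mul_of_pos_right _ m1)))
      _ ≤ K1 * X * (M + 1) + ((K2 * K1 * X + T) * (M + 1) + K3 * K1 * X * (M + 1)) +
          ((K1 + K2 * K1 + K3 * K1) * (T * (M + 1)) + X * (M + 1)) := Nat.le_add_right _ _
      _ = _ := by ring
  · rw [hrun.acc, fin]

end Pool.Agent.Lib.MP_ff3ed7_lc.MH
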