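import Pool.Agent.Lib.MP_ff3ed7_lc.MH.SpecI

/-!
# PROJECT MH: the inclusion `MA ⊆ SBP` with several input heads

Copy of `MAql_subset_SBPql` (`SQ/SInc.lean`) for programs with `k` heads.
-/

set_option autoImplicit false

open Finset

namespace Pool.Agent.Lib.MP_ff3ed7_lc.MH

open Pool.Agent.Lib.MP_ff3ed7_lc.PLT
open Pool.Agent.Lib.MP_ff3ed7_lc.SQ (dst ql NR)

/-! ## Bounds -/

private lemma HInM_two_le_L (n : ℕ) : 2 ≤ Nat.log 2 n + 2 := by omega

private lemma HInM_one_le_pl (c n : ℕ) : 1 ≤ pl c n := Nat.one_le_pow _ _ (by omega)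

private lemma HInM_pl_mono {c d : ℕ} (h : c ≤ d) (n : ℕ) : pl c n ≤ pl d n :=
  Nat.pow_le_pow_right (by omega) h

private lemma HInM_pl_mul (c d n : ℕ) : pl c n * pl d n = pl (c + d) n := (pow_add _ _ _).symm

private lemma HInM_const_le_pl (C n : ℕ) : C + 1 ≤ pl C n :=
  calc C + 1 ≤ 2 ^ C := Nat.lt_two_pow_self
    _ ≤ (Nat.log 2 n + 2) ^ C := Nat.pow_le_pow_left (HInM_two_le_L n) C

private lemma HInM_const_mul_pl (C c n : ℕ) : C * pl c n ≤ pl (C + c) n := by
  rw [← HInM_pl_mul]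
  refine Nat.mul_le_mul_right _ ?_
  have := HInM_const_le_pl C n
  omega

private lemma HInM_pow_mul_pl (j c n : ℕ) : 2 ^ j * pl c n ≤ pl (j + c) n := by
  rw [← HInM_pl_mul]
  exact Nat.mul_le_mul_right _ (Nat.pow_le_pow_left (HInM_two_le_L n) j)

private lemma HInM_len_lt (b n : ℕ) (hb : 1 ≤ b) : n < 2 ^ pl b n := by
  refine (Nat.lt_pow_succ_log_self (by norm_num) n).trans_le (Nat.pow_le_pow_right (by norm_num) ?_)
  have h : pl 1 n ≤ pl b n := HInM_pl_mono hb n
  have h1 : pl 1 n = Nat.log 2 n + 2 := pow_one _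
  omega

private lemma HInM_pr_congr (κ : ℕ) {A B : ℕ → Prop} (h : ∀ r < 2 ^ κ, (A r ↔ B r)) :
    pr κ A = pr κ B := by
  unfold pr
  congr 2
  exact Nat.card_congr (Equiv.subtypeEquivRight fun r => h r.1 r.2)

private lemma HInM_blk_lt (κ r i : ℕ) : blk κ r i < 2 ^ κ := Nat.mod_lt _ (by positivity)

/-- The time of the new program, one head. -/
private lemma HInM_time_one (C b d m M n : ℕ) (hM : M + 1 ≤ pl m n) :
    C * ((pl b n * pl b n + (ql d n + n)) * (M + 1)) ≤ ql (C + (2 + (b + b + d) + m)) n := by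
  have h1 : pl b n * pl b n ≤ pl (b + b + d) n := by
    rw [HInM_pl_mul]; exact HInM_pl_mono (by omega) n
  have h2 : pl d n ≤ pl (b + b + d) n := HInM_pl_mono (by omega) n
  have h3 := HInM_one_le_pl (b + b + d) n
  have h4 := HInM_pow_mul_pl 2 (b + b + d) n
  obtain ⟨Z, hZ⟩ : ∃ Z, Z = pl (b + b + d) n := ⟨_, rfl⟩
  rw [← hZ] at h1 h2 h3 h4
  have h5 : pl b n * pl b n + (ql d n + n) ≤ (n + 1) * pl (2 + (b + b + d)) n := by
    refine le_trans ?_ (Nat.mul_le_mul_left _ h4)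
    unfold ql
    have h6 : (n + 1) * pl d n ≤ (n + 1) * Z := Nat.mul_le_mul_left _ h2
    have h7 : Z ≤ (n + 1) * Z := Nat.le_mul_of_pos_left _ (Nat.succ_pos n)
    have h8 : n ≤ (n + 1) * Z := le_trans (Nat.le_succ n) (Nat.le_mul_of_pos_right _ h3)
    have h9 : (n + 1) * (2 ^ 2 * Z) = (n + 1) * Z + (n + 1) * Z + (n + 1) * Z + (n + 1) * Z := by ring
    omega
  unfold ql at h5 ⊢
  calc C * ((pl b n * pl b n + ((n + 1) * pl d n + n)) * (M + 1))
      ≤ C * (((n + 1) * pl (2 + (b + b + d)) n) * pl m n) :=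
        Nat.mul_le_mul_left _ (Nat.mul_le_mul h5 hM)
    _ = (n + 1) * (C * (pl (2 + (b + b + d)) n * pl m n)) := by ring
    _ = (n + 1) * (C * pl (2 + (b + b + d) + m) n) := by rw [HInM_pl_mul]
    _ ≤ _ := Nat.mul_le_mul_left _ (HInM_const_mul_pl _ _ _)

/-- The time of the new program. -/
private lemma HInM_time_bound (C k b d m M n : ℕ) (hM : M + 1 ≤ pl m n) :
    C * ((pl b n * pl b n + (ql d n + k * n)) * (M + 1)) ≤
      ql (C + k + (2 + (b + b + d) + m)) n := by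
  have h1 := HInM_time_one C b d m M n hM
  have h2 := HInM_const_le_pl k n
  obtain ⟨A, hA⟩ : ∃ A, A = pl b n * pl b n := ⟨_, rfl⟩
  obtain ⟨Q, hQ⟩ : ∃ Q, Q = ql d n := ⟨_, rfl⟩
  rw [← hA, ← hQ] at h1 ⊢
  have h3 : A + (Q + k * n) ≤ (k + 1) * (A + (Q + n)) := by
    have h4 : (k + 1) * (A + (Q + n)) = A + (Q + k * n) + (k * A + k * Q + n) := by ring
    omega
  have h5 : C * ((A + (Q + k * n)) * (M + 1)) ≤ (k + 1) * (C * ((A + (Q + n)) * (M + 1))) := by
    calc C * ((A + (Q + k * n)) * (M + 1)) ≤ C * (((k + 1) * (A + (Q + n))) * (M + 1)) :=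
          Nat.mul_le_mul_left _ (Nat.mul_le_mul_right _ h3)
      _ = (k + 1) * (C * ((A + (Q + n)) * (M + 1))) := by ring
  refine h5.trans ((Nat.mul_le_mul h2 h1).trans ?_)
  unfold ql
  have h6 : C + k + (2 + (b + b + d) + m) = k + (C + (2 + (b + b + d) + m)) := by omega
  rw [h6, ← HInM_pl_mul k]
  exact le_of_eq (by ring)

/-- The memory of the new program. -/
private lemma HInM_mem_bound (C b n : ℕ) : C * (pl b n * pl b n) ≤ pl (C + (b + b)) n := by
  rw [HInM_pl_mul]; exact HInM_const_mul_pl _ _ _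

/-- The number of repetitions. -/
private lemma HInM_reps (c n : ℕ) : 50 * (pl c n + 2) + 1 ≤ pl (8 + c) n ∧
    50 * (pl c n + 2) * pl c n ≤ pl (8 + (c + c)) n := by
  have h1 := HInM_one_le_pl c n
  have h2 := HInM_pow_mul_pl 8 c n
  have h3 := HInM_pow_mul_pl 8 (c + c) n
  have h4 := HInM_pl_mul c c n
  constructor
  · nlinarith
  · nlinarith

/-- **MA in SBP.** -/
theorem tHInM : S_HInM := by
  rintro hG hPrB hAmp hMaSbp L ⟨k, c, d, e₀, P, hV, hL⟩
  obtain ⟨R, hR, hP⟩ := P.exists_lt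
  obtain ⟨P', C, hC, hgen⟩ := hG k P R hR hP c (c + 2) (.mod (.reg (R + 7)) (.reg (R + 9)))
    (.div (.reg (R + 7)) (.div (.reg (R + 10)) (.num 4)))
    (.mul (.num 50) (.add (.reg (R + 8)) (.num 2)))
    (.mul (.sub (.num 1) (.mod (.div (.reg (R + 7)) (.reg (R + 9)))
      (.div (.div (.reg (R + 10)) (.num 4)) (.reg (R + 9)))))
      (.sub (.num 1) (.sub (.add (.mul (.num 50) (.add (.reg (R + 8)) (.num 2))) (.num 1))
      (.mul (.num 2) (.reg (R + 5))))))
    (fun _ r _ K _ => r % K) (fun _ r _ _ U => r / (U / 4)) (fun _ _ κ _ _ => 50 * (κ + 2))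
    (fun _ r κ K U w => (1 - r / K % (U / 4 / K)) * (1 - (50 * (κ + 2) + 1 - 2 * w)))
    (fun _ => rfl) (fun _ => rfl) (fun _ => rfl) (fun _ => rfl)
  set c' := 9 + (c + c) with hc'
  set b := e₀ + c' + c + 3 with hb
  set d' := C + k + (2 + (b + b + d) + (8 + c)) with hd'
  set e' := C + (b + b) with he'
  have hu : ∀ n, pl c n + 2 ≤ pl (c + 2) n := by
    intro n
    have h1 := HInM_one_le_pl c n
    have h2 := HInM_pow_mul_pl 2 c n
    rw [Nat.add_comm 2 c] at h2
    omega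
  have main : ∀ (x : List Bool) (y r : ℕ), y < 2 ^ pl c' x.length → r < 2 ^ pl c' x.length →
      HStops P' x y r (ql d' x.length) (pl e' x.length) ∧
      (HAcc P' x y r ↔ r / 2 ^ pl c x.length %
          2 ^ (pl (c + 2) x.length - (pl c x.length + 2)) = 0 ∧
        Maj (pl c x.length) (50 * (pl c x.length + 2)) (HAcc P x (r % 2 ^ pl c x.length))
          (r / 2 ^ (pl c x.length + (pl (c + 2) x.length - (pl c x.length + 2))))) := by
    intro x y r hy hr
    set n := x.length with hn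
    have hle : pl c' n ≤ pl b n := HInM_pl_mono (by omega) n
    have hun := hu n
    have e1 : 2 ^ pl (c + 2) n / 4 =
        2 ^ (pl c n + (pl (c + 2) n - (pl c n + 2))) := by
      have : pl (c + 2) n = (pl c n + (pl (c + 2) n - (pl c n + 2))) + 2 := by omega
      conv_lhs => rw [this, pow_add]
      norm_num
    have e2 : 2 ^ pl (c + 2) n / 4 / 2 ^ pl c n = 2 ^ (pl (c + 2) n - (pl c n + 2)) := by
      rw [e1, pow_add]
      exact Nat.mul_div_cancel_left _ (by positivity)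
    have h1 := hgen x y r (ql d n) (pl b n) (pl c n) (pl (c + 2) n) (r % 2 ^ pl c n)
      (r / 2 ^ (pl c n + (pl (c + 2) n - (pl c n + 2))))
      (50 * (pl c n + 2)) rfl rfl rfl (by rw [← e1]) rfl (HInM_one_le_pl _ _) (by
        have h2 : pl (c + 2) n ≤ pl b n := HInM_pl_mono (by omega) n
        omega) (by
        have h2 : pl (c + 3) n ≤ pl b n := HInM_pl_mono (by omega) n
        have h3 := HInM_pow_mul_pl 1 (c + 2) n
        have h4 := HInM_one_le_pl (c + 2) n
        rw [show 1 + (c + 2) = c + 3 by ring] at h3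
        omega) (HInM_len_lt b n (by omega))
      (hy.trans_le (Nat.pow_le_pow_right (by norm_num) hle))
      (hr.trans_le (Nat.pow_le_pow_right (by norm_num) hle))
      (fun i _ => HStops.mono (hV x _ _ (Nat.mod_lt _ (by positivity)) (HInM_blk_lt _ _ _)) le_rfl
        (HInM_pl_mono (by omega) n))
    refine ⟨HStops.mono h1.1 (HInM_time_bound C k b d (8 + c) _ n (HInM_reps c n).1)
      (HInM_mem_bound C b n), h1.2.trans ?_⟩
    unfold Maj
    simp only [e2]
    rw [_root_.mul_eq_one]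
    constructor
    · rintro ⟨h2, h3⟩; constructor <;> omega
    · rintro ⟨h2, h3⟩; constructor <;> omega
  refine ⟨k, c', d', e', c + 2, P', fun x y r hy hr => (main x y r hy hr).1, fun x => ?_⟩
  set n := x.length with hn
  have hun := hu n
  have hM : pl c n + (pl (c + 2) n - (pl c n + 2)) + 50 * (pl c n + 2) * pl c n ≤ pl c' n := by
    have h1 := (HInM_reps c n).2
    have h2 : pl (c + 2) n ≤ pl (8 + (c + c)) n := HInM_pl_mono (by omega) n
    have h3 := HInM_pow_mul_pl 1 (8 + (c + c)) n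
    rw [show 1 + (8 + (c + c)) = c' by omega] at h3
    omega
  obtain ⟨g1, g2⟩ := hMaSbp hPrB hAmp (pl c n) (50 * (pl c n + 2))
    (pl (c + 2) n - (pl c n + 2)) (pl c' n) (HAcc P x) rfl hM
  rw [show pl c n + 2 + (pl (c + 2) n - (pl c n + 2)) = pl (c + 2) n by omega] at g1 g2
  have hcongr : (pr (pl c' n) fun r => HAcc P' x 0 r) =
      pr (pl c' n) fun r => r / 2 ^ pl c n % 2 ^ (pl (c + 2) n - (pl c n + 2)) = 0 ∧
        Maj (pl c n) (50 * (pl c n + 2)) (HAcc P x (r % 2 ^ pl c n))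
          (r / 2 ^ (pl c n + (pl (c + 2) n - (pl c n + 2)))) :=
    HInM_pr_congr _ fun r hr => (main x 0 r (by positivity) hr).2
  rw [hcongr]
  exact ⟨fun hx => g1 ((hL x).1 hx), fun hx => g2 ((hL x).2 hx)⟩

end Pool.Agent.Lib.MP_ff3ed7_lc.MH
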