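import Pool.Agent.Lib.MP_ff3ed7_lc.MH.SpecU
import Pool.Agent.Lib.MP_ff3ed7_lc.PLT.PrB

/-!
# PROJECT MH: the virtual languages are in `AM` resp. `SBP`
-/

set_option autoImplicit false

open Finset

namespace Pool.Agent.Lib.MP_ff3ed7_lc.MH

open Pool.Agent.Lib.MP_ff3ed7_lc.PLT
open Pool.Agent.Lib.MP_ff3ed7_lc.SQ (dst ql)

private theorem HMe_run {k : ℕ} {x : List Bool} {S S' : ℕ} (hS : S ≤ S') {P : HProg k}
    {s s' : ℕ → ℕ} {h h' : Fin k → ℕ} {c : ℕ} (hr : HRun x S P s h s' h' c) :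
    HRun x S' P s h s' h' c := by
  induction hr with
  | set i e s h h1 => exact .set i e s h (h1.trans_le (Nat.pow_le_pow_right (by norm_num) hS))
  | read i a e s h h1 =>
    exact .read i a e s h (h1.trans_le (Nat.pow_le_pow_right (by norm_num) hS))
  | seq _ _ iha ihb => exact .seq iha ihb
  | iteT he _ ih => exact .iteT he ih
  | iteF he _ ih => exact .iteF he ih
  | loopT he _ _ iha ihb => exact .loopT he iha ihb
  | loopF he => exact .loopF he

private theorem HMe_stops {k : ℕ} {P : HProg k} {x : List Bool} {y r t t' S S' : ℕ}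
    (h : HStops P x y r t S) (ht : t ≤ t') (hS : S ≤ S') : HStops P x y r t' S' := by
  obtain ⟨h1, h2, h3, s, g, c, h4, h5⟩ := h
  have hp : 2 ^ S ≤ 2 ^ S' := Nat.pow_le_pow_right (by norm_num) hS
  exact ⟨h1.trans_le hp, h2.trans_le hp, h3.trans_le hp, s, g, c, HMe_run hS h4, h5.trans ht⟩

private theorem HMe_zero (k : ℕ) (A : ℕ → Prop) (h : ∀ r < 2 ^ k, ¬ A r) : pr k A = 0 := by
  unfold pr
  have : IsEmpty {r : Fin (2 ^ k) // A r.1} := ⟨fun r => h r.1.1 r.1.2 r.2⟩
  rw [Nat.card_of_isEmpty]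
  simp

private theorem HMe_congr (k : ℕ) (A B : ℕ → Prop) (h : ∀ r < 2 ^ k, (A r ↔ B r)) :
    pr k A = pr k B := by
  unfold pr
  rw [Nat.card_congr (Equiv.subtypeEquivRight fun r : Fin (2 ^ k) => h r.1 r.2)]

private theorem HMe_split (g k : ℕ) (A : ℕ → Prop) :
    pr (g + k) (fun r => r % 2 ^ g = 0 ∧ A (r / 2 ^ g)) = pr k A / 2 ^ g := by
  have h := tPrB.2.2.2.2 g k (fun y r => y = 0 ∧ A r)
  rw [h]
  congr 1
  rw [Finset.sum_eq_single_of_mem 0 (Finset.mem_range.2 (by positivity))]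
  · exact HMe_congr k _ _ fun r _ => by simp
  · intro b _ hb
    exact HMe_zero k _ fun r _ h' => hb h'.1

private theorem HMe_log (z : List Bool) : Nat.log 2 (hw z).length = Nat.log 2 z.length / 8 := by
  unfold hw
  rw [List.length_ofFn, vm, Nat.log_pow (by norm_num)]

/-- The arithmetic for the bounds. -/
private theorem HMe_num (n l κ C0 C1 t : ℕ) (ht : t ≤ C0 * (l + κ + 1) ^ 2) :
    C1 * (n + 1) * (l + 1) * (t + κ + 1) ≤
      (C1 * (C0 + 1) + (C0 + 1 + C1)) * (n + 1) * (l + κ + 1) ^ 3 ∧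
    t + κ + l + C1 ≤ (C1 * (C0 + 1) + (C0 + 1 + C1)) * (l + κ + 1) ^ 2 := by
  set w := l + κ + 1 with hw
  have w1 : 1 ≤ w := by omega
  have w2 : 1 ≤ w ^ 2 := Nat.one_le_pow _ _ w1
  have w3 : w ≤ w ^ 2 := by nlinarith
  constructor
  · have h1 : t + κ + 1 ≤ (C0 + 1) * w ^ 2 := by
      rw [add_mul, one_mul]
      omega
    calc C1 * (n + 1) * (l + 1) * (t + κ + 1) ≤ C1 * (n + 1) * w * ((C0 + 1) * w ^ 2) :=
          Nat.mul_le_mul (Nat.mul_le_mul_left _ (by omega)) h1
      _ = C1 * (C0 + 1) * ((n + 1) * w ^ 3) := by ring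
      _ ≤ (C1 * (C0 + 1) + (C0 + 1 + C1)) * ((n + 1) * w ^ 3) :=
          Nat.mul_le_mul_right _ (Nat.le_add_right _ _)
      _ = _ := by ring
  · have h2 : C1 ≤ C1 * w ^ 2 := Nat.le_mul_of_pos_right _ w2
    calc t + κ + l + C1 ≤ (C0 + 1 + C1) * w ^ 2 := by
          rw [add_mul, add_mul, one_mul]
          omega
      _ ≤ _ := Nat.mul_le_mul_right _ (Nat.le_add_left _ _)

/-- The same with a smaller bound for the time. -/
private theorem HMe_num' (n l κ C0 C1 t : ℕ) (ht : t ≤ C0 * (l + κ + 1) ^ 2) :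
    C1 * (n + 1) * (l + 1) * (t + 1) ≤
      (C1 * (C0 + 1) + (C0 + 1 + C1)) * (n + 1) * (l + κ + 1) ^ 3 ∧
    t + κ + l + C1 ≤ (C1 * (C0 + 1) + (C0 + 1 + C1)) * (l + κ + 1) ^ 2 :=
  ⟨(Nat.mul_le_mul_left _ (by omega)).trans (HMe_num n l κ C0 C1 t ht).1,
    (HMe_num n l κ C0 C1 t ht).2⟩

/-- **HMe** (the virtual languages are in `AM` resp. `SBP`).  Proof as in the docstring of `S_HMe`:
the uniform verifiers for the virtual word, simulated by two heads. -/
theorem tHMe : S_HMe := by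
  intro hT hI hR hV hUa hUb hG hB
  obtain ⟨P, C0, hP⟩ := hG
  obtain ⟨P', C1, hP'⟩ := hUa hT hI hR hV P
  obtain ⟨Q, C2, hQ⟩ := hB
  obtain ⟨Q', C3, hQ'⟩ := hUb hT hI hR hV Q
  set Ca := C1 * (C0 + 1) + (C0 + 1 + C1) with hCa
  set Cb := C3 * (C2 + 1) + (C2 + 1 + C3) with hCb
  have tm : ∀ (n κ C' l : ℕ), C' ≤ Ca + Cb →
      C' * (n + 1) * (l + κ + 1) ^ 3 ≤ (Ca + Cb) * (n + 1) * (l + κ + 1) ^ 3 ∧
      C' * (l + κ + 1) ^ 2 ≤ (Ca + Cb) * (l + κ + 1) ^ 2 := fun n κ C' l h =>
    ⟨Nat.mul_le_mul_right _ (Nat.mul_le_mul_right _ h), Nat.mul_le_mul_right _ h⟩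
  refine ⟨Ca + Cb, fun κ => ⟨fun hκ => ?_, fun hκ => ?_⟩⟩
  · -- AM
    have hlen : ∀ z : List Bool, Nat.log 2 (hw z).length + 2 ≤ κ z.length := by
      intro z
      rw [HMe_log]
      have := hκ z.length
      omega
    have hst : ∀ (z : List Bool) (y r : ℕ), y < 2 ^ κ z.length → r < 2 ^ κ z.length →
        Stops P (hw z) y r (C0 * (Nat.log 2 z.length / 8 + κ z.length + 1) ^ 2) := by
      intro z y r hy hr
      have h := (hP (hw z) (κ z.length) (hlen z)).1 y r hy hr
      rwa [HMe_log] at h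
    have ht0 : ∀ n, C0 * (Nat.log 2 n / 8 + κ n + 1) ^ 2 ≤ C0 * (Nat.log 2 n + κ n + 1) ^ 2 :=
      fun n => Nat.mul_le_mul_left _ (Nat.pow_le_pow_left (by omega) 2)
    refine ⟨P', fun z y r hy hr => ?_, fun z => ?_⟩
    · rcases Nat.lt_or_ge z.length (2 ^ 320) with h | h
      · have h1 := ((hP' z y r (κ z.length) 0 hy hr).2 h).1
        have h2 := HMe_num' z.length (Nat.log 2 z.length) (κ z.length) C0 C1 0 (Nat.zero_le _)
        have h3 := tm z.length (κ z.length) Ca (Nat.log 2 z.length) (Nat.le_add_right _ _)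
        exact HMe_stops h1 (h2.1.trans h3.1) (h2.2.trans h3.2)
      · have h1 := ((hP' z y r (κ z.length) _ hy hr).1 h (hst z y r hy hr)).1
        have h2 := HMe_num' z.length (Nat.log 2 z.length) (κ z.length) C0 C1 _ (ht0 z.length)
        have h3 := tm z.length (κ z.length) Ca (Nat.log 2 z.length) (Nat.le_add_right _ _)
        exact HMe_stops h1 (h2.1.trans h3.1) (h2.2.trans h3.2)
    · have hp := (hP (hw z) (κ z.length) (hlen z)).2
      have big : 2 ^ 320 ≤ z.length →
          pr (κ z.length) (fun r => ∃ y < 2 ^ κ z.length, HAcc P' z y r) =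
          pr (κ z.length) (fun r => ∃ y < 2 ^ κ z.length, Acc P (hw z) y r) := by
        intro h
        refine HMe_congr _ _ _ fun r hr => ?_
        have key : ∀ y, y < 2 ^ κ z.length → (HAcc P' z y r ↔ Acc P (hw z) y r) := fun y hy =>
          ((hP' z y r (κ z.length) _ hy hr).1 h (hst z y r hy hr)).2
        exact ⟨fun ⟨y, hy, hA⟩ => ⟨y, hy, (key y hy).1 hA⟩,
          fun ⟨y, hy, hA⟩ => ⟨y, hy, (key y hy).2 hA⟩⟩
      constructor
      · intro hz
        rw [big hz.1]
        exact hp.1 hz.2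
      · intro hz
        rcases Nat.lt_or_ge z.length (2 ^ 320) with h | h
        · rw [HMe_zero _ _ fun r hr ⟨y, hy, hA⟩ =>
            ((hP' z y r (κ z.length) 0 hy hr).2 h).2 hA]
          norm_num
        · rw [big h]
          exact hp.2 fun h' => hz ⟨h, h'⟩
  · -- SBP
    have hlen : ∀ z : List Bool, 2 * (Nat.log 2 (hw z).length + 2) ≤ κ z.length := by
      intro z
      rw [HMe_log]
      have := hκ z.length
      omega
    have hdiv : ∀ r a b : ℕ, r < 2 ^ a → r / 2 ^ b < 2 ^ a := fun r a b h =>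
      (Nat.div_le_self _ _).trans_lt h
    have hst : ∀ (z : List Bool) (y r : ℕ), y < 2 ^ κ z.length → r < 2 ^ κ z.length →
        Stops Q (hw z) y (r / 2 ^ (Nat.log 2 z.length - Nat.log 2 z.length / 8))
          (C2 * (Nat.log 2 z.length / 8 + κ z.length + 1) ^ 2) := by
      intro z y r hy hr
      have h := (hQ (hw z) (κ z.length) (hlen z)).1 y _ hy
        (hdiv r _ (Nat.log 2 z.length - Nat.log 2 z.length / 8) hr)
      rwa [HMe_log] at h
    have ht0 : ∀ n, C2 * (Nat.log 2 n / 8 + κ n + 1) ^ 2 ≤ C2 * (Nat.log 2 n + κ n + 1) ^ 2 :=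
      fun n => Nat.mul_le_mul_left _ (Nat.pow_le_pow_left (by omega) 2)
    refine ⟨Q', fun z y r hy hr => ?_, fun z => ?_⟩
    · rcases Nat.lt_or_ge z.length (2 ^ 320) with h | h
      · have h1 := ((hQ' z y r (κ z.length) 0 hy hr).2 h).1
        have h2 := HMe_num z.length (Nat.log 2 z.length) (κ z.length) C2 C3 0 (Nat.zero_le _)
        have h3 := tm z.length (κ z.length) Cb (Nat.log 2 z.length) (Nat.le_add_left _ _)
        exact HMe_stops h1 (h2.1.trans h3.1) (h2.2.trans h3.2)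
      · have h1 := ((hQ' z y r (κ z.length) _ hy hr).1 h (hst z y r hy hr)).1
        have h2 := HMe_num z.length (Nat.log 2 z.length) (κ z.length) C2 C3 _ (ht0 z.length)
        have h3 := tm z.length (κ z.length) Cb (Nat.log 2 z.length) (Nat.le_add_left _ _)
        exact HMe_stops h1 (h2.1.trans h3.1) (h2.2.trans h3.2)
    · set l := Nat.log 2 z.length with hl
      set g := l - l / 8 with hg
      obtain ⟨K', hK'⟩ : ∃ K', κ z.length = g + K' := ⟨κ z.length - g, by
        have := hκ z.length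
        omega⟩
      have hK2 : 2 * (Nat.log 2 (hw z).length + 2) ≤ K' := by
        rw [HMe_log]
        have := hκ z.length
        omega
      have hp := (hQ (hw z) K' hK2).2
      rw [HMe_log, ← hl] at hp
      have hexp : l + 2 = (l / 8 + 2) + g := by omega
      have hpow : ((1 : ℝ) / 2) ^ (l + 2) = (1 / 2) ^ (l / 8 + 2) / 2 ^ g := by
        rw [hexp, pow_add, one_div_pow 2 g]
        ring
      have big : 2 ^ 320 ≤ z.length → pr (κ z.length) (fun r => HAcc Q' z 0 r) =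
          pr K' (fun r => Acc Q (hw z) 0 r) / 2 ^ g := by
        intro h
        rw [← HMe_split, ← hK']
        refine HMe_congr _ _ _ fun r hr => ?_
        exact ((hQ' z 0 r (κ z.length) _ (by positivity) hr).1 h
          (hst z 0 r (by positivity) hr)).2
      constructor
      · intro hz
        show 2 * (1 / 2) ^ (l + 2) ≤ _
        rw [big hz.1, hpow, ← mul_div_assoc]
        exact div_le_div_of_nonneg_right (hp.1 hz.2) (by positivity)
      · intro hz
        show _ ≤ (1 / 2) ^ (l + 2)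
        rcases Nat.lt_or_ge z.length (2 ^ 320) with h | h
        · rw [HMe_zero _ _ fun r hr hA =>
            ((hQ' z 0 r (κ z.length) 0 (by positivity) hr).2 h).2 hA]
          positivity
        · rw [big h, hpow]
          exact div_le_div_of_nonneg_right (hp.2 fun h' => hz ⟨h, h'⟩) (by positivity)

end Pool.Agent.Lib.MP_ff3ed7_lc.MH
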