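import Pool.Agent.Lib.MP_ff3ed7_lc.MH.SpecU

/-!
# PROJECT MH: programs with several heads are machines (`tHSm`)
-/

set_option autoImplicit false

open Finset

namespace Pool.Agent.Lib.MP_ff3ed7_lc.MH

open Pool.Agent.Lib.MP_ff3ed7_lc.PLT
open Pool.Agent.Lib.MP_ff3ed7_lc.SQ (dst ql)

/-- The registers which are written are smaller than `R`. -/
def HSm_Lt {k : ℕ} (R : ℕ) : HProg k → Prop
  | .set i _ => i < R
  | .read i _ _ => i < R
  | .seq p q => HSm_Lt R p ∧ HSm_Lt R q
  | .ite _ p q => HSm_Lt R p ∧ HSm_Lt R q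
  | .loop _ p => HSm_Lt R p

private theorem HSm_mono {k : ℕ} (p : HProg k) : ∀ R R' : ℕ, R ≤ R' → HSm_Lt R p → HSm_Lt R' p := by
  induction p with
  | set i e => intro R R' h h1; exact lt_of_lt_of_le h1 h
  | read i a e => intro R R' h h1; exact lt_of_lt_of_le h1 h
  | seq p q ihp ihq => intro R R' h h1; exact ⟨ihp R R' h h1.1, ihq R R' h h1.2⟩
  | ite e p q ihp ihq => intro R R' h h1; exact ⟨ihp R R' h h1.1, ihq R R' h h1.2⟩
  | loop e p ih => intro R R' h h1; exact ih R R' h h1

private theorem HSm_exists {k : ℕ} (p : HProg k) : ∃ R : ℕ, 3 ≤ R ∧ HSm_Lt R p := by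
  induction p with
  | set i e => exact ⟨i + 3, by omega, show i < i + 3 by omega⟩
  | read i a e => exact ⟨i + 3, by omega, show i < i + 3 by omega⟩
  | seq p q ihp ihq =>
    obtain ⟨R1, h1, g1⟩ := ihp
    obtain ⟨R2, h2, g2⟩ := ihq
    exact ⟨max R1 R2, le_trans h1 (le_max_left _ _), HSm_mono p _ _ (le_max_left _ _) g1,
      HSm_mono q _ _ (le_max_right _ _) g2⟩
  | ite e p q ihp ihq =>
    obtain ⟨R1, h1, g1⟩ := ihp
    obtain ⟨R2, h2, g2⟩ := ihq
    exact ⟨max R1 R2, le_trans h1 (le_max_left _ _), HSm_mono p _ _ (le_max_left _ _) g1,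
      HSm_mono q _ _ (le_max_right _ _) g2⟩
  | loop e p ih => exact ih

/-- Runs are deterministic. -/
private theorem HSm_det {k : ℕ} {x : List Bool} {S : ℕ} {p : HProg k} {s s' : ℕ → ℕ}
    {h h' : Fin k → ℕ} {c : ℕ} (a : HRun x S p s h s' h' c) :
    ∀ {S' : ℕ} {s'' : ℕ → ℕ} {h'' : Fin k → ℕ} {c' : ℕ}, HRun x S' p s h s'' h'' c' →
      s' = s'' ∧ h' = h'' := by
  induction a with
  | set i e s h hS => intro S' s'' h'' c' b; cases b; exact ⟨rfl, rfl⟩
  | read i a e s h hS => intro S' s'' h'' c' b; cases b; exact ⟨rfl, rfl⟩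
  | seq a b iha ihb =>
    intro S' s'' h'' c' d
    cases d with
    | seq d1 d2 =>
      obtain ⟨rfl, rfl⟩ := iha d1
      exact ihb d2
  | iteT he a ih =>
    intro S' s'' h'' c' d
    cases d with
    | iteT _ d1 => exact ih d1
    | iteF he' _ => exact absurd he' he
  | iteF he a ih =>
    intro S' s'' h'' c' d
    cases d with
    | iteT he' _ => exact absurd he he'
    | iteF _ d1 => exact ih d1
  | loopT he a b iha ihb =>
    intro S' s'' h'' c' d
    cases d with
    | loopT _ d1 d2 =>
      obtain ⟨rfl, rfl⟩ := iha d1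
      exact ihb d2
    | loopF he' => exact absurd he' he
  | loopF he =>
    intro S' s'' h'' c' d
    cases d with
    | loopT he' _ _ => exact absurd he he'
    | loopF _ => exact ⟨rfl, rfl⟩

/-- The lists which occur while `p` is executed and `l` remains to be done. -/
def HSm_cs {k : ℕ} : HProg k → List (HProg k) → Set (List (HProg k))
  | .set i e, l => {.set i e :: l}
  | .read i a e, l => {.read i a e :: l}
  | .seq p q, l => {.seq p q :: l} ∪ HSm_cs p (q :: l) ∪ HSm_cs q l
  | .ite e p q, l => {.ite e p q :: l} ∪ HSm_cs p l ∪ HSm_cs q l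
  | .loop e p, l => {.loop e p :: l} ∪ HSm_cs p (.loop e p :: l)

private theorem cs_fin {k : ℕ} (p : HProg k) : ∀ l, (HSm_cs p l).Finite := by
  induction p with
  | set i e => intro l; exact Set.finite_singleton _
  | read i a e => intro l; exact Set.finite_singleton _
  | seq p q ihp ihq =>
    intro l; exact ((Set.finite_singleton _).union (ihp _)).union (ihq _)
  | ite e p q ihp ihq =>
    intro l; exact ((Set.finite_singleton _).union (ihp _)).union (ihq _)
  | loop e p ih => intro l; exact (Set.finite_singleton _).union (ih _)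

private theorem cs_self {k : ℕ} (p : HProg k) (l : List (HProg k)) : p :: l ∈ HSm_cs p l := by
  cases p <;> simp [HSm_cs]

section machine

variable {k : ℕ} (C : Finset (List (HProg k))) (hC : [] ∈ C) (R S : ℕ)

/-- Memory states: what remains to be done, and the registers. -/
abbrev HSm_Q : Type := {l // l ∈ C} × (Fin R → Fin (2 ^ S))

open Classical in
/-- Coding. -/
noncomputable def HSm_enc (l : List (HProg k)) (s : ℕ → ℕ) : HSm_Q C R S :=
  (if h : l ∈ C then ⟨l, h⟩ else ⟨[], hC⟩,
    fun i => ⟨s i % 2 ^ S, Nat.mod_lt _ (Nat.two_pow_pos S)⟩)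

/-- Decoding of the registers. -/
def HSm_reg (ρ : Fin R → Fin (2 ^ S)) (i : ℕ) : ℕ := if h : i < R then (ρ ⟨i, h⟩).1 else 0

/-- The action for the list `l` and the registers `s`. -/
noncomputable def HSm_ac (N : ℕ) : List (HProg k) → (ℕ → ℕ) → HAct k (HSm_Q C R S)
  | [], s => .stop (decide (s 0 = 1))
  | .set i e :: l, s => .jump (HSm_enc C hC R S l (Function.update s i (e.val s)))
  | .read i a e :: l, s => .visit a (min (e.val s) N) fun o =>
      HSm_enc C hC R S l (Function.update s i (if o.getD false then 1 else 0))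
  | .seq p q :: l, s => .jump (HSm_enc C hC R S (p :: q :: l) s)
  | .ite e p q :: l, s => .jump (if e.val s ≠ 0 then HSm_enc C hC R S (p :: l) s
      else HSm_enc C hC R S (q :: l) s)
  | .loop e p :: l, s => .jump (if e.val s ≠ 0 then HSm_enc C hC R S (p :: .loop e p :: l) s
      else HSm_enc C hC R S l s)

/-- The machine. -/
noncomputable def HSm_M (P : HProg k) (N y r : ℕ) : HM k (HSm_Q C R S) where
  start := HSm_enc C hC R S [P] (ini N y r)
  act q := HSm_ac C hC R S N q.1.1 (HSm_reg R S q.2)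

variable {C hC R S}

/-- The registers which occur. -/
def HSm_Gd (R S : ℕ) (s : ℕ → ℕ) : Prop := (∀ i, s i < 2 ^ S) ∧ ∀ i, R ≤ i → s i = 0

private theorem reg_enc (l : List (HProg k)) {s : ℕ → ℕ} (hs : HSm_Gd R S s) :
    HSm_reg R S (HSm_enc C hC R S l s).2 = s := by
  funext i
  unfold HSm_reg
  by_cases h : i < R
  · rw [dif_pos h]
    exact Nat.mod_eq_of_lt (hs.1 i)
  · rw [dif_neg h]
    exact (hs.2 i (not_lt.1 h)).symm

private theorem lst_enc {l : List (HProg k)} (hl : l ∈ C) (s : ℕ → ℕ) :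
    (HSm_enc C hC R S l s).1.1 = l := by
  unfold HSm_enc
  simp only [dif_pos hl]

private theorem act_enc (P : HProg k) (N y r : ℕ) {l : List (HProg k)} (hl : l ∈ C) {s : ℕ → ℕ}
    (hs : HSm_Gd R S s) :
    (HSm_M C hC R S P N y r).act (HSm_enc C hC R S l s) = HSm_ac C hC R S N l s := by
  unfold HSm_M
  simp only [lst_enc hl, reg_enc l hs]

private theorem Gd_update {s : ℕ → ℕ} (hs : HSm_Gd R S s) {i v : ℕ} (hi : i < R) (hv : v < 2 ^ S) :
    HSm_Gd R S (Function.update s i v) := by
  refine ⟨fun j => ?_, fun j hj => ?_⟩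
  · by_cases h : j = i
    · subst h; simpa using hv
    · rw [Function.update_of_ne h]; exact hs.1 j
  · rw [Function.update_of_ne (by omega)]; exact hs.2 j hj

/-- Reachability. -/
private def Rch {k : ℕ} {Q : Type} (M : HM k Q) (τ : ℕ → Option Bool) (a b : HCfg k Q) : Prop :=
  ∃ T, (M.step τ)^[T] a = b

private theorem Rch.trans {k : ℕ} {Q : Type} {M : HM k Q} {τ : ℕ → Option Bool}
    {a b c : HCfg k Q} (h : Rch M τ a b) (h' : Rch M τ b c) : Rch M τ a c := by
  obtain ⟨T, rfl⟩ := h
  obtain ⟨T', rfl⟩ := h'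
  exact ⟨T' + T, Function.iterate_add_apply _ _ _ _⟩

private theorem Rch.one {k : ℕ} {Q : Type} {M : HM k Q} {τ : ℕ → Option Bool}
    {a b : HCfg k Q} (h : M.step τ a = b) : Rch M τ a b := ⟨1, h⟩

private theorem tp_bit (N : ℕ) (x : Fin N → Bool) (v : ℕ) :
    (if (tape x (min v N)).getD false then 1 else 0) = bit (word x) v := by
  unfold tape
  by_cases h : v < N
  · rw [min_eq_left h.le, dif_pos h, bit_word x v h]
    simp only [Option.getD_some]
    cases x ⟨v, h⟩ <;> rfl
  · rw [min_eq_right (by omega), dif_neg (lt_irrefl N), bit_word_ge x v h]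
    rfl

private theorem sim (P : HProg k) (N y r : ℕ) (x : Fin N → Bool) {p : HProg k} {s s' : ℕ → ℕ}
    {h h' : Fin k → ℕ} {c : ℕ} (a : HRun (word x) S p s h s' h' c) :
    HSm_Lt R p → HSm_Gd R S s → ∀ l, HSm_cs p l ⊆ (C : Set (List (HProg k))) → l ∈ C →
      ∀ m : ℕ, ∃ m', Rch (HSm_M C hC R S P N y r) (tape x)
        ⟨HSm_enc C hC R S (p :: l) s, h, m⟩ ⟨HSm_enc C hC R S l s', h', m'⟩ ∧ m' ≤ m + c ∧
      HSm_Gd R S s' := by
  induction a with
  | set i e s h hS =>
    intro hp hs l hcs hl m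
    have h1 : HProg.set i e :: l ∈ C := hcs (cs_self _ _)
    refine ⟨m, Rch.one ?_, by omega, Gd_update hs hp hS⟩
    unfold HM.step
    simp only [act_enc P N y r h1 hs, HSm_ac]
  | read i a e s h hS =>
    intro hp hs l hcs hl m
    have h1 : HProg.read i a e :: l ∈ C := hcs (cs_self _ _)
    refine ⟨m + dst (min (e.val s) N) (h a), Rch.one ?_, ?_, Gd_update hs hp hS⟩
    · unfold HM.step
      simp only [act_enc P N y r h1 hs, HSm_ac, tp_bit, word_length]
    · rw [word_length]; omega
  | seq a b iha ihb =>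
    rename_i p q _ _ _ _ _ _ _ _
    intro hp hs l hcs hl m
    have h1 : HProg.seq p q :: l ∈ C := hcs (cs_self _ _)
    have hcp : HSm_cs p (q :: l) ⊆ (C : Set (List (HProg k))) := fun z hz =>
      hcs (Or.inl (Or.inr hz))
    have hcq : HSm_cs q l ⊆ (C : Set (List (HProg k))) := fun z hz => hcs (Or.inr hz)
    obtain ⟨m1, r1, e1, g1⟩ := iha hp.1 hs (q :: l) hcp (hcq (cs_self _ _)) m
    obtain ⟨m2, r2, e2, g2⟩ := ihb hp.2 g1 l hcq hl m1
    refine ⟨m2, (Rch.one ?_).trans (r1.trans r2), by omega, g2⟩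
    unfold HM.step
    simp only [act_enc P N y r h1 hs, HSm_ac]
  | iteT he a ih =>
    rename_i e p q _ _ _ _ _
    intro hp hs l hcs hl m
    have h1 : HProg.ite e p q :: l ∈ C := hcs (cs_self _ _)
    obtain ⟨m1, r1, e1, g1⟩ := ih hp.1 hs l (fun z hz => hcs (Or.inl (Or.inr hz))) hl m
    refine ⟨m1, (Rch.one ?_).trans r1, by omega, g1⟩
    unfold HM.step
    simp only [act_enc P N y r h1 hs, HSm_ac, if_pos he]
  | iteF he a ih =>
    rename_i e p q _ _ _ _ _
    intro hp hs l hcs hl m
    have h1 : HProg.ite e p q :: l ∈ C := hcs (cs_self _ _)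
    obtain ⟨m1, r1, e1, g1⟩ := ih hp.2 hs l (fun z hz => hcs (Or.inr hz)) hl m
    refine ⟨m1, (Rch.one ?_).trans r1, by omega, g1⟩
    unfold HM.step
    simp only [act_enc P N y r h1 hs, HSm_ac, if_neg (not_not.2 he)]
  | loopT he a b iha ihb =>
    rename_i e p _ _ _ _ _ _ _ _
    intro hp hs l hcs hl m
    have h1 : HProg.loop e p :: l ∈ C := hcs (cs_self _ _)
    obtain ⟨m1, r1, e1, g1⟩ := iha hp hs (HProg.loop e p :: l) (fun z hz => hcs (Or.inr hz)) h1 m
    obtain ⟨m2, r2, e2, g2⟩ := ihb hp g1 l hcs hl m1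
    refine ⟨m2, (Rch.one ?_).trans (r1.trans r2), by omega, g2⟩
    unfold HM.step
    simp only [act_enc P N y r h1 hs, HSm_ac, if_pos he]
  | loopF he =>
    rename_i e p s h
    intro hp hs l hcs hl m
    have h1 : HProg.loop e p :: l ∈ C := hcs (cs_self _ _)
    refine ⟨m, Rch.one ?_, by omega, hs⟩
    unfold HM.step
    simp only [act_enc P N y r h1 hs, HSm_ac, if_neg (not_not.2 he)]

end machine

private theorem mot_le {k : ℕ} {Q : Type} (M : HM k Q) (τ : ℕ → Option Bool) (a : HCfg k Q) :
    a.mot ≤ (M.step τ a).mot := by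
  unfold HM.step
  split
  · exact le_rfl
  · exact le_rfl
  · simp

private theorem mot_mono {k : ℕ} {Q : Type} (M : HM k Q) (τ : ℕ → Option Bool) (a : HCfg k Q)
    (T T' : ℕ) (h : T ≤ T') : ((M.step τ)^[T] a).mot ≤ ((M.step τ)^[T'] a).mot := by
  induction T', h using Nat.le_induction with
  | base => exact le_rfl
  | succ n hn ih =>
    rw [Function.iterate_succ_apply']
    exact ih.trans (mot_le M τ _)

private theorem stop_iter {k : ℕ} {Q : Type} (M : HM k Q) (τ : ℕ → Option Bool) (a : HCfg k Q)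
    (b : Bool) (h : M.act a.q = .stop b) (T : ℕ) : (M.step τ)^[T] a = a := by
  have h1 : M.step τ a = a := by
    unfold HM.step
    rw [h]
  exact Function.iterate_fixed h1 T

private theorem stop_after {k : ℕ} {Q : Type} (M : HM k Q) (τ : ℕ → Option Bool) (a : HCfg k Q)
    (b : Bool) (T T' : ℕ) (h : T ≤ T') (hs : M.act ((M.step τ)^[T] a).q = .stop b) :
    (M.step τ)^[T'] a = (M.step τ)^[T] a := by
  obtain ⟨d, rfl⟩ := Nat.exists_eq_add_of_le h
  rw [Nat.add_comm, Function.iterate_add_apply]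
  exact stop_iter M τ _ b hs d

theorem tHSm : S_HSm := by
  classical
  intro k P
  obtain ⟨R, hR3, hPR⟩ := HSm_exists P
  have hfin : (HSm_cs P [] ∪ {[]}).Finite := (cs_fin P []).union (Set.finite_singleton _)
  obtain ⟨C, hCeq⟩ : ∃ C : Finset (List (HProg k)),
      (C : Set (List (HProg k))) = HSm_cs P [] ∪ {[]} := ⟨hfin.toFinset, hfin.coe_toFinset⟩
  have hC : [] ∈ C := by
    rw [← Finset.mem_coe, hCeq]; exact Or.inr rfl
  have hcs : HSm_cs P [] ⊆ (C : Set (List (HProg k))) := by
    rw [hCeq]; exact Set.subset_union_left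
  refine ⟨C.card + R, fun S => ⟨HSm_Q C R S, inferInstance, ?_, ?_⟩⟩
  · rw [Fintype.card_prod, Fintype.card_coe, Fintype.card_fun, Fintype.card_fin, Fintype.card_fin]
    calc C.card * (2 ^ S) ^ R ≤ 2 ^ C.card * (2 ^ S) ^ R :=
          Nat.mul_le_mul_right _ Nat.lt_two_pow_self.le
      _ = 2 ^ (C.card + S * R) := by rw [← pow_mul, ← pow_add]
      _ ≤ 2 ^ ((C.card + R) * (S + 1)) := by
          apply Nat.pow_le_pow_right (by norm_num)
          nlinarith
  · intro N y r t hst
    have key : ∀ x : Fin N → Bool, ∃ s' h' c T m',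
        HRun (word x) S P (ini N y r) (fun _ => 0) s' h' c ∧
        c ≤ t ∧ m' ≤ c ∧ (HSm_M C hC R S P N y r).run (tape x) T =
          ⟨HSm_enc C hC R S [] s', h', m'⟩ ∧ HSm_Gd R S s' := by
      intro x
      obtain ⟨hN, hy, hr, s', h', c, hrun, hct⟩ := hst x
      rw [word_length] at hN hrun
      have hini : HSm_Gd R S (ini N y r) := by
        refine ⟨fun i => ?_, fun i hi => ?_⟩
        · unfold ini
          split_ifs
          · exact hN
          · exact hy
          · exact hr
          · exact Nat.two_pow_pos S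
        · unfold ini
          rw [if_neg (by omega), if_neg (by omega), if_neg (by omega)]
      obtain ⟨m', ⟨T, hT⟩, hm, hg⟩ := sim (C := C) (hC := hC) P N y r x hrun hPR hini [] hcs hC 0
      exact ⟨s', h', c, T, m', hrun, hct, by omega, hT, hg⟩
    have hstop : ∀ s' : ℕ → ℕ, HSm_Gd R S s' → (HSm_M C hC R S P N y r).act
        (HSm_enc C hC R S [] s') = .stop (decide (s' 0 = 1)) := by
      intro s' hg
      rw [act_enc P N y r hC hg]
      rfl
    have hact : ∀ (x : Fin N → Bool) (s' : ℕ → ℕ) (h' : Fin k → ℕ) (T m' : ℕ),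
        (HSm_M C hC R S P N y r).run (tape x) T =
          ⟨HSm_enc C hC R S [] s', h', m'⟩ → HSm_Gd R S s' →
        (HSm_M C hC R S P N y r).act ((HSm_M C hC R S P N y r).run (tape x) T).q =
          .stop (decide (s' 0 = 1)) := by
      intro x s' h' T m' hT hg
      rw [hT]
      exact hstop s' hg
    refine ⟨HSm_M C hC R S P N y r, fun x T' => ?_, fun x => ?_⟩
    · obtain ⟨s', h', c, T, m', hrun, hct, hm, hT, hg⟩ := key x
      rcases le_total T' T with h | h
      · have h1 := mot_mono (HSm_M C hC R S P N y r) (tape x)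
          ⟨(HSm_M C hC R S P N y r).start, fun _ => 0, 0⟩ T' T h
        have h2 : ((HSm_M C hC R S P N y r).run (tape x) T).mot = m' := by
          rw [hT]
        unfold HM.run at h2 ⊢
        omega
      · have h1 := stop_after (HSm_M C hC R S P N y r) (tape x)
          ⟨(HSm_M C hC R S P N y r).start, fun _ => 0, 0⟩
          (decide (s' 0 = 1)) T T' h (hact x s' h' T m' hT hg)
        have h2 : ((HSm_M C hC R S P N y r).run (tape x) T').mot = m' := by
          unfold HM.run at hT ⊢
          rw [h1, hT]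
        omega
    · obtain ⟨s', h', c, T, m', hrun, hct, hm, hT, hg⟩ := key x
      have hacc : HAcc P (word x) y r ↔ s' 0 = 1 := by
        constructor
        · rintro ⟨S1, s1, h1, c1, g1, g2⟩
          rw [word_length] at g1
          obtain ⟨rfl, -⟩ := HSm_det hrun g1
          exact g2
        · intro h
          refine ⟨S, s', h', c, ?_, h⟩
          rw [word_length]
          exact hrun
      rw [hacc]
      constructor
      · rintro ⟨T', hT'⟩
        have e1 : (HSm_M C hC R S P N y r).run (tape x) (max T T') =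
            (HSm_M C hC R S P N y r).run (tape x) T' :=
          stop_after _ _ _ _ T' (max T T') (le_max_right _ _) hT'
        have e2 : (HSm_M C hC R S P N y r).run (tape x) (max T T') =
            (HSm_M C hC R S P N y r).run (tape x) T := by
          refine stop_after _ _ _ (decide (s' 0 = 1)) T (max T T') (le_max_left _ _) ?_
          exact hact x s' h' T m' hT hg
        rw [← e1, e2, hT, hstop s' hg] at hT'
        have h3 : decide (s' 0 = 1) = true := by
          injection hT'
        exact of_decide_eq_true h3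
      · intro h
        refine ⟨T, ?_⟩
        rw [hT, hstop s' hg, h]
        rfl

end Pool.Agent.Lib.MP_ff3ed7_lc.MH
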