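import Pool.Agent.Lib.MP_ff3ed7_lc.MH.SpecU

/-!
# PROJECT MH: the program for the virtual language
-/

set_option autoImplicit false

open Finset

namespace Pool.Agent.Lib.MP_ff3ed7_lc.MH

open Pool.Agent.Lib.MP_ff3ed7_lc.PLT
open Pool.Agent.Lib.MP_ff3ed7_lc.SQ (dst ql)

/-- Runs are unique, also for different bounds of the registers. -/
private theorem HUa_det {k : ℕ} {x : List Bool} {S₁ S₂ : ℕ} {p : HProg k} {s s₁ s₂ : ℕ → ℕ}
    {h h₁ h₂ : Fin k → ℕ} {c₁ c₂ : ℕ} (a₁ : HRun x S₁ p s h s₁ h₁ c₁)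
    (a₂ : HRun x S₂ p s h s₂ h₂ c₂) : s₁ = s₂ ∧ h₁ = h₂ ∧ c₁ = c₂ := by
  induction a₁ generalizing s₂ h₂ c₂ with
  | set i e s h hS => cases a₂; exact ⟨rfl, rfl, rfl⟩
  | read i a e s h hS => cases a₂; exact ⟨rfl, rfl, rfl⟩
  | seq a b iha ihb =>
    cases a₂ with
    | seq a' b' =>
      obtain ⟨rfl, rfl, rfl⟩ := iha a'
      obtain ⟨rfl, rfl, rfl⟩ := ihb b'
      exact ⟨rfl, rfl, rfl⟩
  | iteT he a iha =>
    cases a₂ with
    | iteT he' a' => obtain ⟨rfl, rfl, rfl⟩ := iha a'; exact ⟨rfl, rfl, rfl⟩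
    | iteF he' a' => exact absurd he' he
  | iteF he a iha =>
    cases a₂ with
    | iteT he' a' => exact absurd he he'
    | iteF he' a' => obtain ⟨rfl, rfl, rfl⟩ := iha a'; exact ⟨rfl, rfl, rfl⟩
  | loopT he a b iha ihb =>
    cases a₂ with
    | loopT he' a' b' =>
      obtain ⟨rfl, rfl, rfl⟩ := iha a'
      obtain ⟨rfl, rfl, rfl⟩ := ihb b'
      exact ⟨rfl, rfl, rfl⟩
    | loopF he' => exact absurd he' he
  | loopF he =>
    cases a₂ with
    | loopT he' a' b' => exact absurd he he'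
    | loopF he' => exact ⟨rfl, rfl, rfl⟩

private theorem HUa_size {a b : ℕ} (h : a < 2 ^ b) : Nat.size a ≤ b := Nat.size_le.2 h

private theorem HUa_sz (a : ℕ) : Nat.size a ≤ a := Nat.size_le.2 Nat.lt_two_pow_self

/-- One assignment. -/
private theorem HUa_st (x : List Bool) (S i : ℕ) (e : Expr) (u : ℕ → ℕ) (h : Fin 2 → ℕ) (v : ℕ)
    (hv : e.val u = v) (hS : v < 2 ^ S) (hb : PLT.Bd u S) : ∃ u' : ℕ → ℕ,
    HRun x S (.set i e : HProg 2) u h u' h (e.cost u) ∧ u' i = v ∧ (∀ a, a ≠ i → u' a = u a) ∧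
      PLT.Bd u' S := by
  subst hv
  refine ⟨Function.update u i (e.val u), HRun.set i e u h hS, Function.update_self _ _ _,
    fun a ha => Function.update_of_ne ha _ _, fun a => ?_⟩
  by_cases ha : a = i
  · subst ha
    rw [Function.update_self]
    exact hS
  · rw [Function.update_of_ne ha]
    exact hb a

private def HUa_l1 (R : ℕ) : HProg 2 :=
  .loop (.sub (.add (.reg 0) (.num 1)) (.mul (.num 2) (.reg R)))
    (.seq (.set R (.mul (.num 2) (.reg R))) (.set (R + 1) (.add (.reg (R + 1)) (.num 1))))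

private def HUa_l2 (R : ℕ) : HProg 2 :=
  .loop (.reg (R + 5))
    (.seq (.set (R + 9) (.mul (.num 2) (.reg (R + 9))))
      (.set (R + 5) (.sub (.reg (R + 5)) (.num 1))))

/-- The preparation. -/
private def HUa_A (R : ℕ) : HProg 2 :=
  .seq (.set R (.num 1)) (.seq (.set (R + 1) (.num 0)) (.seq (HUa_l1 R)
    (.seq (.set (R + 2) (.div (.reg (R + 1)) (.num 8)))
    (.seq (.set (R + 10) (.mul (.num 3) (.reg (R + 2))))
    (.seq (.set (R + 9) (.num 1)) (.seq (.set (R + 5) (.reg (R + 2))) (.seq (HUa_l2 R)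
    (.seq (.set (R + 11) (.mul (.mul (.reg (R + 9)) (.reg (R + 9))) (.reg (R + 9))))
    (.seq (.set (R + 13) (.div (.reg R) (.num 2)))
    (.seq (.set (R + 12) (.div (.reg R) (.mul (.num 1024) (.reg (R + 11)))))
    (.set 0 (.reg (R + 9)))))))))))))

/-- The program. -/
private def HUa_P (R : ℕ) (P : Prog) : HProg 2 :=
  .ite (.sub (.num (2 ^ 320)) (.reg 0)) (.set 0 (.num 0)) (.seq (HUa_A R) (hvir R P))

/-- The first loop: the largest power of two. -/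
private theorem HUa_loop1 (x : List Bool) (S R N ℓ : ℕ) (h : Fin 2 → ℕ) (hR : 3 ≤ R) (hN : N ≠ 0)
    (hℓ : Nat.log 2 N = ℓ) (hS : ℓ + 1 ≤ S) : ∀ (d j : ℕ), j + d = ℓ → ∀ u : ℕ → ℕ, u 0 = N →
    u R = 2 ^ j → u (R + 1) = j → PLT.Bd u S →
    ∃ (u' : ℕ → ℕ) (c : ℕ), HRun x S (HUa_l1 R) u h u' h c ∧ c ≤ 31 * (ℓ + 1) * (d + 1) ∧
      u' R = 2 ^ ℓ ∧ u' (R + 1) = ℓ ∧ (∀ a, a ≠ R → a ≠ R + 1 → u' a = u a) ∧ PLT.Bd u' S := by
  have hlt : N < 2 ^ (ℓ + 1) := by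
    rw [← hℓ]
    exact Nat.lt_pow_succ_log_self (by norm_num) N
  have hle : 2 ^ ℓ ≤ N := by
    rw [← hℓ]
    exact Nat.pow_log_le_self 2 hN
  have e1 : 2 ^ (ℓ + 1) = 2 * 2 ^ ℓ := by ring
  have e2 : 2 ^ (ℓ + 2) = 4 * 2 ^ ℓ := by ring
  have hp : 1 ≤ 2 ^ ℓ := Nat.one_le_two_pow
  have s1 := HUa_sz 1
  have s2 := HUa_sz 2
  have hpS : 2 ^ (ℓ + 1) ≤ 2 ^ S := Nat.pow_le_pow_right (by norm_num) hS
  have hlS : ℓ < 2 ^ ℓ := Nat.lt_two_pow_self
  have a1 : Nat.size N ≤ ℓ + 1 := HUa_size hlt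
  have a2 : Nat.size (N + 1) ≤ ℓ + 2 := HUa_size (by omega)
  intro d
  induction d with
  | zero =>
    intro j hj u hu huR huR1 hb
    have hj' : j = ℓ := by omega
    subst hj'
    have hval : (Expr.sub (.add (.reg 0) (.num 1)) (.mul (.num 2) (.reg R))).val u = 0 := by
      simp only [Expr.val, hu, huR]
      omega
    refine ⟨u, _, HRun.loopF hval, ?_, huR, huR1, fun a _ _ => rfl, hb⟩
    simp only [Expr.cost, Expr.val, hu, huR]
    have a3 : Nat.size (2 ^ j) ≤ j + 1 := HUa_size (by omega)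
    have a4 : Nat.size (2 * 2 ^ j) ≤ j + 2 := HUa_size (by omega)
    have a5 : Nat.size (N + 1 - 2 * 2 ^ j) ≤ j + 2 := HUa_size (by omega)
    omega
  | succ d ih =>
    intro j hj u hu huR huR1 hb
    have hjle : 2 ^ (j + 1) ≤ 2 ^ ℓ := Nat.pow_le_pow_right (by norm_num) (by omega)
    have e3 : 2 ^ (j + 1) = 2 * 2 ^ j := by ring
    have hval : (Expr.sub (.add (.reg 0) (.num 1)) (.mul (.num 2) (.reg R))).val u ≠ 0 := by
      simp only [Expr.val, hu, huR]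
      omega
    obtain ⟨v, r1, v1, v2, v3⟩ := HUa_st x S R (.mul (.num 2) (.reg R)) u h (2 ^ (j + 1))
      (by simp only [Expr.val, huR]; omega) (by omega) hb
    have hv1 : v (R + 1) = j := by rw [v2 _ (by omega), huR1]
    obtain ⟨w, r2, w1, w2, w3⟩ := HUa_st x S (R + 1) (.add (.reg (R + 1)) (.num 1)) v h (j + 1)
      (by simp only [Expr.val, hv1]) (by omega) v3
    obtain ⟨u', c, r3, hc, q1, q2, q3, q4⟩ := ih (j + 1) (by omega) w
      (by rw [w2 _ (by omega), v2 _ (by omega), hu]) (by rw [w2 _ (by omega), v1]) w1 w3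
    refine ⟨u', _, HRun.loopT hval (HRun.seq r1 r2) r3, ?_, q1, q2, fun a ha hb => ?_, q4⟩
    · have a3 : Nat.size (2 ^ j) ≤ ℓ + 1 := HUa_size (by omega)
      have a4 : Nat.size (2 * 2 ^ j) ≤ ℓ + 1 := HUa_size (by omega)
      have a5 : Nat.size (N + 1 - 2 * 2 ^ j) ≤ ℓ + 2 := HUa_size (by omega)
      have a6 := HUa_sz j
      have a7 := HUa_sz (j + 1)
      have hc1 : (Expr.sub (.add (.reg 0) (.num 1)) (.mul (.num 2) (.reg R))).cost u ≤
          5 * ℓ + 18 := by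
        simp only [Expr.cost, Expr.val, hu, huR]
        omega
      have hc2 : (Expr.mul (.num 2) (.reg R)).cost u ≤ 2 * ℓ + 8 := by
        simp only [Expr.cost, Expr.val, huR]
        omega
      have hc3 : (Expr.add (.reg (R + 1)) (.num 1)).cost v ≤ 2 * ℓ + 5 := by
        simp only [Expr.cost, Expr.val, hv1]
        omega
      have e4 : 31 * (ℓ + 1) * (d + 1 + 1) = 31 * (ℓ + 1) * (d + 1) + 31 * (ℓ + 1) := by ring
      omega
    · rw [q3 a ha hb, w2 a hb, v2 a ha]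

/-- The second loop: a power of two. -/
private theorem HUa_loop2 (x : List Bool) (S R ℓ : ℕ) (h : Fin 2 → ℕ) (hS : ℓ + 1 ≤ S) :
    ∀ (d j : ℕ), j + d ≤ ℓ → ∀ u : ℕ → ℕ, u (R + 9) = 2 ^ j → u (R + 5) = d → PLT.Bd u S →
    ∃ (u' : ℕ → ℕ) (c : ℕ), HRun x S (HUa_l2 R) u h u' h c ∧ c ≤ 31 * (ℓ + 1) * (d + 1) ∧
      u' (R + 9) = 2 ^ (j + d) ∧ (∀ a, a ≠ R + 9 → a ≠ R + 5 → u' a = u a) ∧ PLT.Bd u' S := by
  have s1 := HUa_sz 1
  have s2 := HUa_sz 2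
  have hpS : 2 ^ (ℓ + 1) ≤ 2 ^ S := Nat.pow_le_pow_right (by norm_num) hS
  have e1 : 2 ^ (ℓ + 1) = 2 * 2 ^ ℓ := by ring
  have hlS : ℓ < 2 ^ ℓ := Nat.lt_two_pow_self
  intro d
  induction d with
  | zero =>
    intro j hj u hu9 hu5 hb
    have hval : (Expr.reg (R + 5)).val u = 0 := by simp only [Expr.val, hu5]
    refine ⟨u, _, HRun.loopF hval, ?_, by rw [hu9, Nat.add_zero], fun a _ _ => rfl, hb⟩
    simp only [Expr.cost, hu5, Nat.size_zero]
    omega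
  | succ d ih =>
    intro j hj u hu9 hu5 hb
    have hjle : 2 ^ (j + 1) ≤ 2 ^ ℓ := Nat.pow_le_pow_right (by norm_num) (by omega)
    have e3 : 2 ^ (j + 1) = 2 * 2 ^ j := by ring
    have hval : (Expr.reg (R + 5)).val u ≠ 0 := by
      simp only [Expr.val, hu5]
      omega
    obtain ⟨v, r1, v1, v2, v3⟩ := HUa_st x S (R + 9) (.mul (.num 2) (.reg (R + 9))) u h
      (2 ^ (j + 1)) (by simp only [Expr.val, hu9]; omega) (by omega) hb
    have hv5 : v (R + 5) = d + 1 := by rw [v2 _ (by omega), hu5]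
    obtain ⟨w, r2, w1, w2, w3⟩ := HUa_st x S (R + 5) (.sub (.reg (R + 5)) (.num 1)) v h d
      (by simp only [Expr.val, hv5]; omega) (by omega) v3
    obtain ⟨u', c, r3, hc, q1, q3, q4⟩ := ih (j + 1) (by omega) w
      (by rw [w2 _ (by omega), v1]) w1 w3
    refine ⟨u', _, HRun.loopT hval (HRun.seq r1 r2) r3, ?_, ?_, fun a ha hb => ?_, q4⟩
    · have a3 : Nat.size (2 ^ j) ≤ ℓ + 1 := HUa_size (by omega)
      have a4 : Nat.size (2 * 2 ^ j) ≤ ℓ + 1 := HUa_size (by omega)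
      have a6 := HUa_sz d
      have a7 := HUa_sz (d + 1)
      have a8 : Nat.size (d + 1 - 1) ≤ d := by
        rw [Nat.add_sub_cancel]
        exact a6
      have hc1 : (Expr.reg (R + 5)).cost u ≤ ℓ + 1 := by
        simp only [Expr.cost, hu5]
        omega
      have hc2 : (Expr.mul (.num 2) (.reg (R + 9))).cost u ≤ 2 * ℓ + 8 := by
        simp only [Expr.cost, Expr.val, hu9]
        omega
      have hc3 : (Expr.sub (.reg (R + 5)) (.num 1)).cost v ≤ 2 * ℓ + 5 := by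
        simp only [Expr.cost, Expr.val, hv5]
        omega
      have e4 : 31 * (ℓ + 1) * (d + 1 + 1) = 31 * (ℓ + 1) * (d + 1) + 31 * (ℓ + 1) := by ring
      omega
    · rw [q1]
      congr 1
      omega
    · rw [q3 a ha hb, w2 a hb, v2 a ha]

/-- The preparation. -/
private theorem HUa_prep (x : List Bool) (S R N ℓ : ℕ) (h : Fin 2 → ℕ) (hR : 3 ≤ R) (hN : N ≠ 0)
    (hℓ : Nat.log 2 N = ℓ) (hℓ16 : 16 ≤ ℓ) (hS : ℓ + 1 ≤ S) (u : ℕ → ℕ) (hu : u 0 = N)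
    (hb : PLT.Bd u S) :
    ∃ (u' : ℕ → ℕ) (c : ℕ), HRun x S (HUa_A R) u h u' h c ∧ c ≤ 200 * (ℓ + 1) ^ 2 ∧
      u' 0 = vm N ∧ Cst R N u' ∧ (∀ i < R, i ≠ 0 → u' i = u i) ∧ PLT.Bd u' S := by
  obtain ⟨m, hm⟩ : ∃ m, ℓ / 8 = m := ⟨_, rfl⟩
  have hm1 : 3 * m + 10 ≤ ℓ := by omega
  have hpS : 2 ^ (ℓ + 1) ≤ 2 ^ S := Nat.pow_le_pow_right (by norm_num) hS
  have e1 : 2 ^ (ℓ + 1) = 2 * 2 ^ ℓ := by ring
  have hlS : ℓ < 2 ^ ℓ := Nat.lt_two_pow_self
  have hpm : 2 ^ m ≤ 2 ^ ℓ := Nat.pow_le_pow_right (by norm_num) (by omega)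
  have hpm2 : 2 ^ m * 2 ^ m ≤ 2 ^ ℓ := by
    rw [← pow_add]
    exact Nat.pow_le_pow_right (by norm_num) (by omega)
  have hp3 : 2 ^ m * 2 ^ m * 2 ^ m = 2 ^ (3 * m) := by
    rw [← pow_add, ← pow_add]
    congr 1
    omega
  have hp3l : 2 ^ (3 * m) ≤ 2 ^ ℓ := Nat.pow_le_pow_right (by norm_num) (by omega)
  have hp10 : 1024 * 2 ^ (3 * m) = 2 ^ (3 * m + 10) := by
    rw [pow_add]
    ring
  have hp10l : 2 ^ (3 * m + 10) ≤ 2 ^ ℓ := Nat.pow_le_pow_right (by norm_num) hm1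
  have hd10 : 2 ^ ℓ / 2 ^ (3 * m + 10) = 2 ^ (ℓ - 10 - 3 * m) := by
    rw [Nat.pow_div hm1 (by norm_num)]
    congr 1
    omega
  have hdl : 2 ^ (ℓ - 10 - 3 * m) ≤ 2 ^ ℓ := Nat.pow_le_pow_right (by norm_num) (by omega)
  have hd2 : 2 ^ ℓ / 2 = 2 ^ (ℓ - 1) := by
    have : 2 ^ ℓ = 2 ^ (ℓ - 1) * 2 := by
      rw [← pow_succ]
      congr 1
      omega
    rw [this, Nat.mul_div_cancel _ (by norm_num)]
  have hd2l : 2 ^ (ℓ - 1) ≤ 2 ^ ℓ := Nat.pow_le_pow_right (by norm_num) (by omega)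
  have s0 : Nat.size 0 = 0 := Nat.size_zero
  have s1 := HUa_sz 1
  have s2 := HUa_sz 2
  have s3 := HUa_sz 3
  have s8 := HUa_sz 8
  have s1024 : Nat.size 1024 ≤ 11 := HUa_size (by norm_num)
  have sl := HUa_sz ℓ
  have sm := HUa_sz m
  have s3m := HUa_sz (3 * m)
  have b1 : Nat.size (2 ^ ℓ) ≤ ℓ + 1 := HUa_size (by omega)
  have b2 : Nat.size (2 ^ m) ≤ ℓ + 1 := HUa_size (by omega)
  have b3 : Nat.size (2 ^ m * 2 ^ m) ≤ ℓ + 1 := HUa_size (by omega)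
  have b4 : Nat.size (2 ^ (3 * m)) ≤ ℓ + 1 := HUa_size (by omega)
  have b5 : Nat.size (2 ^ (3 * m + 10)) ≤ ℓ + 1 := HUa_size (by omega)
  have b6 : Nat.size (2 ^ (ℓ - 10 - 3 * m)) ≤ ℓ + 1 := HUa_size (by omega)
  have b7 : Nat.size (2 ^ (ℓ - 1)) ≤ ℓ + 1 := HUa_size (by omega)
  -- the steps
  obtain ⟨u1, r1, p1, q1, z1⟩ := HUa_st x S R (.num 1) u h 1 rfl (by omega) hb
  obtain ⟨u2, r2, p2, q2, z2⟩ := HUa_st x S (R + 1) (.num 0) u1 h 0 rfl (by omega) z1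
  obtain ⟨u3, c3, r3, hc3, p3, p3', q3, z3⟩ := HUa_loop1 x S R N ℓ h hR hN hℓ hS ℓ 0 (by omega) u2
    (by rw [q2 _ (by omega), q1 _ (by omega), hu]) (by rw [q2 _ (by omega), p1, pow_zero]) p2 z2
  obtain ⟨u4, r4, p4, q4, z4⟩ := HUa_st x S (R + 2) (.div (.reg (R + 1)) (.num 8)) u3 h m
    (by simp only [Expr.val, p3', hm]) (by omega) z3
  obtain ⟨u5, r5, p5, q5, z5⟩ := HUa_st x S (R + 10) (.mul (.num 3) (.reg (R + 2))) u4 h (3 * m)
    (by simp only [Expr.val, p4]) (by omega) z4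
  obtain ⟨u6, r6, p6, q6, z6⟩ := HUa_st x S (R + 9) (.num 1) u5 h 1 rfl (by omega) z5
  have h62 : u6 (R + 2) = m := by rw [q6 _ (by omega), q5 _ (by omega), p4]
  obtain ⟨u7, r7, p7, q7, z7⟩ := HUa_st x S (R + 5) (.reg (R + 2)) u6 h m
    (by simp only [Expr.val, h62]) (by omega) z6
  obtain ⟨u8, c8, r8, hc8, p8, q8, z8⟩ := HUa_loop2 x S R ℓ h hS m 0 (by omega) u7
    (by rw [q7 _ (by omega), p6, pow_zero]) p7 z7
  rw [Nat.zero_add] at p8
  obtain ⟨u9, r9, p9, q9, z9⟩ := HUa_st x S (R + 11)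
    (.mul (.mul (.reg (R + 9)) (.reg (R + 9))) (.reg (R + 9))) u8 h (2 ^ (3 * m))
    (by simp only [Expr.val, p8, hp3]) (by omega) z8
  have h9R : u9 R = 2 ^ ℓ := by
    rw [q9 _ (by omega), q8 _ (by omega) (by omega), q7 _ (by omega), q6 _ (by omega),
      q5 _ (by omega), q4 _ (by omega), p3]
  obtain ⟨u10, r10, p10, q10, z10⟩ := HUa_st x S (R + 13) (.div (.reg R) (.num 2)) u9 h
    (2 ^ (ℓ - 1)) (by simp only [Expr.val, h9R, hd2]) (by omega) z9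
  have h10R : u10 R = 2 ^ ℓ := by rw [q10 _ (by omega), h9R]
  have h1011 : u10 (R + 11) = 2 ^ (3 * m) := by rw [q10 _ (by omega), p9]
  obtain ⟨u11, r11, p11, q11, z11⟩ := HUa_st x S (R + 12)
    (.div (.reg R) (.mul (.num 1024) (.reg (R + 11)))) u10 h (2 ^ (ℓ - 10 - 3 * m))
    (by simp only [Expr.val, h10R, h1011, hp10, hd10]) (by omega) z10
  have h119 : u11 (R + 9) = 2 ^ m := by
    rw [q11 _ (by omega), q10 _ (by omega), q9 _ (by omega), p8]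
  obtain ⟨u12, r12, p12, q12, z12⟩ := HUa_st x S 0 (.reg (R + 9)) u11 h (2 ^ m)
    (by simp only [Expr.val, h119]) (by omega) z11
  refine ⟨u12, _, HRun.seq r1 (HRun.seq r2 (HRun.seq r3 (HRun.seq r4 (HRun.seq r5 (HRun.seq r6
    (HRun.seq r7 (HRun.seq r8 (HRun.seq r9 (HRun.seq r10 (HRun.seq r11 r12)))))))))), ?_, ?_, ?_,
    ?_, z12⟩
  · have t1 : (Expr.num 1).cost u ≤ 2 := by
      simp only [Expr.cost]
      omega
    have t2 : (Expr.num 0).cost u1 ≤ 1 := by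
      simp only [Expr.cost, s0]
      omega
    have t4 : (Expr.div (.reg (R + 1)) (.num 8)).cost u3 ≤ 2 * ℓ + 11 := by
      simp only [Expr.cost, Expr.val, p3', hm]
      omega
    have t5 : (Expr.mul (.num 3) (.reg (R + 2))).cost u4 ≤ 2 * ℓ + 6 := by
      simp only [Expr.cost, Expr.val, p4]
      omega
    have t6 : (Expr.num 1).cost u5 ≤ 2 := by
      simp only [Expr.cost]
      omega
    have t7 : (Expr.reg (R + 2)).cost u6 ≤ ℓ + 1 := by
      simp only [Expr.cost, h62]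
      omega
    have t9 : (Expr.mul (.mul (.reg (R + 9)) (.reg (R + 9))) (.reg (R + 9))).cost u8 ≤
        5 * ℓ + 10 := by
      simp only [Expr.cost, Expr.val, p8, hp3]
      omega
    have t10 : (Expr.div (.reg R) (.num 2)).cost u9 ≤ 2 * ℓ + 8 := by
      simp only [Expr.cost, Expr.val, h9R, hd2]
      omega
    have t11 : (Expr.div (.reg R) (.mul (.num 1024) (.reg (R + 11)))).cost u10 ≤
        4 * ℓ + 20 := by
      simp only [Expr.cost, Expr.val, h10R, h1011, hp10, hd10]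
      omega
    have t12 : (Expr.reg (R + 9)).cost u11 ≤ ℓ + 2 := by
      simp only [Expr.cost, h119]
      omega
    have k1 : 31 * (ℓ + 1) * (ℓ + 1) = 31 * (ℓ + 1) ^ 2 := by ring
    have k2 : 31 * (ℓ + 1) * (m + 1) ≤ 31 * (ℓ + 1) * (ℓ + 1) :=
      Nat.mul_le_mul_left _ (by omega)
    have k3 : 17 * (ℓ + 1) ≤ (ℓ + 1) ^ 2 := by
      rw [pow_two]
      exact Nat.mul_le_mul_right _ (by omega)
    rw [k1] at hc3 k2
    omega
  · rw [p12]
    unfold vm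
    rw [hℓ, hm]
  · refine ⟨?_, ?_, ?_, ?_, ?_⟩
    · rw [q12 _ (by omega), h119]
      unfold vm
      rw [hℓ, hm]
    · rw [q12 _ (by omega), q11 _ (by omega), q10 _ (by omega), q9 _ (by omega),
        q8 _ (by omega) (by omega), q7 _ (by omega), q6 _ (by omega), p5, hℓ, hm]
    · rw [q12 _ (by omega), q11 _ (by omega), h1011]
      unfold vp
      rw [hℓ, hm]
    · rw [q12 _ (by omega), p11]
      unfold vB
      rw [hℓ, hm]
    · rw [q12 _ (by omega), q11 _ (by omega), p10, hℓ]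
  · intro i hi hi0
    rw [q12 _ hi0, q11 _ (by omega), q10 _ (by omega), q9 _ (by omega),
      q8 _ (by omega) (by omega), q7 _ (by omega), q6 _ (by omega), q5 _ (by omega),
      q4 _ (by omega), q3 _ (by omega) (by omega), q2 _ (by omega), q1 _ (by omega)]

private theorem HUa_hw (z : List Bool) : (hw z).length = vm z.length := by
  unfold hw
  exact List.length_ofFn

private theorem HUa_two (M : ℕ) (hM : M = 2 ^ 320) : 1 ≤ M ∧ Nat.size M ≤ 321 := by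
  constructor
  · rw [hM]
    exact Nat.one_le_two_pow
  · refine HUa_size ?_
    rw [hM]
    exact Nat.pow_lt_pow_right (by norm_num) (by norm_num)

/-- Short inputs. -/
private theorem HUa_small (R : ℕ) (P : Prog) (z : List Bool) (hz : z.length < 2 ^ 320)
    (y r S : ℕ) : ∃ (u' : ℕ → ℕ) (h' : Fin 2 → ℕ) (c' : ℕ),
    HRun z S (HUa_P R P) (ini z.length y r) (fun _ => 0) u' h' c' ∧ c' ≤ 1000 ∧ u' 0 = 0 := by
  unfold HUa_P
  obtain ⟨M, hM⟩ : ∃ M : ℕ, M = 2 ^ 320 := ⟨_, rfl⟩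
  obtain ⟨hM1, hM2⟩ := HUa_two M hM
  have a1 : Nat.size z.length ≤ 320 := HUa_size hz
  have a2 : Nat.size (M - z.length) ≤ 321 :=
    (Nat.size_le_size (Nat.sub_le _ _)).trans hM2
  rw [← hM] at hz ⊢
  have h0 : ini z.length y r 0 = z.length := rfl
  have hval : (Expr.sub (.num M) (.reg 0)).val (ini z.length y r) ≠ 0 := by
    simp only [Expr.val, h0]
    omega
  have hset := HRun.set (k := 2) (x := z) (S := S) 0 (.num 0) (ini z.length y r) (fun _ => 0)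
    (by simp only [Expr.val]; positivity)
  refine ⟨_, _, _, HRun.iteT hval hset, ?_, ?_⟩
  · simp only [Expr.cost, Expr.val, h0, Nat.size_zero]
    omega
  · rw [Function.update_self]
    rfl

/-- Long inputs. -/
private theorem HUa_long {K : ℕ}
    (hV : ∀ (R : ℕ) (P : Prog) (z : List Bool)
    (s s' : ℕ → ℕ) (c : ℕ), P.Lt R → 2 ^ 320 ≤ z.length → Run (hw z) P s s' c →
    ∀ (S : ℕ) (u : ℕ → ℕ) (h : Fin 2 → ℕ), (∀ i < R, s i = u i) → Cst R z.length u →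
    PLT.Bd u S → c + Nat.log 2 z.length + 20 ≤ S → (∀ a, h a ≤ z.length) →
    ∃ (u' : ℕ → ℕ) (h' : Fin 2 → ℕ) (c' : ℕ), HRun z S (hvir R P) u h u' h' c' ∧
      c' ≤ K * (z.length + 1) * (Nat.log 2 z.length + 1) * c ∧ (∀ i < R, s' i = u' i) ∧
      Cst R z.length u' ∧ PLT.Bd u' S ∧ ∀ a, h' a ≤ z.length)
    (R : ℕ) (P : Prog) (hR : 3 ≤ R) (hP : P.Lt R) (z : List Bool) (hz : 2 ^ 320 ≤ z.length)
    (y r S c t : ℕ) (s' : ℕ → ℕ) (hrun : Run (hw z) P (ini (hw z).length y r) s' c) (hct : c ≤ t)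
    (hy : y < 2 ^ S) (hr : r < 2 ^ S) (hcS : t + Nat.log 2 z.length + 20 ≤ S) :
    ∃ (u' : ℕ → ℕ) (h' : Fin 2 → ℕ) (c' : ℕ),
      HRun z S (HUa_P R P) (ini z.length y r) (fun _ => 0) u' h' c' ∧
      c' ≤ (1000 + K) * (z.length + 1) * (Nat.log 2 z.length + 1) * (t + 1) ∧ u' 0 = s' 0 := by
  unfold HUa_P
  obtain ⟨M, hM⟩ : ∃ M : ℕ, M = 2 ^ 320 := ⟨_, rfl⟩
  obtain ⟨hM1, hM2⟩ := HUa_two M hM
  obtain ⟨N, hN⟩ : ∃ N, z.length = N := ⟨_, rfl⟩
  obtain ⟨ℓ, hℓ⟩ : ∃ ℓ, Nat.log 2 N = ℓ := ⟨_, rfl⟩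
  have hℓ320 : 320 ≤ ℓ := by
    rw [← hℓ, ← hN]
    exact Nat.le_log_of_pow_le (by norm_num) hz
  have hz' := hz
  rw [← hM] at hz' ⊢
  rw [hN] at hz' hcS ⊢
  rw [hℓ] at hcS ⊢
  have hN0 : N ≠ 0 := by omega
  have hlt : N < 2 ^ (ℓ + 1) := by
    rw [← hℓ]
    exact Nat.lt_pow_succ_log_self (by norm_num) N
  have hle : 2 ^ ℓ ≤ N := by
    rw [← hℓ]
    exact Nat.pow_log_le_self 2 hN0
  have hlS : ℓ < 2 ^ ℓ := Nat.lt_two_pow_self
  have hNS : N < 2 ^ S := hlt.trans_le (Nat.pow_le_pow_right (by norm_num) (by omega))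
  obtain ⟨u0, hu0⟩ : ∃ u0, u0 = ini N y r := ⟨_, rfl⟩
  have h0 : u0 0 = N := by
    rw [hu0]
    rfl
  have hb0 : PLT.Bd u0 S := by
    intro i
    rw [hu0]
    unfold ini
    split_ifs
    · exact hNS
    · exact hy
    · exact hr
    · positivity
  rw [← hu0]
  have hval : (Expr.sub (.num M) (.reg 0)).val u0 = 0 := by
    simp only [Expr.val, h0]
    omega
  obtain ⟨u1, c1, r1, hc1, g0, g1, g2, g3⟩ := HUa_prep z S R N ℓ (fun _ => 0) hR hN0 hℓ (by omega)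
    (by omega) u0 h0 hb0
  have hag : ∀ i < R, ini (hw z).length y r i = u1 i := by
    intro i hi
    by_cases hi0 : i = 0
    · subst hi0
      rw [g0, ← hN, ← HUa_hw]
      rfl
    · rw [g2 i hi hi0, hu0]
      simp only [ini, if_neg hi0]
  obtain ⟨u', h', c', r2, hc2, hag', -, -, -⟩ := hV R P z (ini (hw z).length y r) s' c hP hz hrun
    S u1 (fun _ => 0) hag (by rw [hN]; exact g1) g3 (by rw [hN, hℓ]; omega)
    (fun _ => Nat.zero_le _)
  rw [hN, hℓ] at hc2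
  refine ⟨u', h', _, HRun.iteF hval (HRun.seq r1 r2), ?_, (hag' 0 (by omega)).symm⟩
  have t0 : (Expr.sub (.num M) (.reg 0)).cost u0 ≤ ℓ + 330 := by
    have a1 : Nat.size N ≤ ℓ + 1 := HUa_size hlt
    have a6 : M - N = 0 := by omega
    simp only [Expr.cost, Expr.val, h0, a6, Nat.size_zero]
    omega
  have k1 : (ℓ + 1) ^ 2 ≤ (N + 1) * (ℓ + 1) := by
    rw [pow_two]
    exact Nat.mul_le_mul_right _ (by omega)
  have k2 : K * (N + 1) * (ℓ + 1) * c ≤ K * (N + 1) * (ℓ + 1) * t := Nat.mul_le_mul_left _ hct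
  have k3 : (1000 + K) * (N + 1) * (ℓ + 1) * (t + 1) =
      1000 * ((N + 1) * (ℓ + 1)) + 1000 * ((N + 1) * (ℓ + 1)) * t + K * (N + 1) * (ℓ + 1) * t +
        K * (N + 1) * (ℓ + 1) := by ring
  have k4 : ℓ + 330 ≤ 2 * (ℓ + 1) ^ 2 := by
    rw [pow_two]
    nlinarith
  rw [k3]
  omega

theorem tHUa : S_HUa := by
  intro hT hI hRR hV P
  obtain ⟨K₀, -, hV⟩ := hV hT hI hRR
  obtain ⟨R, hR, hPR⟩ := P.exists_lt
  refine ⟨HUa_P R P, 1000 + K₀, ?_⟩
  intro z y r K t hy hr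
  obtain ⟨S, hS⟩ : ∃ S, S = t + K + Nat.log 2 z.length + (1000 + K₀) := ⟨_, rfl⟩
  rw [← hS]
  have hKS : 2 ^ K ≤ 2 ^ S := Nat.pow_le_pow_right (by norm_num) (by omega)
  have hzS : z.length < 2 ^ S := (Nat.lt_pow_succ_log_self (by norm_num) z.length).trans_le
    (Nat.pow_le_pow_right (by norm_num) (by omega))
  constructor
  · rintro hz ⟨s', c, hrun, hct⟩
    obtain ⟨u', h', c', h1, h2, h3⟩ := HUa_long hV R P hR hPR z hz y r S c t s' hrun hct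
      (hy.trans_le hKS) (hr.trans_le hKS) (by omega)
    refine ⟨⟨hzS, hy.trans_le hKS, hr.trans_le hKS, u', h', c', h1, h2⟩, ?_, ?_⟩
    · rintro ⟨S', s, h, d, h4, h5⟩
      obtain ⟨h6, -, -⟩ := HUa_det h4 h1
      exact ⟨s', c, hrun, by rw [← h3, ← h6, h5]⟩
    · rintro ⟨s, d, h4, h5⟩
      obtain ⟨rfl, -⟩ := h4.det hrun
      exact ⟨S, u', h', c', h1, by rw [h3, h5]⟩
  · intro hz
    obtain ⟨u', h', c', h1, h2, h3⟩ := HUa_small R P z hz y r S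
    refine ⟨⟨hzS, hy.trans_le hKS, hr.trans_le hKS, u', h', c', h1, h2.trans ?_⟩, ?_⟩
    · have k1 : 1 ≤ (z.length + 1) * (Nat.log 2 z.length + 1) * (t + 1) :=
        Nat.succ_le_of_lt (by positivity)
      calc 1000 ≤ (1000 + K₀) * 1 := by omega
        _ ≤ (1000 + K₀) * ((z.length + 1) * (Nat.log 2 z.length + 1) * (t + 1)) :=
            Nat.mul_le_mul_left _ k1
        _ = (1000 + K₀) * (z.length + 1) * (Nat.log 2 z.length + 1) * (t + 1) := by ring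
    · rintro ⟨S', s, h, d, h4, h5⟩
      obtain ⟨h6, -, -⟩ := HUa_det h4 h1
      rw [h6, h3] at h5
      omega

end Pool.Agent.Lib.MP_ff3ed7_lc.MH
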