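import Pool.Agent.Lib.MP_ff3ed7_lc.MH.SpecU

/-!
# PROJECT MH, module HUb: the program for the virtual language with a test of some coins
-/

set_option autoImplicit false

open Finset

namespace Pool.Agent.Lib.MP_ff3ed7_lc.MH

open Pool.Agent.Lib.MP_ff3ed7_lc.PLT
open Pool.Agent.Lib.MP_ff3ed7_lc.SQ (dst ql)

/-- Runs are unique, also for different bounds of the registers. -/
private lemma HUb_det {k : ℕ} {x : List Bool} {S S' : ℕ} {p : HProg k} {s s₁ s₂ : ℕ → ℕ}
    {h h₁ h₂ : Fin k → ℕ} {c₁ c₂ : ℕ} (a : HRun x S p s h s₁ h₁ c₁)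
    (b : HRun x S' p s h s₂ h₂ c₂) : s₁ = s₂ ∧ h₁ = h₂ ∧ c₁ = c₂ := by
  induction a generalizing s₂ h₂ c₂ with
  | set i e s h hS => cases b; exact ⟨rfl, rfl, rfl⟩
  | read i a e s h hS => cases b; exact ⟨rfl, rfl, rfl⟩
  | seq a a' ih ih' =>
    cases b with
    | seq k k' =>
      obtain ⟨rfl, rfl, rfl⟩ := ih k
      obtain ⟨rfl, rfl, rfl⟩ := ih' k'
      exact ⟨rfl, rfl, rfl⟩
  | iteT he a ih =>
    cases b with
    | iteT he' k => obtain ⟨rfl, rfl, rfl⟩ := ih k; exact ⟨rfl, rfl, rfl⟩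
    | iteF he' k => exact absurd he' he
  | iteF he a ih =>
    cases b with
    | iteT he' k => exact absurd he he'
    | iteF he' k => obtain ⟨rfl, rfl, rfl⟩ := ih k; exact ⟨rfl, rfl, rfl⟩
  | loopT he a a' ih ih' =>
    cases b with
    | loopT he' k k' =>
      obtain ⟨rfl, rfl, rfl⟩ := ih k
      obtain ⟨rfl, rfl, rfl⟩ := ih' k'
      exact ⟨rfl, rfl, rfl⟩
    | loopF he' => exact absurd he' he
  | loopF he =>
    cases b with
    | loopT he' k k' => exact absurd he he'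
    | loopF he' => exact ⟨rfl, rfl, rfl⟩

/-- A run with fixed heads and cost at most `n * B`. -/
private def HUb_St (z : List Bool) (S B : ℕ) (p : HProg 2) (u u' : ℕ → ℕ) (n : ℕ) : Prop :=
  ∀ h : Fin 2 → ℕ, ∃ c, HRun z S p u h u' h c ∧ c ≤ n * B

private lemma HUb_Bd {u : ℕ → ℕ} {B : ℕ} (hu : PLT.Bd u B) (i v : ℕ) (hv : v < 2 ^ B) :
    PLT.Bd (Function.update u i v) B := by
  intro j
  by_cases hj : j = i
  · subst hj
    rw [Function.update_self]
    exact hv
  · rw [Function.update_of_ne hj]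
    exact hu j

private lemma HUb_set {z : List Bool} {S B : ℕ} {u : ℕ → ℕ} (hB : 1 ≤ B) (hBS : B ≤ S)
    (hu : PLT.Bd u B) (i : ℕ) (e : Expr) (v : ℕ) (hv : e.val u = v) (hvB : v < 2 ^ B) :
    HUb_St z S B (.set i e) u (Function.update u i v) e.cc := by
  intro h
  subst hv
  exact ⟨_, HRun.set i e u h (hvB.trans_le (Nat.pow_le_pow_right (by norm_num) hBS)),
    e.cost_le hB hu⟩

private lemma HUb_seq {z : List Bool} {S B : ℕ} {p q : HProg 2} {u u' u'' : ℕ → ℕ} {n n' : ℕ}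
    (h1 : HUb_St z S B p u u' n) (h2 : HUb_St z S B q u' u'' n') :
    HUb_St z S B (.seq p q) u u'' (n + n') := by
  intro h
  obtain ⟨c, hc, hcn⟩ := h1 h
  obtain ⟨c', hc', hcn'⟩ := h2 h
  refine ⟨_, HRun.seq hc hc', ?_⟩
  rw [add_mul]
  exact add_le_add hcn hcn'

private lemma HUb_mono {z : List Bool} {S B : ℕ} {p : HProg 2} {u u' : ℕ → ℕ} {n n' : ℕ}
    (h1 : HUb_St z S B p u u' n) (h2 : n ≤ n') : HUb_St z S B p u u' n' := by
  intro h
  obtain ⟨c, hc, hcn⟩ := h1 h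
  exact ⟨c, hc, hcn.trans (Nat.mul_le_mul_right _ h2)⟩

/-- The test of the first loop. -/
private def HUb_e1 (R : ℕ) : Expr := .sub (.add (.reg 0) (.num 1)) (.mul (.num 2) (.reg R))

private def HUb_d1 (R : ℕ) : Expr := .mul (.num 2) (.reg R)

private def HUb_a (i : ℕ) : Expr := .add (.reg i) (.num 1)

private def HUb_c1 (R : ℕ) : ℕ := (HUb_e1 R).cc + (HUb_d1 R).cc + (HUb_a (R + 1)).cc

/-- The first loop. -/
private lemma HUb_loop1 (z : List Bool) (S B R N ℓ : ℕ) (hR : 3 ≤ R) (hN : N ≠ 0)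
    (hℓ : Nat.log 2 N = ℓ) (hB : ℓ + 2 ≤ B) (hBS : B ≤ S) : ∀ (d j : ℕ), j + d = ℓ →
    ∀ u : ℕ → ℕ, PLT.Bd u B → u 0 = N → u R = 2 ^ j → u (R + 1) = j →
    ∃ u', HUb_St z S B (.loop (HUb_e1 R) (.seq (.set R (HUb_d1 R)) (.set (R + 1) (HUb_a (R + 1)))))
      u u' (HUb_c1 R * (d + 1)) ∧ PLT.Bd u' B ∧ u' R = 2 ^ ℓ ∧ u' (R + 1) = ℓ ∧
      ∀ i, i ≠ R → i ≠ R + 1 → u' i = u i := by
  have hlt : N < 2 ^ (ℓ + 1) := by
    rw [← hℓ]
    exact Nat.lt_pow_succ_log_self (by norm_num) N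
  have hle : 2 ^ ℓ ≤ N := by
    rw [← hℓ]
    exact Nat.pow_log_le_self 2 hN
  have e1 : 2 ^ (ℓ + 1) = 2 * 2 ^ ℓ := by ring
  have hB1 : 1 ≤ B := by omega
  have hjB : ∀ j, j ≤ ℓ → 2 ^ j < 2 ^ B := fun j hj =>
    Nat.pow_lt_pow_right (by norm_num) (by omega)
  have hlB : ∀ j, j ≤ ℓ → j < 2 ^ B := fun j hj =>
    (Nat.lt_two_pow_self).trans (hjB j hj)
  intro d
  induction d with
  | zero =>
    intro j hj u hBd hu hu4 hu5
    have hj' : j = ℓ := by omega
    subst hj'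
    have hval : (HUb_e1 R).val u = 0 := by
      simp only [HUb_e1, Expr.val, hu, hu4]
      omega
    refine ⟨u, fun h => ⟨_, HRun.loopF hval, ?_⟩, hBd, hu4, hu5, fun _ _ _ => rfl⟩
    have h1 := (HUb_e1 R).cost_le hB1 hBd
    have h2 : (HUb_e1 R).cc * B ≤ HUb_c1 R * (0 + 1) * B := by
      apply Nat.mul_le_mul_right
      unfold HUb_c1
      omega
    exact h1.trans h2
  | succ d ih =>
    intro j hj u hBd hu hu4 hu5
    have hjle : 2 ^ (j + 1) ≤ 2 ^ ℓ := Nat.pow_le_pow_right (by norm_num) (by omega)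
    have e3 : 2 ^ (j + 1) = 2 * 2 ^ j := by ring
    have hval : (HUb_e1 R).val u ≠ 0 := by
      simp only [HUb_e1, Expr.val, hu, hu4]
      omega
    have hv1 : (HUb_d1 R).val u = 2 ^ (j + 1) := by
      simp only [HUb_d1, Expr.val, hu4]
      omega
    have s1 := HUb_set (z := z) hB1 hBS hBd R (HUb_d1 R) (2 ^ (j + 1)) hv1 (hjB _ (by omega))
    have b1 := HUb_Bd hBd R (2 ^ (j + 1)) (hjB _ (by omega))
    have hv2 : (HUb_a (R + 1)).val (Function.update u R (2 ^ (j + 1))) = j + 1 := by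
      simp only [HUb_a, Expr.val]
      rw [Function.update_of_ne (by omega), hu5]
    have s2 := HUb_set (z := z) hB1 hBS b1 (R + 1) (HUb_a (R + 1)) (j + 1) hv2 (hlB _ (by omega))
    have b2 := HUb_Bd b1 (R + 1) (j + 1) (hlB _ (by omega))
    obtain ⟨u', t1, t2, t3, t4, t5⟩ := ih (j + 1) (by omega) _ b2
      (by rw [Function.update_of_ne (by omega), Function.update_of_ne (by omega), hu])
      (by rw [Function.update_of_ne (by omega), Function.update_self])
      (by rw [Function.update_self])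
    refine ⟨u', fun h => ?_, t2, t3, t4, fun i h1 h2 => ?_⟩
    · obtain ⟨c, hc, hcn⟩ := HUb_seq s1 s2 h
      obtain ⟨c', hc', hcn'⟩ := t1 h
      refine ⟨_, HRun.loopT hval hc hc', ?_⟩
      have h1 := (HUb_e1 R).cost_le hB1 hBd
      have h2 : HUb_c1 R * (d + 1 + 1) * B = HUb_c1 R * (d + 1) * B + (HUb_e1 R).cc * B +
          ((HUb_d1 R).cc + (HUb_a (R + 1)).cc) * B := by
        unfold HUb_c1
        ring
      omega
    · rw [t5 i h1 h2, Function.update_of_ne h2, Function.update_of_ne h1]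

/-- The test of the second loop. -/
private def HUb_e2 (R : ℕ) : Expr := .sub (.reg (R + 2)) (.reg (R + 5))

private def HUb_d2 (R : ℕ) : Expr := .mul (.num 2) (.reg (R + 9))

private def HUb_c2 (R : ℕ) : ℕ := (HUb_e2 R).cc + (HUb_d2 R).cc + (HUb_a (R + 5)).cc

/-- The second loop. -/
private lemma HUb_loop2 (z : List Bool) (S B R μ : ℕ) (hB : μ + 2 ≤ B) (hBS : B ≤ S) :
    ∀ (d j : ℕ), j + d = μ →
    ∀ u : ℕ → ℕ, PLT.Bd u B → u (R + 2) = μ → u (R + 9) = 2 ^ j → u (R + 5) = j →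
    ∃ u', HUb_St z S B
      (.loop (HUb_e2 R) (.seq (.set (R + 9) (HUb_d2 R)) (.set (R + 5) (HUb_a (R + 5)))))
      u u' (HUb_c2 R * (d + 1)) ∧ PLT.Bd u' B ∧ u' (R + 9) = 2 ^ μ ∧
      ∀ i, i ≠ R + 9 → i ≠ R + 5 → u' i = u i := by
  have hB1 : 1 ≤ B := by omega
  have hjB : ∀ j, j ≤ μ → 2 ^ j < 2 ^ B := fun j hj =>
    Nat.pow_lt_pow_right (by norm_num) (by omega)
  have hlB : ∀ j, j ≤ μ → j < 2 ^ B := fun j hj =>
    (Nat.lt_two_pow_self).trans (hjB j hj)
  intro d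
  induction d with
  | zero =>
    intro j hj u hBd hu hu4 hu5
    have hj' : j = μ := by omega
    subst hj'
    have hval : (HUb_e2 R).val u = 0 := by
      simp only [HUb_e2, Expr.val, hu, hu5]
      omega
    refine ⟨u, fun h => ⟨_, HRun.loopF hval, ?_⟩, hBd, hu4, fun _ _ _ => rfl⟩
    have h1 := (HUb_e2 R).cost_le hB1 hBd
    have h2 : (HUb_e2 R).cc * B ≤ HUb_c2 R * (0 + 1) * B := by
      apply Nat.mul_le_mul_right
      unfold HUb_c2
      omega
    exact h1.trans h2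
  | succ d ih =>
    intro j hj u hBd hu hu4 hu5
    have e3 : 2 ^ (j + 1) = 2 * 2 ^ j := by ring
    have hval : (HUb_e2 R).val u ≠ 0 := by
      simp only [HUb_e2, Expr.val, hu, hu5]
      omega
    have hv1 : (HUb_d2 R).val u = 2 ^ (j + 1) := by
      simp only [HUb_d2, Expr.val, hu4]
      omega
    have s1 := HUb_set (z := z) hB1 hBS hBd (R + 9) (HUb_d2 R) (2 ^ (j + 1)) hv1
      (hjB _ (by omega))
    have b1 := HUb_Bd hBd (R + 9) (2 ^ (j + 1)) (hjB _ (by omega))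
    have hv2 : (HUb_a (R + 5)).val (Function.update u (R + 9) (2 ^ (j + 1))) = j + 1 := by
      simp only [HUb_a, Expr.val]
      rw [Function.update_of_ne (by omega), hu5]
    have s2 := HUb_set (z := z) hB1 hBS b1 (R + 5) (HUb_a (R + 5)) (j + 1) hv2 (hlB _ (by omega))
    have b2 := HUb_Bd b1 (R + 5) (j + 1) (hlB _ (by omega))
    obtain ⟨u', t1, t2, t3, t5⟩ := ih (j + 1) (by omega) _ b2
      (by rw [Function.update_of_ne (by omega), Function.update_of_ne (by omega), hu])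
      (by rw [Function.update_of_ne (by omega), Function.update_self])
      (by rw [Function.update_self])
    refine ⟨u', fun h => ?_, t2, t3, fun i h1 h2 => ?_⟩
    · obtain ⟨c, hc, hcn⟩ := HUb_seq s1 s2 h
      obtain ⟨c', hc', hcn'⟩ := t1 h
      refine ⟨_, HRun.loopT hval hc hc', ?_⟩
      have h1 := (HUb_e2 R).cost_le hB1 hBd
      have h2 : HUb_c2 R * (d + 1 + 1) * B = HUb_c2 R * (d + 1) * B + (HUb_e2 R).cc * B +
          ((HUb_d2 R).cc + (HUb_a (R + 5)).cc) * B := by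
        unfold HUb_c2
        ring
      omega
    · rw [t5 i h1 h2, Function.update_of_ne h2, Function.update_of_ne h1]

/-- The constants (and `2 ^ (lam - mu)` in register `R + 6`) are computed. -/
private def HUb_A (R : ℕ) : HProg 2 :=
  .seq (.set R (.num 1)) (.seq (.set (R + 1) (.num 0))
  (.seq (.loop (HUb_e1 R) (.seq (.set R (HUb_d1 R)) (.set (R + 1) (HUb_a (R + 1)))))
  (.seq (.set (R + 2) (.div (.reg (R + 1)) (.num 8)))
  (.seq (.set (R + 10) (.mul (.num 3) (.reg (R + 2))))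
  (.seq (.set (R + 9) (.num 1)) (.seq (.set (R + 5) (.num 0))
  (.seq (.loop (HUb_e2 R) (.seq (.set (R + 9) (HUb_d2 R)) (.set (R + 5) (HUb_a (R + 5)))))
  (.seq (.set (R + 11) (.mul (.mul (.reg (R + 9)) (.reg (R + 9))) (.reg (R + 9))))
  (.seq (.set (R + 13) (.div (.reg R) (.num 2)))
  (.seq (.set (R + 12) (.div (.reg R) (.mul (.num 1024) (.reg (R + 11)))))
  (.set (R + 6) (.div (.reg R) (.reg (R + 9))))))))))))))

private def HUb_M (R : ℕ) : ℕ :=
  (Expr.num 1).cc + (Expr.num 0).cc + HUb_c1 R + (Expr.div (.reg (R + 1)) (.num 8)).cc +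
  (Expr.mul (.num 3) (.reg (R + 2))).cc + (Expr.num 1).cc + (Expr.num 0).cc + HUb_c2 R +
  (Expr.mul (.mul (.reg (R + 9)) (.reg (R + 9))) (.reg (R + 9))).cc +
  (Expr.div (.reg R) (.num 2)).cc + (Expr.div (.reg R) (.mul (.num 1024) (.reg (R + 11)))).cc +
  (Expr.div (.reg R) (.reg (R + 9))).cc

private lemma HUb_prep (R : ℕ) (hR : 3 ≤ R) (z : List Bool) (K S y r ℓ : ℕ)
    (hz : 2 ^ 320 ≤ z.length) (hℓ : Nat.log 2 z.length = ℓ) (hy : y < 2 ^ K) (hr : r < 2 ^ K)
    (hS : K + ℓ + 12 ≤ S) : ∃ u : ℕ → ℕ,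
    HUb_St z S (K + ℓ + 12) (HUb_A R) (ini z.length y r) u (HUb_M R * (ℓ + 1)) ∧
    PLT.Bd u (K + ℓ + 12) ∧ Cst R z.length u ∧ u (R + 6) = 2 ^ (ℓ - ℓ / 8) ∧
    ∀ i < R, u i = ini z.length y r i := by
  have hℓ320 : 320 ≤ ℓ := by
    rw [← hℓ]
    exact Nat.le_log_of_pow_le (by norm_num) hz
  have hN0 : z.length ≠ 0 := by
    intro h
    rw [h] at hz
    exact absurd hz (Nat.not_le.mpr (Nat.two_pow_pos 320))
  obtain ⟨N, hN⟩ : ∃ N, z.length = N := ⟨_, rfl⟩
  obtain ⟨B, hB⟩ : ∃ B, K + ℓ + 12 = B := ⟨_, rfl⟩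
  obtain ⟨μ, hμ⟩ : ∃ μ, ℓ / 8 = μ := ⟨_, rfl⟩
  have hNlt : N < 2 ^ B := by
    have h1 : N < 2 ^ (ℓ + 1) := by
      rw [← hℓ, hN]
      exact Nat.lt_pow_succ_log_self (by norm_num) N
    exact h1.trans_le (Nat.pow_le_pow_right (by norm_num) (by omega))
  rw [hN] at hN0 hℓ ⊢
  rw [hB, hμ]
  rw [hB] at hS
  have hKB : 2 ^ K ≤ 2 ^ B := Nat.pow_le_pow_right (by norm_num) (by omega)
  have hpB : ∀ j, j ≤ ℓ → 2 ^ j < 2 ^ B := fun j hj =>
    Nat.pow_lt_pow_right (by norm_num) (by omega)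
  have hsB : ∀ j, j ≤ ℓ → j < 2 ^ B := fun j hj => (Nat.lt_two_pow_self).trans (hpB j hj)
  have hB1 : 1 ≤ B := by omega
  have b0 : PLT.Bd (ini N y r) B := by
    intro i
    unfold ini
    split_ifs
    · exact hNlt
    · exact hy.trans_le hKB
    · exact hr.trans_le hKB
    · positivity
  -- the steps
  have s1 := HUb_set (z := z) hB1 hS b0 R (.num 1) 1 rfl (hsB 1 (by omega))
  have b1 := HUb_Bd b0 R 1 (hsB 1 (by omega))
  have s2 := HUb_set (z := z) hB1 hS b1 (R + 1) (.num 0) 0 rfl (hsB 0 (by omega))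
  have b2 := HUb_Bd b1 (R + 1) 0 (hsB 0 (by omega))
  obtain ⟨u3, s3, b3, u3a, u3b, u3c⟩ := HUb_loop1 z S B R N ℓ hR hN0 hℓ (by omega) hS ℓ 0
    (by omega) _ b2
    (by rw [Function.update_of_ne (by omega), Function.update_of_ne (by omega)]; rfl)
    (by rw [Function.update_of_ne (by omega), Function.update_self]; rfl)
    (by rw [Function.update_self])
  have s4 := HUb_set (z := z) hB1 hS b3 (R + 2) (.div (.reg (R + 1)) (.num 8)) μ
    (by simp only [Expr.val, u3b]; exact hμ) (hsB _ (by omega))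
  have b4 := HUb_Bd b3 (R + 2) μ (hsB _ (by omega))
  set u4 := Function.update u3 (R + 2) μ with hu4
  have s5 := HUb_set (z := z) hB1 hS b4 (R + 10) (.mul (.num 3) (.reg (R + 2))) (3 * μ)
    (by simp only [Expr.val]; rw [hu4, Function.update_self]) (hsB _ (by omega))
  have b5 := HUb_Bd b4 (R + 10) (3 * μ) (hsB _ (by omega))
  set u5 := Function.update u4 (R + 10) (3 * μ) with hu5
  have s6 := HUb_set (z := z) hB1 hS b5 (R + 9) (.num 1) 1 rfl (hsB 1 (by omega))
  have b6 := HUb_Bd b5 (R + 9) 1 (hsB 1 (by omega))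
  set u6 := Function.update u5 (R + 9) 1 with hu6
  have s7 := HUb_set (z := z) hB1 hS b6 (R + 5) (.num 0) 0 rfl (hsB 0 (by omega))
  have b7 := HUb_Bd b6 (R + 5) 0 (hsB 0 (by omega))
  set u7 := Function.update u6 (R + 5) 0 with hu7
  obtain ⟨u8, s8, b8, u8a, u8c⟩ := HUb_loop2 z S B R μ (by omega) hS μ 0 (by omega) u7 b7
    (by rw [hu7, Function.update_of_ne (by omega), hu6, Function.update_of_ne (by omega), hu5,
      Function.update_of_ne (by omega), hu4, Function.update_self])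
    (by rw [hu7, Function.update_of_ne (by omega), hu6, Function.update_self]; rfl)
    (by rw [hu7, Function.update_self])
  have u8R : u8 R = 2 ^ ℓ := by
    rw [u8c R (by omega) (by omega), hu7, Function.update_of_ne (by omega), hu6,
      Function.update_of_ne (by omega), hu5, Function.update_of_ne (by omega), hu4,
      Function.update_of_ne (by omega), u3a]
  have u8_10 : u8 (R + 10) = 3 * μ := by
    rw [u8c _ (by omega) (by omega), hu7, Function.update_of_ne (by omega), hu6,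
      Function.update_of_ne (by omega), hu5, Function.update_self]
  have u8i : ∀ i < R, u8 i = ini N y r i := by
    intro i hi
    rw [u8c i (by omega) (by omega), hu7, Function.update_of_ne (by omega), hu6,
      Function.update_of_ne (by omega), hu5, Function.update_of_ne (by omega), hu4,
      Function.update_of_ne (by omega), u3c i (by omega) (by omega),
      Function.update_of_ne (by omega), Function.update_of_ne (by omega)]
  have hv9 : 2 ^ μ * 2 ^ μ * 2 ^ μ = 2 ^ (3 * μ) := by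
    rw [← pow_add, ← pow_add]
    congr 1
    omega
  have s9 := HUb_set (z := z) hB1 hS b8 (R + 11)
    (.mul (.mul (.reg (R + 9)) (.reg (R + 9))) (.reg (R + 9))) (2 ^ (3 * μ))
    (by simp only [Expr.val, u8a]; exact hv9) (hpB _ (by omega))
  have b9 := HUb_Bd b8 (R + 11) (2 ^ (3 * μ)) (hpB _ (by omega))
  set u9 := Function.update u8 (R + 11) (2 ^ (3 * μ)) with hu9
  have u9R : u9 R = 2 ^ ℓ := by rw [hu9, Function.update_of_ne (by omega), u8R]
  have hv10 : 2 ^ ℓ / 2 = 2 ^ (ℓ - 1) := by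
    have h := Nat.pow_div (x := 2) (m := ℓ) (n := 1) (by omega) (by norm_num)
    rwa [pow_one] at h
  have s10 := HUb_set (z := z) hB1 hS b9 (R + 13) (.div (.reg R) (.num 2)) (2 ^ (ℓ - 1))
    (by simp only [Expr.val, u9R]; exact hv10) (hpB _ (by omega))
  have b10 := HUb_Bd b9 (R + 13) (2 ^ (ℓ - 1)) (hpB _ (by omega))
  set u10 := Function.update u9 (R + 13) (2 ^ (ℓ - 1)) with hu10
  have u10R : u10 R = 2 ^ ℓ := by rw [hu10, Function.update_of_ne (by omega), u9R]
  have u10_11 : u10 (R + 11) = 2 ^ (3 * μ) := by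
    rw [hu10, Function.update_of_ne (by omega), hu9, Function.update_self]
  have hv11 : 2 ^ ℓ / (1024 * 2 ^ (3 * μ)) = 2 ^ (ℓ - 10 - 3 * μ) := by
    have h0 : 1024 * 2 ^ (3 * μ) = 2 ^ (10 + 3 * μ) := by
      rw [pow_add]
      norm_num
    rw [h0, Nat.pow_div (by omega) (by norm_num), Nat.sub_sub]
  have s11 := HUb_set (z := z) hB1 hS b10 (R + 12)
    (.div (.reg R) (.mul (.num 1024) (.reg (R + 11)))) (2 ^ (ℓ - 10 - 3 * μ))
    (by simp only [Expr.val, u10R, u10_11]; exact hv11) (hpB _ (by omega))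
  have b11 := HUb_Bd b10 (R + 12) (2 ^ (ℓ - 10 - 3 * μ)) (hpB _ (by omega))
  set u11 := Function.update u10 (R + 12) (2 ^ (ℓ - 10 - 3 * μ)) with hu11
  have u11R : u11 R = 2 ^ ℓ := by rw [hu11, Function.update_of_ne (by omega), u10R]
  have u11_9 : u11 (R + 9) = 2 ^ μ := by
    rw [hu11, Function.update_of_ne (by omega), hu10, Function.update_of_ne (by omega), hu9,
      Function.update_of_ne (by omega), u8a]
  have s12 := HUb_set (z := z) hB1 hS b11 (R + 6) (.div (.reg R) (.reg (R + 9))) (2 ^ (ℓ - μ))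
    (by simp only [Expr.val, u11R, u11_9]; exact Nat.pow_div (by omega) (by norm_num))
    (hpB _ (by omega))
  have b12 := HUb_Bd b11 (R + 6) (2 ^ (ℓ - μ)) (hpB _ (by omega))
  set u12 := Function.update u11 (R + 6) (2 ^ (ℓ - μ)) with hu12
  have htot := HUb_seq s1 (HUb_seq s2 (HUb_seq s3 (HUb_seq s4 (HUb_seq s5 (HUb_seq s6
    (HUb_seq s7 (HUb_seq s8 (HUb_seq s9 (HUb_seq s10 (HUb_seq s11 s12))))))))))
  refine ⟨u12, HUb_mono htot ?_, b12, ⟨?_, ?_, ?_, ?_, ?_⟩, ?_, ?_⟩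
  · unfold HUb_M
    generalize (Expr.num 1).cc = a1
    generalize (Expr.num 0).cc = a2
    generalize (Expr.div (.reg (R + 1)) (.num 8)).cc = a4
    generalize (Expr.mul (.num 3) (.reg (R + 2))).cc = a5
    generalize (Expr.mul (.mul (.reg (R + 9)) (.reg (R + 9))) (.reg (R + 9))).cc = a9
    generalize (Expr.div (.reg R) (.num 2)).cc = a10
    generalize (Expr.div (.reg R) (.mul (.num 1024) (.reg (R + 11)))).cc = a11
    generalize (Expr.div (.reg R) (.reg (R + 9))).cc = a12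
    have h1 : HUb_c2 R * (μ + 1) ≤ HUb_c2 R * (ℓ + 1) := Nat.mul_le_mul_left _ (by omega)
    have h2 : (a1 + a2 + HUb_c1 R + a4 + a5 + a1 + a2 + HUb_c2 R + a9 + a10 + a11 + a12) * (ℓ + 1) =
        HUb_c1 R * (ℓ + 1) + HUb_c2 R * (ℓ + 1) +
        (a1 + a2 + a4 + a5 + a1 + a2 + a9 + a10 + a11 + a12) +
        (a1 + a2 + a4 + a5 + a1 + a2 + a9 + a10 + a11 + a12) * ℓ := by ring
    rw [h2]
    have h3 := Nat.zero_le ((a1 + a2 + a4 + a5 + a1 + a2 + a9 + a10 + a11 + a12) * ℓ)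
    omega
  · rw [hu12, Function.update_of_ne (by omega), u11_9]
    unfold vm
    rw [hℓ, hμ]
  · rw [hu12, Function.update_of_ne (by omega), hu11, Function.update_of_ne (by omega), hu10,
      Function.update_of_ne (by omega), hu9, Function.update_of_ne (by omega), u8_10, hℓ, hμ]
  · rw [hu12, Function.update_of_ne (by omega), hu11, Function.update_of_ne (by omega), u10_11]
    unfold vp
    rw [hℓ, hμ]
  · rw [hu12, Function.update_of_ne (by omega), hu11, Function.update_self]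
    unfold vB
    rw [hℓ, hμ]
  · rw [hu12, Function.update_of_ne (by omega), hu11, Function.update_of_ne (by omega), hu10,
      Function.update_self, hℓ]
  · rw [hu12, Function.update_self]
  · intro i hi
    rw [hu12, Function.update_of_ne (by omega), hu11, Function.update_of_ne (by omega), hu10,
      Function.update_of_ne (by omega), hu9, Function.update_of_ne (by omega), u8i i hi]

/-- The test of the length. -/
private def HUb_e0 : Expr := .sub (.add (.reg 0) (.num 1)) (.num (2 ^ 320))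

private def HUb_em (R : ℕ) : Expr := .mod (.reg 2) (.reg (R + 6))

private def HUb_ed (R : ℕ) : Expr := .div (.reg 2) (.reg (R + 6))

/-- The program. -/
private def HUb_P (R : ℕ) (P : Prog) : HProg 2 :=
  .ite HUb_e0 (.seq (HUb_A R) (.ite (HUb_em R) (.set 0 (.num 0))
    (.seq (.set 2 (HUb_ed R)) (.seq (.set 0 (.reg (R + 9))) (hvir R P))))) (.set 0 (.num 0))

private lemma HUb_e0v (u : ℕ → ℕ) : HUb_e0.val u = u 0 + 1 - 2 ^ 320 := rfl

/-- Short inputs. -/
private lemma HUb_small (R : ℕ) (P : Prog) (z : List Bool) (hz : z.length < 2 ^ 320)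
    (y r K S B : ℕ) (hy : y < 2 ^ K) (hr : r < 2 ^ K) (hB : K + Nat.log 2 z.length + 12 = B) :
    ∃ u' c', HRun z S (HUb_P R P) (ini z.length y r) (fun _ => 0) u' (fun _ => 0) c' ∧
      c' ≤ (HUb_e0.cc + (Expr.num 0).cc) * B ∧ u' 0 = 0 := by
  have b0 : PLT.Bd (ini z.length y r) B := by
    have hKB : 2 ^ K ≤ 2 ^ B := Nat.pow_le_pow_right (by norm_num) (by omega)
    intro i
    unfold ini
    split_ifs
    · exact (Nat.lt_pow_succ_log_self (by norm_num) z.length).trans_le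
        (Nat.pow_le_pow_right (by norm_num) (by omega))
    · exact hy.trans_le hKB
    · exact hr.trans_le hKB
    · positivity
  have hB1 : 1 ≤ B := by omega
  have hval : HUb_e0.val (ini z.length y r) = 0 := by
    rw [HUb_e0v]
    have h1 : ini z.length y r 0 = z.length := rfl
    rw [h1]
    exact Nat.sub_eq_zero_of_le hz
  have h1 := HUb_e0.cost_le hB1 b0
  have h2 := (Expr.num 0).cost_le hB1 b0
  refine ⟨_, _, HRun.iteF hval (HRun.set 0 (.num 0) _ _ (by simp only [Expr.val]; positivity)),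
    ?_, ?_⟩
  · rw [add_mul]
    exact add_le_add h1 h2
  · rw [Function.update_self]
    rfl

private lemma HUb_hw (z : List Bool) : (hw z).length = vm z.length := by
  unfold hw
  exact List.length_ofFn

private def HUb_C (R : ℕ) (e : Expr) : ℕ :=
  HUb_M R + HUb_e0.cc + (HUb_em R).cc + (Expr.num 0).cc + (HUb_ed R).cc + e.cc

/-- Long inputs. -/
private lemma HUb_long {K1 : ℕ}
    (hV : ∀ (R : ℕ) (P : Prog) (z : List Bool) (s s' : ℕ → ℕ) (c : ℕ),
      P.Lt R → 2 ^ 320 ≤ z.length → Run (hw z) P s s' c →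
      ∀ (S : ℕ) (u : ℕ → ℕ) (h : Fin 2 → ℕ), (∀ i < R, s i = u i) → Cst R z.length u →
      PLT.Bd u S → c + Nat.log 2 z.length + 20 ≤ S → (∀ a, h a ≤ z.length) →
      ∃ (u' : ℕ → ℕ) (h' : Fin 2 → ℕ) (c' : ℕ), HRun z S (hvir R P) u h u' h' c' ∧
        c' ≤ K1 * (z.length + 1) * (Nat.log 2 z.length + 1) * c ∧ (∀ i < R, s' i = u' i) ∧
        Cst R z.length u' ∧ PLT.Bd u' S ∧ ∀ a, h' a ≤ z.length)
    (R : ℕ) (P : Prog) (hR : 3 ≤ R) (hP : P.Lt R) (z : List Bool) (hz : 2 ^ 320 ≤ z.length)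
    (y r K S c ℓ G : ℕ) (s' : ℕ → ℕ) (hℓ : Nat.log 2 z.length = ℓ) (hG : 2 ^ (ℓ - ℓ / 8) = G)
    (hrun : Run (hw z) P (ini (vm z.length) y (r / G)) s' c)
    (hy : y < 2 ^ K) (hr : r < 2 ^ K) (hS : c + K + ℓ + 20 ≤ S) :
    ∃ u' h' c', HRun z S (HUb_P R P) (ini z.length y r) (fun _ => 0) u' h' c' ∧
      c' ≤ HUb_C R (.reg (R + 9)) * (ℓ + 1) * (K + ℓ + 12) +
        K1 * (z.length + 1) * (ℓ + 1) * c ∧
      (r % G ≠ 0 → u' 0 = 0) ∧ (r % G = 0 → u' 0 = s' 0) := by
  obtain ⟨u, s1, b1, hc, h6, hi⟩ := HUb_prep R hR z K S y r ℓ hz hℓ hy hr (by omega)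
  obtain ⟨B, hB⟩ : ∃ B, K + ℓ + 12 = B := ⟨_, rfl⟩
  rw [hB] at s1 b1 ⊢
  rw [hG] at h6
  have hB1 : 1 ≤ B := by omega
  have hBS : B ≤ S := by omega
  have hNlt : z.length < 2 ^ (ℓ + 1) := by
    rw [← hℓ]
    exact Nat.lt_pow_succ_log_self (by norm_num) _
  have b0 : PLT.Bd (ini z.length y r) B := by
    have hKB : 2 ^ K ≤ 2 ^ B := Nat.pow_le_pow_right (by norm_num) (by omega)
    intro i
    unfold ini
    split_ifs
    · exact hNlt.trans_le (Nat.pow_le_pow_right (by norm_num) (by omega))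
    · exact hy.trans_le hKB
    · exact hr.trans_le hKB
    · positivity
  have hval : HUb_e0.val (ini z.length y r) ≠ 0 := by
    rw [HUb_e0v]
    have h1 : ini z.length y r 0 = z.length := rfl
    rw [h1]
    exact Nat.sub_ne_zero_of_lt (Nat.lt_succ_of_le hz)
  have t0 := HUb_e0.cost_le hB1 b0
  have h2 : u 2 = r := by
    rw [hi 2 (by omega)]
    rfl
  have hm : (HUb_em R).val u = r % G := by
    simp only [HUb_em, Expr.val, h2, h6]
  have tm := (HUb_em R).cost_le hB1 b1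
  obtain ⟨c1, r1, hc1⟩ := s1 (fun _ => 0)
  have hCB : HUb_C R (.reg (R + 9)) * (ℓ + 1) * B = HUb_M R * (ℓ + 1) * B +
      (HUb_e0.cc * B + (HUb_em R).cc * B + (Expr.num 0).cc * B + (HUb_ed R).cc * B +
        (Expr.reg (R + 9)).cc * B) +
      (HUb_e0.cc + (HUb_em R).cc + (Expr.num 0).cc + (HUb_ed R).cc +
        (Expr.reg (R + 9)).cc) * ℓ * B := by
    unfold HUb_C
    ring
  rw [hCB]
  have hz1 := Nat.zero_le ((HUb_e0.cc + (HUb_em R).cc + (Expr.num 0).cc + (HUb_ed R).cc +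
        (Expr.reg (R + 9)).cc) * ℓ * B)
  by_cases hmod : r % G = 0
  · have b2 : r / G < 2 ^ B := (Nat.div_le_self _ _).trans_lt
      (hr.trans_le (Nat.pow_le_pow_right (by norm_num) (by omega)))
    obtain ⟨c2, r2, hc2⟩ := HUb_set (z := z) hB1 hBS b1 2 (HUb_ed R) (r / G)
      (by simp only [HUb_ed, Expr.val, h2, h6]) b2 (fun _ => 0)
    have bd2 := HUb_Bd b1 2 (r / G) b2
    have hvB : vm z.length < 2 ^ B := by
      unfold vm
      exact Nat.pow_lt_pow_right (by norm_num) (by omega)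
    obtain ⟨c3, r3, hc3⟩ := HUb_set (z := z) hB1 hBS bd2 0 (.reg (R + 9)) (vm z.length)
      (by simp only [Expr.val]; rw [Function.update_of_ne (by omega)]; exact hc.1) hvB (fun _ => 0)
    have bd3 := HUb_Bd bd2 0 (vm z.length) hvB
    have bd3' : PLT.Bd (Function.update (Function.update u 2 (r / G)) 0 (vm z.length)) S :=
      fun i => (bd3 i).trans_le (Nat.pow_le_pow_right (by norm_num) hBS)
    have hag : ∀ i < R, ini (vm z.length) y (r / G) i =
        Function.update (Function.update u 2 (r / G)) 0 (vm z.length) i := by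
      intro i hiR
      by_cases h0 : i = 0
      · subst h0
        rw [Function.update_self]
        rfl
      · rw [Function.update_of_ne h0]
        by_cases h2' : i = 2
        · subst h2'
          rw [Function.update_self]
          rfl
        · rw [Function.update_of_ne h2', hi i hiR]
          unfold ini
          rw [if_neg h0, if_neg h0]
          by_cases h1' : i = 1
          · rw [if_pos h1', if_pos h1']
          · rw [if_neg h1', if_neg h1', if_neg h2', if_neg h2']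
    have hcst : Cst R z.length (Function.update (Function.update u 2 (r / G)) 0 (vm z.length)) := by
      obtain ⟨q1, q2, q3, q4, q5⟩ := hc
      refine ⟨?_, ?_, ?_, ?_, ?_⟩
      · rw [Function.update_of_ne (by omega), Function.update_of_ne (by omega), q1]
      · rw [Function.update_of_ne (by omega), Function.update_of_ne (by omega), q2]
      · rw [Function.update_of_ne (by omega), Function.update_of_ne (by omega), q3]
      · rw [Function.update_of_ne (by omega), Function.update_of_ne (by omega), q4]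
      · rw [Function.update_of_ne (by omega), Function.update_of_ne (by omega), q5]
    obtain ⟨u', h', c4, r4, hc4, hag', -, -, -⟩ := hV R P z _ s' c hP hz hrun S _ (fun _ => 0) hag
      hcst bd3' (by omega) (fun _ => Nat.zero_le _)
    rw [hℓ] at hc4
    refine ⟨u', h', _, HRun.iteT hval (HRun.seq r1 (HRun.iteF (by rw [hm]; exact hmod)
      (HRun.seq r2 (HRun.seq r3 r4)))), ?_, fun h => absurd hmod h,
      fun _ => (hag' 0 (by omega)).symm⟩
    omega
  · refine ⟨_, _, _, HRun.iteT hval (HRun.seq r1 (HRun.iteT (by rw [hm]; exact hmod)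
      (HRun.set 0 (.num 0) _ _ (by simp only [Expr.val]; positivity)))), ?_, fun _ => ?_,
      fun h => absurd h hmod⟩
    · have t5 := (Expr.num 0).cost_le hB1 b1
      have hz2 := Nat.zero_le (K1 * (z.length + 1) * (ℓ + 1) * c)
      omega
    · rw [Function.update_self]
      rfl

private lemma HUb_logle (N : ℕ) : Nat.log 2 N ≤ N := Nat.log_le_self 2 N

private lemma HUb_arith (M K1 N ℓ K c t : ℕ) (hℓ : ℓ ≤ N) (hc : c ≤ t) :
    M * (ℓ + 1) * (K + ℓ + 12) + K1 * (N + 1) * (ℓ + 1) * c ≤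
      (12 * M + K1 + 20) * (N + 1) * (ℓ + 1) * (t + K + 1) := by
  have h1 : K + ℓ + 12 ≤ 12 * ((N + 1) * (K + 1)) := by nlinarith
  have h2 : M * (ℓ + 1) * (K + ℓ + 12) ≤ M * (ℓ + 1) * (12 * ((N + 1) * (K + 1))) :=
    Nat.mul_le_mul_left _ h1
  have h3 : M * (ℓ + 1) * (12 * ((N + 1) * (K + 1))) = 12 * M * (N + 1) * (ℓ + 1) * (K + 1) := by
    ring
  have h4 : 12 * M * (N + 1) * (ℓ + 1) * (K + 1) ≤ 12 * M * (N + 1) * (ℓ + 1) * (t + K + 1) :=
    Nat.mul_le_mul_left _ (by omega)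
  have h5 : K1 * (N + 1) * (ℓ + 1) * c ≤ K1 * (N + 1) * (ℓ + 1) * (t + K + 1) :=
    Nat.mul_le_mul_left _ (by omega)
  have h6 : (12 * M + K1 + 20) * (N + 1) * (ℓ + 1) * (t + K + 1) =
      12 * M * (N + 1) * (ℓ + 1) * (t + K + 1) + K1 * (N + 1) * (ℓ + 1) * (t + K + 1) +
      20 * (N + 1) * (ℓ + 1) * (t + K + 1) := by ring
  omega

theorem tHUb : S_HUb := by
  intro h1 h2 h3 h4 P
  obtain ⟨K1, -, hV⟩ := h4 h1 h2 h3
  obtain ⟨R, hR, hPR⟩ := P.exists_lt
  obtain ⟨M, hM⟩ : ∃ M, HUb_C R (.reg (R + 9)) = M := ⟨_, rfl⟩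
  obtain ⟨E, hE⟩ : ∃ E, HUb_e0.cc + (Expr.num 0).cc = E := ⟨_, rfl⟩
  refine ⟨HUb_P R P, 12 * (M + E) + K1 + 20, ?_⟩
  intro z y r K t hy hr
  obtain ⟨ℓ, hℓ⟩ : ∃ ℓ, Nat.log 2 z.length = ℓ := ⟨_, rfl⟩
  obtain ⟨G, hG⟩ : ∃ G, 2 ^ (ℓ - ℓ / 8) = G := ⟨_, rfl⟩
  rw [hℓ, hG]
  have hle : ℓ ≤ z.length := by
    rw [← hℓ]
    exact HUb_logle _
  obtain ⟨S, hS⟩ : ∃ S, t + K + ℓ + (12 * (M + E) + K1 + 20) = S := ⟨_, rfl⟩
  rw [hS]
  have hNS : z.length < 2 ^ S := by
    have h : z.length < 2 ^ (ℓ + 1) := by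
      rw [← hℓ]
      exact Nat.lt_pow_succ_log_self (by norm_num) _
    exact h.trans_le (Nat.pow_le_pow_right (by norm_num) (by omega))
  have hKS : 2 ^ K ≤ 2 ^ S := Nat.pow_le_pow_right (by norm_num) (by omega)
  constructor
  · rintro hz ⟨s', c, hrun, hc⟩
    have hrun' := hrun
    rw [HUb_hw] at hrun'
    obtain ⟨u', h', c', a1, a2, a3, a4⟩ := HUb_long hV R P hR hPR z hz y r K S c ℓ G s' hℓ hG hrun'
      hy hr (by omega)
    rw [hM] at a2
    constructor
    · refine ⟨hNS, hy.trans_le hKS, hr.trans_le hKS, u', h', c', a1, a2.trans ?_⟩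
      refine (HUb_arith M K1 z.length ℓ K c t hle hc).trans ?_
      refine Nat.mul_le_mul_right _ (Nat.mul_le_mul_right _ (Nat.mul_le_mul_right _ ?_))
      omega
    · constructor
      · rintro ⟨S', s, h, d, a5, a6⟩
        obtain ⟨rfl, -, -⟩ := HUb_det a5 a1
        by_cases hmod : r % G = 0
        · exact ⟨hmod, s', c, hrun, by rw [← a4 hmod]; exact a6⟩
        · rw [a3 hmod] at a6
          exact absurd a6 (by norm_num)
      · rintro ⟨hmod, s, d, a5, a6⟩
        obtain ⟨rfl, -⟩ := a5.det hrun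
        exact ⟨S, u', h', c', a1, by rw [a4 hmod]; exact a6⟩
  · intro hz
    obtain ⟨u', c', a1, a2, a3⟩ := HUb_small R P z hz y r K S (K + ℓ + 12) hy hr (by rw [hℓ])
    rw [hE] at a2
    constructor
    · refine ⟨hNS, hy.trans_le hKS, hr.trans_le hKS, u', _, c', a1, a2.trans ?_⟩
      have b1 : E * (K + ℓ + 12) ≤ E * (ℓ + 1) * (K + ℓ + 12) := by
        refine Nat.mul_le_mul_right _ (Nat.le_mul_of_pos_right _ (by omega))
      have b2 := HUb_arith E K1 z.length ℓ K 0 t hle (Nat.zero_le _)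
      refine b1.trans ((Nat.le_add_right _ _).trans (b2.trans ?_))
      refine Nat.mul_le_mul_right _ (Nat.mul_le_mul_right _ (Nat.mul_le_mul_right _ ?_))
      omega
    · rintro ⟨S', s, h, d, a5, a6⟩
      obtain ⟨rfl, -, -⟩ := HUb_det a5 a1
      rw [a3] at a6
      exact absurd a6 (by norm_num)

end Pool.Agent.Lib.MP_ff3ed7_lc.MH
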