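import Pool.Agent.Lib.MP_ff3ed7_lc.MH.SpecU

/-!
# PROJECT MH: simulation of programs on virtual words (helper48)
-/

set_option autoImplicit false

open Finset

namespace Pool.Agent.Lib.MP_ff3ed7_lc.MH

open Pool.Agent.Lib.MP_ff3ed7_lc.PLT
open Pool.Agent.Lib.MP_ff3ed7_lc.SQ (dst ql)

private lemma HVi_bd {u : ℕ → ℕ} {S i v : ℕ} (h : PLT.Bd u S) (hv : v < 2 ^ S) :
    PLT.Bd (Function.update u i v) S := by
  intro j
  by_cases hj : j = i
  · subst hj; rwa [Function.update_self]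
  · rw [Function.update_of_ne hj]; exact h j

private lemma HVi_cst {u : ℕ → ℕ} {R N i v : ℕ} (hi : i < R) (h : Cst R N u) :
    Cst R N (Function.update u i v) := by
  obtain ⟨a1, a2, a3, a4, a5⟩ := h
  refine ⟨?_, ?_, ?_, ?_, ?_⟩
  · rw [Function.update_of_ne (by omega)]; exact a1
  · rw [Function.update_of_ne (by omega)]; exact a2
  · rw [Function.update_of_ne (by omega)]; exact a3
  · rw [Function.update_of_ne (by omega)]; exact a4
  · rw [Function.update_of_ne (by omega)]; exact a5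

theorem tHVi : S_HVi := by
  intro h1 h2 h3
  obtain ⟨K, hK, hR⟩ := h3 h1 h2
  refine ⟨K, hK, ?_⟩
  intro R P z s s' c hP hz hrun
  have hD : 0 < K * (z.length + 1) * (Nat.log 2 z.length + 1) :=
    Nat.mul_pos (Nat.mul_pos hK (Nat.succ_pos _)) (Nat.succ_pos _)
  induction hrun with
  | set i e s =>
    intro S u h hu hC hB hS hh
    obtain ⟨a1, a2⟩ := hP.2.congr hu
    rw [a2] at hS
    have hv : e.val u < 2 ^ S := Nat.size_le.1 ((e.size_le_cost u).trans (by omega))
    have hi : i < R := hP.1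
    refine ⟨_, _, _, HRun.set i e u h hv, ?_, ?_, HVi_cst hi hC, HVi_bd hB hv, hh⟩
    · rw [a2]
      exact Nat.le_mul_of_pos_left _ hD
    · intro k hk
      by_cases hki : k = i
      · subst hki; rw [Function.update_self, Function.update_self, a1]
      · rw [Function.update_of_ne hki, Function.update_of_ne hki, hu k hk]
  | read i e s =>
    intro S u h hu hC hB hS hh
    obtain ⟨a1, a2⟩ := hP.2.congr hu
    rw [a2] at hS
    have hi : i < R := hP.1
    have hv : e.val u < 2 ^ S := Nat.size_le.1 ((e.size_le_cost u).trans (by omega))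
    obtain ⟨u', h', c', b1, b2, b3, b4, b5, b6, b7⟩ :=
      hR R i e z S u h hi hz hC hv hB (by omega) hh
    refine ⟨u', h', c', b1, by rw [a2]; exact b2, ?_, b5, b6, b7⟩
    intro k hk
    by_cases hki : k = i
    · subst hki; rw [Function.update_self, b3, a1]
    · rw [Function.update_of_ne hki, b4 k hk hki, hu k hk]
  | seq hr hr' ih ih' =>
    intro S u h hu hC hB hS hh
    obtain ⟨u', h', c', b1, b2, b3, b4, b5, b6⟩ :=
      ih hP.1 S u h hu hC hB (by omega) hh
    obtain ⟨u'', h'', c'', d1, d2, d3, d4, d5, d6⟩ :=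
      ih' hP.2 S u' h' b3 b4 b5 (by omega) b6
    refine ⟨u'', h'', _, HRun.seq b1 d1, ?_, d3, d4, d5, d6⟩
    rw [Nat.mul_add]
    exact Nat.add_le_add b2 d2
  | @iteT e p q s s' c he hr ih =>
    intro S u h hu hC hB hS hh
    obtain ⟨a1, a2⟩ := hP.1.congr hu
    obtain ⟨u', h', c', b1, b2, b3, b4, b5, b6⟩ :=
      ih hP.2.1 S u h hu hC hB (by omega) hh
    rw [a1] at he
    refine ⟨u', h', _, HRun.iteT he b1, ?_, b3, b4, b5, b6⟩
    rw [a2, Nat.mul_add]
    exact Nat.add_le_add (Nat.le_mul_of_pos_left _ hD) b2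
  | @iteF e p q s s' c he hr ih =>
    intro S u h hu hC hB hS hh
    obtain ⟨a1, a2⟩ := hP.1.congr hu
    obtain ⟨u', h', c', b1, b2, b3, b4, b5, b6⟩ :=
      ih hP.2.2 S u h hu hC hB (by omega) hh
    rw [a1] at he
    refine ⟨u', h', _, HRun.iteF he b1, ?_, b3, b4, b5, b6⟩
    rw [a2, Nat.mul_add]
    exact Nat.add_le_add (Nat.le_mul_of_pos_left _ hD) b2
  | @loopT e p s s' s'' c c' he hr hr' ih ih' =>
    intro S u h hu hC hB hS hh
    obtain ⟨a1, a2⟩ := hP.1.congr hu
    obtain ⟨u', h', c', b1, b2, b3, b4, b5, b6⟩ :=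
      ih hP.2 S u h hu hC hB (by omega) hh
    obtain ⟨u'', h'', c'', d1, d2, d3, d4, d5, d6⟩ :=
      ih' hP S u' h' b3 b4 b5 (by omega) b6
    rw [a1] at he
    refine ⟨u'', h'', _, HRun.loopT he b1 d1, ?_, d3, d4, d5, d6⟩
    rw [a2, Nat.mul_add, Nat.mul_add]
    exact Nat.add_le_add (Nat.add_le_add (Nat.le_mul_of_pos_left _ hD) b2) d2
  | loopF he =>
    intro S u h hu hC hB hS hh
    obtain ⟨a1, a2⟩ := hP.1.congr hu
    rw [a1] at he
    refine ⟨u, h, _, HRun.loopF he, ?_, hu, hC, hB, hh⟩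
    rw [a2]
    exact Nat.le_mul_of_pos_left _ hD

end Pool.Agent.Lib.MP_ff3ed7_lc.MH
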