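import Pool.Agent.Lib.MP_ff3ed7_lc.MH.SpecL

/-!
# PROJECT MH, module HiA (helper26): histories, existence and uniqueness
-/

set_option autoImplicit false

open Finset

namespace Pool.Agent.Lib.MP_ff3ed7_lc.MH

open Pool.Agent.Lib.MP_ff3ed7_lc.PLT
open Pool.Agent.Lib.MP_ff3ed7_lc.SQ (dst)

theorem HiA_step {k : ℕ} {Q : Type} (M : HM k Q) (τ : ℕ → Option Bool) (C : HCfg k Q) :
    (M.step τ C).q = nx M τ C.q := by
  unfold HM.step nx
  cases M.act C.q <;> rfl

theorem HiA_iter {k : ℕ} {Q : Type} (M : HM k Q) (τ : ℕ → Option Bool) (C : HCfg k Q) (T : ℕ) :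
    ((M.step τ)^[T] C).q = (nx M τ)^[T] C.q := by
  induction T with
  | zero => rfl
  | succ T ih => rw [Function.iterate_succ_apply', Function.iterate_succ_apply', HiA_step, ih]

theorem HiA_nx_stop {k : ℕ} {Q : Type} (M : HM k Q) (τ : ℕ → Option Bool) (q : Q) (b : Bool)
    (h : M.act q = .stop b) : nx M τ q = q := by
  unfold nx
  rw [h]

theorem HiA_iter_stop {k : ℕ} {Q : Type} (M : HM k Q) (τ : ℕ → Option Bool) (q : Q) (b : Bool)
    (h : M.act q = .stop b) (T : ℕ) : (nx M τ)^[T] q = q := by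
  induction T with
  | zero => rfl
  | succ T ih => rw [Function.iterate_succ_apply', ih, HiA_nx_stop M τ q b h]

section

variable {k : ℕ} {Q β : Type} [DecidableEq β]

theorem HiA_zn_stop (bl : ℕ → Option β) (M : HM k Q) (z : Fin k → Option β) (q : Q) (b : Bool)
    (h : M.act q = .stop b) : zn bl M z q = z := by
  unfold zn
  rw [h]

/-- existence -/
theorem HiA_ex (bl : ℕ → Option β) (M : HM k Q) (τ : ℕ → Option Bool) (T : ℕ) :
    ∀ (z : Fin k → Option β) (q : Q), M.act ((nx M τ)^[T] q) = .stop true →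
      ∃ h, His bl M τ z q h := by
  induction T using Nat.strong_induction_on with
  | _ T ih =>
    intro z q hq
    by_cases hall : ∀ T' < T, zn bl M z ((nx M τ)^[T'] q) = z
    · exact ⟨[], T, hall, hq⟩
    · have hex : ∃ T', T' < T ∧ zn bl M z ((nx M τ)^[T'] q) ≠ z := by
        by_contra hcon
        apply hall
        intro T' hT'
        by_contra hne
        exact hcon ⟨T', hT', hne⟩
      classical
      have h1 := Nat.find_spec hex
      have h2 : ∀ T' < Nat.find hex, zn bl M z ((nx M τ)^[T'] q) = z := by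
        intro T' hT'
        by_contra hne
        exact Nat.find_min hex hT' ⟨hT'.trans h1.1, hne⟩
      have h3 : M.act ((nx M τ)^[T - (Nat.find hex + 1)]
          (nx M τ ((nx M τ)^[Nat.find hex] q))) = .stop true := by
        rw [← Function.iterate_succ_apply' (nx M τ) (Nat.find hex) q,
          ← Function.iterate_add_apply]
        have h4 : T - (Nat.find hex + 1) + (Nat.find hex).succ = T := by
          have := h1.1
          omega
        rw [h4]
        exact hq
      obtain ⟨h, hh⟩ := ih (T - (Nat.find hex + 1)) (by have := h1.1; omega)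
        (zn bl M z ((nx M τ)^[Nat.find hex] q)) _ h3
      exact ⟨(nx M τ)^[Nat.find hex] q :: h, ⟨Nat.find hex, rfl, h2, h1.2⟩, hh⟩

/-- a history gives an accepting run -/
theorem HiA_acc (bl : ℕ → Option β) (M : HM k Q) (τ : ℕ → Option Bool) (h : List Q) :
    ∀ (z : Fin k → Option β) (q : Q), His bl M τ z q h →
      ∃ T, M.act ((nx M τ)^[T] q) = .stop true := by
  induction h with
  | nil =>
    intro z q hh
    obtain ⟨T, _, hT⟩ := hh
    exact ⟨T, hT⟩
  | cons q' h ih =>
    intro z q hh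
    obtain ⟨⟨T0, hT0, _, _⟩, h2⟩ := hh
    obtain ⟨T1, hT1⟩ := ih _ _ h2
    refine ⟨T1 + (T0 + 1), ?_⟩
    rw [Function.iterate_add_apply, Function.iterate_succ_apply', hT0]
    exact hT1

/-- the end and a first change exclude each other -/
theorem HiA_excl (bl : ℕ → Option β) (M : HM k Q) (τ : ℕ → Option Bool) (z : Fin k → Option β)
    (q q' : Q) (h1 : End bl M τ z q) (h2 : Fst bl M τ z q q') : False := by
  obtain ⟨T, hT, hacc⟩ := h1
  obtain ⟨T0, hT0, _, hne⟩ := h2
  rcases lt_or_ge T0 T with h | h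
  · apply hne
    rw [← hT0]
    exact hT T0 h
  · apply hne
    have h3 : (nx M τ)^[T0] q = (nx M τ)^[T] q := by
      have h4 : T0 = (T0 - T) + T := by omega
      rw [h4, Function.iterate_add_apply]
      exact HiA_iter_stop M τ _ true hacc _
    rw [← hT0, h3]
    exact HiA_zn_stop bl M z _ true hacc

theorem HiA_uniq (bl : ℕ → Option β) (M : HM k Q) (τ : ℕ → Option Bool) (h : List Q) :
    ∀ (h' : List Q) (z : Fin k → Option β) (q : Q), His bl M τ z q h → His bl M τ z q h' →
      h = h' := by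
  induction h with
  | nil =>
    intro h' z q hh hh'
    cases h' with
    | nil => rfl
    | cons q' h' => exact (HiA_excl bl M τ z q q' hh hh'.1).elim
  | cons q1 h ih =>
    intro h' z q hh hh'
    cases h' with
    | nil => exact (HiA_excl bl M τ z q q1 hh' hh.1).elim
    | cons q2 h' =>
      obtain ⟨⟨T1, hT1, hb1, hn1⟩, hr1⟩ := hh
      obtain ⟨⟨T2, hT2, hb2, hn2⟩, hr2⟩ := hh'
      have hTT : T1 = T2 := by
        rcases lt_trichotomy T1 T2 with h | h | h
        · exact absurd (by rw [← hT1]; exact hb2 T1 h) hn1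
        · exact h
        · exact absurd (by rw [← hT2]; exact hb1 T2 h) hn2
      have hqq : q1 = q2 := by rw [← hT1, ← hT2, hTT]
      subst hqq
      rw [ih h' _ _ hr1 hr2]

end

theorem tHiA : S_HiA := by
  intro k Q β _ bl M τ
  refine ⟨⟨?_, ?_⟩, ?_⟩
  · rintro ⟨T, hT⟩
    unfold HM.run at hT
    rw [HiA_iter] at hT
    exact HiA_ex bl M τ T _ _ hT
  · rintro ⟨h, hh⟩
    obtain ⟨T, hT⟩ := HiA_acc bl M τ h _ _ hh
    refine ⟨T, ?_⟩
    unfold HM.run
    rw [HiA_iter]
    exact hT
  · intro h h' hh hh'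
    exact HiA_uniq bl M τ h h' _ _ hh hh'

end Pool.Agent.Lib.MP_ff3ed7_lc.MH
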