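import Pool.Agent.Lib.MP_ff3ed7_lc.MH.SpecL

/-!
# PROJECT MH, module HiL: the length of a history
-/

set_option autoImplicit false

open Finset

namespace Pool.Agent.Lib.MP_ff3ed7_lc.MH

open Pool.Agent.Lib.MP_ff3ed7_lc.PLT
open Pool.Agent.Lib.MP_ff3ed7_lc.SQ (dst)

private theorem HiL_tri (a b c : ℕ) : dst a c ≤ dst a b + dst b c := by
  unfold dst
  omega

private theorem HiL_q {k : ℕ} {Q : Type} (M : HM k Q) (τ : ℕ → Option Bool) (C : HCfg k Q) :
    (M.step τ C).q = nx M τ C.q := by
  unfold HM.step nx
  cases h : M.act C.q <;> rfl

private theorem HiL_qT {k : ℕ} {Q : Type} (M : HM k Q) (τ : ℕ → Option Bool) (T : ℕ) :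
    ∀ C : HCfg k Q, ((M.step τ)^[T] C).q = (nx M τ)^[T] C.q := by
  induction T with
  | zero => intro C; rfl
  | succ n ih =>
    intro C
    rw [Function.iterate_succ_apply, Function.iterate_succ_apply, ih, HiL_q]

/-- one step: the potential of the heads in `I` -/
private theorem HiL_one {k : ℕ} {Q : Type} (M : HM k Q) (τ : ℕ → Option Bool) (C : HCfg k Q)
    (I : Finset (Fin k)) (c : Fin k → ℕ) :
    ∑ i ∈ I, dst ((M.step τ C).h i) (c i) + C.mot ≤
      (M.step τ C).mot + ∑ i ∈ I, dst (C.h i) (c i) := by
  unfold HM.step
  cases h : M.act C.q with
  | stop b => simp only; omega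
  | jump q => simp only; omega
  | visit i j f =>
    simp only
    by_cases hi : i ∈ I
    · rw [← Finset.add_sum_erase I _ hi, ← Finset.add_sum_erase I (fun l => dst (C.h l) (c l)) hi]
      have h1 : ∑ l ∈ I.erase i, dst (Function.update C.h i j l) (c l) =
          ∑ l ∈ I.erase i, dst (C.h l) (c l) := by
        apply Finset.sum_congr rfl
        intro l hl
        rw [Function.update_of_ne (Finset.ne_of_mem_erase hl)]
      rw [h1, Function.update_self]
      have := HiL_tri j (C.h i) (c i)
      omega
    · have h1 : ∑ l ∈ I, dst (Function.update C.h i j l) (c l) = ∑ l ∈ I, dst (C.h l) (c l) := by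
        apply Finset.sum_congr rfl
        intro l hl
        have hli : l ≠ i := by
          intro e
          exact hi (e ▸ hl)
        rw [Function.update_of_ne hli]
      rw [h1]
      omega

private theorem HiL_pot {k : ℕ} {Q : Type} (M : HM k Q) (τ : ℕ → Option Bool)
    (I : Finset (Fin k)) (c : Fin k → ℕ) (T : ℕ) : ∀ C : HCfg k Q,
    ∑ i ∈ I, dst (((M.step τ)^[T] C).h i) (c i) + C.mot ≤
      ((M.step τ)^[T] C).mot + ∑ i ∈ I, dst (C.h i) (c i) := by
  induction T with
  | zero => intro C; simp only [Function.iterate_zero, id]; omega
  | succ n ih =>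
    intro C
    rw [Function.iterate_succ_apply]
    have h1 := ih (M.step τ C)
    have h2 := HiL_one M τ C I c
    omega

open Classical in
private theorem HiL_main {k : ℕ} {Q ρ : Type} [DecidableEq ρ] {P B : ℕ}
    {bl : ℕ → Option (ρ × Fin P)} (hG : Geo B bl) (M : HM k Q) (τ : ℕ → Option Bool) :
    ∀ (h : List Q) (C : HCfg k Q) (z : Fin k → Option (ρ × Fin P)) (c : Fin k → ℕ),
    (∀ i b, z i = some b → bl (c i) = some b) → His bl M τ z C.q h →
    ∃ T, B * h.length + C.mot ≤ ((M.step τ)^[T] C).mot + B * (univ.filter fun i => z i = none).card +
      ∑ i ∈ univ.filter (fun i => z i ≠ none), dst (C.h i) (c i) := by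
  intro h
  induction h with
  | nil =>
    intro C z c _ _
    refine ⟨0, ?_⟩
    simp only [Function.iterate_zero, id, List.length_nil, Nat.mul_zero]
    omega
  | cons q' h' ih =>
    intro C z c hc hH
    obtain ⟨⟨T₀, hT₀, -, hne⟩, hH'⟩ := hH
    set C' := (M.step τ)^[T₀] C with hC'
    have hq' : C'.q = q' := by rw [hC', HiL_qT, hT₀]
    have hpot := HiL_pot M τ (univ.filter fun i => z i ≠ none) c T₀ C
    rw [← hC'] at hpot
    -- the action of q'
    have hact : ∃ i j f b, M.act q' = .visit i j f ∧ bl j = some b ∧ z i ≠ some b ∧
        zn bl M z q' = Function.update z i (some b) := by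
      unfold zn at hne ⊢
      cases ha : M.act q' with
      | stop b => rw [ha] at hne; exact absurd rfl hne
      | jump q => rw [ha] at hne; exact absurd rfl hne
      | visit i j f =>
        rw [ha] at hne
        simp only at hne ⊢
        cases hb : bl j with
        | none => rw [hb] at hne; simp at hne
        | some b =>
          rw [hb] at hne
          simp only [reduceCtorEq, if_false] at hne
          refine ⟨i, j, f, b, rfl, hb, ?_, ?_⟩
          · intro hz
            apply hne
            rw [← hz, Function.update_eq_self]
          · simp
    obtain ⟨i, j, f, b, ha, hb, hzb, hzn⟩ := hact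
    have hstep : M.step τ C' = ⟨f (τ j), Function.update C'.h i j, C'.mot + dst j (C'.h i)⟩ := by
      unfold HM.step
      rw [hq', ha]
    have hnx : (M.step τ C').q = nx M τ q' := by rw [HiL_q, hq']
    rw [hzn] at hH'
    rw [← hnx] at hH'
    obtain ⟨T₁, hT₁⟩ := ih (M.step τ C') (Function.update z i (some b)) (Function.update c i j)
      (by
        intro l b' hl
        by_cases hli : l = i
        · subst hli
          rw [Function.update_self] at hl ⊢
          rw [hb]
          exact hl
        · rw [Function.update_of_ne hli] at hl ⊢
          exact hc l b' hl) hH'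
    refine ⟨T₁ + (T₀ + 1), ?_⟩
    have hit : (M.step τ)^[T₁ + (T₀ + 1)] C = (M.step τ)^[T₁] (M.step τ C') := by
      rw [Function.iterate_add_apply, Function.iterate_succ_apply', ← hC']
    rw [hit]
    have hmot : (M.step τ C').mot = C'.mot + dst j (C'.h i) := by rw [hstep]
    -- the sum of the new potentials
    have hnew : ∑ l ∈ univ.filter (fun l => Function.update z i (some b) l ≠ none),
        dst ((M.step τ C').h l) (Function.update c i j l) =
        ∑ l ∈ (univ.filter (fun l => z l ≠ none)).erase i, dst (C'.h l) (c l) := by
      have e1 : univ.filter (fun l => Function.update z i (some b) l ≠ none) =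
          insert i ((univ.filter (fun l => z l ≠ none)).erase i) := by
        ext l
        simp only [mem_filter, mem_univ, true_and, mem_insert, mem_erase]
        by_cases hli : l = i
        · subst hli
          simp
        · rw [Function.update_of_ne hli]
          simp [hli]
      rw [e1, Finset.sum_insert (by simp)]
      have e2 : dst ((M.step τ C').h i) (Function.update c i j i) = 0 := by
        rw [hstep]
        simp only [Function.update_self]
        unfold dst
        omega
      rw [e2, Nat.zero_add]
      apply Finset.sum_congr rfl
      intro l hl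
      rw [hstep]
      simp only
      rw [Function.update_of_ne (Finset.ne_of_mem_erase hl),
        Function.update_of_ne (Finset.ne_of_mem_erase hl)]
    rw [hnew, hmot] at hT₁
    simp only [List.length_cons]
    have hmul : B * (h'.length + 1) = B * h'.length + B := by ring
    rw [hmul]
    cases hz : z i with
    | none =>
      have e1 : univ.filter (fun l => Function.update z i (some b) l = none) =
          (univ.filter (fun l => z l = none)).erase i := by
        ext l
        simp only [mem_filter, mem_univ, true_and, mem_erase]
        by_cases hli : l = i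
        · subst hli
          simp
        · rw [Function.update_of_ne hli]
          simp [hli]
      have e2 : i ∈ univ.filter (fun l => z l = none) := by simp [hz]
      have e3 : (univ.filter (fun l => Function.update z i (some b) l = none)).card + 1 =
          (univ.filter (fun l => z l = none)).card := by
        rw [e1, Finset.card_erase_add_one e2]
      have e4 : (univ.filter (fun l => z l ≠ none)).erase i = univ.filter (fun l => z l ≠ none) := by
        apply Finset.erase_eq_of_notMem
        simp [hz]
      rw [e4] at hT₁
      have e5 : B * (univ.filter (fun l => z l = none)).card =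
          B * (univ.filter (fun l => Function.update z i (some b) l = none)).card + B := by
        rw [← e3]
        ring
      rw [e5]
      omega
    | some b' =>
      have e1 : univ.filter (fun l => Function.update z i (some b) l = none) =
          univ.filter (fun l => z l = none) := by
        ext l
        simp only [mem_filter, mem_univ, true_and]
        by_cases hli : l = i
        · subst hli
          simp [hz]
        · rw [Function.update_of_ne hli]
      rw [e1] at hT₁
      have e2 : i ∈ univ.filter (fun l => z l ≠ none) := by simp [hz]
      have e3 := Finset.add_sum_erase (univ.filter (fun l => z l ≠ none))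
        (fun l => dst (C'.h l) (c l)) e2
      have e4 : B ≤ dst j (c i) := by
        apply hG.far j (c i) b b' hb (hc i b' hz)
        intro h
        apply hzb
        rw [hz, h]
      have e5 := HiL_tri j (C'.h i) (c i)
      omega

theorem tHiL : S_HiL := by
  classical
  intro k Q ρ _ P B t bl M τ h hB hG ht hH
  obtain ⟨T, hT⟩ := HiL_main hG M τ h ⟨M.start, fun _ => 0, 0⟩ (fun _ => none) (fun _ => 0)
    (by simp) hH
  have h1 : ((M.step τ)^[T] ⟨M.start, fun _ => 0, 0⟩ : HCfg k Q).mot ≤ t := ht T
  have h2 : B * h.length ≤ t + B * k := by
    simp at hT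
    omega
  have h3 : (h.length - k) * B ≤ t := by
    rcases le_or_gt h.length k with h4 | h4
    · rw [Nat.sub_eq_zero_of_le h4]
      omega
    · have h5 : (h.length - k) * B + B * k = B * h.length := by
        obtain ⟨d, hd⟩ := Nat.exists_eq_add_of_le h4.le
        rw [hd, Nat.add_sub_cancel_left]
        ring
      omega
  have h4 : h.length - k ≤ t / B := (Nat.le_div_iff_mul_le (by omega)).2 h3
  omega

end Pool.Agent.Lib.MP_ff3ed7_lc.MH
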