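import Pool.Agent.Lib.MP_ff3ed7_lc.MH.SpecL

/-!
# PROJECT MH: module HiR, a history is a rectangle for two blocks which are never visited together
-/

set_option autoImplicit false

open Finset

namespace Pool.Agent.Lib.MP_ff3ed7_lc.MH

open Pool.Agent.Lib.MP_ff3ed7_lc.PLT
open Pool.Agent.Lib.MP_ff3ed7_lc.SQ (dst)

section

variable {k : ℕ} {Q β : Type} [DecidableEq β]

/-- The two tapes agree in the cells outside the blocks and in the cells of the zones. -/
def HiR_Loc (bl : ℕ → Option β) (z : Fin k → Option β) (τ τ' : ℕ → Option Bool) : Prop :=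
  ∀ j, (bl j = none ∨ ∃ i, z i = bl j) → τ j = τ' j

theorem HiR_nx (bl : ℕ → Option β) (M : HM k Q) (z : Fin k → Option β) (τ τ' : ℕ → Option Bool)
    (s : Q) (h : HiR_Loc bl (zn bl M z s) τ τ') : nx M τ s = nx M τ' s := by
  unfold nx
  unfold zn at h
  cases hs : M.act s with
  | stop b => rfl
  | jump q => rfl
  | visit i j f =>
    rw [hs] at h
    simp only at h ⊢
    by_cases hj : bl j = none
    · rw [h j (Or.inl hj)]
    · rw [if_neg hj] at h
      rw [h j (Or.inr ⟨i, Function.update_self _ _ _⟩)]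

theorem HiR_iter (bl : ℕ → Option β) (M : HM k Q) (z : Fin k → Option β)
    (τ τ' : ℕ → Option Bool) (hL : HiR_Loc bl z τ τ') (q : Q) :
    ∀ T, (∀ T' < T, zn bl M z ((nx M τ)^[T'] q) = z) → (nx M τ')^[T] q = (nx M τ)^[T] q := by
  intro T
  induction T with
  | zero => intro _; rfl
  | succ T ih =>
    intro h
    rw [Function.iterate_succ_apply', Function.iterate_succ_apply',
      ih (fun T' hT' => h T' (Nat.lt_succ_of_lt hT'))]
    symm
    apply HiR_nx bl M z
    rw [h T (Nat.lt_succ_self T)]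
    exact hL

theorem HiR_fst (bl : ℕ → Option β) (M : HM k Q) (z : Fin k → Option β)
    (τ τ' : ℕ → Option Bool) (hL : HiR_Loc bl z τ τ') (q q' : Q) (h : Fst bl M τ z q q') :
    Fst bl M τ' z q q' := by
  obtain ⟨T, h1, h2, h3⟩ := h
  refine ⟨T, ?_, ?_, h3⟩
  · rw [HiR_iter bl M z τ τ' hL q T h2]
    exact h1
  · intro T' hT'
    rw [HiR_iter bl M z τ τ' hL q T' (fun T'' h'' => h2 T'' (lt_trans h'' hT'))]
    exact h2 T' hT'

theorem HiR_end (bl : ℕ → Option β) (M : HM k Q) (z : Fin k → Option β)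
    (τ τ' : ℕ → Option Bool) (hL : HiR_Loc bl z τ τ') (q : Q) (h : End bl M τ z q) :
    End bl M τ' z q := by
  obtain ⟨T, h2, h3⟩ := h
  refine ⟨T, ?_, ?_⟩
  · intro T' hT'
    rw [HiR_iter bl M z τ τ' hL q T' (fun T'' h'' => h2 T'' (lt_trans h'' hT'))]
    exact h2 T' hT'
  · rw [HiR_iter bl M z τ τ' hL q T h2]
    exact h3

theorem HiR_head (bl : ℕ → Option β) (M : HM k Q) (z : Fin k → Option β) (h : List Q) :
    z ∈ zs bl M z h := by
  cases h with
  | nil => simp [zs]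
  | cons a h => simp [zs]

/-- Cut and paste. -/
theorem HiR_mix (bl : ℕ → Option β) (M : HM k Q) (b b' : β) (τ τ1 τ2 : ℕ → Option Bool)
    (h1 : ∀ z : Fin k → Option β, (¬ ∃ i, z i = some b') → HiR_Loc bl z τ1 τ)
    (h2 : ∀ z : Fin k → Option β, (¬ ∃ i, z i = some b) → HiR_Loc bl z τ2 τ) :
    ∀ (h : List Q) (z : Fin k → Option β) (q1 q2 q : Q),
      (((¬ ∃ i, z i = some b') ∧ q1 = q) ∨ ((¬ ∃ i, z i = some b) ∧ q2 = q)) →
      (∀ z' ∈ zs bl M z h, ¬ ((∃ i, z' i = some b) ∧ ∃ i, z' i = some b')) →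
      His bl M τ1 z q1 h → His bl M τ2 z q2 h → His bl M τ z q h := by
  intro h
  induction h with
  | nil =>
    intro z q1 q2 q hc _ e1 e2
    rcases hc with ⟨hn, hq⟩ | ⟨hn, hq⟩
    · rw [← hq]
      exact HiR_end bl M z τ1 τ (h1 z hn) q1 e1
    · rw [← hq]
      exact HiR_end bl M z τ2 τ (h2 z hn) q2 e2
  | cons q' h ih =>
    intro z q1 q2 q hc hz e1 e2
    obtain ⟨f1, g1⟩ := e1
    obtain ⟨f2, g2⟩ := e2
    have hz' : ¬ ((∃ i, zn bl M z q' i = some b) ∧ ∃ i, zn bl M z q' i = some b') :=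
      hz _ (List.mem_cons_of_mem _ (HiR_head bl M (zn bl M z q') h))
    refine ⟨?_, ih (zn bl M z q') (nx M τ1 q') (nx M τ2 q') (nx M τ q') ?_ ?_ g1 g2⟩
    · rcases hc with ⟨hn, hq⟩ | ⟨hn, hq⟩
      · rw [← hq]
        exact HiR_fst bl M z τ1 τ (h1 z hn) q1 q' f1
      · rw [← hq]
        exact HiR_fst bl M z τ2 τ (h2 z hn) q2 q' f2
    · by_cases hb : ∃ i, zn bl M z q' i = some b'
      · right
        have hb2 : ¬ ∃ i, zn bl M z q' i = some b := fun hb2 => hz' ⟨hb2, hb⟩
        exact ⟨hb2, HiR_nx bl M z τ2 τ q' (h2 _ hb2)⟩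
      · left
        exact ⟨hb, HiR_nx bl M z τ1 τ q' (h1 _ hb)⟩
    · intro z' hz'
      exact hz z' (List.mem_cons_of_mem _ hz')

end

theorem tHiR : S_HiR := by
  intro k Q β _ B bl M rd hrd b b' h hne hz x
  refine ⟨fun v => ∃ w, His bl M (rd (Function.update (Function.update x b v) b' w))
      (fun _ => none) M.start h,
    fun w => ∃ v, His bl M (rd (Function.update (Function.update x b v) b' w))
      (fun _ => none) M.start h, fun v w => ⟨fun e => ⟨⟨w, e⟩, ⟨v, e⟩⟩, ?_⟩⟩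
  rintro ⟨⟨w1, e1⟩, ⟨v2, e2⟩⟩
  refine HiR_mix bl M b b' _ _ _ ?_ ?_ h (fun _ => none) M.start M.start M.start
    (Or.inl ⟨?_, rfl⟩) hz e1 e2
  · intro z hn j hj
    apply hrd
    intro c hc
    have hcb : c ≠ b' := by
      intro hcb
      rcases hj with hj | ⟨i, hi⟩
      · rw [hc] at hj
        cases hj
      · exact hn ⟨i, by rw [hi, hc, hcb]⟩
    rw [Function.update_of_ne hcb, Function.update_of_ne hcb]
  · intro z hn j hj
    apply hrd
    intro c hc
    have hcb : c ≠ b := by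
      intro hcb
      rcases hj with hj | ⟨i, hi⟩
      · rw [hc] at hj
        cases hj
      · exact hn ⟨i, by rw [hi, hc, hcb]⟩
    by_cases hc' : c = b'
    · rw [hc', Function.update_self, Function.update_self]
    · rw [Function.update_of_ne hc', Function.update_of_ne hc', Function.update_of_ne hcb,
        Function.update_of_ne hcb]
  · rintro ⟨i, hi⟩
    cases hi

end Pool.Agent.Lib.MP_ff3ed7_lc.MH
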