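import Pool.Agent.Lib.MP_ff3ed7_lc.MH.SpecL

/-!
# PROJECT MH, module HiV (helper56): small variation of the zones

`HiV_Z` are the zones after `T` steps, `HiV_L` is (the last cell in a block where head `i` has been, the
distance covered at that time).
-/

set_option autoImplicit false

open Finset

namespace Pool.Agent.Lib.MP_ff3ed7_lc.MH

open Pool.Agent.Lib.MP_ff3ed7_lc.PLT
open Pool.Agent.Lib.MP_ff3ed7_lc.SQ (dst)

private lemma HiV_tri (a b c : ℕ) : dst a c ≤ dst a b + dst b c := by
  unfold dst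
  omega

private lemma HiV_self (a : ℕ) : dst a a = 0 := by
  unfold dst
  omega

/-- the telescoping sum -/
private lemma HiV_tel {n B t : ℕ} (μ x : Fin n → ℕ)
    (h : ∀ (e : ℕ) (he : e + 1 < n), μ ⟨e, by omega⟩ + B * dst (x ⟨e + 1, he⟩) (x ⟨e, by omega⟩) ≤
      μ ⟨e + 1, he⟩) (ht : ∀ e, μ e ≤ t) : B * tv x ≤ t := by
  rcases Nat.eq_zero_or_pos n with hn | hn
  · subst hn
    simp [tv]
  · have e1 : tv x = ∑ i ∈ range (n - 1),
        (fun i : ℕ => if h : i + 1 < n then dst (x ⟨i + 1, h⟩) (x ⟨i, by omega⟩) else 0) i := by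
      unfold tv
      rw [← Fin.sum_univ_eq_sum_range
        (fun i : ℕ => if h : i + 1 < n then dst (x ⟨i + 1, h⟩) (x ⟨i, by omega⟩) else 0) (n - 1)]
      apply sum_congr rfl
      intro i _
      have hi : (i : ℕ) + 1 < n := by have := i.2; omega
      rw [dif_pos hi]
    have key : ∀ (N : ℕ) (hN : N < n), B * ∑ i ∈ range N,
        (fun i : ℕ => if h : i + 1 < n then dst (x ⟨i + 1, h⟩) (x ⟨i, by omega⟩) else 0) i ≤
          μ ⟨N, hN⟩ := by
      intro N
      induction N with
      | zero => intro hN; simp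
      | succ N ih =>
        intro hN
        rw [sum_range_succ, mul_add]
        have h1 := ih (by omega)
        have h2 := h N hN
        simp only [dif_pos hN]
        simp only at h1
        omega
    rw [e1]
    exact (key (n - 1) (by omega)).trans (ht _)

section

variable {k : ℕ} {Q β : Type}

/-- the zones after `T` steps -/
private def HiV_Z (bl : ℕ → Option β) (M : HM k Q) (τ : ℕ → Option Bool) (z : Fin k → Option β)
    (q : Q) : ℕ → (Fin k → Option β)
  | 0 => z
  | T + 1 => zn bl M (HiV_Z bl M τ z q T) ((nx M τ)^[T] q)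

private lemma HiV_add (bl : ℕ → Option β) (M : HM k Q) (τ : ℕ → Option Bool) (z : Fin k → Option β)
    (q : Q) (T s : ℕ) :
    HiV_Z bl M τ z q (T + s) = HiV_Z bl M τ (HiV_Z bl M τ z q T) ((nx M τ)^[T] q) s := by
  induction s with
  | zero => rfl
  | succ s ih =>
    show zn bl M (HiV_Z bl M τ z q (T + s)) ((nx M τ)^[T + s] q) =
      zn bl M (HiV_Z bl M τ (HiV_Z bl M τ z q T) ((nx M τ)^[T] q) s)
        ((nx M τ)^[s] ((nx M τ)^[T] q))
    rw [ih, ← Function.iterate_add_apply, Nat.add_comm s T]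

/-- the entries of the list of zones are the zones of the run at increasing times -/
private lemma HiV_tm (bl : ℕ → Option β) (M : HM k Q) (τ : ℕ → Option Bool) (h : List Q) :
    ∀ (z : Fin k → Option β) (q : Q), His bl M τ z q h →
      ∃ tm : ℕ → ℕ, Monotone tm ∧ ∀ l zz, (zs bl M z h)[l]? = some zz →
        HiV_Z bl M τ z q (tm l) = zz := by
  induction h with
  | nil =>
    intro z q _
    refine ⟨fun _ => 0, fun _ _ _ => le_rfl, ?_⟩
    intro l zz hl
    rcases l with _ | l
    · simp only [zs, List.getElem?_cons_zero, Option.some.injEq] at hl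
      exact hl
    · simp [zs] at hl
  | cons q' h ih =>
    intro z q hH
    obtain ⟨⟨T, hT, hz, _⟩, hH'⟩ := hH
    obtain ⟨tm, hm, htm⟩ := ih _ _ hH'
    have h0 : ∀ T' ≤ T, HiV_Z bl M τ z q T' = z := by
      intro T'
      induction T' with
      | zero => intro _; rfl
      | succ T' ih' =>
        intro hT'
        show zn bl M (HiV_Z bl M τ z q T') ((nx M τ)^[T'] q) = z
        rw [ih' (by omega)]
        exact hz T' (by omega)
    have h1 : HiV_Z bl M τ z q (T + 1) = zn bl M z q' := by
      show zn bl M (HiV_Z bl M τ z q T) ((nx M τ)^[T] q) = zn bl M z q'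
      rw [h0 T le_rfl, hT]
    have h2 : (nx M τ)^[T + 1] q = nx M τ q' := by
      rw [Function.iterate_succ_apply', hT]
    refine ⟨fun l => if l = 0 then 0 else T + 1 + tm (l - 1), ?_, ?_⟩
    · intro l l' hll
      simp only
      split_ifs with h3 h4
      · exact le_rfl
      · exact Nat.zero_le _
      · omega
      · exact Nat.add_le_add_left (hm (by omega)) _
    · intro l zz hl
      rcases l with _ | l
      · simp only [zs, List.getElem?_cons_zero, Option.some.injEq] at hl
        simp only [if_true]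
        exact hl
      · simp only [zs, List.getElem?_cons_succ] at hl
        simp only [Nat.add_eq_zero_iff, one_ne_zero, and_false, if_false, Nat.add_sub_cancel]
        rw [HiV_add, h1, h2]
        exact htm l zz hl

private lemma HiV_run (M : HM k Q) (τ : ℕ → Option Bool) (T : ℕ) :
    M.run τ (T + 1) = M.step τ (M.run τ T) := by
  unfold HM.run
  rw [Function.iterate_succ_apply']

private lemma HiV_q (M : HM k Q) (τ : ℕ → Option Bool) (T : ℕ) :
    (M.run τ T).q = (nx M τ)^[T] M.start := by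
  induction T with
  | zero => rfl
  | succ T ih =>
    rw [HiV_run, Function.iterate_succ_apply', ← ih]
    unfold HM.step nx
    cases hact : M.act (M.run τ T).q <;> rfl

open Classical in
/-- the last cell in a block where head `i` has been, and the distance covered at that time -/
private noncomputable def HiV_L (bl : ℕ → Option β) (M : HM k Q) (τ : ℕ → Option Bool) (i : Fin k) :
    ℕ → ℕ × ℕ
  | 0 => (0, 0)
  | T + 1 => if ∃ j f, M.act (M.run τ T).q = .visit i j f ∧ bl j ≠ none then
      ((M.run τ (T + 1)).h i, (M.run τ (T + 1)).mot) else HiV_L bl M τ i T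

open Classical in
private lemma HiV_step (bl : ℕ → Option β) (M : HM k Q) (τ : ℕ → Option Bool) (i : Fin k) (T : ℕ) :
    (HiV_Z bl M τ (fun _ => none) M.start (T + 1) i = HiV_Z bl M τ (fun _ => none) M.start T i ∧
      HiV_L bl M τ i (T + 1) = HiV_L bl M τ i T ∧
      (M.run τ T).mot + dst ((M.run τ (T + 1)).h i) ((M.run τ T).h i) ≤ (M.run τ (T + 1)).mot) ∨
    ∃ b, bl ((M.run τ (T + 1)).h i) = some b ∧
      HiV_Z bl M τ (fun _ => none) M.start (T + 1) i = some b ∧
      HiV_L bl M τ i (T + 1) = ((M.run τ (T + 1)).h i, (M.run τ (T + 1)).mot) ∧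
      (M.run τ T).mot + dst ((M.run τ (T + 1)).h i) ((M.run τ T).h i) ≤ (M.run τ (T + 1)).mot := by
  have hZ : HiV_Z bl M τ (fun _ => none) M.start (T + 1) =
      zn bl M (HiV_Z bl M τ (fun _ => none) M.start T) (M.run τ T).q := by
    rw [HiV_q]
    rfl
  have hL : HiV_L bl M τ i (T + 1) = if ∃ j f, M.act (M.run τ T).q = .visit i j f ∧ bl j ≠ none then
      ((M.run τ (T + 1)).h i, (M.run τ (T + 1)).mot) else HiV_L bl M τ i T := rfl
  rw [hZ, hL, HiV_run]
  generalize M.run τ T = C
  generalize HiV_Z bl M τ (fun _ => none) M.start T = z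
  unfold zn HM.step
  cases hact : M.act C.q with
  | stop b =>
    left
    simp [HiV_self]
  | jump q =>
    left
    simp [HiV_self]
  | visit i' j f =>
    by_cases hj : bl j = none
    · left
      refine ⟨by simp [hj], ?_, ?_⟩
      · rw [if_neg]
        rintro ⟨j', f', hh, hne⟩
        simp only [HAct.visit.injEq] at hh
        rw [← hh.2.1] at hne
        exact hne hj
      · by_cases hi : i = i'
        · subst hi
          simp
        · simp [Function.update_of_ne hi, HiV_self]
    · by_cases hi : i = i'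
      · subst hi
        right
        obtain ⟨b, hb⟩ := Option.ne_none_iff_exists'.1 hj
        refine ⟨b, by simpa using hb, by simp [hb], ?_, by simp⟩
        rw [if_pos ⟨j, f, rfl, hj⟩]
      · left
        refine ⟨by simp [hj, Function.update_of_ne hi], ?_, by simp [Function.update_of_ne hi, HiV_self]⟩
        rw [if_neg]
        rintro ⟨j', f', hh, hne⟩
        simp only [HAct.visit.injEq] at hh
        exact hi hh.1.symm

private lemma HiV_I (bl : ℕ → Option β) (M : HM k Q) (τ : ℕ → Option Bool) (i : Fin k) (T : ℕ) :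
    ∀ b, HiV_Z bl M τ (fun _ => none) M.start T i = some b →
      bl (HiV_L bl M τ i T).1 = some b ∧
      (HiV_L bl M τ i T).2 + dst ((M.run τ T).h i) (HiV_L bl M τ i T).1 ≤ (M.run τ T).mot := by
  induction T with
  | zero =>
    intro b hb
    have : (none : Option β) = some b := hb
    cases this
  | succ T ih =>
    intro b hb
    rcases HiV_step bl M τ i T with ⟨h1, h2, h3⟩ | ⟨b', h1, h2, h3, h4⟩
    · rw [h1] at hb
      obtain ⟨h4, h5⟩ := ih b hb
      rw [h2]
      refine ⟨h4, ?_⟩
      have := HiV_tri ((M.run τ (T + 1)).h i) ((M.run τ T).h i) (HiV_L bl M τ i T).1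
      omega
    · rw [h2] at hb
      rw [h3]
      have h5 : b' = b := by simpa using hb
      subst h5
      refine ⟨h1, ?_⟩
      simp [HiV_self]

private lemma HiV_II (bl : ℕ → Option β) (M : HM k Q) (τ : ℕ → Option Bool) (i : Fin k) (T : ℕ)
    (hT : HiV_Z bl M τ (fun _ => none) M.start T i ≠ none) (s : ℕ) :
    HiV_Z bl M τ (fun _ => none) M.start (T + s) i ≠ none ∧
      (HiV_L bl M τ i T).2 + dst (HiV_L bl M τ i (T + s)).1 (HiV_L bl M τ i T).1 ≤
        (HiV_L bl M τ i (T + s)).2 := by
  induction s with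
  | zero => exact ⟨hT, by simp [HiV_self]⟩
  | succ s ih =>
    obtain ⟨h1, h2⟩ := ih
    rcases HiV_step bl M τ i (T + s) with ⟨h3, h4, h5⟩ | ⟨b', h3, h4, h5, h6⟩
    · rw [← Nat.add_assoc, h3, h4]
      exact ⟨h1, h2⟩
    · rw [← Nat.add_assoc, h4, h5]
      refine ⟨by simp, ?_⟩
      obtain ⟨b, hb⟩ := Option.ne_none_iff_exists'.1 h1
      obtain ⟨_, h8⟩ := HiV_I bl M τ i (T + s) b hb
      have t1 := HiV_tri ((M.run τ (T + s + 1)).h i) ((M.run τ (T + s)).h i)
        (HiV_L bl M τ i (T + s)).1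
      have t2 := HiV_tri ((M.run τ (T + s + 1)).h i) (HiV_L bl M τ i (T + s)).1
        (HiV_L bl M τ i T).1
      simp only
      omega

end

theorem tHiV : S_HiV := by
  intro k Q ρ _ P B t bl M τ h hB hG ht hH i r n l a hl hz
  obtain ⟨tm, hm, htm⟩ := HiV_tm bl M τ h (fun _ => none) M.start hH
  have hZ : ∀ e, HiV_Z bl M τ (fun _ => none) M.start (tm (l e)) i = some (r, a e) := by
    intro e
    obtain ⟨z, hz1, hz2⟩ := hz e
    rw [htm _ _ hz1]
    exact hz2
  rw [Nat.le_div_iff_mul_le (by omega), mul_comm]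
  refine HiV_tel (fun e => (HiV_L bl M τ i (tm (l e))).2) (fun e => (a e : ℕ)) ?_ ?_
  · intro e he
    have h1 : tm (l ⟨e, by omega⟩) ≤ tm (l ⟨e + 1, he⟩) :=
      hm (hl.monotone (by simp [Fin.le_def]))
    obtain ⟨s, hs⟩ := Nat.exists_eq_add_of_le h1
    have h2 := (HiV_II bl M τ i (tm (l ⟨e, by omega⟩)) (by rw [hZ]; simp) s).2
    rw [← hs] at h2
    have h3 := (HiV_I bl M τ i _ _ (hZ ⟨e, by omega⟩)).1
    have h4 := (HiV_I bl M τ i _ _ (hZ ⟨e + 1, he⟩)).1
    have h5 := hG.row _ _ _ _ _ h4 h3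
    show (HiV_L bl M τ i (tm (l ⟨e, by omega⟩))).2 +
      B * dst (a ⟨e + 1, he⟩ : ℕ) (a ⟨e, by omega⟩ : ℕ) ≤ (HiV_L bl M τ i (tm (l ⟨e + 1, he⟩))).2
    omega
  · intro e
    have h1 := (HiV_I bl M τ i _ _ (hZ e)).2
    have h2 := ht (tm (l e))
    show (HiV_L bl M τ i (tm (l e))).2 ≤ t
    omega

end Pool.Agent.Lib.MP_ff3ed7_lc.MH
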