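import Pool.Agent.Lib.MP_ff3ed7_lc.MH.SpecU

/-!
# PROJECT MH: one inner product of two blocks, with two heads
-/

set_option autoImplicit false

open Finset

namespace Pool.Agent.Lib.MP_ff3ed7_lc.MH

open Pool.Agent.Lib.MP_ff3ed7_lc.PLT
open Pool.Agent.Lib.MP_ff3ed7_lc.SQ (dst ql)

private lemma HvI_loop {x : List Bool} {S : ℕ} {e : Expr} {p : HProg 2}
    {I : ℕ → (ℕ → ℕ) → (Fin 2 → ℕ) → Prop} {C : ℕ} {F : ℕ → (Fin 2 → ℕ) → ℕ}
    (hend : ∀ s h, I 0 s h → e.val s = 0 ∧ e.cost s ≤ C)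
    (hstep : ∀ j s h, I (j + 1) s h →
      e.val s ≠ 0 ∧ ∃ s' h' c, HRun x S p s h s' h' c ∧ e.cost s + c + F j h' ≤ C + F (j + 1) h ∧
        I j s' h') :
    ∀ j s h, I j s h → ∃ s' h' c, HRun x S (.loop e p) s h s' h' c ∧ c ≤ C * (j + 1) + F j h ∧
      I 0 s' h' := by
  intro j
  induction j with
  | zero =>
    intro s h hs
    obtain ⟨h1, h2⟩ := hend s h hs
    exact ⟨s, h, _, HRun.loopF h1, by omega, hs⟩
  | succ j ih =>
    intro s h hs
    obtain ⟨h1, s', h', c, h2, h3, h4⟩ := hstep j s h hs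
    obtain ⟨s'', h'', c', h5, h6, h7⟩ := ih s' h' h4
    refine ⟨s'', h'', _, HRun.loopT h1 h2 h5, ?_, h7⟩
    have : C * (j + 1 + 1) = C * (j + 1) + C := by ring
    omega

private lemma HvI_bd {u : ℕ → ℕ} {S i v : ℕ} (h : PLT.Bd u S) (hv : v < 2 ^ S) :
    PLT.Bd (Function.update u i v) S := by
  intro j
  by_cases hj : j = i
  · subst hj; rwa [Function.update_self]
  · rw [Function.update_of_ne hj]; exact h j

private lemma HvI_bit (z : List Bool) (j : ℕ) : bit z j ≤ 1 := by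
  unfold bit; split <;> omega

private lemma HvI_arith {N r a i : ℕ} (hN : 2 ^ 320 ≤ N) (hr : r < 160) (ha : a < vp N)
    (hi : i < vB N) : blc N r a i < 2 ^ Nat.log 2 N := by
  have hl : 320 ≤ Nat.log 2 N := by
    have := Nat.log_mono_right (b := 2) hN
    rwa [Nat.log_pow (by norm_num)] at this
  obtain ⟨l, hl'⟩ : ∃ l, Nat.log 2 N = l + 10 := ⟨Nat.log 2 N - 10, by omega⟩
  have hPB : vp N * vB N = 2 ^ l := by
    unfold vp vB
    rw [← pow_add]
    congr 1
    omega
  have h1 : 2 ^ Nat.log 2 N = 1024 * 2 ^ l := by rw [hl', pow_add]; ring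
  have h2 : 2 ^ (Nat.log 2 N - 1) = 512 * 2 ^ l := by
    rw [hl', show l + 10 - 1 = l + 9 by omega, pow_add]; ring
  unfold blc
  rw [h1, h2]
  have h3 : r * vp N + a + 1 ≤ 160 * vp N := by nlinarith
  have h4 : (r * vp N + a + 1) * (2 * vB N) ≤ 160 * vp N * (2 * vB N) := Nat.mul_le_mul_right _ h3
  have h5 : 160 * vp N * (2 * vB N) = 320 * 2 ^ l := by rw [← hPB]; ring
  have h6 : (r * vp N + a + 1) * (2 * vB N) = (r * vp N + a) * (2 * vB N) + 2 * vB N := by ring
  have h7 : 0 < 2 ^ l := by positivity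
  omega

private lemma HvI_cost (R c L : ℕ) (s : ℕ → ℕ) (hL : 2 ≤ L) (hc : c ≤ 1) (h11 : 1 ≤ s (R + 11))
    (h12 : 1 ≤ s (R + 12)) (g11 : s (R + 11) < 2 ^ L) (g12 : 2 * s (R + 12) < 2 ^ L)
    (hF : s (R + 13) + ((2 * s (R + 2) + c) * s (R + 11) + s (R + 3 + c)) * (2 * s (R + 12)) +
      s (R + 5) < 2 ^ L) : (eB R c).cost s ≤ 17 * (L + 1) := by
  simp only [eB, eU, Expr.cost, Expr.val]
  have a1 : 2 * s (R + 2) + c ≤ (2 * s (R + 2) + c) * s (R + 11) := Nat.le_mul_of_pos_right _ h11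
  have a2 : (2 * s (R + 2) + c) * s (R + 11) + s (R + 3 + c) ≤
      ((2 * s (R + 2) + c) * s (R + 11) + s (R + 3 + c)) * (2 * s (R + 12)) :=
    Nat.le_mul_of_pos_right _ (by omega)
  have b0 : Nat.size 2 ≤ L := (Nat.size_le.mpr (by norm_num : 2 < 2 ^ 2)).trans hL
  have b1 : Nat.size c ≤ L := Nat.size_le.mpr (by
    have : 2 ^ 2 ≤ 2 ^ L := Nat.pow_le_pow_right (by norm_num) hL
    omega)
  have b2 : Nat.size (s (R + 2)) ≤ L := Nat.size_le.mpr (by omega)
  have b3 : Nat.size (2 * s (R + 2)) ≤ L := Nat.size_le.mpr (by omega)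
  have b4 : Nat.size (2 * s (R + 2) + c) ≤ L := Nat.size_le.mpr (by omega)
  have b5 : Nat.size (s (R + 11)) ≤ L := Nat.size_le.mpr g11
  have b6 : Nat.size ((2 * s (R + 2) + c) * s (R + 11)) ≤ L := Nat.size_le.mpr (by omega)
  have b7 : Nat.size (s (R + 3 + c)) ≤ L := Nat.size_le.mpr (by omega)
  have b8 : Nat.size ((2 * s (R + 2) + c) * s (R + 11) + s (R + 3 + c)) ≤ L :=
    Nat.size_le.mpr (by omega)
  have b9 : Nat.size (s (R + 12)) ≤ L := Nat.size_le.mpr (by omega)
  have b10 : Nat.size (2 * s (R + 12)) ≤ L := Nat.size_le.mpr g12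
  have b11 : Nat.size (((2 * s (R + 2) + c) * s (R + 11) + s (R + 3 + c)) * (2 * s (R + 12))) ≤ L :=
    Nat.size_le.mpr (by omega)
  have b12 : Nat.size (s (R + 13)) ≤ L := Nat.size_le.mpr (by omega)
  have b13 : Nat.size (s (R + 13) +
      ((2 * s (R + 2) + c) * s (R + 11) + s (R + 3 + c)) * (2 * s (R + 12))) ≤ L :=
    Nat.size_le.mpr (by omega)
  have b14 : Nat.size (s (R + 5)) ≤ L := Nat.size_le.mpr (by omega)
  have b15 : Nat.size (s (R + 13) +
      ((2 * s (R + 2) + c) * s (R + 11) + s (R + 3 + c)) * (2 * s (R + 12)) + s (R + 5)) ≤ L :=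
    Nat.size_le.mpr hF
  omega

theorem tHvI : S_HvI := by
  refine ⟨100, by norm_num, ?_⟩
  intro R v z S u h hv hz hC h2 h3 h4 h1 hB hS hh
  obtain ⟨-, -, c11, c12, c13⟩ := hC
  obtain ⟨N, hN⟩ : ∃ N, z.length = N := ⟨_, rfl⟩
  obtain ⟨l, hl⟩ : ∃ l, Nat.log 2 N = l := ⟨_, rfl⟩
  rw [hN] at hz c11 c12 c13 h3 h4 hS hh
  rw [hN, hl]
  rw [hl] at c13 hS
  have hl320 : 320 ≤ l := by
    have := Nat.log_mono_right (b := 2) hz
    rwa [Nat.log_pow (by norm_num), hl] at this
  have hlN : 2 ^ l ≤ N := by rw [← hl]; exact Nat.pow_log_le_self 2 (by omega)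
  have hpl : 2 ^ (l + 1) = 2 * 2 ^ l := by rw [pow_succ]; ring
  have hpS : 2 ^ (l + 1) ≤ 2 ^ S := Nat.pow_le_pow_right (by norm_num) (by omega)
  have hvB : vB N ≤ 2 ^ l := by
    unfold vB; rw [hl]; exact Nat.pow_le_pow_right (by norm_num) (by omega)
  have hvB2 : 2 * vB N < 2 ^ (l + 1) := by
    have : 2 * vB N ≤ 2 ^ l := by
      unfold vB; rw [hl, mul_comm, ← pow_succ]; exact Nat.pow_le_pow_right (by norm_num) (by omega)
    have h0 : 0 < 2 ^ l := by positivity
    omega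
  have hvp : vp N < 2 ^ (l + 1) := by
    unfold vp; rw [hl]; exact Nat.pow_lt_pow_right (by norm_num) (by omega)
  have hvp1 : 1 ≤ vp N := Nat.one_le_two_pow
  have hvB1 : 1 ≤ vB N := Nat.one_le_two_pow
  obtain ⟨A0, hA0⟩ : ∃ A0, A0 = blc N (2 * v) (u (R + 3)) 0 := ⟨_, rfl⟩
  obtain ⟨A1, hA1⟩ : ∃ A1, A1 = blc N (2 * v + 1) (u (R + 4)) 0 := ⟨_, rfl⟩
  have hA0' : ∀ i, blc N (2 * v) (u (R + 3)) i = A0 + i := fun i => by rw [hA0]; unfold blc; omega
  have hA1' : ∀ i, blc N (2 * v + 1) (u (R + 4)) i = A1 + i := fun i => by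
    rw [hA1]; unfold blc; omega
  have lt0 : ∀ i, i < vB N → A0 + i < 2 ^ l := fun i hi => by
    rw [← hA0', ← hl]; exact HvI_arith hz (by omega) h3 hi
  have lt1 : ∀ i, i < vB N → A1 + i < 2 ^ l := fun i hi => by
    rw [← hA1', ← hl]; exact HvI_arith hz (by omega) h4 hi
  have sum_eq : (∑ i ∈ range (vB N), bit z (blc N (2 * v) (u (R + 3)) i) *
          bit z (blc N (2 * v + 1) (u (R + 4)) i)) =
      ∑ i ∈ range (vB N), bit z (A0 + i) * bit z (A1 + i) :=
    Finset.sum_congr rfl fun i _ => by rw [hA0', hA1']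
  rw [sum_eq]
  have key := HvI_loop (x := z) (S := S)
    (e := .sub (.reg (R + 12)) (.reg (R + 5)))
    (p := .seq (.read (R + 6) 0 (eB R 0)) (.seq (.read (R + 7) 1 (eB R 1))
      (.seq (.set (R + 1) (.mod (.add (.reg (R + 1)) (.mul (.reg (R + 6)) (.reg (R + 7)))) (.num 2)))
        (.set (R + 5) (.add (.reg (R + 5)) (.num 1))))))
    (I := fun j s g => j ≤ vB N ∧ s (R + 5) = vB N - j ∧
      s (R + 1) = (u (R + 1) + ∑ i ∈ range (vB N - j), bit z (A0 + i) * bit z (A1 + i)) % 2 ∧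
      (∀ i, i ≠ R + 1 → i ≠ R + 5 → i ≠ R + 6 → i ≠ R + 7 → s i = u i) ∧
      PLT.Bd s S ∧ ∀ a, g a ≤ N)
    (C := 47 * (l + 2) + 2)
    (F := fun j g => dst (A0 + (vB N - j)) (g 0) + dst (A1 + (vB N - j)) (g 1)) ?_ ?_
    (vB N) (Function.update u (R + 5) 0) h ?_
  · obtain ⟨s', h', c', r1, r2, -, r3, r4, r5, r6, r7⟩ := key
    refine ⟨s', h', _, HRun.seq (HRun.set (R + 5) (.num 0) u h (by simp [Expr.val])) r1, ?_, ?_,
      r5, r6, r7⟩
    · have e1 : (Expr.num 0).cost u = 1 := by simp [Expr.cost]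
      rw [e1]
      have e2 : dst (A0 + (vB N - vB N)) (h 0) + dst (A1 + (vB N - vB N)) (h 1) ≤ 2 * N := by
        have m0 := hh 0
        have m1 := hh 1
        have m2 := lt0 0 hvB1
        have m3 := lt1 0 hvB1
        unfold dst
        omega
      have e3 : (47 * (l + 2) + 2) * (vB N + 1) ≤ (47 * (l + 2) + 2) * (N + 1) :=
        Nat.mul_le_mul_left _ (by omega)
      have e4 : c' ≤ (47 * (l + 2) + 2) * (N + 1) + 2 * N := by
        refine r2.trans ?_
        show (47 * (l + 2) + 2) * (vB N + 1) +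
          (dst (A0 + (vB N - vB N)) (h 0) + dst (A1 + (vB N - vB N)) (h 1)) ≤ _
        omega
      have e5 : (47 * (l + 2) + 2 + 2) * (N + 1) ≤ 100 * (l + 1) * (N + 1) :=
        Nat.mul_le_mul_right _ (by omega)
      have e6 : (47 * (l + 2) + 2 + 2) * (N + 1) = (47 * (l + 2) + 2) * (N + 1) + 2 * (N + 1) := by
        ring
      have e7 : 100 * (N + 1) * (l + 1) = 100 * (l + 1) * (N + 1) := by ring
      omega
    · rw [r4, Nat.sub_zero]
  · rintro s g ⟨-, i2, -, i4, -⟩
    have q12 : s (R + 12) = vB N := by rw [i4 _ (by omega) (by omega) (by omega) (by omega), c12]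
    simp only [Expr.val, Expr.cost]
    rw [q12, i2]
    have t1 : Nat.size (vB N) ≤ l + 1 := Nat.size_le.mpr (by omega)
    rw [Nat.sub_zero, Nat.sub_self, Nat.size_zero]
    omega
  · rintro j s g ⟨i1, i2, i3, i4, i5, i6⟩
    have q12 : s (R + 12) = vB N := by rw [i4 _ (by omega) (by omega) (by omega) (by omega), c12]
    have q11 : s (R + 11) = vp N := by rw [i4 _ (by omega) (by omega) (by omega) (by omega), c11]
    have q13 : s (R + 13) = 2 ^ (l - 1) := by
      rw [i4 _ (by omega) (by omega) (by omega) (by omega), c13]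
    have q2 : s (R + 2) = v := by rw [i4 _ (by omega) (by omega) (by omega) (by omega), h2]
    have q3 : s (R + 3) = u (R + 3) := i4 _ (by omega) (by omega) (by omega) (by omega)
    have q4 : s (R + 4) = u (R + 4) := i4 _ (by omega) (by omega) (by omega) (by omega)
    obtain ⟨i, hi⟩ : ∃ i, vB N - (j + 1) = i := ⟨_, rfl⟩
    have hi' : vB N - j = i + 1 := by omega
    have hiB : i < vB N := by omega
    rw [hi] at i2 i3
    have l0 := lt0 i hiB
    have l1 := lt1 i hiB
    have v0 : (eB R 0).val s = A0 + i := by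
      rw [← hA0' i]
      simp only [eB, eU, Expr.val, Nat.add_zero]
      rw [q2, q3, q11, q12, q13, i2]
      unfold blc
      rw [hl]
    have k0 : (eB R 0).cost s ≤ 17 * (l + 2) := by
      refine HvI_cost R 0 (l + 1) s (by omega) (by omega) (by omega) (by omega) (by omega)
        (by omega) ?_
      have e : s (R + 13) + ((2 * s (R + 2) + 0) * s (R + 11) + s (R + 3 + 0)) *
          (2 * s (R + 12)) + s (R + 5) = A0 + i := v0
      rw [e]; omega
    obtain ⟨s1, hs1⟩ : ∃ s1, s1 = Function.update s (R + 6) (bit z (A0 + i)) := ⟨_, rfl⟩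
    have f1 : ∀ i, i ≠ R + 6 → s1 i = s i := fun i hi => by
      rw [hs1, Function.update_of_ne hi]
    have f16 : s1 (R + 6) = bit z (A0 + i) := by rw [hs1, Function.update_self]
    obtain ⟨g1, hg1⟩ : ∃ g1, g1 = Function.update g 0 (A0 + i) := ⟨_, rfl⟩
    have b0 := HvI_bit z (A0 + i)
    have b1 := HvI_bit z (A1 + i)
    have n0 : (0 : ℕ) < 2 ^ l := by positivity
    have run1 : HRun z S (.read (R + 6) 0 (eB R 0)) s g s1 g1
        ((eB R 0).cost s + dst (A0 + i) (g 0)) := by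
      have := HRun.read (k := 2) (x := z) (S := S) (R + 6) 0 (eB R 0) s g (by rw [v0]; omega)
      rw [v0, hN, min_eq_left (by omega), ← hs1, ← hg1] at this
      exact this
    have v1 : (eB R 1).val s1 = A1 + i := by
      rw [← hA1' i]
      simp only [eB, eU, Expr.val]
      rw [f1 (R + 13) (by omega), f1 (R + 2) (by omega), f1 (R + 11) (by omega),
        f1 (R + 3 + 1) (by omega), f1 (R + 12) (by omega), f1 (R + 5) (by omega),
        q2, show R + 3 + 1 = R + 4 by omega, q4, q11, q12, q13, i2]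
      unfold blc
      rw [hl]
    have k1 : (eB R 1).cost s1 ≤ 17 * (l + 2) := by
      refine HvI_cost R 1 (l + 1) s1 (by omega) (by omega)
        (by rw [f1 (R + 11) (by omega)]; omega) (by rw [f1 (R + 12) (by omega)]; omega)
        (by rw [f1 (R + 11) (by omega)]; omega) (by rw [f1 (R + 12) (by omega)]; omega) ?_
      have e : s1 (R + 13) + ((2 * s1 (R + 2) + 1) * s1 (R + 11) + s1 (R + 3 + 1)) *
          (2 * s1 (R + 12)) + s1 (R + 5) = A1 + i := v1
      rw [e]; omega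
    obtain ⟨s2, hs2⟩ : ∃ s2, s2 = Function.update s1 (R + 7) (bit z (A1 + i)) := ⟨_, rfl⟩
    have f2 : ∀ i, i ≠ R + 6 → i ≠ R + 7 → s2 i = s i := fun i hi hi' => by
      rw [hs2, Function.update_of_ne hi', f1 i hi]
    have f26 : s2 (R + 6) = bit z (A0 + i) := by
      rw [hs2, Function.update_of_ne (by omega), f16]
    have f27 : s2 (R + 7) = bit z (A1 + i) := by rw [hs2, Function.update_self]
    obtain ⟨g2, hg2⟩ : ∃ g2, g2 = Function.update g1 1 (A1 + i) := ⟨_, rfl⟩
    have run2 : HRun z S (.read (R + 7) 1 (eB R 1)) s1 g1 s2 g2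
        ((eB R 1).cost s1 + dst (A1 + i) (g1 1)) := by
      have := HRun.read (k := 2) (x := z) (S := S) (R + 7) 1 (eB R 1) s1 g1 (by rw [v1]; omega)
      rw [v1, hN, min_eq_left (by omega), ← hs2, ← hg2] at this
      exact this
    obtain ⟨T, hT⟩ : ∃ T, T = (s (R + 1) + bit z (A0 + i) * bit z (A1 + i)) % 2 := ⟨_, rfl⟩
    have v2 : (Expr.mod (.add (.reg (R + 1)) (.mul (.reg (R + 6)) (.reg (R + 7))))
        (.num 2)).val s2 = T := by
      simp only [Expr.val]
      rw [f2 (R + 1) (by omega) (by omega), f26, f27, hT]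
    have hT2 : T < 2 := by rw [hT]; exact Nat.mod_lt _ (by norm_num)
    have s1lt : s (R + 1) < 2 := by rw [i3]; exact Nat.mod_lt _ (by norm_num)
    have hb01 : bit z (A0 + i) * bit z (A1 + i) ≤ 1 := by
      calc bit z (A0 + i) * bit z (A1 + i) ≤ 1 * 1 := Nat.mul_le_mul b0 b1
        _ = 1 := by norm_num
    have p2 : (4 : ℕ) ≤ 2 ^ (l + 1) := by
      calc (4 : ℕ) = 2 ^ 2 := by norm_num
        _ ≤ 2 ^ (l + 1) := Nat.pow_le_pow_right (by norm_num) (by omega)
    have k2 : (Expr.mod (.add (.reg (R + 1)) (.mul (.reg (R + 6)) (.reg (R + 7))))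
        (.num 2)).cost s2 ≤ 7 * (l + 2) := by
      simp only [Expr.cost, Expr.val]
      rw [f2 (R + 1) (by omega) (by omega), f26, f27, ← hT]
      have t1 : Nat.size (s (R + 1)) ≤ l + 1 := Nat.size_le.mpr (by omega)
      have t2 : Nat.size (bit z (A0 + i)) ≤ l + 1 := Nat.size_le.mpr (by omega)
      have t3 : Nat.size (bit z (A1 + i)) ≤ l + 1 := Nat.size_le.mpr (by omega)
      have t4 : Nat.size (bit z (A0 + i) * bit z (A1 + i)) ≤ l + 1 := Nat.size_le.mpr (by omega)
      have t5 : Nat.size (s (R + 1) + bit z (A0 + i) * bit z (A1 + i)) ≤ l + 1 :=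
        Nat.size_le.mpr (by omega)
      have t6 : Nat.size 2 ≤ l + 1 := Nat.size_le.mpr (by omega)
      have t7 : Nat.size T ≤ l + 1 := Nat.size_le.mpr (by omega)
      omega
    obtain ⟨s3, hs3⟩ : ∃ s3, s3 = Function.update s2 (R + 1) T := ⟨_, rfl⟩
    have run3 : HRun z S (.set (R + 1) (.mod (.add (.reg (R + 1))
        (.mul (.reg (R + 6)) (.reg (R + 7)))) (.num 2))) s2 g2 s3 g2
        ((Expr.mod (.add (.reg (R + 1)) (.mul (.reg (R + 6)) (.reg (R + 7))))
        (.num 2)).cost s2) := by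
      have := HRun.set (k := 2) (x := z) (S := S) (R + 1) (.mod (.add (.reg (R + 1))
        (.mul (.reg (R + 6)) (.reg (R + 7)))) (.num 2)) s2 g2 (by rw [v2]; omega)
      rw [v2, ← hs3] at this
      exact this
    have f35 : s3 (R + 5) = i := by
      rw [hs3, Function.update_of_ne (by omega), f2 (R + 5) (by omega) (by omega), i2]
    have v3 : (Expr.add (.reg (R + 5)) (.num 1)).val s3 = i + 1 := by
      simp only [Expr.val]; rw [f35]
    have k3 : (Expr.add (.reg (R + 5)) (.num 1)).cost s3 ≤ 3 * (l + 2) := by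
      simp only [Expr.cost, Expr.val]
      rw [f35]
      have t1 : Nat.size i ≤ l + 1 := Nat.size_le.mpr (by omega)
      have t2 : Nat.size 1 ≤ l + 1 := Nat.size_le.mpr (by omega)
      have t3 : Nat.size (i + 1) ≤ l + 1 := Nat.size_le.mpr (by omega)
      omega
    obtain ⟨s4, hs4⟩ : ∃ s4, s4 = Function.update s3 (R + 5) (i + 1) := ⟨_, rfl⟩
    have run4 : HRun z S (.set (R + 5) (.add (.reg (R + 5)) (.num 1))) s3 g2 s4 g2
        ((Expr.add (.reg (R + 5)) (.num 1)).cost s3) := by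
      have := HRun.set (k := 2) (x := z) (S := S) (R + 5) (.add (.reg (R + 5)) (.num 1)) s3 g2
        (by rw [v3]; omega)
      rw [v3, ← hs4] at this
      exact this
    have g10 : g1 0 = A0 + i := by rw [hg1, Function.update_self]
    have g11 : g1 1 = g 1 := by rw [hg1, Function.update_of_ne (by decide)]
    have g20 : g2 0 = A0 + i := by rw [hg2, Function.update_of_ne (by decide), g10]
    have g21 : g2 1 = A1 + i := by rw [hg2, Function.update_self]
    refine ⟨?_, s4, g2, _, HRun.seq run1 (HRun.seq run2 (HRun.seq run3 run4)), ?_, ?_⟩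
    · simp only [Expr.val]; rw [q12, i2]; omega
    · have k4 : (Expr.sub (.reg (R + 12)) (.reg (R + 5))).cost s ≤ 3 * (l + 2) := by
        simp only [Expr.cost, Expr.val]
        rw [q12, i2]
        have t1 : Nat.size (vB N) ≤ l + 1 := Nat.size_le.mpr (by omega)
        have t2 : Nat.size i ≤ l + 1 := Nat.size_le.mpr (by omega)
        have t3 : Nat.size (vB N - i) ≤ l + 1 := Nat.size_le.mpr (by omega)
        omega
      show _ + (_ + _) + (dst (A0 + (vB N - j)) (g2 0) + dst (A1 + (vB N - j)) (g2 1)) ≤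
        _ + (dst (A0 + (vB N - (j + 1))) (g 0) + dst (A1 + (vB N - (j + 1))) (g 1))
      rw [hi, hi', g20, g21, g11]
      have d0 : dst (A0 + (i + 1)) (A0 + i) = 1 := by unfold dst; omega
      have d1 : dst (A1 + (i + 1)) (A1 + i) = 1 := by unfold dst; omega
      rw [d0, d1]
      omega
    · refine ⟨by omega, ?_, ?_, ?_, ?_, ?_⟩
      · rw [hs4, Function.update_self, hi']
      · rw [hs4, Function.update_of_ne (by omega), hs3, Function.update_self, hT, i3, hi',
          Finset.sum_range_succ, Nat.mod_add_mod, Nat.add_assoc]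
      · intro i' a1 a2 a3 a4
        rw [hs4, Function.update_of_ne a2, hs3, Function.update_of_ne a1, f2 i' a3 a4]
        exact i4 i' a1 a2 a3 a4
      · rw [hs4, hs3, hs2, hs1]
        exact HvI_bd (HvI_bd (HvI_bd (HvI_bd i5 (by omega)) (by omega)) (by omega)) (by omega)
      · intro a
        fin_cases a
        · show g2 0 ≤ N
          omega
        · show g2 1 ≤ N
          omega
  · refine ⟨le_rfl, ?_, ?_, ?_, ?_, hh⟩
    · rw [Function.update_self, Nat.sub_self]
    · rw [Function.update_of_ne (by omega), Nat.sub_self, Finset.range_zero, Finset.sum_empty]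
      omega
    · intro i _ a2 _ _
      rw [Function.update_of_ne a2]
    · exact HvI_bd hB (by positivity)

end Pool.Agent.Lib.MP_ff3ed7_lc.MH
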