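import Pool.Agent.Lib.MP_ff3ed7_lc.MH.SpecU

/-!
# PROJECT MH, module HvR: the program for one virtual bit
-/

set_option autoImplicit false

open Finset

namespace Pool.Agent.Lib.MP_ff3ed7_lc.MH

open Pool.Agent.Lib.MP_ff3ed7_lc.PLT
open Pool.Agent.Lib.MP_ff3ed7_lc.SQ (dst ql)

private lemma HvR_size_le {n k : ℕ} (h : n < 2 ^ k) : Nat.size n ≤ k := Nat.size_le.2 h

private lemma HvR_bd {u : ℕ → ℕ} {S i v : ℕ} (h : PLT.Bd u S) (hv : v < 2 ^ S) :
    PLT.Bd (Function.update u i v) S := by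
  intro j
  by_cases hj : j = i
  · subst hj; rwa [Function.update_self]
  · rw [Function.update_of_ne hj]; exact h j

private lemma HvR_sum (b : ℕ → ℕ) (hb : ∀ i, b i < 2) (n : ℕ) :
    ∑ i ∈ range n, b i * 2 ^ i < 2 ^ n := by
  induction n with
  | zero => simp
  | succ n ih =>
    rw [Finset.sum_range_succ, pow_succ]
    have h1 : b n * 2 ^ n ≤ 1 * 2 ^ n := Nat.mul_le_mul_right _ (by have := hb n; omega)
    omega

private lemma HvR_hdT (z : List Bool) (r j : ℕ) : hdT z r j < vp z.length := by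
  unfold hdT vp
  exact HvR_sum _ (fun i => bit_lt _ _) _

private lemma HvR_bit_ge {z : List Bool} {j : ℕ} (hj : vm z.length ≤ j) : bit (hw z) j = 0 := by
  unfold bit hw
  rw [List.getD_eq_default _ _ (by simpa using hj)]
  rfl

private lemma HvR_bit {z : List Bool} {j : ℕ} (hj : j < vm z.length) :
    bit (hw z) j = (∑ u ∈ range 80, vip z j u) % 2 := by
  have h1 : (hw z).getD j false = hbit z j := by
    unfold hw
    rw [List.getD_eq_getElem _ _ (by simpa using hj)]
    simp
  unfold bit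
  rw [h1]
  unfold hbit
  rcases Nat.mod_two_eq_zero_or_one (∑ u ∈ range 80, vip z j u) with h | h
  · rw [h]; rfl
  · rw [h]; rfl

/-- the invariant of the loop after `v` rounds -/
private def HvR_Inv (R j S : ℕ) (z : List Bool) (u0 : ℕ → ℕ) (v : ℕ) (u : ℕ → ℕ)
    (h : Fin 2 → ℕ) : Prop :=
  Cst R z.length u ∧ u (R + 2) = v ∧ u R = j ∧ u (R + 1) = (∑ w ∈ range v, vip z j w) % 2 ∧
    PLT.Bd u S ∧ (∀ a, h a ≤ z.length) ∧ ∀ i, i < R → u i = u0 i

/-- the body of the loop -/
private def HvR_body (R : ℕ) : HProg 2 :=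
  .seq (hT R 0) (.seq (hT R 1) (.seq (hI R) (.set (R + 2) (.add (.reg (R + 2)) (.num 1)))))

private lemma HvR_cst {R N : ℕ} {u u' : ℕ → ℕ} (h : Cst R N u)
    (e9 : u' (R + 9) = u (R + 9)) (e10 : u' (R + 10) = u (R + 10))
    (e11 : u' (R + 11) = u (R + 11)) (e12 : u' (R + 12) = u (R + 12))
    (e13 : u' (R + 13) = u (R + 13)) : Cst R N u' := by
  obtain ⟨h9, h10, h11, h12, h13⟩ := h
  exact ⟨e9.trans h9, e10.trans h10, e11.trans h11, e12.trans h12, e13.trans h13⟩

private lemma HvR_round (KT KI : ℕ)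
    (hT' : ∀ (R c v j : ℕ) (z : List Bool) (S : ℕ) (u : ℕ → ℕ)
      (h : Fin 2 → ℕ), c ≤ 1 → v < 80 → 2 ^ 320 ≤ z.length → Cst R z.length u → u (R + 2) = v →
      u R = j → j < vm z.length → PLT.Bd u S → Nat.log 2 z.length + 20 ≤ S → (∀ a, h a ≤ z.length) →
      ∃ (u' : ℕ → ℕ) (h' : Fin 2 → ℕ) (c' : ℕ), HRun z S (hT R c) u h u' h' c' ∧
        c' ≤ KT * (z.length + 1) * (Nat.log 2 z.length + 1) ∧ u' (R + 3 + c) = hdT z (2 * v + c) j ∧
        (∀ i, i ≠ R + 3 + c → i ≠ R + 5 → i ≠ R + 6 → i ≠ R + 8 → u' i = u i) ∧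
        PLT.Bd u' S ∧ ∀ a, h' a ≤ z.length)
    (hI' : ∀ (R v : ℕ) (z : List Bool) (S : ℕ) (u : ℕ → ℕ)
      (h : Fin 2 → ℕ), v < 80 → 2 ^ 320 ≤ z.length → Cst R z.length u → u (R + 2) = v →
      u (R + 3) < vp z.length → u (R + 4) < vp z.length → u (R + 1) < 2 →
      PLT.Bd u S → Nat.log 2 z.length + 20 ≤ S → (∀ a, h a ≤ z.length) →
      ∃ (u' : ℕ → ℕ) (h' : Fin 2 → ℕ) (c' : ℕ), HRun z S (hI R) u h u' h' c' ∧
        c' ≤ KI * (z.length + 1) * (Nat.log 2 z.length + 1) ∧
        u' (R + 1) = (u (R + 1) + ∑ i ∈ range (vB z.length),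
          bit z (blc z.length (2 * v) (u (R + 3)) i) *
            bit z (blc z.length (2 * v + 1) (u (R + 4)) i)) % 2 ∧
        (∀ i, i ≠ R + 1 → i ≠ R + 5 → i ≠ R + 6 → i ≠ R + 7 → u' i = u i) ∧
        PLT.Bd u' S ∧ ∀ a, h' a ≤ z.length)
    (R j S v : ℕ) (z : List Bool) (u0 u : ℕ → ℕ) (h : Fin 2 → ℕ) (hv : v < 80)
    (hN : 2 ^ 320 ≤ z.length) (hj : j < vm z.length) (hS : Nat.log 2 z.length + 20 ≤ S)
    (hI : HvR_Inv R j S z u0 v u h) :
    ∃ (u' : ℕ → ℕ) (h' : Fin 2 → ℕ) (c' : ℕ), HRun z S (HvR_body R) u h u' h' c' ∧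
      c' ≤ (2 * KT + KI) * ((z.length + 1) * (Nat.log 2 z.length + 1)) + 30 ∧
      HvR_Inv R j S z u0 (v + 1) u' h' := by
  obtain ⟨hc, h2, h0, h1, hB, hh, hlow⟩ := hI
  obtain ⟨u1, g1, c1, r1, b1, v1, k1, B1, q1⟩ := hT' R 0 v j z S u h (by omega) hv hN hc h2 h0 hj hB
    hS hh
  have hc1 : Cst R z.length u1 := HvR_cst hc (k1 _ (by omega) (by omega) (by omega) (by omega))
    (k1 _ (by omega) (by omega) (by omega) (by omega)) (k1 _ (by omega) (by omega) (by omega) (by omega))
    (k1 _ (by omega) (by omega) (by omega) (by omega)) (k1 _ (by omega) (by omega) (by omega) (by omega))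
  have h12 : u1 (R + 2) = v := (k1 _ (by omega) (by omega) (by omega) (by omega)).trans h2
  have h10 : u1 R = j := (k1 _ (by omega) (by omega) (by omega) (by omega)).trans h0
  have h11 : u1 (R + 1) = u (R + 1) := k1 _ (by omega) (by omega) (by omega) (by omega)
  obtain ⟨u2, g2, c2, r2, b2, v2, k2, B2, q2⟩ := hT' R 1 v j z S u1 g1 (by omega) hv hN hc1 h12 h10 hj
    B1 hS q1
  have hc2 : Cst R z.length u2 := HvR_cst hc1 (k2 _ (by omega) (by omega) (by omega) (by omega))
    (k2 _ (by omega) (by omega) (by omega) (by omega)) (k2 _ (by omega) (by omega) (by omega) (by omega))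
    (k2 _ (by omega) (by omega) (by omega) (by omega)) (k2 _ (by omega) (by omega) (by omega) (by omega))
  have h22 : u2 (R + 2) = v := (k2 _ (by omega) (by omega) (by omega) (by omega)).trans h12
  have h20 : u2 R = j := (k2 _ (by omega) (by omega) (by omega) (by omega)).trans h10
  have h21 : u2 (R + 1) = u (R + 1) := (k2 _ (by omega) (by omega) (by omega) (by omega)).trans h11
  have h23 : u2 (R + 3) = hdT z (2 * v) j :=
    (k2 _ (by omega) (by omega) (by omega) (by omega)).trans v1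
  have h24 : u2 (R + 4) = hdT z (2 * v + 1) j := v2
  obtain ⟨u3, g3, c3, r3, b3, v3, k3, B3, q3⟩ := hI' R v z S u2 g2 hv hN hc2 h22
    (by rw [h23]; exact HvR_hdT z _ _) (by rw [h24]; exact HvR_hdT z _ _)
    (by rw [h21, h1]; exact Nat.mod_lt _ (by norm_num)) B2 hS q2
  have hc3 : Cst R z.length u3 := HvR_cst hc2 (k3 _ (by omega) (by omega) (by omega) (by omega))
    (k3 _ (by omega) (by omega) (by omega) (by omega)) (k3 _ (by omega) (by omega) (by omega) (by omega))
    (k3 _ (by omega) (by omega) (by omega) (by omega)) (k3 _ (by omega) (by omega) (by omega) (by omega))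
  have h32 : u3 (R + 2) = v := (k3 _ (by omega) (by omega) (by omega) (by omega)).trans h22
  have h30 : u3 R = j := (k3 _ (by omega) (by omega) (by omega) (by omega)).trans h20
  have h31 : u3 (R + 1) = (∑ w ∈ range (v + 1), vip z j w) % 2 := by
    rw [v3, h21, h1, h23, h24, Finset.sum_range_succ, Nat.mod_add_mod]
    rfl
  have h2S : 2 ^ 20 ≤ 2 ^ S := Nat.pow_le_pow_right (by norm_num) (by omega)
  have hvS : (Expr.add (.reg (R + 2)) (.num 1)).val u3 < 2 ^ S := by
    simp only [Expr.val]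
    rw [h32]
    have : (2 : ℕ) ^ 20 = 1048576 := by norm_num
    omega
  have hval : (Expr.add (.reg (R + 2)) (.num 1)).val u3 = v + 1 := by
    simp only [Expr.val]
    rw [h32]
  have r4 := HRun.set (k := 2) (x := z) (S := S) (R + 2) (.add (.reg (R + 2)) (.num 1)) u3 g3 hvS
  have hcost : (Expr.add (.reg (R + 2)) (.num 1)).cost u3 ≤ 30 := by
    simp only [Expr.cost, Expr.val]
    rw [h32]
    have s1 : Nat.size v ≤ 7 := HvR_size_le (by omega)
    have s2 : Nat.size 1 ≤ 1 := HvR_size_le (by norm_num)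
    have s3 : Nat.size (v + 1) ≤ 7 := HvR_size_le (by omega)
    omega
  refine ⟨_, _, _, HRun.seq r1 (HRun.seq r2 (HRun.seq r3 r4)), ?_, ?_⟩
  · have e1 : (2 * KT + KI) * ((z.length + 1) * (Nat.log 2 z.length + 1)) =
        KT * (z.length + 1) * (Nat.log 2 z.length + 1) + (KT * (z.length + 1) *
          (Nat.log 2 z.length + 1) + KI * (z.length + 1) * (Nat.log 2 z.length + 1)) := by ring
    rw [e1]
    omega
  · rw [hval]
    refine ⟨HvR_cst hc3 ?_ ?_ ?_ ?_ ?_, Function.update_self _ _ _, ?_, ?_, ?_, q3, ?_⟩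
    · exact Function.update_of_ne (by omega) _ _
    · exact Function.update_of_ne (by omega) _ _
    · exact Function.update_of_ne (by omega) _ _
    · exact Function.update_of_ne (by omega) _ _
    · exact Function.update_of_ne (by omega) _ _
    · rw [Function.update_of_ne (by omega)]
      exact h30
    · rw [Function.update_of_ne (by omega)]
      exact h31
    · exact HvR_bd B3 (by rw [← hval]; exact hvS)
    · intro i hi
      rw [Function.update_of_ne (by omega), k3 _ (by omega) (by omega) (by omega) (by omega),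
        k2 _ (by omega) (by omega) (by omega) (by omega),
        k1 _ (by omega) (by omega) (by omega) (by omega)]
      exact hlow i hi

private lemma HvR_loop (R j S : ℕ) (z : List Bool) (u0 : ℕ → ℕ) (Q : ℕ)
    (hround : ∀ (v : ℕ) (u : ℕ → ℕ) (h : Fin 2 → ℕ), v < 80 → HvR_Inv R j S z u0 v u h →
      ∃ (u' : ℕ → ℕ) (h' : Fin 2 → ℕ) (c' : ℕ), HRun z S (HvR_body R) u h u' h' c' ∧
        c' ≤ Q ∧ HvR_Inv R j S z u0 (v + 1) u' h') :
    ∀ (d v : ℕ) (u : ℕ → ℕ) (h : Fin 2 → ℕ), v + d = 80 → HvR_Inv R j S z u0 v u h →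
      ∃ (u' : ℕ → ℕ) (h' : Fin 2 → ℕ) (c' : ℕ),
        HRun z S (.loop (.sub (.num 80) (.reg (R + 2))) (HvR_body R)) u h u' h' c' ∧
        c' ≤ d * (Q + 30) + 30 ∧ HvR_Inv R j S z u0 80 u' h' := by
  have htest : ∀ (v : ℕ) (u : ℕ → ℕ), v ≤ 80 → u (R + 2) = v →
      (Expr.sub (.num 80) (.reg (R + 2))).cost u ≤ 30 := by
    intro v u hv hu
    simp only [Expr.cost, Expr.val]
    rw [hu]
    have s1 : Nat.size v ≤ 7 := HvR_size_le (by omega)
    have s2 : Nat.size 80 ≤ 7 := HvR_size_le (by norm_num)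
    have s3 : Nat.size (80 - v) ≤ 7 := HvR_size_le (by omega)
    omega
  intro d
  induction d with
  | zero =>
    intro v u h hvd hI
    have hv : v = 80 := by omega
    subst hv
    refine ⟨u, h, _, HRun.loopF (k := 2) (x := z) (S := S) (p := HvR_body R) (h := h)
      (e := .sub (.num 80) (.reg (R + 2))) (s := u) ?_, ?_, hI⟩
    · simp only [Expr.val]
      rw [hI.2.1]
    · have := htest 80 u le_rfl hI.2.1
      omega
  | succ d ih =>
    intro v u h hvd hI
    obtain ⟨u1, h1, c1, r1, b1, I1⟩ := hround v u h (by omega) hI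
    obtain ⟨u2, h2, c2, r2, b2, I2⟩ := ih (v + 1) u1 h1 (by omega) I1
    refine ⟨u2, h2, _, HRun.loopT (k := 2) (x := z) (S := S) ?_ r1 r2, ?_, I2⟩
    · simp only [Expr.val]
      rw [hI.2.1]
      omega
    · have := htest v u (by omega) hI.2.1
      have e1 : (d + 1) * (Q + 30) = d * (Q + 30) + (Q + 30) := by ring
      rw [e1]
      omega

theorem tHvR : S_HvR := by
  rintro ⟨KT, -, hT'⟩ ⟨KI, -, hI'⟩
  refine ⟨80 * (2 * KT + KI + 60) + 200, by omega, ?_⟩
  intro R i e z S u h hi hN hc hval hB hS hh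
  obtain ⟨j, hj⟩ : ∃ j, j = e.val u := ⟨_, rfl⟩
  obtain ⟨W, hW⟩ : ∃ W, W = (z.length + 1) * (Nat.log 2 z.length + 1) := ⟨_, rfl⟩
  have hWL : Nat.log 2 z.length + 1 ≤ W := by
    rw [hW]
    exact Nat.le_mul_of_pos_left _ (by omega)
  have hce : 1 ≤ e.cost u := e.one_le_cost u
  have hsz : Nat.size (e.val u) ≤ e.cost u := e.size_le_cost u
  have h2S : 2 ^ 20 ≤ 2 ^ S := Nat.pow_le_pow_right (by norm_num) (by omega)
  have h20 : (2 : ℕ) ^ 20 = 1048576 := by norm_num
  have hKW : (80 * (2 * KT + KI + 60) + 200) * (z.length + 1) * (Nat.log 2 z.length + 1) * e.cost u =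
      (80 * (2 * KT + KI + 60) + 200) * W * e.cost u := by
    rw [hW]; ring
  rw [hKW]
  obtain ⟨u1, hu1⟩ : ∃ u1, u1 = Function.update u R j := ⟨_, rfl⟩
  have r0 : HRun z S (.set R e) u h u1 h (e.cost u) := by
    have := HRun.set (k := 2) (x := z) (S := S) R e u h hval
    rw [hu1, hj]
    exact this
  have B1 : PLT.Bd u1 S := by rw [hu1]; exact HvR_bd hB (by rw [hj]; exact hval)
  have hc1 : Cst R z.length u1 := by
    rw [hu1]
    exact HvR_cst hc (Function.update_of_ne (by omega) _ _) (Function.update_of_ne (by omega) _ _)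
      (Function.update_of_ne (by omega) _ _) (Function.update_of_ne (by omega) _ _)
      (Function.update_of_ne (by omega) _ _)
  have u1R : u1 R = j := by rw [hu1, Function.update_self]
  have u1low : ∀ i', i' < R → u1 i' = u i' := by
    intro i' hi'
    rw [hu1, Function.update_of_ne (by omega)]
  have vmsz : Nat.size (vm z.length) ≤ Nat.log 2 z.length + 1 := by
    apply HvR_size_le
    unfold vm
    exact Nat.pow_lt_pow_right (by norm_num) (by omega)
  have tcost : (Expr.sub (.reg (R + 9)) (.reg R)).cost u1 ≤ 4 * e.cost u + 2 * W := by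
    simp only [Expr.cost, Expr.val]
    rw [hc1.1, u1R]
    have s1 : Nat.size (vm z.length - j) ≤ Nat.size (vm z.length) := Nat.size_le_size (by omega)
    have s2 : Nat.size j ≤ e.cost u := by rw [hj]; exact hsz
    omega
  have tval : (Expr.sub (.reg (R + 9)) (.reg R)).val u1 = vm z.length - j := by
    simp only [Expr.val]
    rw [hc1.1, u1R]
  rw [← hj]
  rcases lt_or_ge j (vm z.length) with hjv | hjv
  · obtain ⟨u2, hu2⟩ : ∃ u2, u2 = Function.update u1 (R + 1) 0 := ⟨_, rfl⟩
    obtain ⟨u3, hu3⟩ : ∃ u3, u3 = Function.update u2 (R + 2) 0 := ⟨_, rfl⟩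
    have r1 : HRun z S (.set (R + 1) (.num 0)) u1 h u2 h 1 := by
      have := HRun.set (k := 2) (x := z) (S := S) (R + 1) (.num 0) u1 h
        (by simp only [Expr.val]; omega)
      rw [hu2]
      exact this
    have r2 : HRun z S (.set (R + 2) (.num 0)) u2 h u3 h 1 := by
      have := HRun.set (k := 2) (x := z) (S := S) (R + 2) (.num 0) u2 h
        (by simp only [Expr.val]; omega)
      rw [hu3]
      exact this
    have e23 : ∀ k, k ≠ R + 1 → k ≠ R + 2 → u3 k = u1 k := by
      intro k h1 h2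
      rw [hu3, Function.update_of_ne h2, hu2, Function.update_of_ne h1]
    have I0 : HvR_Inv R j S z u1 0 u3 h := by
      refine ⟨HvR_cst hc1 (e23 _ (by omega) (by omega)) (e23 _ (by omega) (by omega))
        (e23 _ (by omega) (by omega)) (e23 _ (by omega) (by omega)) (e23 _ (by omega) (by omega)),
        ?_, ?_, ?_, ?_, hh, fun k hk => e23 k (by omega) (by omega)⟩
      · rw [hu3, Function.update_self]
      · rw [e23 _ (by omega) (by omega)]
        exact u1R
      · rw [hu3, Function.update_of_ne (by omega), hu2, Function.update_self]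
        rfl
      · rw [hu3, hu2]
        exact HvR_bd (HvR_bd B1 (by omega)) (by omega)
    obtain ⟨u4, h4, c4, r4, b4, I4⟩ := HvR_loop R j S z u1 ((2 * KT + KI) * W + 30)
      (fun v u' h' hv hI => by
        have := HvR_round KT KI hT' hI' R j S v z u1 u' h' hv hN hjv hS hI
        rw [← hW] at this
        exact this) 80 0 u3 h rfl I0
    obtain ⟨ic, i2, i0, i1, iB, ih4, ilow⟩ := I4
    have hb2 : u4 (R + 1) < 2 := by rw [i1]; exact Nat.mod_lt _ (by norm_num)
    have r5 := HRun.set (k := 2) (x := z) (S := S) i (.reg (R + 1)) u4 h4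
      (by simp only [Expr.val]; omega)
    have c5 : (Expr.reg (R + 1)).cost u4 ≤ 2 := by
      simp only [Expr.cost]
      have : Nat.size (u4 (R + 1)) ≤ 1 := HvR_size_le (by simpa using hb2)
      omega
    have rT := HRun.iteT (k := 2) (x := z) (S := S) (q := .set i (.num 0))
      (e := .sub (.reg (R + 9)) (.reg R)) (s := u1) (by rw [tval]; omega)
      (HRun.seq r1 (HRun.seq r2 (HRun.seq r4 r5)))
    refine ⟨_, _, _, HRun.seq r0 rT, ?_, ?_, ?_, ?_, ?_, ih4⟩
    · have e1 : (80 * (2 * KT + KI + 60) + 200) * W * e.cost u =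
          (80 * ((2 * KT + KI) * W) + 5000 * W) * e.cost u := by ring
      rw [e1]
      have hW1 : 1 ≤ W := by omega
      have e2 : 80 * ((2 * KT + KI) * W) * 1 ≤ 80 * ((2 * KT + KI) * W) * e.cost u :=
        Nat.mul_le_mul_left _ hce
      have e3 : 5000 * W * 1 ≤ 5000 * W * e.cost u := Nat.mul_le_mul_left _ hce
      have e4 : 1 * e.cost u ≤ W * e.cost u := Nat.mul_le_mul_right _ hW1
      have e5 : 5000 * W * e.cost u = 5000 * (W * e.cost u) := by ring
      have e6 : W * 1 ≤ W * e.cost u := Nat.mul_le_mul_left _ hce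
      have e7 : (80 * ((2 * KT + KI) * W) + 5000 * W) * e.cost u =
          80 * ((2 * KT + KI) * W) * e.cost u + 5000 * W * e.cost u := by ring
      rw [e7, e5]
      omega
    · rw [Function.update_self, HvR_bit hjv]
      simp only [Expr.val]
      exact i1
    · intro i' hi' hne
      rw [Function.update_of_ne hne, ilow i' hi']
      exact u1low i' hi'
    · exact HvR_cst ic (Function.update_of_ne (by omega) _ _) (Function.update_of_ne (by omega) _ _)
        (Function.update_of_ne (by omega) _ _) (Function.update_of_ne (by omega) _ _)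
        (Function.update_of_ne (by omega) _ _)
    · exact HvR_bd iB (by simp only [Expr.val]; omega)
  · have r5 := HRun.set (k := 2) (x := z) (S := S) i (.num 0) u1 h
      (by simp only [Expr.val]; omega)
    have rF := HRun.iteF (k := 2) (x := z) (S := S)
      (p := (.seq (.set (R + 1) (.num 0)) (.seq (.set (R + 2) (.num 0))
        (.seq (.loop (.sub (.num 80) (.reg (R + 2))) (HvR_body R)) (.set i (.reg (R + 1)))))))
      (e := .sub (.reg (R + 9)) (.reg R)) (s := u1) (by rw [tval]; omega) r5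
    refine ⟨_, _, _, HRun.seq r0 rF, ?_, ?_, ?_, ?_, ?_, hh⟩
    · have c5 : (Expr.num 0).cost u1 ≤ 1 := by
        simp [Expr.cost]
      have e1 : (80 * (2 * KT + KI + 60) + 200) * W * e.cost u =
          80 * ((2 * KT + KI) * W) * e.cost u + 5000 * (W * e.cost u) := by ring
      rw [e1]
      have hW1 : 1 ≤ W := by omega
      have e4 : 1 * e.cost u ≤ W * e.cost u := Nat.mul_le_mul_right _ hW1
      have e6 : W * 1 ≤ W * e.cost u := Nat.mul_le_mul_left _ hce
      omega
    · rw [Function.update_self, HvR_bit_ge hjv]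
      rfl
    · intro i' hi' hne
      rw [Function.update_of_ne hne]
      exact u1low i' hi'
    · exact HvR_cst hc1 (Function.update_of_ne (by omega) _ _) (Function.update_of_ne (by omega) _ _)
        (Function.update_of_ne (by omega) _ _) (Function.update_of_ne (by omega) _ _)
        (Function.update_of_ne (by omega) _ _)
    · exact HvR_bd B1 (by simp only [Expr.val]; omega)

end Pool.Agent.Lib.MP_ff3ed7_lc.MH
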