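import Pool.Agent.Lib.MP_ff3ed7_lc.MH.SpecU

/-!
# PROJECT MH, module HvT: one number of the header
-/

set_option autoImplicit false

open Finset

namespace Pool.Agent.Lib.MP_ff3ed7_lc.MH

open Pool.Agent.Lib.MP_ff3ed7_lc.PLT
open Pool.Agent.Lib.MP_ff3ed7_lc.SQ (dst ql)

private def HvT_ad (R c : ℕ) : Expr :=
  .add (.mul (.add (.mul (eU R c) (.reg (R + 9))) (.reg R)) (.reg (R + 10))) (.reg (R + 5))

private def HvT_bd (R c : ℕ) : HProg 2 :=
  .seq (.read (R + 6) 0 (HvT_ad R c))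
    (.seq (.set (R + 3 + c) (.add (.reg (R + 3 + c)) (.mul (.reg (R + 6)) (.reg (R + 8)))))
    (.seq (.set (R + 8) (.mul (.num 2) (.reg (R + 8))))
      (.set (R + 5) (.add (.reg (R + 5)) (.num 1)))))

private def HvT_lp (R c : ℕ) : HProg 2 :=
  .loop (.sub (.reg (R + 10)) (.reg (R + 5))) (HvT_bd R c)

private lemma HvT_eq (R c : ℕ) : hT R c = .seq (.set (R + 3 + c) (.num 0))
    (.seq (.set (R + 8) (.num 1)) (.seq (.set (R + 5) (.num 0)) (HvT_lp R c))) := rfl

private lemma HvT_up {u : ℕ → ℕ} {S i v : ℕ} (h : PLT.Bd u S) (hv : v < 2 ^ S) :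
    PLT.Bd (Function.update u i v) S := by
  intro j
  by_cases hj : j = i
  · subst hj; rwa [Function.update_self]
  · rw [Function.update_of_ne hj]; exact h j

private lemma HvT_sum (g : ℕ → ℕ) (hg : ∀ i, g i ≤ 1) (i : ℕ) :
    ∑ i' ∈ range i, g i' * 2 ^ i' < 2 ^ i := by
  induction i with
  | zero => simp
  | succ i ih =>
    rw [Finset.sum_range_succ, pow_succ]
    have := Nat.mul_le_mul_right (2 ^ i) (hg i)
    omega

private lemma HvT_round (R c v j m M i acc pw : ℕ) (z : List Bool) (S L : ℕ) (s : ℕ → ℕ)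
    (h : Fin 2 → ℕ) (hc : c ≤ 1) (hLS : L ≤ S)
    (s0 : s R = j) (s2 : s (R + 2) = v) (s3 : s (R + 3 + c) = acc) (s5 : s (R + 5) = i)
    (s8 : s (R + 8) = pw) (s9 : s (R + 9) = m) (s10 : s (R + 10) = M) (hB : PLT.Bd s S)
    (hh : ∀ a, h a ≤ z.length)
    (a1 : acc + pw < 2 ^ L) (a2 : 2 * pw < 2 ^ L)
    (a3 : ((2 * v + c) * m + j) * M + i < 2 ^ L) (a4 : i + 1 < 2 ^ L)
    (a5 : (2 * v + c) * m + j < 2 ^ L) (a6 : m < 2 ^ L) (a7 : M < 2 ^ L)
    (a8 : 2 * v + c < 2 ^ L) (a9 : 2 < 2 ^ L) :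
    ∃ (h' : Fin 2 → ℕ) (c' : ℕ), HRun z S (HvT_bd R c) s h
      (Function.update (Function.update (Function.update (Function.update s (R + 6)
        (bit z (((2 * v + c) * m + j) * M + i))) (R + 3 + c)
        (acc + bit z (((2 * v + c) * m + j) * M + i) * pw)) (R + 8) (2 * pw)) (R + 5) (i + 1))
        h' c' ∧
      c' ≤ 24 * (L + 1) + z.length ∧ (∀ a, h' a ≤ z.length) := by
  have h2 : 2 ^ L ≤ 2 ^ S := Nat.pow_le_pow_right (by norm_num) hLS
  obtain ⟨b, hb⟩ : ∃ b, b = bit z (((2 * v + c) * m + j) * M + i) := ⟨_, rfl⟩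
  have hb2 : b < 2 := hb ▸ bit_lt _ _
  have hbp : b * pw ≤ pw := by
    have := Nat.mul_le_mul_right pw (show b ≤ 1 by omega)
    omega
  rw [← hb]
  set u1 := Function.update s (R + 6) b with hu1
  set u2 := Function.update u1 (R + 3 + c) (acc + b * pw) with hu2
  set u3 := Function.update u2 (R + 8) (2 * pw) with hu3
  have u13 : u1 (R + 3 + c) = acc := by rw [hu1, Function.update_of_ne (by omega), s3]
  have u16 : u1 (R + 6) = b := by rw [hu1, Function.update_self]
  have u18 : u1 (R + 8) = pw := by rw [hu1, Function.update_of_ne (by omega), s8]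
  have u28 : u2 (R + 8) = pw := by rw [hu2, Function.update_of_ne (by omega), u18]
  have u35 : u3 (R + 5) = i := by
    rw [hu3, Function.update_of_ne (by omega), hu2, Function.update_of_ne (by omega), hu1,
      Function.update_of_ne (by omega), s5]
  have e1 : (HvT_ad R c).val s = ((2 * v + c) * m + j) * M + i := by
    simp only [HvT_ad, eU, Expr.val]
    rw [s2, s9, s0, s10, s5]
  have r1 := HRun.read (x := z) (S := S) (R + 6) (0 : Fin 2) (HvT_ad R c) s h
    (by rw [e1, ← hb]; omega)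
  rw [e1, ← hb, ← hu1] at r1
  set h1 := Function.update h (0 : Fin 2) (min (((2 * v + c) * m + j) * M + i) z.length) with hh1
  have e2 : (Expr.add (.reg (R + 3 + c)) (.mul (.reg (R + 6)) (.reg (R + 8)))).val u1 =
      acc + b * pw := by
    simp only [Expr.val]
    rw [u13, u16, u18]
  have r2 := HRun.set (x := z) (S := S) (R + 3 + c)
    (.add (.reg (R + 3 + c)) (.mul (.reg (R + 6)) (.reg (R + 8)))) u1 h1 (by rw [e2]; omega)
  rw [e2, ← hu2] at r2
  have e3 : (Expr.mul (.num 2) (.reg (R + 8))).val u2 = 2 * pw := by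
    simp only [Expr.val]
    rw [u28]
  have r3 := HRun.set (x := z) (S := S) (R + 8) (.mul (.num 2) (.reg (R + 8))) u2 h1
    (by rw [e3]; omega)
  rw [e3, ← hu3] at r3
  have e4 : (Expr.add (.reg (R + 5)) (.num 1)).val u3 = i + 1 := by
    simp only [Expr.val]
    rw [u35]
  have r4 := HRun.set (x := z) (S := S) (R + 5) (.add (.reg (R + 5)) (.num 1)) u3 h1
    (by rw [e4]; omega)
  rw [e4] at r4
  refine ⟨h1, _, HRun.seq r1 (HRun.seq r2 (HRun.seq r3 r4)), ?_, ?_⟩
  · have hd : dst (min (((2 * v + c) * m + j) * M + i) z.length) (h 0) ≤ z.length := by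
      have := hh 0
      unfold dst
      omega
    have q1 : Nat.size 2 ≤ L := Nat.size_le.2 a9
    have q2 : Nat.size v ≤ L := Nat.size_le.2 (by omega)
    have q3 : Nat.size (2 * v) ≤ L := Nat.size_le.2 (by omega)
    have q4 : Nat.size c ≤ L := Nat.size_le.2 (by omega)
    have q5 : Nat.size (2 * v + c) ≤ L := Nat.size_le.2 a8
    have q6 : Nat.size m ≤ L := Nat.size_le.2 a6
    have q7 : Nat.size ((2 * v + c) * m) ≤ L := Nat.size_le.2 (by omega)
    have q8 : Nat.size j ≤ L := Nat.size_le.2 (by omega)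
    have q9 : Nat.size ((2 * v + c) * m + j) ≤ L := Nat.size_le.2 a5
    have q10 : Nat.size M ≤ L := Nat.size_le.2 a7
    have q11 : Nat.size (((2 * v + c) * m + j) * M) ≤ L := Nat.size_le.2 (by omega)
    have q12 : Nat.size i ≤ L := Nat.size_le.2 (by omega)
    have q13 : Nat.size (((2 * v + c) * m + j) * M + i) ≤ L := Nat.size_le.2 a3
    have q14 : Nat.size acc ≤ L := Nat.size_le.2 (by omega)
    have q15 : Nat.size b ≤ L := Nat.size_le.2 (by omega)
    have q16 : Nat.size pw ≤ L := Nat.size_le.2 (by omega)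
    have q17 : Nat.size (b * pw) ≤ L := Nat.size_le.2 (by omega)
    have q18 : Nat.size (acc + b * pw) ≤ L := Nat.size_le.2 (by omega)
    have q19 : Nat.size (2 * pw) ≤ L := Nat.size_le.2 a2
    have q20 : Nat.size (i + 1) ≤ L := Nat.size_le.2 a4
    have q21 : Nat.size 1 ≤ L := Nat.size_le.2 (by omega)
    simp only [HvT_ad, eU, Expr.cost, Expr.val, s0, s2, s5, s9, s10, u13, u16, u18, u28, u35]
    omega
  · intro a
    by_cases ha : a = 0
    · rw [ha, hh1, Function.update_self]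
      exact min_le_right _ _
    · rw [hh1, Function.update_of_ne ha]
      exact hh a

private lemma HvT_loop (R c v j m M : ℕ) (z : List Bool) (S L : ℕ) (hc : c ≤ 1) (hLS : L ≤ S)
    (c1 : 2 ^ M < 2 ^ L) (c3 : ((2 * v + c) * m + j) * M + M < 2 ^ L)
    (c5 : (2 * v + c) * m + j < 2 ^ L) (c6 : m < 2 ^ L) (c7 : M + 1 < 2 ^ L)
    (c8 : 2 * v + c < 2 ^ L) (c9 : 2 < 2 ^ L) :
    ∀ (k i : ℕ) (s : ℕ → ℕ) (h : Fin 2 → ℕ), i + k = M → s R = j → s (R + 2) = v →
      s (R + 3 + c) = ∑ i' ∈ range i, bit z (((2 * v + c) * m + j) * M + i') * 2 ^ i' →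
      s (R + 5) = i → s (R + 8) = 2 ^ i →
      s (R + 9) = m → s (R + 10) = M → PLT.Bd s S → (∀ a, h a ≤ z.length) →
      ∃ (s' : ℕ → ℕ) (h' : Fin 2 → ℕ) (c' : ℕ), HRun z S (HvT_lp R c) s h s' h' c' ∧
        c' ≤ k * (27 * (L + 1) + z.length) + 3 * (L + 1) ∧
        s' (R + 3 + c) = ∑ i' ∈ range M, bit z (((2 * v + c) * m + j) * M + i') * 2 ^ i' ∧
        (∀ a, a ≠ R + 3 + c → a ≠ R + 5 → a ≠ R + 6 → a ≠ R + 8 → s' a = s a) ∧
        PLT.Bd s' S ∧ ∀ a, h' a ≤ z.length := by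
  have h2 : 2 ^ L ≤ 2 ^ S := Nat.pow_le_pow_right (by norm_num) hLS
  intro k
  induction k with
  | zero =>
    intro i s h hi s0 s2 s3 s5 s8 s9 s10 hB hh
    obtain rfl : i = M := by omega
    refine ⟨s, h, _, HRun.loopF (by simp only [Expr.val, s5, s10, Nat.sub_self]), ?_, s3,
      fun _ _ _ _ _ => rfl, hB, hh⟩
    have q1 : Nat.size i ≤ L := Nat.size_le.2 (by omega)
    simp only [Expr.cost, Expr.val, s5, s10, Nat.sub_self, Nat.size_zero]
    omega
  | succ k ih =>
    intro i s h hi s0 s2 s3 s5 s8 s9 s10 hB hh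
    have hsum : ∑ i' ∈ range i, bit z (((2 * v + c) * m + j) * M + i') * 2 ^ i' < 2 ^ i :=
      HvT_sum _ (fun i' => Nat.lt_succ_iff.1 (bit_lt z _)) i
    have hp : 2 ^ (i + 1) ≤ 2 ^ M := Nat.pow_le_pow_right (by norm_num) (by omega)
    have hp' : 2 ^ (i + 1) = 2 * 2 ^ i := by rw [pow_succ]; ring
    obtain ⟨acc, hacc⟩ : ∃ acc, acc =
      ∑ i' ∈ range i, bit z (((2 * v + c) * m + j) * M + i') * 2 ^ i' := ⟨_, rfl⟩
    rw [← hacc] at hsum s3
    obtain ⟨h1, c1', r1, hc1, hh1⟩ := HvT_round R c v j m M i acc (2 ^ i) z S L s h hc hLS s0 s2 s3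
      s5 s8 s9 s10 hB hh (by omega) (by omega) (by omega) (by omega) c5 c6 (by omega) c8 c9
    obtain ⟨b, hb⟩ : ∃ b, b = bit z (((2 * v + c) * m + j) * M + i) := ⟨_, rfl⟩
    have hb2 : b < 2 := hb ▸ bit_lt _ _
    rw [← hb] at r1
    have hbp : b * 2 ^ i ≤ 2 ^ i := by
      have := Nat.mul_le_mul_right (2 ^ i) (show b ≤ 1 by omega)
      omega
    set u1 := Function.update s (R + 6) b with hu1
    set u2 := Function.update u1 (R + 3 + c) (acc + b * 2 ^ i) with hu2
    set u3 := Function.update u2 (R + 8) (2 * 2 ^ i) with hu3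
    set u4 := Function.update u3 (R + 5) (i + 1) with hu4
    have hfr : ∀ a, a ≠ R + 3 + c → a ≠ R + 5 → a ≠ R + 6 → a ≠ R + 8 → u4 a = s a := by
      intro a b1 b2 b3 b4
      rw [hu4, Function.update_of_ne b2, hu3, Function.update_of_ne b4, hu2,
        Function.update_of_ne b1, hu1, Function.update_of_ne b3]
    have hB4 : PLT.Bd u4 S := HvT_up (HvT_up (HvT_up (HvT_up hB (by omega)) (by omega))
      (by omega)) (by omega)
    have t3 : u4 (R + 3 + c) =
        ∑ i' ∈ range (i + 1), bit z (((2 * v + c) * m + j) * M + i') * 2 ^ i' := by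
      rw [Finset.sum_range_succ, ← hacc, ← hb, hu4, Function.update_of_ne (by omega), hu3,
        Function.update_of_ne (by omega), hu2, Function.update_self]
    have t5 : u4 (R + 5) = i + 1 := by rw [hu4, Function.update_self]
    have t8 : u4 (R + 8) = 2 ^ (i + 1) := by
      rw [hu4, Function.update_of_ne (by omega), hu3, Function.update_self, hp']
    obtain ⟨s', h', c', r2, hc2, f3, ffr, fB, fh⟩ := ih (i + 1) u4 h1 (by omega)
      ((hfr R (by omega) (by omega) (by omega) (by omega)).trans s0)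
      ((hfr (R + 2) (by omega) (by omega) (by omega) (by omega)).trans s2) t3 t5 t8
      ((hfr (R + 9) (by omega) (by omega) (by omega) (by omega)).trans s9)
      ((hfr (R + 10) (by omega) (by omega) (by omega) (by omega)).trans s10) hB4 hh1
    refine ⟨s', h', _, HRun.loopT (by simp only [Expr.val, s5, s10]; omega) r1 r2, ?_, f3, ?_, fB,
      fh⟩
    · have q1 : Nat.size i ≤ L := Nat.size_le.2 (by omega)
      have q2 : Nat.size M ≤ L := Nat.size_le.2 (by omega)
      have q3 : Nat.size (M - i) ≤ L := Nat.size_le.2 (by omega)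
      simp only [Expr.cost, Expr.val, s5, s10]
      rw [Nat.succ_mul]
      omega
    · intro a b1 b2 b3 b4
      rw [ffr a b1 b2 b3 b4, hfr a b1 b2 b3 b4]

theorem tHvT : S_HvT := by
  refine ⟨1000, by norm_num, ?_⟩
  intro R c v j z S u h hc hv hz hC h2 h0 hj hB hS hh
  obtain ⟨h9, h10, h11, h12, h13⟩ := hC
  obtain ⟨lam, hlam⟩ : ∃ l, l = Nat.log 2 z.length := ⟨_, rfl⟩
  obtain ⟨mu, hmu⟩ : ∃ l, l = lam / 8 := ⟨_, rfl⟩
  have hm : vm z.length = 2 ^ mu := by rw [vm, ← hlam, ← hmu]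
  rw [← hlam, ← hmu] at h10
  rw [← hlam] at hS
  have hmu1 : mu < 2 ^ mu := Nat.lt_two_pow_self
  obtain ⟨m, hmd⟩ : ∃ l, l = 2 ^ mu := ⟨_, rfl⟩
  rw [hm, ← hmd] at h9 hj
  rw [← hmd] at hmu1
  have hLS : lam + 10 ≤ S := by omega
  have hlN : lam ≤ z.length := by rw [hlam]; exact Nat.log_le_self 2 _
  have hm2 : 512 * (m * m) ≤ 2 ^ (lam + 10) := by
    have : 512 * (m * m) = 2 ^ (9 + (mu + mu)) := by rw [pow_add, pow_add, ← hmd]; norm_num
    rw [this]
    exact Nat.pow_le_pow_right (by norm_num) (by omega)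
  have hm1 : 1 ≤ m := by omega
  have hmm : m ≤ m * m := Nat.le_mul_of_pos_left m hm1
  have hX : (2 * v + c) * m + j + 1 ≤ 160 * m := by
    have := Nat.mul_le_mul_right m (show 2 * v + c ≤ 159 by omega)
    omega
  have hXM : ((2 * v + c) * m + j) * (3 * mu) + 3 * mu ≤ 480 * (m * m) := by
    have h3 := Nat.mul_le_mul hX (show 3 * mu ≤ 3 * m by omega)
    nlinarith
  have c1 : 2 ^ (3 * mu) < 2 ^ (lam + 10) := Nat.pow_lt_pow_right (by norm_num) (by omega)
  have c7 : lam + 10 < 2 ^ (lam + 10) := Nat.lt_two_pow_self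
  have c9 : 1024 ≤ 2 ^ (lam + 10) := by
    calc 1024 = 2 ^ 10 := by norm_num
      _ ≤ 2 ^ (lam + 10) := Nat.pow_le_pow_right (by norm_num) (by omega)
  have hS2 : 2 ^ (lam + 10) ≤ 2 ^ S := Nat.pow_le_pow_right (by norm_num) hLS
  set u1 := Function.update u (R + 3 + c) 0 with hu1
  set u2 := Function.update u1 (R + 8) 1 with hu2
  set u3 := Function.update u2 (R + 5) 0 with hu3
  have hfr : ∀ a, a ≠ R + 3 + c → a ≠ R + 5 → a ≠ R + 8 → u3 a = u a := by
    intro a b1 b2 b4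
    rw [hu3, Function.update_of_ne b2, hu2, Function.update_of_ne b4, hu1,
      Function.update_of_ne b1]
  have hB3 : PLT.Bd u3 S := HvT_up (HvT_up (HvT_up hB (by omega)) (by omega)) (by omega)
  have t3 : u3 (R + 3 + c) =
      ∑ i' ∈ range 0, bit z (((2 * v + c) * m + j) * (3 * mu) + i') * 2 ^ i' := by
    rw [Finset.sum_range_zero, hu3, Function.update_of_ne (by omega), hu2,
      Function.update_of_ne (by omega), hu1, Function.update_self]
  have t5 : u3 (R + 5) = 0 := by rw [hu3, Function.update_self]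
  have t8 : u3 (R + 8) = 2 ^ 0 := by
    rw [hu3, Function.update_of_ne (by omega), hu2, Function.update_self, pow_zero]
  obtain ⟨s', h', c', r, hc', f3, ffr, fB, fh⟩ := HvT_loop R c v j m (3 * mu) z S (lam + 10) hc hLS
    c1 (by omega) (by omega) (by omega) (by omega) (by omega) (by omega) (3 * mu) 0 u3 h (by omega)
    ((hfr R (by omega) (by omega) (by omega)).trans h0)
    ((hfr (R + 2) (by omega) (by omega) (by omega)).trans h2) t3 t5 t8
    ((hfr (R + 9) (by omega) (by omega) (by omega)).trans h9)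
    ((hfr (R + 10) (by omega) (by omega) (by omega)).trans h10) hB3 hh
  have r1 := HRun.set (x := z) (S := S) (R + 3 + c) (.num 0) u h (by simp only [Expr.val]; omega)
  have r2 := HRun.set (x := z) (S := S) (R + 8) (.num 1) u1 h (by simp only [Expr.val]; omega)
  have r3 := HRun.set (x := z) (S := S) (R + 5) (.num 0) u2 h (by simp only [Expr.val]; omega)
  simp only [Expr.val] at r1 r2 r3
  rw [← hu1] at r1
  rw [← hu2] at r2
  rw [← hu3] at r3
  refine ⟨s', h', _, by rw [HvT_eq]; exact HRun.seq r1 (HRun.seq r2 (HRun.seq r3 r)), ?_, ?_, ?_,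
    fB, fh⟩
  · rw [← hlam]
    simp only [Expr.cost, Nat.size_zero, Nat.size_one]
    have k1 : 3 * mu * (27 * (lam + 10 + 1) + z.length) ≤ lam * (297 * (z.length + 1)) :=
      Nat.mul_le_mul (by omega) (by omega)
    have k2 : 1000 * (z.length + 1) * (lam + 1) =
        1000 * (lam * (z.length + 1)) + 1000 * (z.length + 1) := by ring
    have k3 : lam * (297 * (z.length + 1)) = 297 * (lam * (z.length + 1)) := by ring
    rw [k2]
    rw [k3] at k1
    omega
  · rw [f3, hdT, ← hlam, ← hmu]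
    refine Finset.sum_congr rfl fun i _ => ?_
    rw [hdc, hm, ← hlam, ← hmu, ← hmd]
  · intro a b1 b2 b3 b4
    rw [ffr a b1 b2 b3 b4, hfr a b1 b2 b4]

end Pool.Agent.Lib.MP_ff3ed7_lc.MH
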