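import Pool.Agent.Lib.MP_ff3ed7_lc.MH.SpecF

/-!
# PROJECT MH, Inv: Fourier inversion (helper48)
-/

set_option autoImplicit false

open Finset

namespace Pool.Agent.Lib.MP_ff3ed7_lc.MH

open Pool.Agent.Lib.MP_ff3ed7_lc.PLT
open Pool.Agent.Lib.MP_ff3ed7_lc.B (JR HasSDual)

private theorem Inv_orth (m : ℕ) (X Y : Fin m → Bool) :
    ∑ S : Finset (Fin m), chi S Y * chi S X = if Y = X then 2 ^ m else 0 := by
  have h1 : ∀ S : Finset (Fin m), chi S Y * chi S X =
      ∏ j ∈ S, ((if Y j then (-1 : ℝ) else 1) * (if X j then (-1 : ℝ) else 1)) := by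
    intro S
    unfold chi
    rw [Finset.prod_mul_distrib]
  rw [Finset.sum_congr rfl fun S _ => h1 S, ← Finset.powerset_univ, ← Finset.prod_one_add]
  by_cases h : Y = X
  · subst h
    rw [if_pos rfl]
    rw [Finset.prod_congr rfl (g := fun _ => (2 : ℝ)), Finset.prod_const, Finset.card_univ, Fintype.card_fin]
    intro j _
    split_ifs <;> norm_num
  · rw [if_neg h]
    obtain ⟨j, hj⟩ := Function.ne_iff.1 h
    refine Finset.prod_eq_zero (Finset.mem_univ j) ?_
    cases hx : X j <;> cases hy : Y j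
    · exact absurd (hy.trans hx.symm) hj
    · simp
    · simp
    · exact absurd (hy.trans hx.symm) hj

theorem tInv : S_Inv := by
  intro m F X
  have h1 : ∀ S : Finset (Fin m), (∑ Y, F Y * chi S Y) * chi S X = ∑ Y, F Y * (chi S Y * chi S X) := by
    intro S
    rw [Finset.sum_mul]
    exact Finset.sum_congr rfl fun Y _ => mul_assoc _ _ _
  rw [Finset.sum_congr rfl fun S _ => h1 S, Finset.sum_comm]
  have h2 : ∀ Y : Fin m → Bool, ∑ S : Finset (Fin m), F Y * (chi S Y * chi S X) =
      if Y = X then 2 ^ m * F X else 0 := by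
    intro Y
    rw [← Finset.mul_sum, Inv_orth]
    by_cases h : Y = X
    · rw [if_pos h, if_pos h, h, mul_comm]
    · rw [if_neg h, if_neg h, mul_zero]
  rw [Finset.sum_congr rfl fun Y _ => h2 Y]
  rw [Finset.sum_ite_eq' Finset.univ X (fun _ => 2 ^ m * F X), if_pos (Finset.mem_univ X)]

end Pool.Agent.Lib.MP_ff3ed7_lc.MH
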