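import Pool.Agent.Lib.MP_ff3ed7_lc.MH.SpecF

/-!
# PROJECT MH, part F, module Jma: the sum over the messages
-/

set_option autoImplicit false

open Finset

namespace Pool.Agent.Lib.MP_ff3ed7_lc.MH

open Pool.Agent.Lib.MP_ff3ed7_lc.PLT
open Pool.Agent.Lib.MP_ff3ed7_lc.B (JR HasSDual)

private theorem Jma_card (p r K : ℕ) :
    (Fintype.card ((Fin p → Bool) × (Fin K → Fin r → Bool)) : ℝ) = 2 ^ p * (2 ^ r) ^ K := by
  rw [Fintype.card_prod, Fintype.card_fun, Fintype.card_fun, Fintype.card_fun, Fintype.card_bool,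
    Fintype.card_fin, Fintype.card_fin, Fintype.card_fin]
  push_cast
  ring

open Classical in
theorem tJma : S_Jma := by
  intro hInv hJrc hTr hCnd hPow m p r D Ω _ _ V A e he hV hs hA
  obtain ⟨hpos, hG⟩ := hTr hInv hJrc m D Ω V e he hV hs
  obtain ⟨hlin, -, -⟩ := hCnd m Ω V hpos
  generalize 6 * (p + 1) = K at hA ⊢
  obtain ⟨g, hgdef⟩ : ∃ g : (Fin p → Bool) × (Fin K → Fin r → Bool) → Ω → ℝ,
      ∀ i ω, g i ω = if ∀ c, A i.1 (i.2 c) ω then (1 : ℝ) else 0 := ⟨_, fun _ _ => rfl⟩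
  have hg : ∀ i, ∃ G ∈ JR (Fin m) Bool D, ∀ X, |cnd V (g i) X - G X| ≤ 2 * (2 ^ m * e) := by
    intro i
    refine hG (g i) (fun ω => ?_) (fun S hS => ?_)
    · rw [hgdef]
      split_ifs <;> norm_num
    · have h := hA i.1 i.2 S hS
      simp only [hgdef]
      exact h
  choose G hGm hGb using hg
  have hw : (0 : ℝ) < (2 ^ r) ^ K := by positivity
  refine ⟨∑ i, (1 / (2 ^ r) ^ K : ℝ) • G i,
    Submodule.sum_mem _ fun i _ => Submodule.smul_mem _ _ (hGm i), fun X => ?_⟩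
  have hQ : (fun ω => ∑ y, (prob r fun ρ => A y ρ ω) ^ K) =
      fun ω => ∑ i : (Fin p → Bool) × (Fin K → Fin r → Bool), (1 / (2 ^ r) ^ K : ℝ) * g i ω := by
    funext ω
    rw [Fintype.sum_prod_type]
    refine Finset.sum_congr rfl fun y _ => ?_
    rw [hPow r K (fun ρ => A y ρ ω), ← Finset.mul_sum]
    simp only [hgdef]
    rw [one_div, div_eq_inv_mul]
  rw [hQ, hlin _ univ (fun _ => 1 / (2 ^ r) ^ K) g X, Finset.sum_apply]
  simp only [Pi.smul_apply, smul_eq_mul]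
  rw [← Finset.sum_sub_distrib]
  calc |∑ i, (1 / (2 ^ r) ^ K * cnd V (g i) X - 1 / (2 ^ r) ^ K * G i X)|
      ≤ ∑ i, |1 / (2 ^ r) ^ K * cnd V (g i) X - 1 / (2 ^ r) ^ K * G i X| :=
        Finset.abs_sum_le_sum_abs _ _
    _ ≤ ∑ _i : (Fin p → Bool) × (Fin K → Fin r → Bool),
        (1 / (2 ^ r) ^ K : ℝ) * (2 * (2 ^ m * e)) := by
        refine Finset.sum_le_sum fun i _ => ?_
        rw [← mul_sub, abs_mul, abs_of_pos (by positivity : (0 : ℝ) < 1 / (2 ^ r) ^ K)]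
        exact mul_le_mul_of_nonneg_left (hGb i X) (by positivity)
    _ = 2 ^ p * (2 * (2 ^ m * e)) := by
        rw [Finset.sum_const, Finset.card_univ, nsmul_eq_mul, Jma_card]
        field_simp

end Pool.Agent.Lib.MP_ff3ed7_lc.MH
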