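import Pool.Agent.Lib.MP_ff3ed7_lc.MH.SpecF

set_option autoImplicit false

open Finset

namespace Pool.Agent.Lib.MP_ff3ed7_lc.MH

open Pool.Agent.Lib.MP_ff3ed7_lc.PLT
open Pool.Agent.Lib.MP_ff3ed7_lc.B (JR HasSDual)

/-- The term of one set of coordinates. -/
private theorem Jrc_term (m D : ℕ) (c : Finset (Fin m) → ℝ) (S : Finset (Fin m)) :
    (fun X : Fin m → Bool => if S.card ≤ D then c S * chi S X else 0) ∈ JR (Fin m) Bool D := by
  by_cases hS : S.card ≤ D
  · refine Submodule.subset_span ⟨S, hS, ?_⟩
    intro x y hxy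
    have h : chi S x = chi S y := by
      unfold chi
      exact Finset.prod_congr rfl fun j hj => by rw [hxy j hj]
    simp only [h]
  · have h0 : (fun X : Fin m → Bool => if S.card ≤ D then c S * chi S X else 0) = 0 := by
      funext X
      simp [hS]
    rw [h0]
    exact Submodule.zero_mem _

theorem tJrc : S_Jrc := by
  intro m D c
  have h : (fun X : Fin m → Bool => ∑ S : Finset (Fin m), if S.card ≤ D then c S * chi S X else 0)
      = ∑ S : Finset (Fin m), (fun X : Fin m → Bool => if S.card ≤ D then c S * chi S X else 0) := by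
    funext X
    rw [Finset.sum_apply]
  rw [h]
  exact Submodule.sum_mem _ fun S _ => Jrc_term m D c S

end Pool.Agent.Lib.MP_ff3ed7_lc.MH
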