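import Pool.Agent.Lib.MP_ff3ed7_lc.MH.SpecL

/-!
# PROJECT MH, module Lay: the layout of the words
-/

set_option autoImplicit false

open Finset

namespace Pool.Agent.Lib.MP_ff3ed7_lc.MH

open Pool.Agent.Lib.MP_ff3ed7_lc.PLT
open Pool.Agent.Lib.MP_ff3ed7_lc.SQ (dst)

/-! ### Arithmetic -/

private theorem Lay_dec (m w r j i : ℕ) (hj : j < m) (hi : i < w) :
    ((r * m + j) * w + i) % w = i ∧ ((r * m + j) * w + i) / w / m = r ∧
      ((r * m + j) * w + i) / w % m = j := by
  have hw : 0 < w := by omega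
  have hm : 0 < m := by omega
  have h1 : ((r * m + j) * w + i) / w = r * m + j := by
    rw [mul_comm (r * m + j) w, Nat.mul_add_div hw, Nat.div_eq_of_lt hi, add_zero]
  refine ⟨?_, ?_, ?_⟩
  · rw [mul_comm (r * m + j) w, Nat.mul_add_mod, Nat.mod_eq_of_lt hi]
  · rw [h1, mul_comm r m, Nat.mul_add_div hm, Nat.div_eq_of_lt hj, add_zero]
  · rw [h1, mul_comm r m, Nat.mul_add_mod, Nat.mod_eq_of_lt hj]

private theorem Lay_bits (a n : ℕ) :
    ∑ i ∈ range n, (a.testBit i).toNat * 2 ^ i = a % 2 ^ n := by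
  induction n with
  | zero => simp [Nat.mod_one]
  | succ n ih =>
    rw [sum_range_succ, ih, pow_succ, Nat.mod_mul]
    congr 1
    rw [mul_comm]
    congr 1
    rw [Nat.testBit_eq_decide_div_mod_eq]
    rcases Nat.mod_two_eq_zero_or_one (a / 2 ^ n) with h | h <;> simp [h]

/-- The number of the region `(u, b)`. -/
private def Lay_r (u : Fin 80) (b : Bool) : ℕ := 2 * u.val + (if b = true then 1 else 0)

private theorem Lay_r_lt (u : Fin 80) (b : Bool) : Lay_r u b < 160 := by
  unfold Lay_r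
  have := u.2
  cases b <;> simp <;> omega

private theorem Lay_r_div (u : Fin 80) (b : Bool) : Lay_r u b / 2 = u.val := by
  unfold Lay_r
  cases b <;> simp <;> omega

private theorem Lay_r_mod (u : Fin 80) (b : Bool) : decide (Lay_r u b % 2 = 1) = b := by
  unfold Lay_r
  cases b <;> simp

/-! ### The blocks -/

/-- The block of a cell. -/
private def Lay_bl (off P B : ℕ) (j : ℕ) : Option ((Fin 80 × Bool) × Fin P) :=
  if h : off ≤ j ∧ (j - off) % (2 * B) < B ∧ (j - off) / (2 * B) / P < 160 ∧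
      (j - off) / (2 * B) % P < P then
    some ((⟨(j - off) / (2 * B) / P / 2, by omega⟩, decide ((j - off) / (2 * B) / P % 2 = 1)),
      ⟨(j - off) / (2 * B) % P, h.2.2.2⟩)
  else none

private theorem Lay_bl_dec (off P B s : ℕ) (u : Fin 80) (b : Bool) (a : Fin P) (hs : s < B) :
    Lay_bl off P B (off + (Lay_r u b * P + a.val) * (2 * B) + s) = some ((u, b), a) := by
  have hd := Lay_dec P (2 * B) (Lay_r u b) a.val s a.2 (by omega)
  have h0 : off + (Lay_r u b * P + a.val) * (2 * B) + s - off =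
      (Lay_r u b * P + a.val) * (2 * B) + s := by omega
  have hle : off ≤ off + (Lay_r u b * P + a.val) * (2 * B) + s := by omega
  unfold Lay_bl
  simp only [h0, hd.1, hd.2.1, hd.2.2, hle, hs, Lay_r_lt, a.2, and_self, dif_pos, Lay_r_div,
    Lay_r_mod]

private theorem Lay_bl_inv {off P B j : ℕ} {u : Fin 80} {b : Bool} {a : Fin P}
    (h : Lay_bl off P B j = some ((u, b), a)) :
    ∃ s < B, j = off + (Lay_r u b * P + a.val) * (2 * B) + s := by
  unfold Lay_bl at h
  split_ifs at h with h1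
  rw [Option.some.injEq, Prod.mk.injEq, Prod.mk.injEq] at h
  obtain ⟨⟨h2, h3⟩, h4⟩ := h
  refine ⟨(j - off) % (2 * B), h1.2.1, ?_⟩
  have e1 := Nat.div_add_mod (j - off) (2 * B)
  have e2 := Nat.div_add_mod ((j - off) / (2 * B)) P
  have e3 : Lay_r u b = (j - off) / (2 * B) / P := by
    rw [← h2, ← h3]
    unfold Lay_r
    rcases Nat.mod_two_eq_zero_or_one ((j - off) / (2 * B) / P) with h | h
    · simp only [h]
      simp
      omega
    · simp only [h]
      simp
      omega
  have e4 : a.val = (j - off) / (2 * B) % P := by rw [← h4]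
  rw [e3, e4]
  have e5 : (j - off) / (2 * B) / P * P + (j - off) / (2 * B) % P = (j - off) / (2 * B) := by
    rw [mul_comm]
    exact e2
  rw [e5, mul_comm ((j - off) / (2 * B)) (2 * B)]
  omega

private theorem Lay_far {off B q q' s s' : ℕ} (hs : s < B) (hs' : s' < B) (h : q ≠ q') :
    B ≤ dst (off + q * (2 * B) + s) (off + q' * (2 * B) + s') := by
  unfold dst
  rcases lt_or_gt_of_ne h with h | h
  · obtain ⟨e, he⟩ := Nat.exists_eq_add_of_lt h
    have h1 : q' * (2 * B) = q * (2 * B) + e * (2 * B) + 2 * B := by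
      rw [he]
      ring
    omega
  · obtain ⟨e, he⟩ := Nat.exists_eq_add_of_lt h
    have h1 : q * (2 * B) = q' * (2 * B) + e * (2 * B) + 2 * B := by
      rw [he]
      ring
    omega

private theorem Lay_row {off B R a a' s s' : ℕ} (hs : s < B) (hs' : s' < B) :
    B * dst a a' ≤ dst (off + (R + a) * (2 * B) + s) (off + (R + a') * (2 * B) + s') := by
  rcases lt_trichotomy a a' with h | h | h
  · obtain ⟨e, he⟩ := Nat.exists_eq_add_of_lt h
    have h1 : (R + a') * (2 * B) = (R + a) * (2 * B) + 2 * (B * (e + 1)) := by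
      rw [he]
      ring
    have h2 : dst a a' = e + 1 := by
      unfold dst
      omega
    have h3 : B ≤ B * (e + 1) := Nat.le_mul_of_pos_right B (by omega)
    rw [h2]
    unfold dst
    omega
  · subst h
    have h2 : dst a a = 0 := by
      unfold dst
      omega
    rw [h2, mul_zero]
    exact Nat.zero_le _
  · obtain ⟨e, he⟩ := Nat.exists_eq_add_of_lt h
    have h1 : (R + a) * (2 * B) = (R + a') * (2 * B) + 2 * (B * (e + 1)) := by
      rw [he]
      ring
    have h2 : dst a a' = e + 1 := by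
      unfold dst
      omega
    have h3 : B ≤ B * (e + 1) := Nat.le_mul_of_pos_right B (by omega)
    rw [h2]
    unfold dst
    omega

private theorem Lay_r_inj {P : ℕ} {u u' : Fin 80} {b b' : Bool} {a a' : Fin P}
    (h : Lay_r u b * P + a.val = Lay_r u' b' * P + a'.val) : ((u, b), a) = ((u', b'), a') := by
  have h1 := Lay_bl_dec 0 P 1 0 u b a (by omega)
  have h2 := Lay_bl_dec 0 P 1 0 u' b' a' (by omega)
  rw [h] at h1
  exact Option.some.inj (h1.symm.trans h2)

private theorem Lay_geo (off P B : ℕ) : Geo B (Lay_bl off P B) where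
  far := by
    rintro j j' ⟨⟨u, b⟩, a⟩ ⟨⟨u', b'⟩, a'⟩ h h' hne
    obtain ⟨s, hs, rfl⟩ := Lay_bl_inv h
    obtain ⟨s', hs', rfl⟩ := Lay_bl_inv h'
    exact Lay_far hs hs' fun hq => hne (Lay_r_inj hq)
  row := by
    rintro j j' ⟨u, b⟩ a a' h h'
    obtain ⟨s, hs, rfl⟩ := Lay_bl_inv h
    obtain ⟨s', hs', rfl⟩ := Lay_bl_inv h'
    exact Lay_row hs hs'

/-! ### The words -/

/-- The header. -/
private def Lay_hd (m w : ℕ) (T : ℕ → ℕ → ℕ) (i : ℕ) : Bool :=
  (T (i / w / m) (i / w % m)).testBit (i % w)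

/-- The table as a function of natural numbers. -/
private def Lay_T {m P : ℕ} (T : Fin 80 → Bool → Fin m → Fin P) (r j : ℕ) : ℕ :=
  if h : r < 160 ∧ j < m then (T ⟨r / 2, by omega⟩ (decide (r % 2 = 1)) ⟨j, h.2⟩).val else 0

private theorem Lay_T_eq {m P : ℕ} (T : Fin 80 → Bool → Fin m → Fin P) (u : Fin 80) (b : Bool)
    (j : Fin m) : Lay_T T (Lay_r u b) j.val = (T u b j).val := by
  unfold Lay_T
  simp only [Lay_r_lt, j.2, and_self, dif_pos, Lay_r_div, Lay_r_mod]

/-- The word. -/
private def Lay_mk (off m w P B : ℕ) (T : Fin 80 → Bool → Fin m → Fin P)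
    (x : (Fin 80 × Bool) × Fin P → Fin B → Bool) (i : ℕ) : Bool :=
  match Lay_bl off P B i with
  | some b => if h : (i - off) % (2 * B) < B then x b ⟨(i - off) % (2 * B), h⟩ else false
  | none => Lay_hd m w (Lay_T T) i

private theorem Lay_mk_loc (off m w P B : ℕ) (T : Fin 80 → Bool → Fin m → Fin P)
    (x x' : (Fin 80 × Bool) × Fin P → Fin B → Bool) (i : ℕ)
    (h : ∀ b, Lay_bl off P B i = some b → x b = x' b) :
    Lay_mk off m w P B T x i = Lay_mk off m w P B T x' i := by
  unfold Lay_mk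
  cases hb : Lay_bl off P B i with
  | none => rfl
  | some b => simp only [h b hb]

private theorem Lay_mk_blc (off m w P B : ℕ) (T : Fin 80 → Bool → Fin m → Fin P)
    (x : (Fin 80 × Bool) × Fin P → Fin B → Bool) (u : Fin 80) (b : Bool) (a : Fin P) (s : Fin B) :
    Lay_mk off m w P B T x (off + (Lay_r u b * P + a.val) * (2 * B) + s.val) = x ((u, b), a) s := by
  unfold Lay_mk
  have hd := Lay_dec P (2 * B) (Lay_r u b) a.val s.val a.2 (by omega)
  have h0 : off + (Lay_r u b * P + a.val) * (2 * B) + s.val - off =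
      (Lay_r u b * P + a.val) * (2 * B) + s.val := by omega
  rw [Lay_bl_dec off P B s.val u b a s.2]
  simp only [h0, hd.1, s.2, dif_pos]

private theorem Lay_mk_hdc (off m w P B : ℕ) (T : Fin 80 → Bool → Fin m → Fin P)
    (x : (Fin 80 × Bool) × Fin P → Fin B → Bool) (u : Fin 80) (b : Bool) (j : Fin m) (i : ℕ)
    (hi : i < w) (hlt : (Lay_r u b * m + j.val) * w + i < off) :
    Lay_mk off m w P B T x ((Lay_r u b * m + j.val) * w + i) = (T u b j).val.testBit i := by
  unfold Lay_mk
  have hn : Lay_bl off P B ((Lay_r u b * m + j.val) * w + i) = none := by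
    unfold Lay_bl
    rw [dif_neg]
    intro h
    omega
  have hd := Lay_dec m w (Lay_r u b) j.val i j.2 hi
  rw [hn]
  simp only [Lay_hd, hd.1, hd.2.1, hd.2.2, Lay_T_eq]

/-! ### Numbers -/

private theorem Lay_cell {m w off : ℕ} (h : 160 * m * w ≤ off) (u : Fin 80) (b : Bool) (j : Fin m)
    (i : ℕ) (hi : i < w) : (Lay_r u b * m + j.val) * w + i < off := by
  have h1 : Lay_r u b * m + j.val + 1 ≤ 160 * m := by
    have h2 : (Lay_r u b + 1) * m ≤ 160 * m := Nat.mul_le_mul_right m (Lay_r_lt u b)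
    have h3 := j.2
    rw [add_mul, one_mul] at h2
    omega
  have h4 : (Lay_r u b * m + j.val + 1) * w ≤ 160 * m * w := Nat.mul_le_mul_right w h1
  rw [add_mul, one_mul] at h4
  omega

private theorem Lay_num (N : ℕ) (hN : 2 ^ 320 ≤ N) :
    160 * vp N * (2 * vB N) ≤ 2 ^ (Nat.log 2 N - 1) ∧
    160 * vm N * (3 * (Nat.log 2 N / 8)) ≤ 2 ^ (Nat.log 2 N - 1) ∧
    2 ^ (Nat.log 2 N - 1) + 2 ^ (Nat.log 2 N - 1) ≤ N := by
  have hN0 : N ≠ 0 := by
    rintro rfl
    exact absurd hN (Nat.not_le.mpr (by positivity))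
  have hl : 320 ≤ Nat.log 2 N := Nat.le_log_of_pow_le (by norm_num) hN
  have hle : 2 ^ Nat.log 2 N ≤ N := Nat.pow_log_le_self 2 hN0
  unfold vp vB vm
  generalize Nat.log 2 N = lam at *
  refine ⟨?_, ?_, ?_⟩
  · have e1 : 2 ^ (3 * (lam / 8)) * 2 ^ (lam - 10 - 3 * (lam / 8)) = 2 ^ (lam - 10) := by
      rw [← pow_add]
      congr 1
      omega
    have e2 : 2 ^ (lam - 1) = 2 ^ (lam - 10) * 512 := by
      have : lam - 1 = lam - 10 + 9 := by omega
      rw [this, pow_add]
      norm_num
    calc 160 * 2 ^ (3 * (lam / 8)) * (2 * 2 ^ (lam - 10 - 3 * (lam / 8)))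
        = 320 * (2 ^ (3 * (lam / 8)) * 2 ^ (lam - 10 - 3 * (lam / 8))) := by ring
      _ = 320 * 2 ^ (lam - 10) := by rw [e1]
      _ ≤ 2 ^ (lam - 1) := by
        rw [e2]
        omega
  · have e1 : lam / 8 < 2 ^ (lam / 8) := Nat.lt_two_pow_self
    calc 160 * 2 ^ (lam / 8) * (3 * (lam / 8)) = 480 * (2 ^ (lam / 8) * (lam / 8)) := by ring
      _ ≤ 2 ^ 9 * (2 ^ (lam / 8) * 2 ^ (lam / 8)) :=
        Nat.mul_le_mul (by norm_num) (Nat.mul_le_mul le_rfl e1.le)
      _ = 2 ^ (9 + (lam / 8 + lam / 8)) := by rw [pow_add, pow_add]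
      _ ≤ 2 ^ (lam - 1) := Nat.pow_le_pow_right (by norm_num) (by omega)
  · have : 2 ^ lam = 2 ^ (lam - 1) * 2 := by
      rw [← pow_succ]
      congr 1
      omega
    omega

private theorem Lay_ofFn {m n : ℕ} (h : m = n) (f : ℕ → Bool) (g : Fin n → Bool)
    (hg : ∀ j : Fin n, f j.val = g j) : (List.ofFn fun j : Fin m => f j.val) = List.ofFn g := by
  subst h
  congr 1
  funext j
  exact hg j

/-- The layout of the words. -/
theorem tLay : S_Lay := by
  intro N hN T
  obtain ⟨hn1, hn2, hn3⟩ := Lay_num N hN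
  have hpw : vp N = 2 ^ (3 * (Nat.log 2 N / 8)) := rfl
  refine ⟨Lay_bl (2 ^ (Nat.log 2 N - 1)) (vp N) (vB N),
    fun x i => Lay_mk (2 ^ (Nat.log 2 N - 1)) (vm N) (3 * (Nat.log 2 N / 8)) (vp N) (vB N) T x i.val,
    Lay_geo _ _ _, ?_, ?_⟩
  · intro x x' j h
    unfold tape
    by_cases hj : j < N
    · rw [dif_pos hj, dif_pos hj]
      exact congrArg some (Lay_mk_loc _ _ _ _ _ T x x' j h)
    · rw [dif_neg hj, dif_neg hj]
  · intro L x
    set z : List Bool := word fun i : Fin N =>
      Lay_mk (2 ^ (Nat.log 2 N - 1)) (vm N) (3 * (Nat.log 2 N / 8)) (vp N) (vB N) T x i.val with hz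
    have hlen : z.length = N := word_length _
    have hbk : ∀ (u : Fin 80) (b : Bool) (a : Fin (vp N)) (i : Fin (vB N)),
        bit z (blc N (Lay_r u b) a.val i.val) = (x ((u, b), a) i).toNat := by
      intro u b a i
      have h1 := Lay_cell hn1 u b a i.val (by omega)
      have h2 : blc N (Lay_r u b) a.val i.val < N := by
        unfold blc
        omega
      rw [hz, bit_word _ _ h2]
      congr 1
      exact Lay_mk_blc _ _ _ _ _ T x u b a i
    have hhd : ∀ (u : Fin 80) (b : Bool) (j : Fin (vm N)),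
        hdT z (Lay_r u b) j.val = (T u b j).val := by
      intro u b j
      have h3 : ∀ i ∈ range (3 * (Nat.log 2 N / 8)), bit z (hdc N (Lay_r u b) j.val i) * 2 ^ i =
          ((T u b j).val.testBit i).toNat * 2 ^ i := by
        intro i hi
        rw [mem_range] at hi
        have h1 := Lay_cell hn2 u b j i hi
        have h2 : hdc N (Lay_r u b) j.val i < N := by
          unfold hdc
          omega
        rw [hz, bit_word _ _ h2]
        congr 2
        exact Lay_mk_hdc _ _ _ _ _ T x u b j i hi h1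
      unfold hdT
      rw [hlen, sum_congr rfl h3, Lay_bits, ← hpw, Nat.mod_eq_of_lt (T u b j).2]
    have hvip : ∀ (j : Fin (vm N)) (u : Fin 80), vip z j.val u.val =
        ipn (x ((u, false), T u false j)) (x ((u, true), T u true j)) := by
      intro j u
      have e1 : 2 * u.val = Lay_r u false := by simp [Lay_r]
      have e2 : 2 * u.val + 1 = Lay_r u true := by simp [Lay_r]
      unfold vip ipn
      rw [hlen, sum_range, e2, e1, hhd u false j, hhd u true j]
      refine sum_congr rfl fun i _ => ?_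
      rw [hbk u false, hbk u true]
      cases x ((u, false), T u false j) i <;> cases x ((u, true), T u true j) i <;> rfl
    have hbits : ∀ j : Fin (vm N), hbit z j.val = vx T x j := by
      intro j
      have h4 : ∑ u ∈ range 80, vip z j.val u =
          ∑ u : Fin 80, ipn (x ((u, false), T u false j)) (x ((u, true), T u true j)) := by
        rw [sum_range]
        exact sum_congr rfl fun u _ => hvip j u
      unfold hbit vx
      rw [h4]
    have hhw : hw z = word (vx T x) := Lay_ofFn (congrArg vm hlen) (hbit z) (vx T x) hbits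
    rw [Bool.eq_iff_iff, slice_eq_true, slice_eq_true]
    change z ∈ hlang L ↔ _
    unfold hlang
    rw [Set.mem_ofPred_eq, hlen, hhw]
    exact ⟨fun h => h.2, fun h => ⟨hN, h⟩⟩

end Pool.Agent.Lib.MP_ff3ed7_lc.MH
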