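import Pool.Agent.Lib.MP_ff3ed7_lc.MH.SpecL

/-!
# Project MH: Lindsey's lemma for the inner product (helper42)
-/

set_option autoImplicit false

open Finset

namespace Pool.Agent.Lib.MP_ff3ed7_lc.MH

namespace LinM

theorem ips_prod {B : ℕ} (a b : Fin B → Bool) :
    ips a b = ∏ i, (if (a i && b i) = true then (-1 : ℝ) else 1) := by
  unfold ips ipn
  rw [← Finset.prod_pow_eq_pow_sum]
  refine Finset.prod_congr rfl fun i _ => ?_
  split_ifs <;> simp

/-- Orthogonality. -/
theorem ips_orth {B : ℕ} (b c : Fin B → Bool) :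
    ∑ a : Fin B → Bool, ips a b * ips a c = if b = c then (2 : ℝ) ^ B else 0 := by
  have h1 : ∀ a : Fin B → Bool, ips a b * ips a c =
      ∏ i, ((if (a i && b i) = true then (-1 : ℝ) else 1) *
        (if (a i && c i) = true then (-1 : ℝ) else 1)) :=
    fun a => by rw [ips_prod, ips_prod, Finset.prod_mul_distrib]
  have h2 : ∑ a : Fin B → Bool, ∏ i, ((if (a i && b i) = true then (-1 : ℝ) else 1) *
      (if (a i && c i) = true then (-1 : ℝ) else 1)) =
      ∏ i, ∑ x : Bool, ((if (x && b i) = true then (-1 : ℝ) else 1) *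
        (if (x && c i) = true then (-1 : ℝ) else 1)) := by
    rw [Finset.prod_univ_sum, Fintype.piFinset_univ]
  rw [Finset.sum_congr rfl fun a _ => h1 a, h2]
  have h3 : ∀ i : Fin B, ∑ x : Bool, ((if (x && b i) = true then (-1 : ℝ) else 1) *
      (if (x && c i) = true then (-1 : ℝ) else 1)) = if b i = c i then 2 else 0 := by
    intro i
    rw [Fintype.sum_bool]
    cases b i <;> cases c i <;> norm_num
  rw [Finset.prod_congr rfl fun i _ => h3 i]
  by_cases hbc : b = c
  · subst hbc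
    simp
  · rw [if_neg hbc]
    obtain ⟨i, hi⟩ := Function.ne_iff.1 hbc
    exact Finset.prod_eq_zero (Finset.mem_univ i) (if_neg hi)

/-- The sum of one row. -/
theorem ips_row {B : ℕ} (b : Fin B → Bool) :
    ∑ a : Fin B → Bool, ips a b = if b = (fun _ => false) then (2 : ℝ) ^ B else 0 := by
  have h := ips_orth b (fun _ => false)
  rw [← h]
  refine Finset.sum_congr rfl fun a _ => ?_
  have : ips a (fun _ => false) = 1 := by
    rw [ips_prod]
    simp
  rw [this, mul_one]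

/-- Lindsey's lemma. -/
theorem lindsey {B : ℕ} (A A' : Finset (Fin B → Bool)) :
    (∑ a ∈ A, ∑ b ∈ A', ips a b) ^ 2 ≤ (A.card : ℝ) * A'.card * 2 ^ B := by
  have h1 : (∑ a ∈ A, ∑ b ∈ A', ips a b) ^ 2 ≤ (A.card : ℝ) * ∑ a ∈ A, (∑ b ∈ A', ips a b) ^ 2 :=
    sq_sum_le_card_mul_sum_sq
  have h2 : ∑ a ∈ A, (∑ b ∈ A', ips a b) ^ 2 ≤ ∑ a : Fin B → Bool, (∑ b ∈ A', ips a b) ^ 2 :=
    Finset.sum_le_sum_of_subset_of_nonneg (Finset.subset_univ A) fun a _ _ => sq_nonneg _
  have h3 : ∑ a : Fin B → Bool, (∑ b ∈ A', ips a b) ^ 2 = (A'.card : ℝ) * 2 ^ B := by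
    have e1 : ∀ a : Fin B → Bool, (∑ b ∈ A', ips a b) ^ 2 =
        ∑ b ∈ A', ∑ c ∈ A', ips a b * ips a c := fun a => by
      rw [sq, Finset.sum_mul_sum]
    rw [Finset.sum_congr rfl fun a _ => e1 a, Finset.sum_comm]
    have e2 : ∀ b ∈ A', ∑ a : Fin B → Bool, ∑ c ∈ A', ips a b * ips a c = 2 ^ B := by
      intro b hb
      rw [Finset.sum_comm, Finset.sum_congr rfl fun c _ => ips_orth b c,
        Finset.sum_ite_eq A' b, if_pos hb]
    rw [Finset.sum_congr rfl e2, Finset.sum_const, nsmul_eq_mul]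
  calc (∑ a ∈ A, ∑ b ∈ A', ips a b) ^ 2
      ≤ (A.card : ℝ) * ∑ a ∈ A, (∑ b ∈ A', ips a b) ^ 2 := h1
    _ ≤ (A.card : ℝ) * ((A'.card : ℝ) * 2 ^ B) :=
        mul_le_mul_of_nonneg_left (h2.trans h3.le) (Nat.cast_nonneg _)
    _ = _ := by ring

theorem lindsey_sq {B : ℕ} (A A' : Finset (Fin B → Bool)) :
    (∑ a ∈ A, ∑ b ∈ A', ips a b) ^ 2 ≤ (2 : ℝ) ^ (3 * B) := by
  refine (lindsey A A').trans ?_
  have hc : ∀ S : Finset (Fin B → Bool), (S.card : ℝ) ≤ 2 ^ B := by
    intro S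
    have h := Finset.card_le_univ S
    rw [Fintype.card_fun, Fintype.card_bool, Fintype.card_fin] at h
    exact_mod_cast h
  calc (A.card : ℝ) * A'.card * 2 ^ B ≤ 2 ^ B * 2 ^ B * 2 ^ B := by
        gcongr
        · exact hc A
        · exact hc A'
    _ = 2 ^ (3 * B) := by rw [← pow_add, ← pow_add]; congr 1; ring

end LinM

open LinM in
open Classical in
theorem tLin : S_Lin := by
  refine ⟨fun B A A' => ?_, fun B => ?_⟩
  · have h : ∑ a : Fin B → Bool, ∑ b : Fin B → Bool, (if A a ∧ A' b then ips a b else 0) =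
        ∑ a ∈ univ.filter A, ∑ b ∈ univ.filter A', ips a b := by
      rw [Finset.sum_filter]
      refine Finset.sum_congr rfl fun a _ => ?_
      by_cases hP : A a
      · rw [if_pos hP, Finset.sum_filter]
        refine Finset.sum_congr rfl fun b _ => ?_
        by_cases hQ : A' b
        · rw [if_pos ⟨hP, hQ⟩, if_pos hQ]
        · rw [if_neg fun h => hQ h.2, if_neg hQ]
      · rw [if_neg hP]
        exact Finset.sum_eq_zero fun b _ => if_neg fun h => hP h.1
    rw [h]
    exact lindsey_sq _ _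
  · rw [Finset.sum_comm, Finset.sum_congr rfl fun b _ => ips_row b, Finset.sum_ite_eq' univ]
    simp

end Pool.Agent.Lib.MP_ff3ed7_lc.MH
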