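import Pool.Agent.Lib.MP_ff3ed7_lc.MH.SpecL

set_option autoImplicit false

open Finset

namespace Pool.Agent.Lib.MP_ff3ed7_lc.MH

open Pool.Agent.Lib.MP_ff3ed7_lc.PLT
open Pool.Agent.Lib.MP_ff3ed7_lc.SQ (dst)

private lemma Low_vp (N : ℕ) : vp N = vm N ^ 3 := by
  unfold vp vm
  rw [← pow_mul, mul_comm]

private lemma Low_vm (N : ℕ) (hN : 2 ^ 320 ≤ N) : 2 ^ 40 ≤ vm N := by
  have h1 : 320 ≤ Nat.log 2 N := Nat.le_log_of_pow_le (by norm_num) hN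
  unfold vm
  exact Nat.pow_le_pow_right (by norm_num) (by omega)

theorem tLow : S_Low := by
  intro hTvC hTab hNuT hLin hHiA hHiL hHiV hHiR hFoA hFoB hFou hLay
  intro N t n τ v hN hmv hn hnm hV hb
  have hvm : 2 ^ 40 ≤ vm N := Low_vm N hN
  have hvm160 : 160 ≤ vm N := le_trans (by norm_num) hvm
  have hvp : vp N = vm N ^ 3 := Low_vp N
  have hB : 1 ≤ vB N := Nat.one_le_two_pow
  have hP1 : 1 ≤ vp N := Nat.one_le_two_pow
  have hinj : 2 * 80 * vm N ^ 2 ≤ vp N := by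
    rw [hvp, pow_succ (vm N) 2, mul_comm (vm N ^ 2) (vm N)]
    exact Nat.mul_le_mul_right _ hvm160
  have hnum := hNuT (vm N) (vp N) n (t / vB N) τ v hvp (le_trans (by norm_num) hvm160) hmv hn hV hb
  obtain ⟨T, hT⟩ := hTab hTvC 80 (vm N) (vp N) n (t / vB N) (by norm_num) hinj
    (le_trans (by norm_num) hn) hnm hP1 hnum
  obtain ⟨bl, mk, hgeo, hloc, hlay⟩ := hLay N hN T
  obtain ⟨f1, f2⟩ := hFou hHiA hHiL hHiR hFoA hFoB 80 (vm N) (vp N) (vB N) n t T bl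
    (fun x => tape (mk x)) (by norm_num) hB hT hgeo hloc
  refine ⟨_, _, ⟨fun _ _ => false⟩, vx T, mk, hlay, f1, ?_⟩
  intro k s K Q _ M hQ hmot S hS hSn
  exact f2 k s K Q M hQ (fun c x U => hmot c (mk x) U) S hS hSn

end Pool.Agent.Lib.MP_ff3ed7_lc.MH
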