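import Pool.Agent.Lib.MP_ff3ed7_lc.MH.SpecN

/-!
# PROJECT MH, MaB: the Merlin-Arthur lower bound for the language `hlang LB`
-/

set_option autoImplicit false

open Finset

namespace Pool.Agent.Lib.MP_ff3ed7_lc.MH

open Pool.Agent.Lib.MP_ff3ed7_lc.PLT
open Pool.Agent.Lib.MP_ff3ed7_lc.B (JR HasSDual)

private lemma MaB_e1 (a b : ℕ) : ((1 : ℝ) / 2) ^ b ≤ 2 ^ a * (1 / 2) ^ b := by
  have h : (1 : ℝ) ≤ 2 ^ a := one_le_pow₀ (by norm_num)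
  have h2 : (0 : ℝ) ≤ (1 / 2) ^ b := by positivity
  nlinarith

private lemma MaB_e2 (a b c : ℕ) (h : a + c ≤ b) :
    (2 : ℝ) ^ a * (1 / 2) ^ b ≤ (1 / 2) ^ c := by
  have h1 : ((1 : ℝ) / 2) ^ b ≤ (1 / 2) ^ (a + c) :=
    pow_le_pow_of_le_one (by norm_num) (by norm_num) h
  have h2 : (0 : ℝ) ≤ 2 ^ a := by positivity
  calc (2 : ℝ) ^ a * (1 / 2) ^ b ≤ 2 ^ a * (1 / 2) ^ (a + c) :=
        mul_le_mul_of_nonneg_left h1 h2
    _ = (2 * (1 / 2)) ^ a * (1 / 2) ^ c := by rw [pow_add, ← mul_assoc, ← mul_pow]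
    _ = (1 / 2) ^ c := by
        rw [show (2 : ℝ) * (1 / 2) = 1 by norm_num, one_pow, one_mul]

private lemma MaB_core (N k p s t : ℕ) (hN : NumC N k p s t) (hPsh : S_Psh) (hDua : S_Dua)
    (hInv : S_Inv) (hJrc : S_Jrc) (hTr : S_Tr) (hCnd : S_Cnd) (hPow : S_Pow) (hNma : S_Nma)
    (hJma : S_Jma) (hCma : S_Cma) (hM : HasMAh k (slice (hlang LB) N) p s t) : False := by
  obtain ⟨⟨Ω, iΩ, nΩ, X, w, h1, h2, h3⟩, hm, hb, hp, hD, -⟩ := hN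
  obtain ⟨r, Q, iQ, M, hQ, ht, hacc, hrej⟩ := hM
  have hm36 : 2 ^ 36 ≤ vm N :=
    le_trans (Nat.pow_le_pow_right (by norm_num) (by norm_num)) hm
  have hcard : (0 : ℝ) ≤ Fintype.card Ω := Nat.cast_nonneg _
  refine hCma hInv hJrc hTr hCnd hPow hNma hJma (vm N) p r
    (2 ^ ix N * (6 * (p + 1) * k ^ 2) ^ 80) Ω (slice LB (vm N)) X
    (fun y ρ ω => (M y ρ).Acc (tape (w ω)))
    (2 ^ (6 * (p + 1) * (s + 1) * (k + t / vB N + 1)) * (1 / 2) ^ (vB N / 2)) (by positivity)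
    ((hDua hPsh).1 (vm N) (p + 1) _ hm36 (Nat.le_add_left 1 p) hp hD) ?_ ?_
    (MaB_e2 _ _ _ hb) ?_ ?_
  · intro S hS
    exact (h2 S hS).trans (mul_le_mul_of_nonneg_right (MaB_e1 _ _) hcard)
  · intro y ρ S hS
    exact h3 k s (6 * (p + 1)) Q (fun c => M y (ρ c)) hQ (fun c x U => ht y (ρ c) x U) S
      (le_of_lt hS) (Finset.card_pos.mp (Nat.lt_of_le_of_lt (Nat.zero_le _) hS))
  · intro ω hω
    exact hacc (w ω) ((h1 LB ω).trans hω)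
  · intro ω hω y
    exact hrej (w ω) ((h1 LB ω).trans hω) y

/-- **MaB.** The Merlin-Arthur lower bound for the language `hlang LB`. -/
theorem tMaB : S_MaB := by
  intro hNum hPsh hDua hInv hJrc hTr hCnd hPow hNma hJma hCma
  refine ⟨2 ^ 37000, fun N k p s t hM => ?_⟩
  by_contra hlt
  rw [not_le] at hlt
  exact MaB_core N k p s t (hNum N k p s t hlt) hPsh hDua hInv hJrc hTr hCnd hPow hNma hJma hCma hM

end Pool.Agent.Lib.MP_ff3ed7_lc.MH
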