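import Pool.Agent.Lib.MP_ff3ed7_lc.MH.SpecN

/-!
# PROJECT MH, module MaG: the Merlin-Arthur lower bound for the language `hlang LG`
-/

set_option autoImplicit false

open Finset

namespace Pool.Agent.Lib.MP_ff3ed7_lc.MH

open Pool.Agent.Lib.MP_ff3ed7_lc.PLT
open Pool.Agent.Lib.MP_ff3ed7_lc.B (JR HasSDual)

private theorem MaG_e (a b c : ℕ) (h : a + c ≤ b) :
    (2 : ℝ) ^ a * (1 / 2) ^ b ≤ (1 / 2) ^ c := by
  have h1 : ((1 : ℝ) / 2) ^ b ≤ (1 / 2) ^ (a + c) :=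
    pow_le_pow_of_le_one (by norm_num) (by norm_num) h
  calc (2 : ℝ) ^ a * (1 / 2) ^ b ≤ (2 : ℝ) ^ a * (1 / 2) ^ (a + c) := by gcongr
    _ = ((2 : ℝ) * (1 / 2)) ^ a * (1 / 2) ^ c := by rw [pow_add, mul_pow]; ring
    _ = (1 / 2) ^ c := by norm_num

theorem tMaG : S_MaG := by
  intro hNum hPsh hDua hInv hJrc hTr hCnd hPow hNma hJma hCme
  refine ⟨2 ^ 37000, fun N k p s t hMA => ?_⟩
  by_contra hcon
  obtain ⟨hLow, hm, hE, -, -, hD9⟩ := hNum N k p s t (not_le.1 hcon)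
  obtain ⟨Ω, fΩ, nΩ, X, w, hsl, hchi, hMach⟩ := hLow
  obtain ⟨r, Q, fQ, M, hQ, hmot, hyes, hno⟩ := hMA
  have he1 : (1 / 2 : ℝ) ^ (vB N / 2) ≤
      2 ^ (6 * (p + 1) * (s + 1) * (k + t / vB N + 1)) * (1 / 2) ^ (vB N / 2) := by
    have h1 : (1 : ℝ) ≤ 2 ^ (6 * (p + 1) * (s + 1) * (k + t / vB N + 1)) :=
      one_le_pow₀ (by norm_num)
    have h2 : (0 : ℝ) ≤ (1 / 2) ^ (vB N / 2) := by positivity
    calc (1 / 2 : ℝ) ^ (vB N / 2) = 1 * (1 / 2) ^ (vB N / 2) := (one_mul _).symm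
      _ ≤ _ := mul_le_mul_of_nonneg_right h1 h2
  refine hCme hInv hJrc hTr hCnd hPow hNma hJma (vm N) p r
    (2 ^ ix N * (6 * (p + 1) * k ^ 2) ^ 80) Ω (slice LG (vm N)) X
    (fun y ρ ω => (M y ρ).Acc (tape (w ω)))
    (2 ^ (6 * (p + 1) * (s + 1) * (k + t / vB N + 1)) * (1 / 2) ^ (vB N / 2))
    (by positivity) ((hDua hPsh).2 (vm N) _ hm hD9) ?_ ?_ (MaG_e _ _ _ hE) ?_ ?_
  · intro S hS
    exact (hchi S hS).trans (mul_le_mul_of_nonneg_right he1 (Nat.cast_nonneg _))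
  · intro y ρ S hS
    exact hMach k s (6 * (p + 1)) Q (fun c => M y (ρ c)) hQ (fun c x U => hmot y (ρ c) x U) S
      hS.le (Finset.card_pos.1 (lt_of_le_of_lt (Nat.zero_le _) hS))
  · intro ω hω
    rw [← hsl LG ω] at hω
    exact hyes (w ω) hω
  · intro ω hω y
    rw [← hsl LG ω] at hω
    exact hno (w ω) hω y

end Pool.Agent.Lib.MP_ff3ed7_lc.MH
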