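import Pool.Agent.Lib.MP_ff3ed7_lc.MH.SpecF

/-!
# PROJECT MH, module Nma: numerical inequality
-/

set_option autoImplicit false

open Finset

namespace Pool.Agent.Lib.MP_ff3ed7_lc.MH

open Pool.Agent.Lib.MP_ff3ed7_lc.PLT
open Pool.Agent.Lib.MP_ff3ed7_lc.B (JR HasSDual)

private lemma Nma_main (m p : ℕ) (e : ℝ) (_he : 0 ≤ e)
    (hee : e ≤ (1 / 2) ^ (2 * m + 20 * (p + 1) + 10)) :
    (22 : ℝ) ^ (p + 1) * (2 ^ p * (1 / 3) ^ (6 * (p + 1))) + 4 * (1 / 128) ^ (p + 1) * 2 ^ p +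
    (1 + 22 ^ (p + 1) + 4 * (1 / 128) ^ (p + 1)) * (2 ^ p * (2 * (2 ^ m * e))) <
      (2 / 3) ^ (6 * (p + 1)) := by
  have ha : (0 : ℝ) < (64 / 729) ^ p := by positivity
  -- the right side
  have hR : ((2 : ℝ) / 3) ^ (6 * (p + 1)) = 64 / 729 * (64 / 729) ^ p := by
    rw [pow_mul, pow_succ]
    norm_num
    ring
  -- the first term
  have h1 : (22 : ℝ) ^ (p + 1) * (2 ^ p * (1 / 3) ^ (6 * (p + 1))) ≤ 22 / 729 * (64 / 729) ^ p := by
    have e1 : (22 : ℝ) ^ (p + 1) * (2 ^ p * (1 / 3) ^ (6 * (p + 1))) =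
        22 / 729 * (44 / 729) ^ p := by
      have e2 : ((44 : ℝ) / 729) ^ p = 22 ^ p * 2 ^ p * (1 / 729) ^ p := by
        rw [← mul_pow, ← mul_pow]
        norm_num
      have e3 : ((1 : ℝ) / 3) ^ (6 * (p + 1)) = (1 / 729) ^ p * (1 / 729) := by
        rw [pow_mul, pow_succ]
        norm_num
      rw [e2, e3, pow_succ]
      ring
    rw [e1]
    have e4 : ((44 : ℝ) / 729) ^ p ≤ (64 / 729) ^ p :=
      pow_le_pow_left₀ (by norm_num) (by norm_num) p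
    linarith
  -- the second term
  have h2 : 4 * ((1 : ℝ) / 128) ^ (p + 1) * 2 ^ p ≤ 1 / 32 * (64 / 729) ^ p := by
    have e1 : 4 * ((1 : ℝ) / 128) ^ (p + 1) * 2 ^ p = 1 / 32 * (1 / 64) ^ p := by
      have e2 : ((1 : ℝ) / 64) ^ p = (1 / 128) ^ p * 2 ^ p := by
        rw [← mul_pow]
        norm_num
      rw [e2, pow_succ]
      ring
    rw [e1]
    have e4 : ((1 : ℝ) / 64) ^ p ≤ (64 / 729) ^ p :=
      pow_le_pow_left₀ (by norm_num) (by norm_num) p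
    linarith
  -- the third term
  have h3 : (1 + (22 : ℝ) ^ (p + 1) + 4 * (1 / 128) ^ (p + 1)) * (2 ^ p * (2 * (2 ^ m * e))) ≤
      1 / 1000000 * (64 / 729) ^ p := by
    have e1 : 1 + (22 : ℝ) ^ (p + 1) + 4 * (1 / 128) ^ (p + 1) ≤ 3 * 22 ^ (p + 1) := by
      have f1 : (1 : ℝ) ≤ 22 ^ (p + 1) := one_le_pow₀ (by norm_num)
      have f2 : ((1 : ℝ) / 128) ^ (p + 1) ≤ 1 / 128 := by
        rw [pow_succ]
        have f3 : ((1 : ℝ) / 128) ^ p ≤ 1 := pow_le_one₀ (by norm_num) (by norm_num)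
        linarith
      linarith
    have e2 : 2 ^ m * e ≤ (1 / 2 : ℝ) ^ (20 * (p + 1) + 10) := by
      have f1 : (1 / 2 : ℝ) ^ (2 * m + 20 * (p + 1) + 10) =
          (1 / 2) ^ m * ((1 / 2) ^ m * (1 / 2) ^ (20 * (p + 1) + 10)) := by
        rw [← pow_add, ← pow_add]
        congr 1
        ring
      have f2 : (2 : ℝ) ^ m * (1 / 2) ^ m = 1 := by
        rw [← mul_pow]
        norm_num
      have f3 : (0 : ℝ) ≤ (1 / 2) ^ (20 * (p + 1) + 10) := by positivity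
      have f4 : ((1 : ℝ) / 2) ^ m ≤ 1 := pow_le_one₀ (by norm_num) (by norm_num)
      calc 2 ^ m * e ≤ 2 ^ m * ((1 / 2) ^ m * ((1 / 2) ^ m * (1 / 2) ^ (20 * (p + 1) + 10))) := by
            rw [← f1]
            exact mul_le_mul_of_nonneg_left hee (by positivity)
        _ = (2 ^ m * (1 / 2) ^ m) * ((1 / 2) ^ m * (1 / 2) ^ (20 * (p + 1) + 10)) := by ring
        _ = (1 / 2) ^ m * (1 / 2) ^ (20 * (p + 1) + 10) := by rw [f2, one_mul]
        _ ≤ 1 * (1 / 2) ^ (20 * (p + 1) + 10) := mul_le_mul_of_nonneg_right f4 f3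
        _ = (1 / 2) ^ (20 * (p + 1) + 10) := one_mul _
    have e3 : (1 / 2 : ℝ) ^ (20 * (p + 1) + 10) = 1 / 2 ^ 30 * (1 / 2 ^ 20) ^ p := by
      rw [show 20 * (p + 1) + 10 = 20 * p + 30 by ring, pow_add, pow_mul]
      norm_num
      ring
    have e5 : (22 : ℝ) ^ p * 2 ^ p * (1 / 2 ^ 20) ^ p ≤ (64 / 729) ^ p := by
      rw [← mul_pow, ← mul_pow]
      exact pow_le_pow_left₀ (by norm_num) (by norm_num) p
    calc (1 + (22 : ℝ) ^ (p + 1) + 4 * (1 / 128) ^ (p + 1)) * (2 ^ p * (2 * (2 ^ m * e)))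
        ≤ (3 * 22 ^ (p + 1)) * (2 ^ p * (2 * (1 / 2 ^ 30 * (1 / 2 ^ 20) ^ p))) := by
          rw [← e3]
          apply mul_le_mul e1 _ (by positivity) (by positivity)
          exact mul_le_mul_of_nonneg_left (mul_le_mul_of_nonneg_left e2 (by norm_num))
            (by positivity)
      _ = 132 / 2 ^ 30 * (22 ^ p * 2 ^ p * (1 / 2 ^ 20) ^ p) := by
          rw [pow_succ]
          ring
      _ ≤ 132 / 2 ^ 30 * (64 / 729) ^ p := mul_le_mul_of_nonneg_left e5 (by norm_num)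
      _ ≤ 1 / 1000000 * (64 / 729) ^ p := mul_le_mul_of_nonneg_right (by norm_num) ha.le
  rw [hR]
  have h4 : (22 / 729 + 1 / 32 + 1 / 1000000 : ℝ) * (64 / 729) ^ p < 64 / 729 * (64 / 729) ^ p :=
    mul_lt_mul_of_pos_right (by norm_num) ha
  linarith

theorem tNma : S_Nma := by
  intro m p e he hee
  exact Nma_main m p e he hee

end Pool.Agent.Lib.MP_ff3ed7_lc.MH
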