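import Pool.Agent.Lib.MP_ff3ed7_lc.MH.SpecN

/-!
# PROJECT MH, part N: lower bound for `ix N`
-/

set_option autoImplicit false

open Finset

namespace Pool.Agent.Lib.MP_ff3ed7_lc.MH

open Pool.Agent.Lib.MP_ff3ed7_lc.PLT
open Pool.Agent.Lib.MP_ff3ed7_lc.B (JR HasSDual)

private theorem NuA_core (a b c N W i : ℕ) (hN : N < 2 ^ (c * i + c))
    (h : 2 ^ i ≤ 2 ^ a * W ^ b) : N < 2 ^ (a * c + c) * W ^ (b * c) := by
  calc N < 2 ^ (c * i + c) := hN
    _ = (2 ^ i) ^ c * 2 ^ c := by rw [pow_add, mul_comm c i, pow_mul]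
    _ ≤ (2 ^ a * W ^ b) ^ c * 2 ^ c := Nat.mul_le_mul_right _ (Nat.pow_le_pow_left h c)
    _ = 2 ^ (a * c + c) * W ^ (b * c) := by
        rw [mul_pow, ← pow_mul, ← pow_mul, pow_add, mul_right_comm]

private theorem NuA_fin (a b c A B N W i : ℕ) (hA : a * c + c ≤ A) (hB : b * c = B)
    (hN : N < 2 ^ (c * i + c)) (h : 2 ^ i ≤ 2 ^ a * W ^ b) : N < 2 ^ A * W ^ B := by
  subst hB
  exact (NuA_core a b c N W i hN h).trans_le
    (Nat.mul_le_mul_right _ (Nat.pow_le_pow_right (by norm_num) hA))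

theorem tNuA : S_NuA := by
  intro N W h
  by_contra hc
  rw [not_lt] at hc
  have hN : N < 2 ^ (160 * ix N + 160) := by
    have h1 : N < 2 ^ (Nat.log 2 N).succ := Nat.lt_pow_succ_log_self (by norm_num) N
    refine h1.trans_le (Nat.pow_le_pow_right (by norm_num) ?_)
    unfold ix
    omega
  exact lt_irrefl _ ((NuA_fin 230 160 160 37000 25600 N W (ix N) (by norm_num) (by norm_num)
    hN hc).trans h)

end Pool.Agent.Lib.MP_ff3ed7_lc.MH
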