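import Pool.Agent.Lib.MP_ff3ed7_lc.MH.SpecN

/-!
# PROJECT MH, module NuB: first group of numerical inequalities
-/

set_option autoImplicit false

open Finset

namespace Pool.Agent.Lib.MP_ff3ed7_lc.MH

open Pool.Agent.Lib.MP_ff3ed7_lc.PLT
open Pool.Agent.Lib.MP_ff3ed7_lc.B (JR HasSDual)

private theorem NuB_tau (N k p s t : ℕ) : t / N + 1 ≤ cst N k p s t := by
  unfold cst
  exact Nat.le_mul_of_pos_left _ (by positivity)

private theorem NuB_mono (a b : ℕ) (h : a ≤ b) : 2 ^ a ≤ 2 ^ b :=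
  Nat.pow_le_pow_right (by norm_num) h

private theorem NuB_lt (a i W e : ℕ) (hW : 1 ≤ W) (h : 2 ^ a * W ^ e < 2 ^ i) : a < i := by
  have h1 : 2 ^ a ≤ 2 ^ a * W ^ e := Nat.le_mul_of_pos_right _ (Nat.pow_pos hW)
  exact (Nat.pow_lt_pow_iff_right (by norm_num)).1 (lt_of_le_of_lt h1 h)

private theorem NuB_sq (a e i j W τ : ℕ) (ha : 54 ≤ a) (he : 4 ≤ e) (hW : 1 ≤ W) (hτ : τ ≤ W)
    (hj : i ≤ 2 * (i - j)) (h : 2 ^ a * W ^ e < 2 ^ i) : 2 ^ 27 * τ ^ 2 ≤ 2 ^ (i - j) := by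
  have h1 : (2 ^ 27 * τ ^ 2) ^ 2 ≤ (2 ^ (i - j)) ^ 2 := by
    calc (2 ^ 27 * τ ^ 2) ^ 2 = 2 ^ 54 * τ ^ 4 := by
          rw [mul_pow, ← pow_mul, ← pow_mul]
      _ ≤ 2 ^ a * W ^ e := by
          refine Nat.mul_le_mul (Nat.pow_le_pow_right (by norm_num) ha) ?_
          exact (Nat.pow_le_pow_left hτ 4).trans (Nat.pow_le_pow_right hW he)
      _ ≤ 2 ^ i := h.le
      _ ≤ 2 ^ ((i - j) * 2) := Nat.pow_le_pow_right (by norm_num) (by omega)
      _ = (2 ^ (i - j)) ^ 2 := pow_mul _ _ _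
  exact (Nat.pow_le_pow_iff_left (by norm_num)).1 h1

private theorem NuB_last (i j τ : ℕ) (hj : j ≤ i) (h : 2 ^ 27 * τ ^ 2 ≤ 2 ^ (i - j)) :
    12 * 2304 ^ 2 * τ ^ 2 * 2 ^ (j + 1) ≤ 2 ^ i := by
  calc 12 * 2304 ^ 2 * τ ^ 2 * 2 ^ (j + 1) ≤ 2 ^ 26 * τ ^ 2 * 2 ^ (j + 1) := by
        refine Nat.mul_le_mul_right _ (Nat.mul_le_mul_right _ (by norm_num))
    _ = (2 ^ 27 * τ ^ 2) * 2 ^ j := by ring
    _ ≤ 2 ^ (i - j) * 2 ^ j := Nat.mul_le_mul_right _ h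
    _ = 2 ^ i := by rw [← pow_add]; congr 1; omega

theorem tNuB : S_NuB := by
  intro N k p s t h
  have hτ := NuB_tau N k p s t
  have hW : 1 ≤ cst N k p s t := le_trans (Nat.le_add_left 1 (t / N)) hτ
  generalize cst N k p s t = W at h hτ hW
  have hi : 230 < ix N := NuB_lt _ _ _ _ hW h
  have hix : ix N = Nat.log 2 N / 8 / 20 := rfl
  have hN : N ≠ 0 := by
    rintro rfl
    rw [hix, Nat.log_zero_right] at hi
    omega
  refine ⟨?_, ?_, ?_, ?_, ?_, ?_⟩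
  · have h1 : 320 ≤ Nat.log 2 N := by omega
    exact le_trans (NuB_mono _ _ h1) (Nat.pow_log_le_self 2 hN)
  · unfold vm
    rw [← pow_mul]
    exact Nat.pow_le_pow_right (by norm_num) (by omega)
  · calc 1000 ≤ 2 ^ 10 := by norm_num
      _ ≤ 2 ^ ix N := Nat.pow_le_pow_right (by norm_num) (by omega)
  · unfold vm
    exact Nat.pow_le_pow_right (by norm_num) (by omega)
  · unfold vm
    exact Nat.pow_le_pow_right (by norm_num) (by omega)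
  · refine NuB_last _ _ _ (by omega) ?_
    exact NuB_sq 230 160 _ _ W _ (by norm_num) (by norm_num) hW hτ (by omega) h

end Pool.Agent.Lib.MP_ff3ed7_lc.MH
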