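import Pool.Agent.Lib.MP_ff3ed7_lc.MH.SpecN

set_option autoImplicit false

open Finset

namespace Pool.Agent.Lib.MP_ff3ed7_lc.MH

open Pool.Agent.Lib.MP_ff3ed7_lc.PLT
open Pool.Agent.Lib.MP_ff3ed7_lc.B (JR HasSDual)

/-- The consequences of the hypothesis for the exponents. -/
private theorem NuC_exp (i W : ℕ) (hW : 1 ≤ W) (h : 2 ^ 230 * W ^ 160 < 2 ^ i) :
    230 < i ∧ 2 ^ 16 * W ≤ 2 ^ i := by
  refine ⟨?_, ?_⟩
  · have h1 : 2 ^ 230 * 1 ≤ 2 ^ 230 * W ^ 160 :=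
      Nat.mul_le_mul_left _ (Nat.one_le_pow _ _ hW)
    rw [Nat.mul_one] at h1
    exact (Nat.pow_lt_pow_iff_right (by norm_num : 1 < 2)).1 (lt_of_le_of_lt h1 h)
  · refine le_trans (Nat.mul_le_mul ?_ ?_) (le_of_lt h)
    · exact Nat.pow_le_pow_right (by norm_num) (by norm_num)
    · exact Nat.le_self_pow (by norm_num) W

/-- The quotient `t / B`. -/
private theorem NuC_quo (N t B P : ℕ) (hN : 0 < N) (h : N ≤ B * (2048 * P)) :
    t / B ≤ 2048 * (t / N + 1) * P := by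
  apply Nat.div_le_of_le_mul
  have h1 : t < N * (t / N + 1) := Nat.lt_mul_div_succ t hN
  calc t ≤ N * (t / N + 1) := le_of_lt h1
    _ ≤ B * (2048 * P) * (t / N + 1) := Nat.mul_le_mul_right _ h
    _ = B * (2048 * (t / N + 1) * P) := by ring

/-- The arithmetic of the second part, with the product of the costs split. -/
private theorem NuC_sec (k p s τ q P m W b : ℕ) (hτ : 1 ≤ τ) (hP : 1 ≤ P) (hm : m ≤ P)
    (hq : q ≤ 2048 * τ * P) (hW : W = (k + 1) * (p + 1) * (s + 1) * τ)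
    (hb : 2 ^ 16 * W * P ≤ b) :
    6 * (p + 1) * (s + 1) * (k + q + 1) + (2 * m + 20 * (p + 1) + 10) ≤ b := by
  have h1 : k + q + 1 ≤ 2049 * ((k + 1) * τ * P) := by
    have h2 : (k + 1) * 1 * 1 ≤ (k + 1) * τ * P := Nat.mul_le_mul (Nat.mul_le_mul_left _ hτ) hP
    have h3 : 1 * (τ * P) ≤ (k + 1) * (τ * P) := Nat.mul_le_mul_right _ (by omega)
    have h4 : (k + 1) * (τ * P) = (k + 1) * τ * P := by ring
    have h5 : 2048 * τ * P = 2048 * (τ * P) := by ring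
    rw [h5] at hq
    rw [h4] at h3
    omega
  have h6 : 6 * (p + 1) * (s + 1) * (k + q + 1) ≤ 12294 * (W * P) := by
    calc 6 * (p + 1) * (s + 1) * (k + q + 1)
        ≤ 6 * (p + 1) * (s + 1) * (2049 * ((k + 1) * τ * P)) := Nat.mul_le_mul_left _ h1
      _ = 12294 * (W * P) := by rw [hW]; ring
  have hps : 1 ≤ (k + 1) * (s + 1) * τ * P := by
    have h7 : 1 * 1 * 1 * 1 ≤ (k + 1) * (s + 1) * τ * P :=
      Nat.mul_le_mul (Nat.mul_le_mul (Nat.mul_le_mul (by omega) (by omega)) hτ) hP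
    simpa using h7
  have h8 : (p + 1) ≤ W * P := by
    calc p + 1 = (p + 1) * 1 := by ring
      _ ≤ (p + 1) * ((k + 1) * (s + 1) * τ * P) := Nat.mul_le_mul_left _ hps
      _ = W * P := by rw [hW]; ring
  have hW1 : 1 ≤ W := by
    have h9 : 1 * 1 * 1 * 1 ≤ (k + 1) * (p + 1) * (s + 1) * τ :=
      Nat.mul_le_mul (Nat.mul_le_mul (Nat.mul_le_mul (by omega) (by omega)) (by omega)) hτ
    rw [hW]
    simpa using h9
  have h10 : P ≤ W * P := by
    calc P = 1 * P := by ring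
      _ ≤ W * P := Nat.mul_le_mul_right _ hW1
  have h11 : 2 ^ 16 * W * P = 65536 * (W * P) := by ring
  rw [h11] at hb
  omega

theorem tNuC : S_NuC := by
  intro N k p s t h
  have hW1 : 1 ≤ cst N k p s t := by
    have h9 : 1 * 1 * 1 * 1 ≤ (k + 1) * (p + 1) * (s + 1) * (t / N + 1) :=
      Nat.mul_le_mul (Nat.mul_le_mul (Nat.mul_le_mul (Nat.le_add_left 1 _) (Nat.le_add_left 1 _))
        (Nat.le_add_left 1 _)) (Nat.le_add_left 1 _)
    unfold cst
    simpa using h9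
  obtain ⟨hi, hWi⟩ := NuC_exp _ _ hW1 h
  clear h
  obtain ⟨i, hidef⟩ : ∃ i, i = ix N := ⟨_, rfl⟩
  obtain ⟨l, hl⟩ : ∃ l, l = Nat.log 2 N := ⟨_, rfl⟩
  obtain ⟨μ, hμ⟩ : ∃ μ, μ = l / 8 := ⟨_, rfl⟩
  have hiμ : i = μ / 20 := by rw [hidef, hμ, hl]; rfl
  rw [← hidef] at hi hWi ⊢
  have h20 : 20 * i ≤ μ := by omega
  have h8 : 8 * μ ≤ l := by omega
  have hN0 : N ≠ 0 := by
    intro h0
    rw [h0, Nat.log_zero_right] at hl
    omega
  have hNl : N < 2 ^ (l + 1) := by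
    rw [hl]
    exact Nat.lt_pow_succ_log_self (by norm_num) N
  have hvm : vm N = 2 ^ μ := by unfold vm; rw [hμ, hl]
  have hvp : vp N = 2 ^ (3 * μ) := by unfold vp; rw [hμ, hl]
  have hvB : vB N = 2 ^ (l - 10 - 3 * μ) := by unfold vB; rw [hμ, hl]
  have hP1 : 1 ≤ 2 ^ (3 * μ) := Nat.one_le_two_pow
  have hNB : N ≤ vB N * (2048 * vp N) := by
    rw [hvB, hvp]
    have h2 : l + 1 = (l - 10 - 3 * μ) + (11 + 3 * μ) := by omega
    have h3 : (2 : ℕ) ^ (l + 1) = 2 ^ (l - 10 - 3 * μ) * (2048 * 2 ^ (3 * μ)) := by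
      conv_lhs => rw [h2]
      rw [pow_add 2 (l - 10 - 3 * μ), pow_add 2 11]
      norm_num
    rw [← h3]
    exact le_of_lt hNl
  have hq : t / vB N ≤ 2048 * (t / N + 1) * vp N :=
    NuC_quo N t (vB N) (vp N) (Nat.pos_of_ne_zero hN0) hNB
  refine ⟨?_, ?_⟩
  · have h4 : 2 ^ i ≤ vp N := by
      rw [hvp]
      exact Nat.pow_le_pow_right (by norm_num) (by omega)
    have h5 : 1 * vp N ≤ (t / N + 1) * vp N := Nat.mul_le_mul_right _ (Nat.le_add_left 1 _)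
    have h6 : 2048 * (t / N + 1) * vp N = 2048 * ((t / N + 1) * vp N) := by ring
    have h7 : 2304 * (t / N + 1) * vp N = 2304 * ((t / N + 1) * vp N) := by ring
    rw [h6] at hq
    rw [h7]
    omega
  · refine NuC_sec k p s (t / N + 1) (t / vB N) (vp N) (vm N) (cst N k p s t) (vB N / 2)
      (Nat.le_add_left 1 _) (by rw [hvp]; exact hP1) ?_ hq rfl ?_
    · rw [hvm, hvp]
      exact Nat.pow_le_pow_right (by norm_num) (by omega)
    · have h8' : vB N = 2 ^ (l - 11 - 3 * μ) * 2 := by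
        rw [hvB, ← pow_succ]
        congr 1
        omega
      rw [h8', Nat.mul_div_cancel _ (by norm_num : 0 < 2), hvp]
      calc 2 ^ 16 * cst N k p s t * 2 ^ (3 * μ) ≤ 2 ^ i * 2 ^ (3 * μ) :=
            Nat.mul_le_mul_right _ hWi
        _ = 2 ^ (i + 3 * μ) := by rw [pow_add]
        _ ≤ 2 ^ (l - 11 - 3 * μ) := Nat.pow_le_pow_right (by norm_num) (by omega)

end Pool.Agent.Lib.MP_ff3ed7_lc.MH
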