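import Pool.Agent.Lib.MP_ff3ed7_lc.MH.SpecN

/-!
PROJECT MH, part N, module NuD (helper92): third group of numerical inequalities.
-/

set_option autoImplicit false

open Finset

namespace Pool.Agent.Lib.MP_ff3ed7_lc.MH

open Pool.Agent.Lib.MP_ff3ed7_lc.PLT
open Pool.Agent.Lib.MP_ff3ed7_lc.B (JR HasSDual)

private theorem NuD_six : (6 : ℕ) ^ 80 ≤ 2 ^ 208 := by
  have h : (6 : ℕ) ^ (10 * 8) ≤ 2 ^ (26 * 8) := by
    rw [pow_mul, pow_mul]
    exact Nat.pow_le_pow_left (by norm_num) 8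
  exact h

private theorem NuD_core (i W X : ℕ) (hX : X ≤ 2 ^ 208 * W ^ 160) (h : 2 ^ 230 * W ^ 160 < 2 ^ i) :
    2 ^ i * X * 2 ^ 22 ≤ 2 ^ (2 * i) := by
  have e1 : (2 : ℕ) ^ 230 = 2 ^ 208 * 2 ^ 22 := pow_add 2 208 22
  have e2 : X * 2 ^ 22 ≤ 2 ^ i := by
    calc X * 2 ^ 22 ≤ 2 ^ 208 * W ^ 160 * 2 ^ 22 := Nat.mul_le_mul_right _ hX
      _ = 2 ^ 230 * W ^ 160 := by
        rw [e1, Nat.mul_right_comm]
      _ ≤ 2 ^ i := h.le
  calc 2 ^ i * X * 2 ^ 22 = 2 ^ i * (X * 2 ^ 22) := Nat.mul_assoc _ _ _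
    _ ≤ 2 ^ i * 2 ^ i := Nat.mul_le_mul_left _ e2
    _ = 2 ^ (2 * i) := by rw [two_mul, pow_add]

theorem tNuD : S_NuD := by
  intro N k p s t h
  have hWdef : cst N k p s t = (k + 1) * (p + 1) * ((s + 1) * (t / N + 1)) := by
    unfold cst
    rw [Nat.mul_assoc]
  generalize cst N k p s t = W at h hWdef
  have a1 : (k + 1) * (p + 1) ≤ W := by
    rw [hWdef]
    exact Nat.le_mul_of_pos_right _ (Nat.mul_pos (Nat.succ_pos _) (Nat.succ_pos _))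
  have a2 : p + 1 ≤ W := (Nat.le_mul_of_pos_left _ (Nat.succ_pos k)).trans a1
  have hW1 : 1 ≤ W := (Nat.succ_le_succ (Nat.zero_le p)).trans a2
  have a3 : (p + 1) * k ^ 2 ≤ W ^ 2 := by
    calc (p + 1) * k ^ 2 ≤ (p + 1) ^ 2 * (k + 1) ^ 2 :=
          Nat.mul_le_mul (Nat.le_self_pow two_ne_zero _) (Nat.pow_le_pow_left (Nat.le_succ k) 2)
      _ = ((k + 1) * (p + 1)) ^ 2 := by ring
      _ ≤ W ^ 2 := Nat.pow_le_pow_left a1 2
  have a4 : (6 * (p + 1) * k ^ 2) ^ 80 ≤ 2 ^ 208 * W ^ 160 := by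
    calc (6 * (p + 1) * k ^ 2) ^ 80 = 6 ^ 80 * ((p + 1) * k ^ 2) ^ 80 := by
          rw [Nat.mul_assoc, Nat.mul_pow]
      _ ≤ 2 ^ 208 * (W ^ 2) ^ 80 := Nat.mul_le_mul NuD_six (Nat.pow_le_pow_left a3 80)
      _ = 2 ^ 208 * W ^ 160 := by rw [← pow_mul]
  have hlog : Nat.log 2 (vm N) = Nat.log 2 N / 8 := by
    unfold vm
    exact Nat.log_pow (by norm_num) _
  have hlev : levB (vm N) = (Nat.log 2 N / 8 - 36) / 10 := by
    unfold levB
    rw [hlog]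
  have hpw : pw 61 10 (vm N) = 2 ^ ((Nat.log 2 N / 8 - 61) / 10) := by
    unfold pw
    rw [hlog]
  have hix : ix N = Nat.log 2 N / 8 / 20 := rfl
  have hi230 : 230 < ix N := by
    by_contra hcon
    have h1 : ix N ≤ 230 := not_lt.mp hcon
    have h2 : 2 ^ ix N ≤ 2 ^ 230 := Nat.pow_le_pow_right (by norm_num) h1
    have h3 : 2 ^ 230 ≤ 2 ^ 230 * W ^ 160 := Nat.le_mul_of_pos_right _ (Nat.pow_pos hW1)
    exact absurd (lt_of_lt_of_le h (h2.trans h3)) (lt_irrefl _)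
  have core := NuD_core (ix N) W _ a4 h
  rw [hlev, hpw]
  generalize (6 * (p + 1) * k ^ 2) ^ 80 = X at core
  generalize Nat.log 2 N / 8 = mu at hix
  generalize ix N = i at hix hi230 core h
  have b1 : 2 * i - 4 ≤ (mu - 36) / 10 := by omega
  have b2 : 2 * i - 7 ≤ (mu - 61) / 10 := by omega
  have b3 : W < 2 ^ i := by
    refine lt_of_le_of_lt ?_ h
    calc W ≤ W ^ 160 := Nat.le_self_pow (by norm_num) W
      _ ≤ 2 ^ 230 * W ^ 160 := Nat.le_mul_of_pos_left _ (Nat.pow_pos (by norm_num))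
  refine ⟨?_, ?_, ?_⟩
  · calc p + 1 ≤ W := a2
      _ ≤ 2 ^ i := b3.le
      _ ≤ 2 ^ ((mu - 36) / 10) := Nat.pow_le_pow_right (by norm_num) (by omega)
  · have c1 : 2 ^ i * X * 2 ^ 4 ≤ 2 ^ (2 * i - 4) * 2 ^ 4 := by
      calc 2 ^ i * X * 2 ^ 4 ≤ 2 ^ i * X * 2 ^ 22 :=
            Nat.mul_le_mul_left _ (Nat.pow_le_pow_right (by norm_num) (by norm_num))
        _ ≤ 2 ^ (2 * i) := core
        _ = 2 ^ (2 * i - 4) * 2 ^ 4 := by
          rw [← pow_add]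
          congr 1
          omega
    exact (Nat.le_of_mul_le_mul_right c1 (by norm_num)).trans
      (Nat.pow_le_pow_right (by norm_num) b1)
  · have c1 : 9 * (2 ^ i * X) * 2 ^ 7 ≤ 2 ^ (2 * i - 7) * 2 ^ 7 := by
      calc 9 * (2 ^ i * X) * 2 ^ 7 ≤ 2 ^ i * X * 2 ^ 22 := by
            have : (9 * 2 ^ 7 : ℕ) ≤ 2 ^ 22 := by norm_num
            calc 9 * (2 ^ i * X) * 2 ^ 7 = 2 ^ i * X * (9 * 2 ^ 7) := by ring
              _ ≤ 2 ^ i * X * 2 ^ 22 := Nat.mul_le_mul_left _ this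
        _ ≤ 2 ^ (2 * i) := core
        _ = 2 ^ (2 * i - 7) * 2 ^ 7 := by
          rw [← pow_add]
          congr 1
          omega
    exact (Nat.le_of_mul_le_mul_right c1 (by norm_num)).trans
      (Nat.pow_le_pow_right (by norm_num) b2)

end Pool.Agent.Lib.MP_ff3ed7_lc.MH
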