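import Pool.Agent.Lib.MP_ff3ed7_lc.MH.SpecL

/-!
# PROJECT MH, module NuT: the numbers for the table
-/

set_option autoImplicit false

open Finset

namespace Pool.Agent.Lib.MP_ff3ed7_lc.MH

open Pool.Agent.Lib.MP_ff3ed7_lc.PLT
open Pool.Agent.Lib.MP_ff3ed7_lc.SQ (dst)

private theorem NuT_fac (n : ℕ) : n ^ n ≤ 3 ^ n * n.factorial := by
  have h := Real.pow_div_factorial_le_exp (n : ℝ) (Nat.cast_nonneg n) n
  have h2 : Real.exp (n : ℝ) ≤ 3 ^ n := by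
    have h0 : Real.exp (n : ℝ) = Real.exp 1 ^ n := by
      rw [← Real.exp_nat_mul, mul_one]
    rw [h0]
    exact pow_le_pow_left₀ (Real.exp_pos 1).le Real.exp_one_lt_three.le n
  have h3 : (0 : ℝ) < n.factorial := by exact_mod_cast n.factorial_pos
  rw [div_le_iff₀ h3] at h
  have h4 : ((n : ℝ)) ^ n ≤ 3 ^ n * n.factorial := h.trans (mul_le_mul_of_nonneg_right h2 h3.le)
  exact_mod_cast h4

private theorem NuT_eq (c τ P w n : ℕ) :
    3 ^ n * w ^ n * (P ^ 2 * 4 ^ n * (c * τ * P) ^ (2 * n)) =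
      (12 * c ^ 2 * τ ^ 2 * w) ^ n * P ^ (2 * n + 2) := by
  have h : (12 : ℕ) ^ n = 3 ^ n * 4 ^ n := by rw [show (12 : ℕ) = 3 * 4 from rfl, mul_pow]
  rw [mul_pow (12 * c ^ 2 * τ ^ 2), mul_pow (12 * c ^ 2), mul_pow 12, h]
  ring

private theorem NuT_one (c P n V τ w : ℕ) (hn : 1 ≤ n) (hV : V + n ≤ c * τ * P)
    (hτ : 12 * c ^ 2 * τ ^ 2 * w ≤ n) :
    w ^ n * (n.factorial * (P * 2 ^ n * (V + n).choose n) ^ 2) ≤ P ^ (2 * n + 2) := by
  have h1 : n.factorial * (V + n).choose n ≤ (V + n) ^ n := by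
    rw [← Nat.descFactorial_eq_factorial_mul_choose]
    exact Nat.descFactorial_le_pow _ _
  have h2 : n.factorial * (n.factorial * (P * 2 ^ n * (V + n).choose n) ^ 2) ≤
      P ^ 2 * 4 ^ n * (c * τ * P) ^ (2 * n) := by
    have e1 : n.factorial * (n.factorial * (P * 2 ^ n * (V + n).choose n) ^ 2) =
        P ^ 2 * 4 ^ n * (n.factorial * (V + n).choose n) ^ 2 := by
      have e2 : (4 : ℕ) ^ n = (2 ^ n) ^ 2 := by
        rw [← pow_mul, mul_comm, pow_mul]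
        norm_num
      rw [e2]
      ring
    rw [e1]
    refine Nat.mul_le_mul_left _ ?_
    calc (n.factorial * (V + n).choose n) ^ 2 ≤ ((V + n) ^ n) ^ 2 := Nat.pow_le_pow_left h1 2
      _ = (V + n) ^ (2 * n) := by rw [← pow_mul, mul_comm]
      _ ≤ _ := Nat.pow_le_pow_left hV _
  have hpos : 0 < n ^ n := Nat.pow_pos (by omega)
  refine Nat.le_of_mul_le_mul_left ?_ hpos
  calc n ^ n * (w ^ n * (n.factorial * (P * 2 ^ n * (V + n).choose n) ^ 2))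
      ≤ (3 ^ n * n.factorial) * (w ^ n * (n.factorial * (P * 2 ^ n * (V + n).choose n) ^ 2)) :=
        Nat.mul_le_mul_right _ (NuT_fac n)
    _ = 3 ^ n * w ^ n * (n.factorial * (n.factorial * (P * 2 ^ n * (V + n).choose n) ^ 2)) := by
        ring
    _ ≤ 3 ^ n * w ^ n * (P ^ 2 * 4 ^ n * (c * τ * P) ^ (2 * n)) := Nat.mul_le_mul_left _ h2
    _ = (12 * c ^ 2 * τ ^ 2 * w) ^ n * P ^ (2 * n + 2) := NuT_eq c τ P w n
    _ ≤ n ^ n * P ^ (2 * n + 2) := Nat.mul_le_mul_right _ (Nat.pow_le_pow_left hτ n)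

private theorem NuT_two (m P n w A : ℕ) (hP : P = m ^ 3) (hm : 2 ≤ m) (hw : m ≤ w ^ 40)
    (hn : 1000 ≤ n) (h3 : w ^ n * A ≤ P ^ (2 * n + 2)) :
    2 * m ^ n * A ^ 80 < P ^ (2 * n * 80) := by
  have hP1 : P ^ 160 = m ^ 480 := by rw [hP, ← pow_mul]
  have hP0 : 0 < P := by
    rw [hP]
    exact Nat.pow_pos (by omega)
  have h4 : m ^ (2 * n) * A ^ 80 ≤ P ^ (2 * n * 80) * m ^ 480 := by
    calc m ^ (2 * n) * A ^ 80 ≤ (w ^ 40) ^ (2 * n) * A ^ 80 :=
          Nat.mul_le_mul_right _ (Nat.pow_le_pow_left hw _)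
      _ = (w ^ n * A) ^ 80 := by
          have e : 40 * (2 * n) = n * 80 := by ring
          rw [mul_pow, ← pow_mul, ← pow_mul, e]
      _ ≤ (P ^ (2 * n + 2)) ^ 80 := Nat.pow_le_pow_left h3 _
      _ = P ^ (2 * n * 80) * P ^ 160 := by
          have e : (2 * n + 2) * 80 = 2 * n * 80 + 160 := by ring
          rw [← pow_mul, ← pow_add, e]
      _ = P ^ (2 * n * 80) * m ^ 480 := by rw [hP1]
  have h5 : 2 * m ^ 480 < m ^ n := by
    have a1 : 2 < m ^ 2 := by nlinarith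
    have a0 : 0 < m := by omega
    have a2 : 0 < m ^ 480 := pow_pos a0 480
    have a3 : 482 ≤ n := le_trans (by norm_num) hn
    calc 2 * m ^ 480 < m ^ 2 * m ^ 480 := Nat.mul_lt_mul_of_pos_right a1 a2
      _ = m ^ 482 := by rw [← pow_add]
      _ ≤ m ^ n := Nat.pow_le_pow_right a0 a3
  refine Nat.lt_of_mul_lt_mul_left (a := m ^ n) ?_
  calc m ^ n * (2 * m ^ n * A ^ 80) = 2 * (m ^ (2 * n) * A ^ 80) := by
        rw [two_mul n, pow_add]
        ring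
    _ ≤ 2 * (P ^ (2 * n * 80) * m ^ 480) := Nat.mul_le_mul_left _ h4
    _ = P ^ (2 * n * 80) * (2 * m ^ 480) := by
        rw [mul_left_comm]
    _ < P ^ (2 * n * 80) * m ^ n := Nat.mul_lt_mul_of_pos_left h5 (Nat.pow_pos hP0)
    _ = m ^ n * P ^ (2 * n * 80) := mul_comm _ _

theorem tNuT : S_NuT := by
  intro m P n V τ w hP hm hw hn hV hτ
  exact NuT_two m P n w _ hP hm hw hn (NuT_one 2304 P n V τ w (by omega) hV hτ)

end Pool.Agent.Lib.MP_ff3ed7_lc.MH
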