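import Pool.Agent.Lib.MP_ff3ed7_lc.MH.SpecN
set_option autoImplicit false
open Finset
namespace Pool.Agent.Lib.MP_ff3ed7_lc.MH
theorem tNuc : S_Nuc := by
  intro a1 a2 a3 a4 a5 a6 a7 a8 a9 a10 a11 a12 hL hA hB hC hD N k p s t h
  have h1 := hA N _ h
  obtain ⟨b1, b2, b3, b4, b5, b6⟩ := hB N k p s t h1
  obtain ⟨c1, c2⟩ := hC N k p s t h1
  obtain ⟨d1, d2, d3⟩ := hD N k p s t h1
  exact ⟨hL a1 a2 a3 a4 a5 a6 a7 a8 a9 a10 a11 a12 N t (2 ^ ix N) (t / N + 1)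
    (2 ^ (Nat.log 2 N / 8 / 40 + 1)) b1 b2 b3 b4 c1 b6, b5, c2, d1, d2, d3⟩
end Pool.Agent.Lib.MP_ff3ed7_lc.MH
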