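import Pool.Agent.Lib.MP_ff3ed7_lc.MH.SpecF

/-!
# PROJECT MH, part F: independent repetitions
-/

set_option autoImplicit false

open Finset

namespace Pool.Agent.Lib.MP_ff3ed7_lc.MH

open Pool.Agent.Lib.MP_ff3ed7_lc.PLT
open Pool.Agent.Lib.MP_ff3ed7_lc.B (JR HasSDual)

open Classical in
private theorem Pow_sum {α : Type} [Fintype α] (K : ℕ) (P : α → Prop) :
    (∑ a, if P a then (1 : ℝ) else 0) ^ K =
      ∑ ρ : Fin K → α, if ∀ c, P (ρ c) then (1 : ℝ) else 0 := by
  rw [← Fin.prod_const K (∑ a, if P a then (1 : ℝ) else 0), Fintype.prod_sum]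
  refine Finset.sum_congr rfl fun ρ _ => ?_
  by_cases h : ∀ c, P (ρ c)
  · rw [if_pos h]
    exact Finset.prod_eq_one fun c _ => if_pos (h c)
  · rw [if_neg h]
    push Not at h
    obtain ⟨c, hc⟩ := h
    exact Finset.prod_eq_zero (Finset.mem_univ c) (if_neg hc)

open Classical in
private theorem Pow_card {α : Type} [Fintype α] (P : α → Prop) :
    (Nat.card {a // P a} : ℝ) = ∑ a, if P a then (1 : ℝ) else 0 := by
  rw [Nat.card_eq_fintype_card, Fintype.card_subtype, Finset.sum_boole]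

theorem tPow : S_Pow := by
  intro r K P
  unfold prob
  rw [div_pow, Pow_card, Pow_sum]

end Pool.Agent.Lib.MP_ff3ed7_lc.MH
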