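import Pool.Agent.Lib.MP_ff3ed7_lc.MH.SpecN

/-!
# PROJECT MH, module SpG: the `SBP` and `PP` lower bounds for the language `hlang LG`
-/

set_option autoImplicit false

open Finset

namespace Pool.Agent.Lib.MP_ff3ed7_lc.MH

open Pool.Agent.Lib.MP_ff3ed7_lc.PLT
open Pool.Agent.Lib.MP_ff3ed7_lc.B (JR HasSDual)

private theorem SpG_e (a b c : ℕ) (h : a + c ≤ b) :
    (2 : ℝ) ^ a * (1 / 2) ^ b ≤ (1 / 2) ^ c := by
  have h1 : ((1 : ℝ) / 2) ^ b ≤ (1 / 2) ^ (a + c) :=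
    pow_le_pow_of_le_one (by norm_num) (by norm_num) h
  calc (2 : ℝ) ^ a * (1 / 2) ^ b ≤ (2 : ℝ) ^ a * (1 / 2) ^ (a + c) := by gcongr
    _ = ((2 : ℝ) * (1 / 2)) ^ a * (1 / 2) ^ c := by rw [pow_add, mul_pow]; ring
    _ = (1 / 2) ^ c := by norm_num

open Classical in
private theorem SpG_key (hPsh : S_Psh) (hDua : S_Dua) (hInv : S_Inv) (hJrc : S_Jrc) (hTr : S_Tr)
    (hCnd : S_Cnd) (hCgp : S_Cgp) (N k u s t : ℕ) (hN : NumC N k u s t) (a : ℝ) (r : ℕ) (Q : Type)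
    [Fintype Q] (M : (Fin r → Bool) → HM k Q) (hQ : Fintype.card Q ≤ 2 ^ s)
    (hmot : ∀ ρ (x : Fin N → Bool) T, ((M ρ).run (tape x) T).mot ≤ t)
    (hyes : ∀ x, slice (hlang LG) N x = true →
      a + (1 / 2) ^ u ≤ prob r fun ρ => (M ρ).Acc (tape x))
    (hno : ∀ x, slice (hlang LG) N x = false → prob r (fun ρ => (M ρ).Acc (tape x)) ≤ a) :
    False := by
  obtain ⟨hLow, hm, hE, -, -, hD9⟩ := hN
  obtain ⟨Ω, fΩ, nΩ, X, w, hsl, hchi, hMach⟩ := hLow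
  have hE' : 1 * (s + 1) * (k + t / vB N + 1) + (2 * vm N + u + 10) ≤ vB N / 2 := by
    refine le_trans (Nat.add_le_add ?_ (by omega)) hE
    exact Nat.mul_le_mul_right _ (Nat.mul_le_mul_right _ (by omega))
  have hD : 9 * (2 ^ ix N * (1 * k ^ 2) ^ 80) ≤ pw 61 10 (vm N) := by
    refine le_trans (Nat.mul_le_mul_left _ (Nat.mul_le_mul_left _
      (Nat.pow_le_pow_left (Nat.mul_le_mul_right _ ?_) _))) hD9
    omega
  have he1 : (1 / 2 : ℝ) ^ (vB N / 2) ≤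
      2 ^ (1 * (s + 1) * (k + t / vB N + 1)) * (1 / 2) ^ (vB N / 2) := by
    have h1 : (1 : ℝ) ≤ 2 ^ (1 * (s + 1) * (k + t / vB N + 1)) :=
      one_le_pow₀ (by norm_num)
    have h2 : (0 : ℝ) ≤ (1 / 2) ^ (vB N / 2) := by positivity
    calc (1 / 2 : ℝ) ^ (vB N / 2) = 1 * (1 / 2) ^ (vB N / 2) := (one_mul _).symm
      _ ≤ _ := mul_le_mul_of_nonneg_right h1 h2
  refine hCgp hInv hJrc hTr hCnd (vm N) u r (2 ^ ix N * (1 * k ^ 2) ^ 80) Ω (slice LG (vm N)) X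
    (fun ρ ω => (M ρ).Acc (tape (w ω))) a
    (2 ^ (1 * (s + 1) * (k + t / vB N + 1)) * (1 / 2) ^ (vB N / 2))
    (by positivity) ((hDua hPsh).2 (vm N) _ hm hD) ?_ ?_ (SpG_e _ _ _ hE') ?_ ?_
  · intro S hS
    exact (hchi S hS).trans (mul_le_mul_of_nonneg_right he1 (Nat.cast_nonneg _))
  · intro ρ S hS
    have h := hMach k s 1 Q (fun _ => M ρ) hQ (fun _ x U => hmot ρ x U) S
      hS.le (Finset.card_pos.1 (lt_of_le_of_lt (Nat.zero_le _) hS))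
    have e : ∀ x, (if ∀ _c : Fin 1, (M ρ).Acc (tape (w x)) then (1 : ℝ) else 0) =
        if (M ρ).Acc (tape (w x)) then 1 else 0 := fun x =>
      if_congr ⟨fun h => h 0, fun h _ => h⟩ rfl rfl
    rw [Finset.sum_congr rfl fun x _ => by rw [e x]] at h
    exact h
  · intro ω hω
    rw [← hsl LG ω] at hω
    exact hyes (w ω) hω
  · intro ω hω
    rw [← hsl LG ω] at hω
    exact hno (w ω) hω

theorem tSpG : S_SpG := by
  intro hNum hPsh hDua hInv hJrc hTr hCnd hCgp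
  refine ⟨2 ^ 37000, fun N k u s t => ⟨fun hS => ?_, fun hP => ?_⟩⟩
  · by_contra hcon
    obtain ⟨r, Q, fQ, M, hQ, hmot, hyes, hno⟩ := hS
    refine SpG_key hPsh hDua hInv hJrc hTr hCnd hCgp N k u s t
      (hNum N k u s t (not_le.1 hcon)) ((1 / 2) ^ u) r Q M hQ hmot
      (fun x hx => ?_) hno
    have h := hyes x hx
    rw [two_mul] at h
    exact h
  · by_contra hcon
    obtain ⟨r, Q, fQ, M, hQ, hmot, hyes, hno⟩ := hP
    exact SpG_key hPsh hDua hInv hJrc hTr hCnd hCgp N k u s t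
      (hNum N k u s t (not_le.1 hcon)) (1 / 2) r Q M hQ hmot
      hyes hno

end Pool.Agent.Lib.MP_ff3ed7_lc.MH
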