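import Pool.Agent.Lib.MP_ff3ed7_lc.MH.SpecL

/-!
# PROJECT MH, module Tab: a good table exists (counting)
-/

set_option autoImplicit false

open Finset

namespace Pool.Agent.Lib.MP_ff3ed7_lc.MH

open Pool.Agent.Lib.MP_ff3ed7_lc.PLT
open Pool.Agent.Lib.MP_ff3ed7_lc.SQ (dst)

/-- Tables with a given collision in a given row. -/
private theorem Tab_row (d m P : ℕ) (u : Fin d) (b : Bool) (j j' : Fin m) (hj : j ≠ j') :
    (univ.filter fun T : Fin d → Bool → Fin m → Fin P => T u b j = T u b j').card * P ≤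
      Fintype.card (Fin d → Bool → Fin m → Fin P) := by
  classical
  have h := Fintype.card_le_of_injective
    (fun x : {T : Fin d → Bool → Fin m → Fin P // T u b j = T u b j'} × Fin P =>
      (fun (u' : Fin d) (b' : Bool) (i : Fin m) =>
        if u' = u ∧ b' = b ∧ i = j' then x.2 else x.1.1 u' b' i))
    (by
      rintro ⟨⟨T, hT⟩, a⟩ ⟨⟨T', hT'⟩, a'⟩ h
      have h1 : ∀ (u' : Fin d) (b' : Bool) (i : Fin m),
          (if u' = u ∧ b' = b ∧ i = j' then a else T u' b' i) =
          (if u' = u ∧ b' = b ∧ i = j' then a' else T' u' b' i) :=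
        fun u' b' i => congrFun (congrFun (congrFun h u') b') i
      have ha : a = a' := by
        have h2 := h1 u b j'
        rwa [if_pos ⟨rfl, rfl, rfl⟩, if_pos ⟨rfl, rfl, rfl⟩] at h2
      have hne : ∀ (u' : Fin d) (b' : Bool) (i : Fin m), ¬ (u' = u ∧ b' = b ∧ i = j') →
          T u' b' i = T' u' b' i := by
        intro u' b' i hn
        have h2 := h1 u' b' i
        rwa [if_neg hn, if_neg hn] at h2
      have hj1 : T u b j = T' u b j := hne u b j (fun h => hj h.2.2)
      have hTT : T = T' := by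
        funext u' b' i
        by_cases hn : u' = u ∧ b' = b ∧ i = j'
        · obtain ⟨rfl, rfl, rfl⟩ := hn
          rw [← hT, ← hT', hj1]
        · exact hne u' b' i hn
      subst hTT
      subst ha
      rfl)
  rw [Fintype.card_prod, Fintype.card_fin, Fintype.card_subtype] at h
  exact h

/-- The number of pairs. -/
private theorem Tab_pairs (m : ℕ) :
    2 * (univ.filter fun p : Fin m × Fin m => p.1 < p.2).card ≤ m ^ 2 := by
  have h1 : (univ.filter fun p : Fin m × Fin m => p.2 < p.1).card =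
      (univ.filter fun p : Fin m × Fin m => p.1 < p.2).card := by
    refine Finset.card_bij (fun p _ => (p.2, p.1)) ?_ ?_ ?_
    · intro p hp
      rw [mem_filter] at hp ⊢
      exact ⟨mem_univ _, hp.2⟩
    · intro p _ p' _ h
      rw [Prod.mk.injEq] at h
      exact Prod.ext h.2 h.1
    · intro p hp
      refine ⟨(p.2, p.1), ?_, rfl⟩
      rw [mem_filter] at hp ⊢
      exact ⟨mem_univ _, hp.2⟩
  have h2 : Disjoint (univ.filter fun p : Fin m × Fin m => p.1 < p.2)
      (univ.filter fun p : Fin m × Fin m => p.2 < p.1) := by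
    rw [Finset.disjoint_left]
    intro p hp hp'
    rw [mem_filter] at hp hp'
    exact lt_asymm hp.2 hp'.2
  have h3 := Finset.card_le_univ ((univ.filter fun p : Fin m × Fin m => p.1 < p.2) ∪
      (univ.filter fun p : Fin m × Fin m => p.2 < p.1))
  rw [Finset.card_union_of_disjoint h2, h1, Fintype.card_prod, Fintype.card_fin] at h3
  rw [sq]
  omega

/-- Tables with a row which is not injective. -/
private theorem Tab_inj (d m P : ℕ) (hP : 1 ≤ P) (hd : 2 * d * m ^ 2 ≤ P) :
    2 * (univ.filter fun T : Fin d → Bool → Fin m → Fin P =>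
      ∃ u b, ¬ Function.Injective (T u b)).card ≤
      Fintype.card (Fin d → Bool → Fin m → Fin P) := by
  classical
  set tot := Fintype.card (Fin d → Bool → Fin m → Fin P) with htot
  set Q := (univ.filter fun p : Fin m × Fin m => p.1 < p.2) with hQ
  have hsub : (univ.filter fun T : Fin d → Bool → Fin m → Fin P =>
      ∃ u b, ¬ Function.Injective (T u b)) ⊆
      ((univ : Finset (Fin d × Bool)) ×ˢ Q).biUnion (fun x =>
        univ.filter fun T : Fin d → Bool → Fin m → Fin P =>
          T x.1.1 x.1.2 x.2.1 = T x.1.1 x.1.2 x.2.2) := by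
    intro T hT
    rw [mem_filter] at hT
    obtain ⟨_, u, b, hub⟩ := hT
    rw [Function.Injective] at hub
    push Not at hub
    obtain ⟨j, j', hjj, hne⟩ := hub
    rw [mem_biUnion]
    rcases lt_or_gt_of_ne hne with h | h
    · exact ⟨((u, b), (j, j')), mem_product.2 ⟨mem_univ _, mem_filter.2 ⟨mem_univ _, h⟩⟩,
        mem_filter.2 ⟨mem_univ _, hjj⟩⟩
    · exact ⟨((u, b), (j', j)), mem_product.2 ⟨mem_univ _, mem_filter.2 ⟨mem_univ _, h⟩⟩,
        mem_filter.2 ⟨mem_univ _, hjj.symm⟩⟩
  have h1 : (univ.filter fun T : Fin d → Bool → Fin m → Fin P =>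
      ∃ u b, ¬ Function.Injective (T u b)).card * P ≤ (2 * d * Q.card) * tot := by
    calc _ ≤ (∑ x ∈ (univ : Finset (Fin d × Bool)) ×ˢ Q,
          (univ.filter fun T : Fin d → Bool → Fin m → Fin P =>
            T x.1.1 x.1.2 x.2.1 = T x.1.1 x.1.2 x.2.2).card) * P :=
          Nat.mul_le_mul_right _ ((card_le_card hsub).trans card_biUnion_le)
      _ = ∑ x ∈ (univ : Finset (Fin d × Bool)) ×ˢ Q,
          (univ.filter fun T : Fin d → Bool → Fin m → Fin P =>
            T x.1.1 x.1.2 x.2.1 = T x.1.1 x.1.2 x.2.2).card * P := by rw [Finset.sum_mul]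
      _ ≤ ∑ x ∈ (univ : Finset (Fin d × Bool)) ×ˢ Q, tot := by
          apply Finset.sum_le_sum
          intro x hx
          rw [mem_product, hQ, mem_filter] at hx
          exact Tab_row d m P x.1.1 x.1.2 x.2.1 x.2.2 (ne_of_lt hx.2.2)
      _ = (2 * d * Q.card) * tot := by
          rw [Finset.sum_const, card_product, card_univ, Fintype.card_prod, Fintype.card_fin,
            Fintype.card_bool, smul_eq_mul]
          ring
  have h2 := Tab_pairs m
  rw [← hQ] at h2
  have h3 : 2 * (univ.filter fun T : Fin d → Bool → Fin m → Fin P =>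
      ∃ u b, ¬ Function.Injective (T u b)).card * P ≤ tot * P := by
    calc _ = 2 * ((univ.filter fun T : Fin d → Bool → Fin m → Fin P =>
          ∃ u b, ¬ Function.Injective (T u b)).card * P) := by ring
      _ ≤ 2 * ((2 * d * Q.card) * tot) := Nat.mul_le_mul_left _ h1
      _ = (2 * d * (2 * Q.card)) * tot := by ring
      _ ≤ (2 * d * m ^ 2) * tot := Nat.mul_le_mul_right _ (Nat.mul_le_mul_left _ h2)
      _ ≤ P * tot := Nat.mul_le_mul_right _ hd
      _ = tot * P := by ring
  exact Nat.le_of_mul_le_mul_right h3 hP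

/-- Rows of small variation along `σ`. -/
private theorem Tab_one (m P n V c : ℕ) (σ : Fin n → Fin m) (hσ : Function.Injective σ)
    (hc : Nat.card {φ : Fin n → Fin P // tv (fun i => (φ i : ℕ)) ≤ V} ≤ c) :
    (univ.filter fun g : Fin m → Fin P => tv (fun i => (g (σ i) : ℕ)) ≤ V).card ≤
      P ^ (m - n) * c := by
  classical
  have h := Fintype.card_le_of_injective
    (fun g : {g : Fin m → Fin P // tv (fun i => (g (σ i) : ℕ)) ≤ V} =>
      ((⟨fun i => g.1 (σ i), g.2⟩, fun j => g.1 j.1) :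
        {φ : Fin n → Fin P // tv (fun i => (φ i : ℕ)) ≤ V} ×
          ({j : Fin m // ¬ j ∈ Set.range σ} → Fin P)))
    (by
      rintro ⟨g, hg⟩ ⟨g', hg'⟩ h
      simp only [Prod.mk.injEq, Subtype.mk.injEq] at h
      apply Subtype.ext
      funext j
      by_cases hj : j ∈ Set.range σ
      · obtain ⟨i, rfl⟩ := hj
        exact congrFun h.1 i
      · exact congrFun h.2 ⟨j, hj⟩)
  rw [Fintype.card_prod, Fintype.card_subtype, Fintype.card_fun, Fintype.card_fin,
    ← Nat.card_eq_fintype_card] at h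
  have h2 : Fintype.card {j : Fin m // ¬ j ∈ Set.range σ} = m - n := by
    rw [Fintype.card_subtype_compl, Fintype.card_fin]
    have h3 : Fintype.card {j : Fin m // j ∈ Set.range σ} = n := by
      have h4 := Set.card_range_of_injective hσ
      rw [Fintype.card_fin] at h4
      exact h4
    rw [h3]
  rw [h2] at h
  calc _ ≤ _ := h
    _ ≤ c * P ^ (m - n) := Nat.mul_le_mul_right _ hc
    _ = P ^ (m - n) * c := by ring

/-- Bad pairs of rows for `S`. -/
private theorem Tab_two (m P n V c : ℕ) (S : Finset (Fin m)) (hS : S.card = n)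
    (hc : Nat.card {φ : Fin n → Fin P // tv (fun i => (φ i : ℕ)) ≤ V} ≤ c) [DecidablePred
      fun p : Bool → Fin m → Fin P => ∃ σ : Fin n → Fin m, Function.Injective σ ∧
        (∀ i, σ i ∈ S) ∧ ∀ b, tv (fun i => (p b (σ i) : ℕ)) ≤ V] :
    (univ.filter fun p : Bool → Fin m → Fin P => ∃ σ : Fin n → Fin m, Function.Injective σ ∧
        (∀ i, σ i ∈ S) ∧ ∀ b, tv (fun i => (p b (σ i) : ℕ)) ≤ V).card ≤
      n.factorial * (P ^ (m - n) * c) ^ 2 := by
  classical
  have hsub : (univ.filter fun p : Bool → Fin m → Fin P => ∃ σ : Fin n → Fin m,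
      Function.Injective σ ∧ (∀ i, σ i ∈ S) ∧ ∀ b, tv (fun i => (p b (σ i) : ℕ)) ≤ V) ⊆
      (univ : Finset (Fin n ↪ S)).biUnion (fun e => Fintype.piFinset (fun _ : Bool =>
        univ.filter fun g : Fin m → Fin P => tv (fun i => (g (e i) : ℕ)) ≤ V)) := by
    intro p hp
    rw [mem_filter] at hp
    obtain ⟨_, σ, hσ, hσS, hb⟩ := hp
    rw [mem_biUnion]
    refine ⟨⟨fun i => ⟨σ i, hσS i⟩, fun i i' h => hσ (congrArg Subtype.val h)⟩, mem_univ _, ?_⟩
    rw [Fintype.mem_piFinset]
    intro b
    exact mem_filter.2 ⟨mem_univ _, hb b⟩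
  refine (card_le_card hsub).trans ?_
  have h1 := Finset.card_biUnion_le_card_mul (univ : Finset (Fin n ↪ S))
    (fun e => Fintype.piFinset (fun _ : Bool =>
        univ.filter fun g : Fin m → Fin P => tv (fun i => (g (e i) : ℕ)) ≤ V))
    ((P ^ (m - n) * c) ^ 2) (by
      intro e _
      rw [Fintype.card_piFinset, Finset.prod_const, card_univ, Fintype.card_bool]
      exact Nat.pow_le_pow_left (Tab_one m P n V c (fun i => (e i : Fin m))
        (fun i i' h => e.injective (Subtype.ext h)) hc) 2)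
  rw [card_univ, Fintype.card_embedding_eq, Fintype.card_coe, Fintype.card_fin, hS,
    Nat.descFactorial_self] at h1
  exact h1

/-- Bad tables for some `S`. -/
private theorem Tab_bad (d m P n V c : ℕ)
    (hc : Nat.card {φ : Fin n → Fin P // tv (fun i => (φ i : ℕ)) ≤ V} ≤ c) [DecidablePred
      fun T : Fin d → Bool → Fin m → Fin P => ∃ S : Finset (Fin m), S.card = n ∧ ∀ u,
        ∃ σ : Fin n → Fin m, Function.Injective σ ∧
        (∀ i, σ i ∈ S) ∧ ∀ b, tv (fun i => (T u b (σ i) : ℕ)) ≤ V] :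
    (univ.filter fun T : Fin d → Bool → Fin m → Fin P => ∃ S : Finset (Fin m), S.card = n ∧ ∀ u,
        ∃ σ : Fin n → Fin m, Function.Injective σ ∧
        (∀ i, σ i ∈ S) ∧ ∀ b, tv (fun i => (T u b (σ i) : ℕ)) ≤ V).card ≤
      m ^ n * (n.factorial * (P ^ (m - n) * c) ^ 2) ^ d := by
  classical
  have hsub : (univ.filter fun T : Fin d → Bool → Fin m → Fin P =>
      ∃ S : Finset (Fin m), S.card = n ∧ ∀ u,
        ∃ σ : Fin n → Fin m, Function.Injective σ ∧
        (∀ i, σ i ∈ S) ∧ ∀ b, tv (fun i => (T u b (σ i) : ℕ)) ≤ V) ⊆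
      (powersetCard n (univ : Finset (Fin m))).biUnion (fun S => Fintype.piFinset (fun _ : Fin d =>
        univ.filter fun p : Bool → Fin m → Fin P => ∃ σ : Fin n → Fin m, Function.Injective σ ∧
          (∀ i, σ i ∈ S) ∧ ∀ b, tv (fun i => (p b (σ i) : ℕ)) ≤ V)) := by
    intro T hT
    rw [mem_filter] at hT
    obtain ⟨_, S, hS, h⟩ := hT
    rw [mem_biUnion]
    refine ⟨S, mem_powersetCard.2 ⟨subset_univ _, hS⟩, ?_⟩
    rw [Fintype.mem_piFinset]
    intro u
    exact mem_filter.2 ⟨mem_univ _, h u⟩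
  refine (card_le_card hsub).trans ?_
  have h1 := Finset.card_biUnion_le_card_mul (powersetCard n (univ : Finset (Fin m)))
    (fun S => Fintype.piFinset (fun _ : Fin d =>
        univ.filter fun p : Bool → Fin m → Fin P => ∃ σ : Fin n → Fin m, Function.Injective σ ∧
          (∀ i, σ i ∈ S) ∧ ∀ b, tv (fun i => (p b (σ i) : ℕ)) ≤ V))
    ((n.factorial * (P ^ (m - n) * c) ^ 2) ^ d) (by
      intro S hS
      rw [Fintype.card_piFinset, Finset.prod_const, card_univ, Fintype.card_fin]
      exact Nat.pow_le_pow_left (Tab_two m P n V c S (mem_powersetCard.1 hS).2 hc) d)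
  refine h1.trans (Nat.mul_le_mul_right _ ?_)
  rw [card_powersetCard, card_univ, Fintype.card_fin]
  exact Nat.choose_le_pow m n

theorem tTab : S_Tab := by
  classical
  intro hTv d m P n V hd hdm hn hnm hP hnum
  have hc := hTv n P V hn
  set c := P * 2 ^ n * (V + n).choose n with hcdef
  have h1 := Tab_inj d m P hP hdm
  have h2 := Tab_bad d m P n V c hc
  have htot : Fintype.card (Fin d → Bool → Fin m → Fin P) = P ^ (2 * m * d) := by
    rw [Fintype.card_fun, Fintype.card_fun, Fintype.card_fun, Fintype.card_fin, Fintype.card_fin,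
      Fintype.card_fin, Fintype.card_bool, ← pow_mul, ← pow_mul]
    congr 1
    ring
  have h3 : 2 * (m ^ n * (n.factorial * (P ^ (m - n) * c) ^ 2) ^ d) < P ^ (2 * m * d) := by
    have e1 : 2 * (m ^ n * (n.factorial * (P ^ (m - n) * c) ^ 2) ^ d) =
        (2 * m ^ n * (n.factorial * c ^ 2) ^ d) * P ^ (2 * (m - n) * d) := by
      have e2 : n.factorial * (P ^ (m - n) * c) ^ 2 =
          (n.factorial * c ^ 2) * P ^ (2 * (m - n)) := by
        rw [mul_pow, ← pow_mul, mul_comm (m - n) 2]
        ring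
      rw [e2, mul_pow, ← pow_mul]
      ring
    have e3 : P ^ (2 * m * d) = P ^ (2 * n * d) * P ^ (2 * (m - n) * d) := by
      rw [← pow_add]
      congr 1
      have e4 : m = n + (m - n) := by omega
      calc 2 * m * d = 2 * (n + (m - n)) * d := by rw [← e4]
        _ = 2 * n * d + 2 * (m - n) * d := by ring
    rw [e1, e3]
    exact Nat.mul_lt_mul_of_pos_right hnum (pow_pos hP _)
  rw [← htot] at h3
  have h4 : ((univ.filter fun T : Fin d → Bool → Fin m → Fin P =>
      ∃ u b, ¬ Function.Injective (T u b)) ∪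
      (univ.filter fun T : Fin d → Bool → Fin m → Fin P =>
        ∃ S : Finset (Fin m), S.card = n ∧ ∀ u,
          ∃ σ : Fin n → Fin m, Function.Injective σ ∧
          (∀ i, σ i ∈ S) ∧ ∀ b, tv (fun i => (T u b (σ i) : ℕ)) ≤ V)).card <
      (univ : Finset (Fin d → Bool → Fin m → Fin P)).card := by
    refine lt_of_le_of_lt (card_union_le _ _) ?_
    rw [card_univ]
    omega
  obtain ⟨T, _, hT⟩ := Finset.exists_mem_notMem_of_card_lt_card h4
  rw [mem_union, not_or, mem_filter, mem_filter] at hT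
  obtain ⟨hT1, hT2⟩ := hT
  refine ⟨T, ?_, ?_⟩
  · intro u b
    by_contra hinj
    exact hT1 ⟨mem_univ _, u, b, hinj⟩
  · intro S hS
    by_contra hcon
    push Not at hcon
    apply hT2
    refine ⟨mem_univ _, S, hS, ?_⟩
    intro u
    obtain ⟨σ, hσ, hσS, ha, hb⟩ := hcon u
    refine ⟨σ, hσ, hσS, ?_⟩
    intro b
    cases b
    · exact ha
    · exact hb

end Pool.Agent.Lib.MP_ff3ed7_lc.MH
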