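import Pool.Agent.Lib.MP_ff3ed7_lc.MH.SpecF

/-!
# PROJECT MH, `Tr`: the conditional expectation is almost a function of low degree
-/

set_option autoImplicit false

open Finset

namespace Pool.Agent.Lib.MP_ff3ed7_lc.MH

open Pool.Agent.Lib.MP_ff3ed7_lc.PLT
open Pool.Agent.Lib.MP_ff3ed7_lc.B (JR HasSDual)

private theorem Tr_abs {m : ℕ} (S : Finset (Fin m)) (X : Fin m → Bool) : |chi S X| = 1 := by
  unfold chi
  rw [Finset.abs_prod]
  apply Finset.prod_eq_one
  intro j _
  split_ifs <;> simp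

private theorem Tr_empty {m : ℕ} (X : Fin m → Bool) : chi ∅ X = 1 := by
  simp [chi]

private theorem Tr_sum {m : ℕ} {Ω : Type} [Fintype Ω] (V : Ω → Fin m → Bool) (g : Ω → ℝ)
    (S : Finset (Fin m)) : ∑ ω, g ω * chi S (V ω) = ∑ X, fib V g X * chi S X := by
  classical
  unfold fib
  simp only [Finset.sum_mul]
  rw [Finset.sum_comm]
  apply Finset.sum_congr rfl
  intro ω _
  simp only [ite_mul, zero_mul]
  rw [Finset.sum_ite_eq]
  simp

/-- Inversion for the normalised sums. -/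
private theorem Tr_inv (hI : S_Inv) {m : ℕ} {Ω : Type} [Fintype Ω] (V : Ω → Fin m → Bool)
    (g : Ω → ℝ) (X : Fin m → Bool) :
    ∑ S : Finset (Fin m), (∑ ω, g ω * chi S (V ω)) / (Fintype.card Ω : ℝ) * chi S X =
      2 ^ m * fib V g X / (Fintype.card Ω : ℝ) := by
  have h := hI m (fib V g) X
  rw [← h, Finset.sum_div]
  apply Finset.sum_congr rfl
  intro S _
  rw [Tr_sum V g S]
  ring

private theorem Tr_small {m : ℕ} (P : Finset (Fin m) → Prop) [DecidablePred P]
    (c : Finset (Fin m) → ℝ) (e : ℝ) (he : 0 ≤ e) (hc : ∀ S, P S → |c S| ≤ e)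
    (X : Fin m → Bool) :
    |∑ S : Finset (Fin m), if P S then c S * chi S X else 0| ≤ 2 ^ m * e := by
  calc |∑ S : Finset (Fin m), if P S then c S * chi S X else 0|
      ≤ ∑ S : Finset (Fin m), |if P S then c S * chi S X else 0| := Finset.abs_sum_le_sum_abs _ _
    _ ≤ ∑ _S : Finset (Fin m), e := by
        apply Finset.sum_le_sum
        intro S _
        split_ifs with hS
        · rw [abs_mul, Tr_abs, mul_one]
          exact hc S hS
        · simpa using he
    _ = 2 ^ m * e := by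
        simp [Finset.sum_const, Finset.card_univ, Fintype.card_finset]

private theorem Tr_H (hI : S_Inv) {m : ℕ} {Ω : Type} [Fintype Ω] [Nonempty Ω]
    (V : Ω → Fin m → Bool) (e : ℝ) (he : 0 ≤ e)
    (h1 : ∀ S : Finset (Fin m), S.Nonempty → |∑ ω, chi S (V ω)| ≤ e * Fintype.card Ω)
    (X : Fin m → Bool) :
    |2 ^ m * fib V (fun _ => 1) X / (Fintype.card Ω : ℝ) - 1| ≤ 2 ^ m * e := by
  classical
  have hN : (0 : ℝ) < Fintype.card Ω := by exact_mod_cast Fintype.card_pos
  have h := Tr_inv hI V (fun _ => 1) X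
  have hs := Tr_small (fun S : Finset (Fin m) => S.Nonempty)
    (fun S => (∑ ω, (1 : ℝ) * chi S (V ω)) / (Fintype.card Ω : ℝ)) e he (by
      intro S hS
      rw [abs_div, abs_of_pos hN, div_le_iff₀ hN]
      simpa using h1 S hS) X
  have hsplit : ∑ S : Finset (Fin m), (∑ ω, (1 : ℝ) * chi S (V ω)) / (Fintype.card Ω : ℝ) * chi S X
      = (∑ S : Finset (Fin m), if S.Nonempty then
          (∑ ω, (1 : ℝ) * chi S (V ω)) / (Fintype.card Ω : ℝ) * chi S X else 0) + 1 := by
    have h0 : ∀ S : Finset (Fin m),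
        (∑ ω, (1 : ℝ) * chi S (V ω)) / (Fintype.card Ω : ℝ) * chi S X =
        (if S.Nonempty then
          (∑ ω, (1 : ℝ) * chi S (V ω)) / (Fintype.card Ω : ℝ) * chi S X else 0) +
        (if S = ∅ then 1 else 0) := by
      intro S
      rcases S.eq_empty_or_nonempty with hS | hS
      · subst hS
        simp [Tr_empty]
      · simp [hS, hS.ne_empty]
    rw [Finset.sum_congr rfl (fun S _ => h0 S), Finset.sum_add_distrib]
    simp
  rw [← h, hsplit, add_sub_cancel_right]
  exact hs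

private theorem Tr_fib {m : ℕ} {Ω : Type} [Fintype Ω] (V : Ω → Fin m → Bool) (g : Ω → ℝ)
    (hg : ∀ ω, 0 ≤ g ω ∧ g ω ≤ 1) (X : Fin m → Bool) :
    0 ≤ fib V g X ∧ fib V g X ≤ fib V (fun _ => 1) X := by
  classical
  unfold fib
  constructor
  · apply Finset.sum_nonneg
    intro ω _
    split_ifs
    · exact (hg ω).1
    · exact le_refl 0
  · apply Finset.sum_le_sum
    intro ω _
    split_ifs
    · exact (hg ω).2
    · exact le_refl 0

theorem tTr : S_Tr := by
  classical
  intro hI hJ m D Ω _ _ V e he h1 hme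
  have hN : (0 : ℝ) < Fintype.card Ω := by exact_mod_cast Fintype.card_pos
  have h2m : (0 : ℝ) < 2 ^ m := by positivity
  have hpos : ∀ X, 0 < fib V (fun _ => 1) X := by
    intro X
    have h := abs_le.mp (Tr_H hI V e he h1 X)
    have hH : 0 < 2 ^ m * fib V (fun _ => 1) X / (Fintype.card Ω : ℝ) := by linarith [h.1]
    by_contra hn
    have hn' : fib V (fun _ => 1) X ≤ 0 := not_lt.mp hn
    have : 2 ^ m * fib V (fun _ => 1) X / (Fintype.card Ω : ℝ) ≤ 0 :=
      div_nonpos_of_nonpos_of_nonneg (mul_nonpos_of_nonneg_of_nonpos h2m.le hn') hN.le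
    linarith
  refine ⟨hpos, ?_⟩
  intro g hg hD
  refine ⟨fun X => ∑ S : Finset (Fin m), if S.card ≤ D then
    (∑ ω, g ω * chi S (V ω)) / (Fintype.card Ω : ℝ) * chi S X else 0,
    hJ m D (fun S => (∑ ω, g ω * chi S (V ω)) / (Fintype.card Ω : ℝ)), ?_⟩
  intro X
  have hF := Tr_inv hI V g X
  have hs := Tr_small (fun S : Finset (Fin m) => ¬ S.card ≤ D)
    (fun S => (∑ ω, g ω * chi S (V ω)) / (Fintype.card Ω : ℝ)) e he (by
      intro S hS
      rw [abs_div, abs_of_pos hN, div_le_iff₀ hN]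
      exact hD S (not_le.mp hS)) X
  have hsplit : ∑ S : Finset (Fin m), (∑ ω, g ω * chi S (V ω)) / (Fintype.card Ω : ℝ) * chi S X
      = (∑ S : Finset (Fin m), if S.card ≤ D then
          (∑ ω, g ω * chi S (V ω)) / (Fintype.card Ω : ℝ) * chi S X else 0) +
        (∑ S : Finset (Fin m), if ¬ S.card ≤ D then
          (∑ ω, g ω * chi S (V ω)) / (Fintype.card Ω : ℝ) * chi S X else 0) := by
    rw [← Finset.sum_add_distrib]
    apply Finset.sum_congr rfl
    intro S _
    by_cases hS : S.card ≤ D <;> simp [hS]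
  have hH := Tr_H hI V e he h1 X
  obtain ⟨hf0, hf1⟩ := Tr_fib V g hg X
  have hp := hpos X
  have hc0 : 0 ≤ cnd V g X := div_nonneg hf0 hp.le
  have hc1 : cnd V g X ≤ 1 := (div_le_one hp).mpr hf1
  have hcF : 2 ^ m * fib V g X / (Fintype.card Ω : ℝ) =
      cnd V g X * (2 ^ m * fib V (fun _ => 1) X / (Fintype.card Ω : ℝ)) := by
    unfold cnd
    field_simp
  have hA : |cnd V g X - 2 ^ m * fib V g X / (Fintype.card Ω : ℝ)| ≤ 2 ^ m * e := by
    rw [hcF]
    have : cnd V g X - cnd V g X * (2 ^ m * fib V (fun _ => 1) X / (Fintype.card Ω : ℝ)) =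
        - (cnd V g X * (2 ^ m * fib V (fun _ => 1) X / (Fintype.card Ω : ℝ) - 1)) := by ring
    rw [this, abs_neg, abs_mul, abs_of_nonneg hc0]
    calc cnd V g X * |2 ^ m * fib V (fun _ => 1) X / (Fintype.card Ω : ℝ) - 1|
        ≤ 1 * (2 ^ m * e) := mul_le_mul hc1 hH (abs_nonneg _) zero_le_one
      _ = 2 ^ m * e := one_mul _
  rw [← hF, hsplit] at hA
  have h3 := abs_le.mp hA
  have h4 := abs_le.mp hs
  refine abs_le.mpr ⟨?_, ?_⟩
  · linarith [h3.1, h3.2, h4.1, h4.2]
  · linarith [h3.1, h3.2, h4.1, h4.2]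

end Pool.Agent.Lib.MP_ff3ed7_lc.MH
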