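import Pool.Agent.Lib.MP_ff3ed7_lc.MH.SpecL

/-!
# PROJECT MH: counting functions of small variation
-/

set_option autoImplicit false

open Finset

namespace Pool.Agent.Lib.MP_ff3ed7_lc.MH

open Pool.Agent.Lib.MP_ff3ed7_lc.PLT
open Pool.Agent.Lib.MP_ff3ed7_lc.SQ (dst)

private theorem TvC_tv_succ {n : ℕ} (φ : Fin (n + 2) → ℕ) :
    tv φ = tv (fun i : Fin (n + 1) => φ i.castSucc) +
      dst (φ (Fin.last (n + 1))) (φ (Fin.last n).castSucc) := by
  unfold tv
  exact Fin.sum_univ_castSucc (fun i : Fin (n + 1) =>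
    dst (φ ⟨i.1 + 1, by omega⟩) (φ ⟨i.1, by omega⟩))

private noncomputable def TvC_A (P n V : ℕ) : Finset (Fin n → Fin P) :=
  univ.filter (fun φ => tv (fun i => (φ i : ℕ)) ≤ V)

private theorem TvC_step (P n V : ℕ) :
    (TvC_A P (n + 2) V).card ≤ ∑ e ∈ range (V + 1), (TvC_A P (n + 1) (V - e)).card * 2 := by
  have h1 : ((range (V + 1)).sigma (fun e => TvC_A P (n + 1) (V - e) ×ˢ (univ : Finset Bool))).card
      = ∑ e ∈ range (V + 1), (TvC_A P (n + 1) (V - e)).card * 2 := by
    rw [card_sigma]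
    refine sum_congr rfl fun e _ => ?_
    rw [card_product]
    rfl
  rw [← h1]
  refine card_le_card_of_injOn
    (fun φ => ⟨dst (φ (Fin.last (n + 1)) : ℕ) (φ (Fin.last n).castSucc),
      (fun i => φ i.castSucc, decide ((φ (Fin.last n).castSucc : ℕ) ≤ φ (Fin.last (n + 1))))⟩) ?_ ?_
  · intro φ hφ
    have h2 : tv (fun i => (φ i : ℕ)) ≤ V := by
      have := mem_coe.1 hφ
      rw [TvC_A, mem_filter] at this
      exact this.2
    rw [TvC_tv_succ] at h2
    simp only [coe_sigma, Set.mem_sigma_iff, mem_coe, mem_range, mem_product, mem_univ, and_true]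
    refine ⟨by omega, ?_⟩
    rw [TvC_A, mem_filter]
    refine ⟨mem_univ _, ?_⟩
    show tv (fun i => (φ i.castSucc : ℕ)) ≤ _
    omega
  · intro φ hφ ψ hψ h
    simp only [Sigma.mk.injEq, heq_eq_eq, Prod.mk.injEq] at h
    obtain ⟨h3, h4, h5⟩ := h
    have h6 : ∀ i : Fin (n + 1), φ i.castSucc = ψ i.castSucc := fun i => congrFun h4 i
    have h7 : ((φ (Fin.last n).castSucc : ℕ) ≤ φ (Fin.last (n + 1))) ↔
        ((ψ (Fin.last n).castSucc : ℕ) ≤ ψ (Fin.last (n + 1))) := decide_eq_decide.1 h5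
    rw [h6 (Fin.last n)] at h3 h7
    have h8 : φ (Fin.last (n + 1)) = ψ (Fin.last (n + 1)) := by
      apply Fin.ext
      unfold dst at h3
      omega
    funext i
    refine Fin.lastCases h8 h6 i

private theorem TvC_A_le (P : ℕ) : ∀ n V : ℕ,
    (TvC_A P (n + 1) V).card ≤ P * 2 ^ (n + 1) * (V + (n + 1)).choose (n + 1) := by
  intro n
  induction n with
  | zero =>
    intro V
    have h1 : (TvC_A P 1 V).card ≤ P := by
      refine (card_le_univ _).trans ?_
      simp
    have h2 : (V + 1).choose 1 = V + 1 := by simp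
    simp only [zero_add]
    rw [h2]
    nlinarith [Nat.zero_le P, Nat.zero_le V, Nat.zero_le (P * V)]
  | succ n ih =>
    intro V
    refine (TvC_step P n V).trans ?_
    calc ∑ e ∈ range (V + 1), (TvC_A P (n + 1) (V - e)).card * 2
        ≤ ∑ e ∈ range (V + 1), P * 2 ^ (n + 1) * (V - e + (n + 1)).choose (n + 1) * 2 :=
          sum_le_sum fun e _ => Nat.mul_le_mul_right 2 (ih (V - e))
      _ = ∑ e ∈ range (V + 1), P * 2 ^ (n + 1) * (e + (n + 1)).choose (n + 1) * 2 := by
          rw [← sum_range_reflect]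
          refine sum_congr rfl fun e he => ?_
          have : e < V + 1 := mem_range.1 he
          congr 4
          omega
      _ = P * 2 ^ (n + 1 + 1) * (V + (n + 1 + 1)).choose (n + 1 + 1) := by
          rw [← sum_mul, ← mul_sum, Nat.sum_range_add_choose, pow_succ 2 (n + 1)]
          have : V + (n + 1 + 1) = V + (n + 1) + 1 := by ring
          rw [this]
          ring

theorem tTvC : S_TvC := by
  intro n P V hn
  obtain ⟨m, rfl⟩ : ∃ m, n = m + 1 := ⟨n - 1, by omega⟩
  classical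
  rw [Nat.card_eq_fintype_card, Fintype.card_subtype]
  exact TvC_A_le P m V

end Pool.Agent.Lib.MP_ff3ed7_lc.MH
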