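import Pool.Agent.Lib.MP_ff3ed7_lc.MH.SpecU
import Pool.Agent.Lib.MP_ff3ed7_lc.PLT.BUp

/-!
# PROJECT MH: a uniform verifier for the language `LB`
-/

set_option autoImplicit false

open Finset

namespace Pool.Agent.Lib.MP_ff3ed7_lc.MH

open Pool.Agent.Lib.MP_ff3ed7_lc.PLT
open Pool.Agent.Lib.MP_ff3ed7_lc.SQ (dst ql)
open Pool.Agent.Lib.MP_ff3ed7_lc.B

theorem tUnB : S_UnB := by
  classical
  obtain ⟨P, C, hP⟩ := shell 36 10 (by norm_num) verB verB_below
  refine ⟨P, C, fun x K hk => ⟨fun y r hy hr => (hP x y r K hy hr).1, ?_⟩⟩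
  have hacc : ∀ r < 2 ^ K, (Acc P x 0 r ↔ 2 ^ 36 ≤ x.length ∧
      tstB (opsN (bit x)) (2 ^ levB x.length)
        (r % (4 * (2 ^ Nat.log 2 x.length * 2 ^ levB x.length))) = 1) :=
    fun r hr => (hP x 0 r K (by positivity) hr).2
  rw [mem_LB]
  set N := x.length with hN
  set n := 2 ^ levB N with hn
  by_cases hN36 : 2 ^ 36 ≤ N
  · obtain ⟨l1, l2, l3⟩ := levB_spec hN36
    have hn1 : 1 ≤ n := Nat.one_le_two_pow
    set d := Nat.log 2 N + 2 + levB N with hd
    have hD : 4 * (2 ^ Nat.log 2 N * n) = 2 ^ d := by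
      rw [hn, hd, pow_add, pow_add]
      ring
    have hdk : 0 + d ≤ K := by
      have h2 : levB N ≤ Nat.log 2 N := (Nat.div_le_self _ _).trans (Nat.sub_le _ _)
      omega
    have hpr : pr K (fun r => Acc P x 0 r) =
        (((range (2 ^ d)).filter fun z => tstB (opsN (bit x)) n z = 1).card : ℝ) / 2 ^ d := by
      rw [← pr_eq, ← tPrB.2.2.2.1 K 0 d (fun z => tstB (opsN (bit x)) n z = 1) hdk]
      refine pr_congr fun r hr => ?_
      rw [hacc r hr, hD, pow_zero, Nat.div_one]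
      exact ⟨fun h => h.2, fun h => ⟨hN36, h⟩⟩
    rw [hpr]
    have hu : ((1 : ℝ) / 2) ^ (Nat.log 2 N + 2) = (n : ℝ) / 2 ^ d := by
      rw [hd, pow_add 2 (Nat.log 2 N + 2) (levB N), one_div, inv_pow]
      rw [hn]
      push_cast
      field_simp
    rw [hu]
    have h2 : (0 : ℝ) < 2 ^ d := by positivity
    have hDn : 2 ^ 38 * n ^ 11 ≤ 2 ^ d := by
      rw [← hD]
      calc 2 ^ 38 * n ^ 11 = 4 * ((2 ^ 36 * n ^ 10) * n) := by ring
        _ ≤ 4 * (2 ^ Nat.log 2 N * n) := Nat.mul_le_mul_left _ (Nat.mul_le_mul_right _ l1)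
    constructor
    · rintro ⟨-, h⟩
      have h3 := cnt_yes hn1 hDn (holds_tabB x n) h
      have h4 : (2 * n : ℝ) ≤ ((range (2 ^ d)).filter fun z =>
        tstB (opsN (bit x)) n z = 1).card := by exact_mod_cast h3
      rw [← mul_div_assoc]
      exact div_le_div_of_nonneg_right h4 h2.le
    · intro h
      have h5 : Valid (bSys n (bM n)) (tabB x n) ∧ (pat fun c => tabB x n (.pub c)).card ≤ n := by
        by_contra hcon
        apply h
        refine ⟨hN36, ?_⟩
        by_cases hV : Valid (bSys n (bM n)) (tabB x n)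
        · exact Or.inr (not_le.mp fun h6 => hcon ⟨hV, h6⟩)
        · exact Or.inl hV
      have h3 := (cnt_no hn1 (holds_tabB x n) h5.1 (2 ^ d)).trans h5.2
      have h4 : (((range (2 ^ d)).filter fun z =>
        tstB (opsN (bit x)) n z = 1).card : ℝ) ≤ n := by exact_mod_cast h3
      exact div_le_div_of_nonneg_right h4 h2.le
  · have hz : pr K (fun r => Acc P x 0 r) = 0 := by
      rw [pr_congr (B := fun _ => False) fun r hr => by
        rw [hacc r hr]
        exact ⟨fun h => hN36 h.1, fun h => h.elim⟩]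
      unfold pr
      simp
    constructor
    · rintro ⟨h, -⟩
      exact absurd h hN36
    · intro _
      rw [hz]
      positivity

end Pool.Agent.Lib.MP_ff3ed7_lc.MH
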