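import Pool.Agent.Lib.MP_ff3ed7_lc.MH.SpecU
import Pool.Agent.Lib.MP_ff3ed7_lc.PLT.G3
import Pool.Agent.Lib.MP_ff3ed7_lc.PLT.PrB

/-!
# PROJECT MH: a uniform verifier for the language `LG`
-/

set_option autoImplicit false

open Finset

namespace Pool.Agent.Lib.MP_ff3ed7_lc.MH

open Pool.Agent.Lib.MP_ff3ed7_lc.PLT
open Pool.Agent.Lib.MP_ff3ed7_lc.SQ (dst ql)

theorem tUnG : S_UnG := by
  have hPr := tPrB
  obtain ⟨P, C, hP⟩ := shell 61 10 (by norm_num) EG EG_below
  refine ⟨P, C, fun x K hk => ⟨fun y r hy hr => (hP x y r K hy hr).1, ?_⟩⟩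
  set N := x.length with hN
  set n := pw 61 10 N with hn
  have hn1 : 1 ≤ n := pw_pos _ _ _
  have hacc : ∀ y r, y < 2 ^ K → r < 2 ^ K → (Acc P x y r ↔ 2 ^ 61 ≤ N ∧
      eG (opsN (bit x)) y r n = 1) := by
    intro y r hy hr
    rw [(hP x y r _ hy hr).2, EG_val]
    rfl
  by_cases hN61 : 2 ^ 61 ≤ N
  · have hbd : 2 ^ 61 * n ^ 10 ≤ N := pw_le hN61
    have hybd : 16 * (gR n * (gB n * gB n)) ≤ 2 ^ K := by
      have h1 := code_bound hbd
      have h2 : N < 2 ^ (Nat.log 2 N + 1) := Nat.lt_pow_succ_log_self (by norm_num) N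
      have h3 : 2 ^ (Nat.log 2 N + 2) ≤ 2 ^ K := Nat.pow_le_pow_right (by norm_num) (hk)
      have h4 : 2 ^ (Nat.log 2 N + 2) = 2 * 2 ^ (Nat.log 2 N + 1) := by
        rw [pow_succ']
      omega
    have hacc' : ∀ r, r < 2 ^ K → ((∃ y < 2 ^ K, Acc P x y r) ↔
        ∃ y < 2 ^ K, eG (opsN (bit x)) y r n = 1) := by
      intro r hr
      constructor
      · rintro ⟨y, hy, h⟩
        exact ⟨y, hy, ((hacc y r hy hr).mp h).2⟩
      · rintro ⟨y, hy, h⟩
        exact ⟨y, hy, (hacc y r hy hr).mpr ⟨hN61, h⟩⟩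
    have hM0 : 0 < 4 * n := by omega
    obtain ⟨l, hl, hlk⟩ : ∃ l, 4 * n = 2 ^ l ∧ l ≤ K := by
      refine ⟨(Nat.log 2 N - 61) / 10 + 2, ?_, ?_⟩
      · rw [hn]
        unfold pw
        rw [pow_add]
        ring
      · have h1 : (Nat.log 2 N - 61) / 10 ≤ Nat.log 2 N :=
          (Nat.div_le_self _ _).trans (Nat.sub_le _ _)
        have := hk
        omega
    have hblock := pr_block hPr hlk hl hM0 (ones (pubs (gtab x n)))
    have hMR : ((4 * n : ℕ) : ℝ) = 4 * n := by push_cast; ring
    have hn' : (0 : ℝ) < 4 * n := by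
      have : (1 : ℝ) ≤ n := by exact_mod_cast hn1
      linarith
    rw [hMR] at hblock
    constructor
    · rintro ⟨-, hx⟩
      change F2 (gtab x n) = true at hx
      rw [F2_eq_true] at hx
      rw [pr_eq_of hacc']
      by_cases hV : Valid (gapSys n (gm n)) (gtab x n)
      · have h3 : 3 * n ≤ (ones (pubs (gtab x n))).card := by
          rcases hx with hx | hx
          · exact absurd hV hx
          · rcases dichotomy2 hV with h | h
            · exact absurd h (by
                have := hx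
                omega)
            · exact h
        refine le_trans ?_ (hPr.1 K (fun r => (⟨r % (4 * n), Nat.mod_lt _ hM0⟩ :
          Fin (4 * n)) ∈ ones (pubs (gtab x n))) _ fun r hr h => ?_)
        · rw [hblock, le_div_iff₀ hn']
          have : (3 * n : ℝ) ≤ (ones (pubs (gtab x n))).card := by exact_mod_cast h3
          linarith
        · obtain ⟨y, hy, h5⟩ := acc_pub hn1 h
          exact ⟨y, by omega, h5 r rfl⟩
      · obtain ⟨y, hy, h5⟩ := acc_defect hn1 hV
        refine le_trans ?_ (hPr.1 K (fun _ => True) _ fun r hr _ => ⟨y, by omega, h5 r⟩)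
        unfold pr
        rw [Nat.card_congr (Equiv.subtypeUnivEquiv fun _ => trivial)]
        rw [Nat.card_eq_fintype_card, Fintype.card_fin]
        push_cast
        rw [div_self (by positivity)]
        norm_num
    · intro hx
      have hx2 : ¬ F2 (gtab x n) = true := fun h => hx ⟨hN61, h⟩
      rw [Bool.not_eq_true, F2_eq_false] at hx2
      rw [pr_eq_of hacc']
      refine (hPr.1 K _ (fun r => (⟨r % (4 * n), Nat.mod_lt _ hM0⟩ :
          Fin (4 * n)) ∈ ones (pubs (gtab x n))) fun r hr h => ?_).trans ?_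
      · obtain ⟨y, hy, h5⟩ := h
        exact acc_sound hn1 hx2.1 h5
      · rw [hblock, div_le_iff₀ hn']
        have : ((ones (pubs (gtab x n))).card : ℝ) ≤ n := by exact_mod_cast hx2.2
        linarith
  · constructor
    · rintro ⟨h, -⟩
      exact absurd h hN61
    · intro _
      have : pr K (fun r => ∃ y < 2 ^ K, Acc P x y r) ≤ pr K fun _ => False := by
        refine hPr.1 _ _ _ fun r hr h => ?_
        obtain ⟨y, hy, h5⟩ := h
        exact hN61 ((hacc y r hy hr).mp h5).1
      refine this.trans ?_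
      unfold pr
      simp

end Pool.Agent.Lib.MP_ff3ed7_lc.MH
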