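import Pool.Agent.Lib.MP_ff3ed7_lc.MH.Main0
import Pool.Agent.Lib.MP_ff3ed7_lc.MH.TvC
import Pool.Agent.Lib.MP_ff3ed7_lc.MH.Tab
import Pool.Agent.Lib.MP_ff3ed7_lc.MH.NuT
import Pool.Agent.Lib.MP_ff3ed7_lc.MH.Lin
import Pool.Agent.Lib.MP_ff3ed7_lc.MH.HiA
import Pool.Agent.Lib.MP_ff3ed7_lc.MH.HiL
import Pool.Agent.Lib.MP_ff3ed7_lc.MH.HiV
import Pool.Agent.Lib.MP_ff3ed7_lc.MH.HiR
import Pool.Agent.Lib.MP_ff3ed7_lc.MH.FoA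
import Pool.Agent.Lib.MP_ff3ed7_lc.MH.FoB
import Pool.Agent.Lib.MP_ff3ed7_lc.MH.Fou
import Pool.Agent.Lib.MP_ff3ed7_lc.MH.Lay
import Pool.Agent.Lib.MP_ff3ed7_lc.MH.Low
import Pool.Agent.Lib.MP_ff3ed7_lc.MH.NuA
import Pool.Agent.Lib.MP_ff3ed7_lc.MH.NuB
import Pool.Agent.Lib.MP_ff3ed7_lc.MH.NuC
import Pool.Agent.Lib.MP_ff3ed7_lc.MH.NuD
import Pool.Agent.Lib.MP_ff3ed7_lc.MH.Nuc
import Pool.Agent.Lib.MP_ff3ed7_lc.MH.Inv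
import Pool.Agent.Lib.MP_ff3ed7_lc.MH.Jrc
import Pool.Agent.Lib.MP_ff3ed7_lc.MH.Tr
import Pool.Agent.Lib.MP_ff3ed7_lc.MH.Cnd
import Pool.Agent.Lib.MP_ff3ed7_lc.MH.Pow
import Pool.Agent.Lib.MP_ff3ed7_lc.MH.Nma
import Pool.Agent.Lib.MP_ff3ed7_lc.MH.Jma
import Pool.Agent.Lib.MP_ff3ed7_lc.MH.Cma
import Pool.Agent.Lib.MP_ff3ed7_lc.MH.Cme
import Pool.Agent.Lib.MP_ff3ed7_lc.MH.Cgp
import Pool.Agent.Lib.MP_ff3ed7_lc.MH.Psh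
import Pool.Agent.Lib.MP_ff3ed7_lc.MH.Dua
import Pool.Agent.Lib.MP_ff3ed7_lc.MH.MaB
import Pool.Agent.Lib.MP_ff3ed7_lc.MH.MaG
import Pool.Agent.Lib.MP_ff3ed7_lc.MH.SpG
import Pool.Agent.Lib.MP_ff3ed7_lc.MH.HvT
import Pool.Agent.Lib.MP_ff3ed7_lc.MH.HvI
import Pool.Agent.Lib.MP_ff3ed7_lc.MH.HvR
import Pool.Agent.Lib.MP_ff3ed7_lc.MH.HVi
import Pool.Agent.Lib.MP_ff3ed7_lc.MH.HUa
import Pool.Agent.Lib.MP_ff3ed7_lc.MH.HUb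
import Pool.Agent.Lib.MP_ff3ed7_lc.MH.UnG
import Pool.Agent.Lib.MP_ff3ed7_lc.MH.UnB
import Pool.Agent.Lib.MP_ff3ed7_lc.MH.HMe
import Pool.Agent.Lib.MP_ff3ed7_lc.MH.HSm
import Pool.Agent.Lib.MP_ff3ed7_lc.MH.ClM
import Pool.Agent.Lib.MP_ff3ed7_lc.MH.ClS
import Pool.Agent.Lib.MP_ff3ed7_lc.MH.ClP
import Pool.Agent.Lib.MP_ff3ed7_lc.MH.HEng
import Pool.Agent.Lib.MP_ff3ed7_lc.MH.HGen
import Pool.Agent.Lib.MP_ff3ed7_lc.MH.HInM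
import Pool.Agent.Lib.MP_ff3ed7_lc.MH.HInS
import Pool.Agent.Lib.MP_ff3ed7_lc.PLT.Main

/-!
# PROJECT MH: the theorem
-/

set_option autoImplicit false

open Finset

namespace Pool.Agent.Lib.MP_ff3ed7_lc.MH

open Pool.Agent.Lib.MP_ff3ed7_lc.PLT

private theorem num : ∀ N k p s t : ℕ, 2 ^ 37000 * cst N k p s t ^ 25600 < N → NumC N k p s t :=
  tNuc tTvC tTab tNuT tLin tHiA tHiL tHiV tHiR tFoA tFoB (tFou tHiV tLin) tLay tLow tNuA tNuB tNuC tNuD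

/-- `MA`, `SBP` and `AM` for machines with several input heads. -/
theorem mh_main :
    (MAmh ⊂ SBPmh ∧ SBPmh ⊂ AMmh ∧ ¬ AMmh ⊆ PPmh) ∧
    (∃ (L : Set (List Bool)) (C : ℕ),
      L ∈ SBPh 2 (fun n => 2 * (Nat.log 2 n + 2)) (fun n => C * (n + 1) * (Nat.log 2 n + 2) ^ 3)
        (fun n => C * (Nat.log 2 n + 2) ^ 2) (fun n => Nat.log 2 n + 2) ∧
      ∀ n k p s t, HasMAh k (slice L n) p s t →
        n ≤ C * ((k + 1) * (p + 1) * (s + 1) * (t / n + 1)) ^ 25600) ∧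
    ∃ (L : Set (List Bool)) (C : ℕ),
      L ∈ AMh 2 (fun n => Nat.log 2 n + 2) (fun n => C * (n + 1) * (Nat.log 2 n + 2) ^ 3)
        (fun n => C * (Nat.log 2 n + 2) ^ 2) ∧
      ∀ n k p s t, (HasMAh k (slice L n) p s t ∨ HasSBPh k (slice L n) p s t ∨
          HasPPh k (slice L n) p s t) →
        n ≤ C * ((k + 1) * (p + 1) * (s + 1) * (t / n + 1)) ^ 25600 :=
  mh_main' (tHMe tHvT tHvI tHvR tHVi tHUa tHUb tUnG tUnB)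
    (tMaB num tPsh tDua tInv tJrc tTr tCnd tPow tNma tJma tCma)
    (tMaG num tPsh tDua tInv tJrc tTr tCnd tPow tNma tJma tCme)
    (tSpG num tPsh tDua tInv tJrc tTr tCnd tCgp)
    (tClM tHSm) (tClS tHSm) (tClP tHSm)
    (tHInM (tHGen tHEng) tPrB (tAmp tPrB) tMaSbp)
    (tHInS (tHGen tHEng) tPrB tHash tSet tSbpAm)

end Pool.Agent.Lib.MP_ff3ed7_lc.MH
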