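import Pool.Agent.Lib.MP_ff3ed7_lc.MH.HBas

/-!
# PROJECT MH, part I: the inclusions of the classes

Every `S_X` is to be proved as `theorem tX : S_X` in its own module
`Pool/Agent/Lib/MP_ff3ed7_lc/MH/X.lean` (namespace `Pool.Agent.Lib.MP_ff3ed7_lc.MH`), importing this
file.  Statements which are used are hypotheses, so all modules are independent.
-/

set_option autoImplicit false

open Finset

namespace Pool.Agent.Lib.MP_ff3ed7_lc.MH

open Pool.Agent.Lib.MP_ff3ed7_lc.PLT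
open Pool.Agent.Lib.MP_ff3ed7_lc.SQ (dst ql NR)

/-- The engine. -/
def heng {k : ℕ} (P : HProg k) (R : ℕ) : HProg k :=
  .loop (.reg (R + 4)) (.seq (hup k (pre R)) (.seq P (hup k (post R))))

/-- **HEng.**  Copy of `seng_run` (`SQ/SEng.lean`): `hlift`, `hloop_of`, `HRun.frame`, `HRun.move`,
`HRun.head_le`, `HRun.bd`, `HRun.mem_mono`, `HRun.acc` (`MH/HBas.lean`) instead of `lift`, `sloop_of`,
`SRun.frame`, ...; only `pre R` and `post R` (which do not read) become `hup k (pre R)`,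
`hup k (post R)`.  The motion: `HRun.move` with the heads on `g` instead of `0`,
`∑ a, dst (g a) 0 = ∑ a, g a ≤ k * x.length`. -/
def S_HEng : Prop := ∀ (k : ℕ) (P : HProg k) (R : ℕ), 3 ≤ R → P.Lt R →
  ∃ K, 1 ≤ K ∧ ∀ (x : List Bool) (Y RR κ M t B S : ℕ) (g : Fin k → ℕ) (s : ℕ → ℕ),
    s R = x.length → s (R + 1) = Y → s (R + 2) = RR → s (R + 3) = 2 ^ κ → s (R + 4) = M →
    s (R + 5) = 0 → (∀ i < M, HStops P x Y (blk κ RR i) t B) → 1 ≤ B → K * B ≤ S →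
    (∀ a, g a ≤ x.length) → PLT.Bd s B →
    ∃ s' g' c, HRun x S (heng P R) s g s' g' c ∧ c ≤ (K * B + (t + k * x.length)) * (M + 1) ∧
      s' (R + 5) = Nat.card {i : Fin M // HAcc P x Y (blk κ RR i)} ∧
      s' R = s R ∧ s' (R + 1) = s (R + 1) ∧ s' (R + 3) = s (R + 3) ∧
      (∀ i, R + 6 ≤ i → s' i = s i) ∧ PLT.Bd s' B ∧ ∀ a, g' a ≤ x.length

/-- The general program transformation (proved in `S_HGen`). -/
def S_HGenC : Prop := ∀ (k : ℕ) (P : HProg k) (R : ℕ), 3 ≤ R → P.Lt R →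
  ∀ (c e : ℕ) (EY ER EM ET : Expr)
    (fY fR fM : ℕ → ℕ → ℕ → ℕ → ℕ → ℕ) (fT : ℕ → ℕ → ℕ → ℕ → ℕ → ℕ → ℕ),
    (∀ s, EY.val s = fY (s (R + 6)) (s (R + 7)) (s (R + 8)) (s (R + 9)) (s (R + 10))) →
    (∀ s, ER.val s = fR (s (R + 6)) (s (R + 7)) (s (R + 8)) (s (R + 9)) (s (R + 10))) →
    (∀ s, EM.val s = fM (s (R + 6)) (s (R + 7)) (s (R + 8)) (s (R + 9)) (s (R + 10))) →
    (∀ s, ET.val s =
      fT (s (R + 6)) (s (R + 7)) (s (R + 8)) (s (R + 9)) (s (R + 10)) (s (R + 5))) →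
    ∃ (P' : HProg k) (C : ℕ), 1 ≤ C ∧ ∀ (x : List Bool) (y r t B κ u Y RR M : ℕ),
      κ = pl c x.length → u = pl e x.length → Y = fY y r κ (2 ^ κ) (2 ^ u) →
      RR = fR y r κ (2 ^ κ) (2 ^ u) → M = fM y r κ (2 ^ κ) (2 ^ u) →
      1 ≤ B → κ + 1 ≤ B → u + 1 ≤ B → x.length < 2 ^ B → y < 2 ^ B → r < 2 ^ B →
      (∀ i < M, HStops P x Y (blk κ RR i) t B) →
      HStops P' x y r (C * ((B * B + (t + k * x.length)) * (M + 1))) (C * (B * B)) ∧
      (HAcc P' x y r ↔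
        fT y r κ (2 ^ κ) (2 ^ u) (Nat.card {i : Fin M // HAcc P x Y (blk κ RR i)}) = 1)

/-- **HGen.**  Copy of `sgen` (`SQ/SGen2.lean`): the program is
`seq (hup k Q) (seq (heng P R) (hup k A9))`, `Q` from `sprep R` (`SQ/SGen.lean`); `hlift` instead of
`lift`, `HRun.acc` for the last part. -/
def S_HGen : Prop := S_HEng → S_HGenC

/-- **HInM.**  Copy of `MAql_subset_SBPql` (`SQ/SInc.lean`); the number `k` of heads is not changed, the
only difference is the time: `t + k * x.length` (in `time_bound`: `C * ((pl b n * pl b n +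
(ql d n + k * n)) * (M + 1)) ≤ ql (C + k + (2 + (b + b + d) + m)) n`, because
`pl b n * pl b n + (ql d n + k * n) ≤ (k + 1) * (pl b n * pl b n + (ql d n + n))`,
`k + 1 ≤ 2 ^ k ≤ pl k n`). -/
def S_HInM : Prop := S_HGenC → S_PrB → S_Amp → S_MaSbp → MAmh ⊆ SBPmh

/-- **HInS.**  Copy of `SBPql_subset_AMql` (`SQ/SInc.lean`, with `SBPs_enlarge`); the number `k` of heads
is not changed, the time as in `S_HInM`. -/
def S_HInS : Prop := S_HGenC → S_PrB → S_Hash → S_Set → S_SbpAm → SBPmh ⊆ AMmh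

end Pool.Agent.Lib.MP_ff3ed7_lc.MH
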