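import Pool.Agent.Lib.MP_ff3ed7_lc.MH.Def
import Pool.Agent.Lib.MP_ff3ed7_lc.PLT.BDef
import Pool.Agent.Lib.MP_ff3ed7_lc.PLT.G2
import Pool.Agent.Lib.MP_ff3ed7_lc.PLT.Frame
import Pool.Agent.Lib.MP_ff3ed7_lc.PLT.Lang3

/-!
# PROJECT MH: statements for the upper bounds, and the classes

Every `S_X` is to be proved as `theorem tX : S_X` in its own module
`Pool/Agent/Lib/MP_ff3ed7_lc/MH/X.lean` (namespace `Pool.Agent.Lib.MP_ff3ed7_lc.MH`), importing this
file.  Statements which are used are hypotheses, so all modules are independent.  Models: `SQ/Vir.lean`,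
`SQ/Up.lean`, `SQ/Sml.lean`, `SQ/Main0.lean`, `SQ/Fin.lean` (one head, another virtual word).
-/

set_option autoImplicit false

open Finset

namespace Pool.Agent.Lib.MP_ff3ed7_lc.MH

open Pool.Agent.Lib.MP_ff3ed7_lc.PLT
open Pool.Agent.Lib.MP_ff3ed7_lc.SQ (dst ql)

/-! ### The program for one virtual bit

Registers: `R`: `j`; `R + 1`: the sum modulo `2`; `R + 2`: `u`; `R + 3`, `R + 4`: `T (2 u) j` and
`T (2 u + 1) j`; `R + 5`: a counter; `R + 6`, `R + 7`: bits; `R + 8`: a power of two; constants: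
`R + 9`: `m`; `R + 10`: `3 mu`; `R + 11`: `P`; `R + 12`: `B`; `R + 13`: `2 ^ (lam - 1)`. -/

/-- The constants. -/
def Cst (R N : ℕ) (u : ℕ → ℕ) : Prop :=
  u (R + 9) = vm N ∧ u (R + 10) = 3 * (Nat.log 2 N / 8) ∧ u (R + 11) = vp N ∧ u (R + 12) = vB N ∧
    u (R + 13) = 2 ^ (Nat.log 2 N - 1)

/-- `2 * u + c`. -/
def eU (R c : ℕ) : Expr := .add (.mul (.num 2) (.reg (R + 2))) (.num c)

/-- Register `R + 3 + c` gets `T (2 u + c) j`. -/
def hT (R c : ℕ) : HProg 2 :=
  .seq (.set (R + 3 + c) (.num 0)) (.seq (.set (R + 8) (.num 1)) (.seq (.set (R + 5) (.num 0))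
    (.loop (.sub (.reg (R + 10)) (.reg (R + 5)))
      (.seq (.read (R + 6) 0 (.add (.mul (.add (.mul (eU R c) (.reg (R + 9))) (.reg R))
        (.reg (R + 10))) (.reg (R + 5))))
      (.seq (.set (R + 3 + c) (.add (.reg (R + 3 + c)) (.mul (.reg (R + 6)) (.reg (R + 8)))))
      (.seq (.set (R + 8) (.mul (.num 2) (.reg (R + 8))))
        (.set (R + 5) (.add (.reg (R + 5)) (.num 1)))))))))

/-- The address of cell number `R + 5` of the block `(2 u + c, register R + 3 + c)`. -/
def eB (R c : ℕ) : Expr :=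
  .add (.add (.reg (R + 13)) (.mul (.add (.mul (eU R c) (.reg (R + 11))) (.reg (R + 3 + c)))
    (.mul (.num 2) (.reg (R + 12))))) (.reg (R + 5))

/-- The inner product of the two blocks is added to register `R + 1`, modulo `2`. -/
def hI (R : ℕ) : HProg 2 :=
  .seq (.set (R + 5) (.num 0))
    (.loop (.sub (.reg (R + 12)) (.reg (R + 5)))
      (.seq (.read (R + 6) 0 (eB R 0)) (.seq (.read (R + 7) 1 (eB R 1))
      (.seq (.set (R + 1) (.mod (.add (.reg (R + 1)) (.mul (.reg (R + 6)) (.reg (R + 7)))) (.num 2)))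
        (.set (R + 5) (.add (.reg (R + 5)) (.num 1)))))))

/-- Register `i` gets bit number `e` of the virtual word. -/
def hread (R i : ℕ) (e : Expr) : HProg 2 :=
  .seq (.set R e) (.ite (.sub (.reg (R + 9)) (.reg R))
    (.seq (.set (R + 1) (.num 0)) (.seq (.set (R + 2) (.num 0))
      (.seq (.loop (.sub (.num 80) (.reg (R + 2)))
        (.seq (hT R 0) (.seq (hT R 1) (.seq (hI R) (.set (R + 2) (.add (.reg (R + 2)) (.num 1)))))))
        (.set i (.reg (R + 1))))))
    (.set i (.num 0)))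

/-- The program which works on the virtual word. -/
def hvir (R : ℕ) : Prog → HProg 2
  | .set i e => .set i e
  | .read i e => hread R i e
  | .seq p q => .seq (hvir R p) (hvir R q)
  | .ite e p q => .ite e (hvir R p) (hvir R q)
  | .loop e p => .loop e (hvir R p)

/-- **HvT** (one number of the header).

A loop with `3 * mu` rounds (`mu = log_2 N / 8`); invariant after `i` rounds: register `R + 5`
contains `i`, register `R + 8` contains `2 ^ i`, register `R + 3 + c` contains
`∑ i' < i, bit z (hdc N (2 v + c) j i') * 2 ^ i' < 2 ^ i`, the heads are on cells `≤ N`.  The address is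
`hdc N (2 v + c) j i < N` (`160 * vm N * (3 mu) ≤ N`), not more than `N`, so head `0` really goes there
(anyway `bit z e = 0` for `e ≥ N`).  Cost of a round: at most `N` for the motion, and the expressions
have `O(1)` operations with values smaller than `2 ^ (lam + 10)`: at most `C * (lam + 10) ≤ C' * (N + 1)`
(`lam ≤ N`); so the total cost is at most `K * (N + 1) * (lam + 1)`. -/
def S_HvT : Prop := ∃ K : ℕ, 1 ≤ K ∧ ∀ (R c v j : ℕ) (z : List Bool) (S : ℕ) (u : ℕ → ℕ)
    (h : Fin 2 → ℕ), c ≤ 1 → v < 80 → 2 ^ 320 ≤ z.length → Cst R z.length u → u (R + 2) = v →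
    u R = j → j < vm z.length → PLT.Bd u S → Nat.log 2 z.length + 20 ≤ S → (∀ a, h a ≤ z.length) →
    ∃ (u' : ℕ → ℕ) (h' : Fin 2 → ℕ) (c' : ℕ), HRun z S (hT R c) u h u' h' c' ∧
      c' ≤ K * (z.length + 1) * (Nat.log 2 z.length + 1) ∧ u' (R + 3 + c) = hdT z (2 * v + c) j ∧
      (∀ i, i ≠ R + 3 + c → i ≠ R + 5 → i ≠ R + 6 → i ≠ R + 8 → u' i = u i) ∧
      PLT.Bd u' S ∧ ∀ a, h' a ≤ z.length

/-- **HvI** (one inner product).

A loop with `B` rounds.  The blocks are in cells smaller than `2 ^ lam ≤ N`, so the heads are on the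
cells `blc N (2 v) T0 i` and `blc N (2 v + 1) T1 i` after round `i`, and in the next round each of them
moves by one cell; only the first round costs up to `2 N`.  The expressions cost at most
`C * (lam + 1)` per round.  Total: `2 N + B * (2 + C * (lam + 1)) ≤ K * (N + 1) * (lam + 1)`
(`B ≤ N`).  The sum: `(a + b) % 2` round by round. -/
def S_HvI : Prop := ∃ K : ℕ, 1 ≤ K ∧ ∀ (R v : ℕ) (z : List Bool) (S : ℕ) (u : ℕ → ℕ)
    (h : Fin 2 → ℕ), v < 80 → 2 ^ 320 ≤ z.length → Cst R z.length u → u (R + 2) = v →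
    u (R + 3) < vp z.length → u (R + 4) < vp z.length → u (R + 1) < 2 →
    PLT.Bd u S → Nat.log 2 z.length + 20 ≤ S → (∀ a, h a ≤ z.length) →
    ∃ (u' : ℕ → ℕ) (h' : Fin 2 → ℕ) (c' : ℕ), HRun z S (hI R) u h u' h' c' ∧
      c' ≤ K * (z.length + 1) * (Nat.log 2 z.length + 1) ∧
      u' (R + 1) = (u (R + 1) + ∑ i ∈ range (vB z.length),
        bit z (blc z.length (2 * v) (u (R + 3)) i) *
          bit z (blc z.length (2 * v + 1) (u (R + 4)) i)) % 2 ∧
      (∀ i, i ≠ R + 1 → i ≠ R + 5 → i ≠ R + 6 → i ≠ R + 7 → u' i = u i) ∧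
      PLT.Bd u' S ∧ ∀ a, h' a ≤ z.length

/-- **HvR** (one virtual bit).

If `j = e.val u < vm N`: a loop with `80` rounds; by `S_HvT` (twice; `hdT z r j < vp N`, a number with
`3 mu` binary digits) and `S_HvI` the register `R + 1` contains `(∑ u' < v, vip z j u') % 2` after `v`
rounds, so at the end `1` if `hbit z j` and `0` otherwise, which is `bit (hw z) j`
(`hw z = List.ofFn ..`, length `vm N`).  If `vm N ≤ j` then `bit (hw z) j = 0`.  `i < R`.
The cost: `80` rounds of cost at most `3 * K * (N + 1) * (lam + 1) + O(1)`, and twice the cost of `e`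
(`Nat.size (e.val u) ≤ e.cost u`, `1 ≤ e.cost u`). -/
def S_HvR : Prop := S_HvT → S_HvI → ∃ K : ℕ, 1 ≤ K ∧ ∀ (R i : ℕ) (e : Expr) (z : List Bool) (S : ℕ)
    (u : ℕ → ℕ) (h : Fin 2 → ℕ), i < R → 2 ^ 320 ≤ z.length → Cst R z.length u →
    e.val u < 2 ^ S → PLT.Bd u S → Nat.log 2 z.length + 20 ≤ S → (∀ a, h a ≤ z.length) →
    ∃ (u' : ℕ → ℕ) (h' : Fin 2 → ℕ) (c' : ℕ), HRun z S (hread R i e) u h u' h' c' ∧
      c' ≤ K * (z.length + 1) * (Nat.log 2 z.length + 1) * e.cost u ∧
      u' i = bit (hw z) (e.val u) ∧ (∀ i', i' < R → i' ≠ i → u' i' = u i') ∧ Cst R z.length u' ∧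
      PLT.Bd u' S ∧ ∀ a, h' a ≤ z.length

/-- **HVi** (simulation).  Model: `S_Vir`, `SQ/Vir.lean`.  Induction on the run; `set`, tests:
`Expr.Lt.congr`, `Expr.size_le_cost`; values are bounded by `2 ^ S` because the number of bits of a value
is at most its cost and `c + .. ≤ S`; `read i e`: `S_HvR` (`i < R` and the registers of `e` are smaller
than `R` by `P.Lt R`). -/
def S_HVi : Prop := S_HvT → S_HvI → S_HvR → ∃ K : ℕ, 1 ≤ K ∧ ∀ (R : ℕ) (P : Prog) (z : List Bool)
    (s s' : ℕ → ℕ) (c : ℕ), P.Lt R → 2 ^ 320 ≤ z.length → Run (hw z) P s s' c →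
    ∀ (S : ℕ) (u : ℕ → ℕ) (h : Fin 2 → ℕ), (∀ i < R, s i = u i) → Cst R z.length u →
    PLT.Bd u S → c + Nat.log 2 z.length + 20 ≤ S → (∀ a, h a ≤ z.length) →
    ∃ (u' : ℕ → ℕ) (h' : Fin 2 → ℕ) (c' : ℕ), HRun z S (hvir R P) u h u' h' c' ∧
      c' ≤ K * (z.length + 1) * (Nat.log 2 z.length + 1) * c ∧ (∀ i < R, s' i = u' i) ∧
      Cst R z.length u' ∧ PLT.Bd u' S ∧ ∀ a, h' a ≤ z.length

/-- **HUa** (the program for the virtual language).  Model: `S_Up`, `SQ/Up.lean`.

`P.Lt R`, `3 ≤ R` (`Prog.exists_lt`).  The new program `P'`: if `N + 1 - 2 ^ 320 = 0` (register `0`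
contains `N`) it puts `0` into register `0`; otherwise it computes `T = 2 ^ lam` in register `R`
(`T := 1`; while `N + 1 - 2 T ≠ 0` do `T := 2 T` and count the rounds in register `R + 1`),
`mu = lam / 8` in register `R + 2`, register `R + 10` gets `3 mu`, register `R + 9` gets `m = 2 ^ mu` (a
loop with `mu` rounds), register `R + 11` gets `m * m * m`, register `R + 13` gets `T / 2`, register
`R + 12` gets `T / (1024 * P)` (`2 ^ lam / (2 ^ 10 * 2 ^ (3 mu)) = 2 ^ (lam - 10 - 3 mu)`, as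
`10 + 3 mu ≤ lam`), register `0` gets `m = (hw z).length`, and `hvir R P` is executed (`S_HVi`; the
state agrees with `ini m y r` below `R`).  The preparation costs `O((lam + 1) ^ 2) = O(N + 1)`.  Register
`0` has the same content at the end, so `HAcc P' z y r ↔ Acc P (hw z) y r` (an `HRun` is
deterministic, also for different `S`: prove it by induction as `Run.det` of `PLT.Lang2`).  `Stops`
gives the run of `P`.  All numbers have at most `S = t + K + lam + C` bits. -/
def S_HUa : Prop := S_HvT → S_HvI → S_HvR → S_HVi → ∀ P : Prog, ∃ (P' : HProg 2) (C : ℕ),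
  ∀ (z : List Bool) (y r K t : ℕ), y < 2 ^ K → r < 2 ^ K →
    (2 ^ 320 ≤ z.length → Stops P (hw z) y r t →
      HStops P' z y r (C * (z.length + 1) * (Nat.log 2 z.length + 1) * (t + 1))
        (t + K + Nat.log 2 z.length + C) ∧ (HAcc P' z y r ↔ Acc P (hw z) y r)) ∧
    (z.length < 2 ^ 320 →
      HStops P' z y r (C * (z.length + 1) * (Nat.log 2 z.length + 1) * (t + 1))
        (t + K + Nat.log 2 z.length + C) ∧ ¬ HAcc P' z y r)

/-- **HUb** (the same, with a test of `g = lam - lam / 8` coins).  As `S_HUa`; before register `0` is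
changed the program computes `G = T / 2 ^ mu = 2 ^ (lam - mu)` in a new register; if `r % G ≠ 0` (register
`2`) it puts `0` into register `0` and stops; otherwise register `2` gets `r / G` and the program goes
on as in `S_HUa`.  (Either copy `MH/HUa.lean`, or apply `S_HUa` to the program for virtual words which
does this: it is `Prog.seq` of a program computing `lam` .. no: the virtual word knows only `lam / 8`, so
the computation must be done by the `HProg` in front: `P'' = seq A (ite test (seq (set 2 (r / G)) P') (set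
0 0))` with `A` computing `G` in a register `R' ` above all registers of `P'`, and `A` must leave the
registers `< R'` unchanged; the heads are still on cell `0`.) -/
def S_HUb : Prop := S_HvT → S_HvI → S_HvR → S_HVi → ∀ P : Prog, ∃ (P' : HProg 2) (C : ℕ),
  ∀ (z : List Bool) (y r K t : ℕ), y < 2 ^ K → r < 2 ^ K →
    (2 ^ 320 ≤ z.length → Stops P (hw z) y (r / 2 ^ (Nat.log 2 z.length - Nat.log 2 z.length / 8)) t →
      HStops P' z y r (C * (z.length + 1) * (Nat.log 2 z.length + 1) * (t + K + 1))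
        (t + K + Nat.log 2 z.length + C) ∧
      (HAcc P' z y r ↔ r % 2 ^ (Nat.log 2 z.length - Nat.log 2 z.length / 8) = 0 ∧
        Acc P (hw z) y (r / 2 ^ (Nat.log 2 z.length - Nat.log 2 z.length / 8)))) ∧
    (z.length < 2 ^ 320 →
      HStops P' z y r (C * (z.length + 1) * (Nat.log 2 z.length + 1) * (t + K + 1))
        (t + K + Nat.log 2 z.length + C) ∧ ¬ HAcc P' z y r)

/-- **UnG** (a uniform verifier for `LG`).  This is `gAM` (`PLT/G3.lean`; import it and copy the proof)
with the program and the constant chosen before the number `K` of coins: the proof works for one length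
`N` with `k N = K`. -/
def S_UnG : Prop := ∃ (P : Prog) (C : ℕ), ∀ (x : List Bool) (K : ℕ), Nat.log 2 x.length + 2 ≤ K →
  (∀ y r, y < 2 ^ K → r < 2 ^ K → Stops P x y r (C * (Nat.log 2 x.length + K + 1) ^ 2)) ∧
  (x ∈ LG → 2 / 3 ≤ pr K fun r => ∃ y < 2 ^ K, Acc P x y r) ∧
  (x ∉ LG → pr K (fun r => ∃ y < 2 ^ K, Acc P x y r) ≤ 1 / 3)

/-- **UnB** (a uniform verifier for `LB`).  This is `LB_mem` (`PLT/BUp.lean`; import it and copy the
proof) with the program and the constant chosen before the number `K` of coins. -/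
def S_UnB : Prop := ∃ (P : Prog) (C : ℕ), ∀ (x : List Bool) (K : ℕ),
  2 * (Nat.log 2 x.length + 2) ≤ K →
  (∀ y r, y < 2 ^ K → r < 2 ^ K → Stops P x y r (C * (Nat.log 2 x.length + K + 1) ^ 2)) ∧
  (x ∈ LB → 2 * (1 / 2) ^ (Nat.log 2 x.length + 2) ≤ pr K fun r => Acc P x 0 r) ∧
  (x ∉ LB → pr K (fun r => Acc P x 0 r) ≤ (1 / 2) ^ (Nat.log 2 x.length + 2))

/-- **HMe** (the virtual languages are in `AM` resp. `SBP`).

`log_2 (vm N) = log_2 N / 8`, `(hw z).length = vm z.length`.  `AM`: `S_UnG` for `x = hw z`,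
`K = κ z.length`, then `S_HUa` with `t = C (.. )^ 2`.  For `N < 2 ^ 320` nothing is accepted and
`z ∉ hlang LG`; `pr K (fun _ => False) = 0`.  `SBP`: `S_HUb` and `S_UnB` with `K' = κ n - g`,
`g = lam - lam / 8` coins (`2 (lam / 8 + 2) ≤ K'`, as `2 (lam + 2) ≤ κ n`; `r / 2 ^ g < 2 ^ K'`); the
probability of `r % 2 ^ g = 0 ∧ A (r / 2 ^ g)` for `r < 2 ^ (g + K')` is `2 ^ (- g)` times `pr K' A`
(`S_PrB` part (5) of `PLT/SpecP.lean`; theorem in `PLT/PrB.lean`, import it), and
`g + (lam / 8 + 2) = lam + 2`.  `(log + κ + 1) ^ 2 * (log + 1) ≤ (log + κ + 1) ^ 3`. -/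
def S_HMe : Prop := S_HvT → S_HvI → S_HvR → S_HVi → S_HUa → S_HUb → S_UnG → S_UnB →
  ∃ C : ℕ, ∀ κ : ℕ → ℕ,
  ((∀ n, Nat.log 2 n + 2 ≤ κ n) → hlang LG ∈ AMh 2 κ
      (fun n => C * (n + 1) * (Nat.log 2 n + κ n + 1) ^ 3)
      (fun n => C * (Nat.log 2 n + κ n + 1) ^ 2)) ∧
  ((∀ n, 2 * (Nat.log 2 n + 2) ≤ κ n) → hlang LB ∈ SBPh 2 κ
      (fun n => C * (n + 1) * (Nat.log 2 n + κ n + 1) ^ 3)
      (fun n => C * (Nat.log 2 n + κ n + 1) ^ 2) (fun n => Nat.log 2 n + 2))

/-! ### Programs are machines, and the classes -/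

/-- **HSm** (programs are machines).  Model: `S_Sml` and its proof `SQ/Sml.lean` (one head, tape symbols
`Bool`); here `read i h e` is `visit h (min (e.val s) N) f` with `f (some b) =` the register `i` gets
`0` or `1`, `f none =` it gets `0` (`bit x j = 0` for `j ≥ N`).  States: the list of the programs which
remain to be done (from a finite set which depends only on `P`) and the registers
`Fin R → Fin (2 ^ S)`; the distance covered by all heads is at most the cost. -/
def S_HSm : Prop := ∀ (k : ℕ) (P : HProg k), ∃ K : ℕ, ∀ S : ℕ, ∃ (Q : Type) (_ : Fintype Q),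
  Fintype.card Q ≤ 2 ^ (K * (S + 1)) ∧ ∀ N y r t : ℕ,
    (∀ x : Fin N → Bool, HStops P (word x) y r t S) →
    ∃ M : HM k Q, (∀ (x : Fin N → Bool) T, (M.run (tape x) T).mot ≤ t) ∧
      ∀ x : Fin N → Bool, M.Acc (tape x) ↔ HAcc P (word x) y r

/-- **ClM** (a language with large slices is not in `MAmh`).  Model: `not_MAql` in `SQ`.

If `L ∈ MAh k (pl c) (ql d) (pl e)` with the program `P`: for every `N` and every message `y` and coins
`r` smaller than `2 ^ pl c N`, `S_HSm` with `S = pl e N` gives a machine with `2 ^ (K * (pl e N + 1))`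
states and motion at most `ql d N`; the numbers `y`, `r` correspond to `Fin (pl c N) → Bool` (`cd` of
`PLT/Lang3.lean`, as in `SQ`): `HasMAh k (slice L N) (pl c N) (K * (pl e N + 1)) (ql d N)`.  So
`N ≤ C * ((k + 1) * (pl c N + 1) * (K * (pl e N + 1) + 1) * (ql d N / N + 1)) ^ C` for all `N`; the right
side is at most `C' * (log_2 N + 2) ^ C'` (`ql d N / N ≤ 2 * pl d N` for `N ≥ 1`), which is false for
large `N` (there is such a lemma in `PLT` or `SQ`). -/
def S_ClM : Prop := S_HSm → ∀ L : Set (List Bool),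
  (∃ C : ℕ, ∀ N k p s t : ℕ, HasMAh k (slice L N) p s t →
    N ≤ C * ((k + 1) * (p + 1) * (s + 1) * (t / N + 1)) ^ C) → L ∉ MAmh

/-- **ClS** (the same for `SBPmh`).  As `S_ClM`, threshold `u = pl f N`. -/
def S_ClS : Prop := S_HSm → ∀ L : Set (List Bool),
  (∃ C : ℕ, ∀ N k u s t : ℕ, HasSBPh k (slice L N) u s t →
    N ≤ C * ((k + 1) * (u + 1) * (s + 1) * (t / N + 1)) ^ C) → L ∉ SBPmh

/-- **ClP** (the same for `PPmh`).  As `S_ClM`; a probability over `κ = pl c N` coins is a multiple of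
`2 ^ (- κ)`, so if it is larger than `1 / 2` it is at least `1 / 2 + 2 ^ (- κ)` (`1 ≤ κ`); the gap is
`g = pl c N`.  Model: the proof for `PPot` in `SQ`. -/
def S_ClP : Prop := S_HSm → ∀ L : Set (List Bool),
  (∃ C : ℕ, ∀ N k g s t : ℕ, HasPPh k (slice L N) g s t →
    N ≤ C * ((k + 1) * (g + 1) * (s + 1) * (t / N + 1)) ^ C) → L ∉ PPmh

end Pool.Agent.Lib.MP_ff3ed7_lc.MH
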