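import Pool.Agent.Lib.MP_ff3ed7_lc.MH.SpecN
import Pool.Agent.Lib.MP_ff3ed7_lc.MH.SpecU
import Pool.Agent.Lib.MP_ff3ed7_lc.MH.SpecI

/-!
# PROJECT MH: the theorem, from the statements of the single modules
-/

set_option autoImplicit false

open Finset

namespace Pool.Agent.Lib.MP_ff3ed7_lc.MH

open Pool.Agent.Lib.MP_ff3ed7_lc.PLT
open Pool.Agent.Lib.MP_ff3ed7_lc.SQ (dst ql)

private lemma hpl_one (n : ℕ) : pl 1 n = Nat.log 2 n + 2 := pow_one _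

private lemma hconst_mul_pl (C c n : ℕ) : C * pl c n ≤ pl (C + c) n := by
  have h1 : pl (C + c) n = pl C n * pl c n := pow_add _ _ _
  rw [h1]
  refine Nat.mul_le_mul_right _ ?_
  calc C ≤ 2 ^ C := Nat.lt_two_pow_self.le
    _ ≤ (Nat.log 2 n + 2) ^ C := Nat.pow_le_pow_left (by omega) C

lemma IsHVer.mono {k : ℕ} {P : HProg k} {κ t t' S S' : ℕ → ℕ} (h : IsHVer P κ t S)
    (ht : ∀ n, t n ≤ t' n) (hS : ∀ n, S n ≤ S' n) : IsHVer P κ t' S' :=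
  fun x y r hy hr => (h x y r hy hr).mono (ht _) (hS _)

lemma AMh_mono {k : ℕ} {κ t t' S S' : ℕ → ℕ} (ht : ∀ n, t n ≤ t' n) (hS : ∀ n, S n ≤ S' n) :
    AMh k κ t S ⊆ AMh k κ t' S' := fun _ ⟨P, h1, h2⟩ => ⟨P, h1.mono ht hS, h2⟩

lemma SBPh_mono {k : ℕ} {κ t t' S S' u : ℕ → ℕ} (ht : ∀ n, t n ≤ t' n) (hS : ∀ n, S n ≤ S' n) :
    SBPh k κ t S u ⊆ SBPh k κ t' S' u := fun _ ⟨P, h1, h2⟩ => ⟨P, h1.mono ht hS, h2⟩

lemma one_le_cst (N k p s t : ℕ) : 1 ≤ cst N k p s t := by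
  unfold cst
  exact Nat.mul_pos (Nat.mul_pos (Nat.mul_pos (Nat.succ_pos _) (Nat.succ_pos _))
    (Nat.succ_pos _)) (Nat.succ_pos _)

lemma cst_le {C C' N k p s t : ℕ} (h : C ≤ C') (hN : N ≤ C * cst N k p s t ^ 25600) :
    N ≤ C' * cst N k p s t ^ 25600 :=
  hN.trans (Nat.mul_le_mul_right _ h)

lemma cst_le' {C e N k p s t : ℕ} (hN : N ≤ C * cst N k p s t ^ e) :
    N ≤ (C + e) * cst N k p s t ^ (C + e) :=
  hN.trans (Nat.mul_le_mul (Nat.le_add_right C e)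
    (Nat.pow_le_pow_right (one_le_cst N k p s t) (Nat.le_add_left e C)))

/-- The theorem, from the statements of the single modules. -/
theorem mh_main'
    (hMe : ∃ C : ℕ, ∀ κ : ℕ → ℕ,
      ((∀ n, Nat.log 2 n + 2 ≤ κ n) → hlang LG ∈ AMh 2 κ
        (fun n => C * (n + 1) * (Nat.log 2 n + κ n + 1) ^ 3)
        (fun n => C * (Nat.log 2 n + κ n + 1) ^ 2)) ∧
      ((∀ n, 2 * (Nat.log 2 n + 2) ≤ κ n) → hlang LB ∈ SBPh 2 κ
        (fun n => C * (n + 1) * (Nat.log 2 n + κ n + 1) ^ 3)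
        (fun n => C * (Nat.log 2 n + κ n + 1) ^ 2) (fun n => Nat.log 2 n + 2)))
    (hB : ∃ C : ℕ, ∀ N k p s t : ℕ, HasMAh k (slice (hlang LB) N) p s t →
      N ≤ C * cst N k p s t ^ 25600)
    (hG : ∃ C : ℕ, ∀ N k p s t : ℕ, HasMAh k (slice (hlang LG) N) p s t →
      N ≤ C * cst N k p s t ^ 25600)
    (hSP : ∃ C : ℕ, ∀ N k u s t : ℕ,
      (HasSBPh k (slice (hlang LG) N) u s t → N ≤ C * cst N k u s t ^ 25600) ∧
      (HasPPh k (slice (hlang LG) N) u s t → N ≤ C * cst N k u s t ^ 25600))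
    (cM : ∀ L : Set (List Bool), (∃ C : ℕ, ∀ N k p s t : ℕ, HasMAh k (slice L N) p s t →
      N ≤ C * ((k + 1) * (p + 1) * (s + 1) * (t / N + 1)) ^ C) → L ∉ MAmh)
    (cS : ∀ L : Set (List Bool), (∃ C : ℕ, ∀ N k u s t : ℕ, HasSBPh k (slice L N) u s t →
      N ≤ C * ((k + 1) * (u + 1) * (s + 1) * (t / N + 1)) ^ C) → L ∉ SBPmh)
    (cP : ∀ L : Set (List Bool), (∃ C : ℕ, ∀ N k g s t : ℕ, HasPPh k (slice L N) g s t →
      N ≤ C * ((k + 1) * (g + 1) * (s + 1) * (t / N + 1)) ^ C) → L ∉ PPmh)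
    (i1 : MAmh ⊆ SBPmh) (i2 : SBPmh ⊆ AMmh) :
    (MAmh ⊂ SBPmh ∧ SBPmh ⊂ AMmh ∧ ¬ AMmh ⊆ PPmh) ∧
    (∃ (L : Set (List Bool)) (C : ℕ),
      L ∈ SBPh 2 (fun n => 2 * (Nat.log 2 n + 2)) (fun n => C * (n + 1) * (Nat.log 2 n + 2) ^ 3)
        (fun n => C * (Nat.log 2 n + 2) ^ 2) (fun n => Nat.log 2 n + 2) ∧
      ∀ n k p s t, HasMAh k (slice L n) p s t →
        n ≤ C * ((k + 1) * (p + 1) * (s + 1) * (t / n + 1)) ^ 25600) ∧
    ∃ (L : Set (List Bool)) (C : ℕ),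
      L ∈ AMh 2 (fun n => Nat.log 2 n + 2) (fun n => C * (n + 1) * (Nat.log 2 n + 2) ^ 3)
        (fun n => C * (Nat.log 2 n + 2) ^ 2) ∧
      ∀ n k p s t, (HasMAh k (slice L n) p s t ∨ HasSBPh k (slice L n) p s t ∨
          HasPPh k (slice L n) p s t) →
        n ≤ C * ((k + 1) * (p + 1) * (s + 1) * (t / n + 1)) ^ 25600 := by
  obtain ⟨C, hMe⟩ := hMe
  have hpos : ∀ n j : ℕ, 1 ≤ (Nat.log 2 n + 2) ^ j := fun n j => Nat.one_le_pow _ _ (by omega)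
  -- the languages in the classes
  have mAM : hlang LG ∈ AMmh := by
    refine ⟨2, 1, C * 8 + 3, C * 4 + 2, AMh_mono (fun n => ?_) (fun n => ?_)
      ((hMe (pl 1)).1 fun n => (hpl_one n).ge)⟩
    · rw [hpl_one]
      calc C * (n + 1) * (Nat.log 2 n + (Nat.log 2 n + 2) + 1) ^ 3
          ≤ C * (n + 1) * (2 * (Nat.log 2 n + 2)) ^ 3 :=
            Nat.mul_le_mul_left _ (Nat.pow_le_pow_left (by omega) 3)
        _ = (n + 1) * (C * 8 * pl 3 n) := by unfold pl; ring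
        _ ≤ ql (C * 8 + 3) n := Nat.mul_le_mul_left _ (hconst_mul_pl _ _ _)
    · rw [hpl_one]
      calc C * (Nat.log 2 n + (Nat.log 2 n + 2) + 1) ^ 2
          ≤ C * (2 * (Nat.log 2 n + 2)) ^ 2 :=
            Nat.mul_le_mul_left _ (Nat.pow_le_pow_left (by omega) 2)
        _ = C * 4 * pl 2 n := by unfold pl; ring
        _ ≤ pl (C * 4 + 2) n := hconst_mul_pl _ _ _
  have mSBP : hlang LB ∈ SBPmh := by
    have e : pl 1 = fun n => Nat.log 2 n + 2 := funext hpl_one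
    have h2 : ∀ n, Nat.log 2 n + pl 2 n + 1 ≤ 2 * pl 2 n := by
      intro n
      have : pl 2 n = (Nat.log 2 n + 2) * (Nat.log 2 n + 2) := sq _
      rw [this]
      nlinarith
    refine ⟨2, 2, C * 8 + 6, C * 4 + 4, 1, ?_⟩
    rw [e]
    refine SBPh_mono (fun n => ?_) (fun n => ?_) ((hMe (pl 2)).2 fun n => ?_)
    · calc C * (n + 1) * (Nat.log 2 n + pl 2 n + 1) ^ 3
          ≤ C * (n + 1) * (2 * pl 2 n) ^ 3 :=
            Nat.mul_le_mul_left _ (Nat.pow_le_pow_left (h2 n) 3)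
        _ = (n + 1) * (C * 8 * pl 6 n) := by unfold pl; ring
        _ ≤ ql (C * 8 + 6) n := Nat.mul_le_mul_left _ (hconst_mul_pl _ _ _)
    · calc C * (Nat.log 2 n + pl 2 n + 1) ^ 2 ≤ C * (2 * pl 2 n) ^ 2 :=
            Nat.mul_le_mul_left _ (Nat.pow_le_pow_left (h2 n) 2)
        _ = C * 4 * pl 4 n := by unfold pl; ring
        _ ≤ pl (C * 4 + 4) n := hconst_mul_pl _ _ _
    · have : pl 2 n = (Nat.log 2 n + 2) * (Nat.log 2 n + 2) := sq _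
      rw [this]
      exact Nat.mul_le_mul_right _ (by omega)
  refine ⟨⟨⟨i1, fun h => ?_⟩, ⟨i2, fun h => ?_⟩, fun h => ?_⟩, ?_, ?_⟩
  · obtain ⟨C', h'⟩ := hB
    exact cM _ ⟨C' + 25600, fun N k p s t hM => cst_le' (h' N k p s t hM)⟩ (h mSBP)
  · obtain ⟨C', h'⟩ := hSP
    exact cS _ ⟨C' + 25600, fun N k u s t hM => cst_le' ((h' N k u s t).1 hM)⟩ (h mAM)
  · obtain ⟨C', h'⟩ := hSP
    exact cP _ ⟨C' + 25600, fun N k u s t hM => cst_le' ((h' N k u s t).2 hM)⟩ (h mAM)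
  · obtain ⟨C', h'⟩ := hB
    refine ⟨hlang LB, C * 27 + C', SBPh_mono (fun n => ?_) (fun n => ?_)
      ((hMe fun n => 2 * (Nat.log 2 n + 2)).2 fun n => le_rfl), fun n k p s t h =>
      cst_le (Nat.le_add_left _ _) (h' n k p s t h)⟩
    · calc C * (n + 1) * (Nat.log 2 n + 2 * (Nat.log 2 n + 2) + 1) ^ 3
          ≤ C * (n + 1) * (3 * (Nat.log 2 n + 2)) ^ 3 :=
            Nat.mul_le_mul_left _ (Nat.pow_le_pow_left (by omega) 3)
        _ = C * 27 * (n + 1) * (Nat.log 2 n + 2) ^ 3 := by ring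
        _ ≤ _ := Nat.mul_le_mul_right _ (Nat.mul_le_mul_right _ (Nat.le_add_right _ _))
    · calc C * (Nat.log 2 n + 2 * (Nat.log 2 n + 2) + 1) ^ 2
          ≤ C * (3 * (Nat.log 2 n + 2)) ^ 2 :=
            Nat.mul_le_mul_left _ (Nat.pow_le_pow_left (by omega) 2)
        _ = C * 9 * (Nat.log 2 n + 2) ^ 2 := by ring
        _ ≤ _ := Nat.mul_le_mul_right _ (by omega)
  · obtain ⟨C1, h1⟩ := hG
    obtain ⟨C2, h2⟩ := hSP
    refine ⟨hlang LG, C * 8 + C1 + C2, AMh_mono (fun n => ?_) (fun n => ?_)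
      ((hMe fun n => Nat.log 2 n + 2).1 fun n => le_rfl), fun n k p s t h => ?_⟩
    · calc C * (n + 1) * (Nat.log 2 n + (Nat.log 2 n + 2) + 1) ^ 3
          ≤ C * (n + 1) * (2 * (Nat.log 2 n + 2)) ^ 3 :=
            Nat.mul_le_mul_left _ (Nat.pow_le_pow_left (by omega) 3)
        _ = C * 8 * (n + 1) * (Nat.log 2 n + 2) ^ 3 := by ring
        _ ≤ _ := Nat.mul_le_mul_right _ (Nat.mul_le_mul_right _ (by omega))
    · calc C * (Nat.log 2 n + (Nat.log 2 n + 2) + 1) ^ 2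
          ≤ C * (2 * (Nat.log 2 n + 2)) ^ 2 :=
            Nat.mul_le_mul_left _ (Nat.pow_le_pow_left (by omega) 2)
        _ = C * 4 * (Nat.log 2 n + 2) ^ 2 := by ring
        _ ≤ _ := Nat.mul_le_mul_right _ (by omega)
    · rcases h with h | h | h
      · exact cst_le (by omega) (h1 n k p s t h)
      · exact cst_le (by omega) ((h2 n k p s t).1 h)
      · exact cst_le (by omega) ((h2 n k p s t).2 h)

end Pool.Agent.Lib.MP_ff3ed7_lc.MH
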