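import Pool.Agent.Lib.MP_ff3ed7_lc.SQ.TMain

/-!
`MA ≠ SBP ≠ AM` for one-tape machines in quasilinear time: the classes of languages which are
defined like `MA`, `SBP` and `AM` with one-tape verifiers that run in quasilinear time and use
polylogarithmically many coins and message bits form a strictly increasing chain.
-/

namespace Pool.Agent.Lib.MP_ff3ed7_lc.OldOneTapeTime

open Pool.Agent.Lib.MP_ff3ed7_lc.PLT Pool.Agent.Lib.MP_ff3ed7_lc.SQ

/-- (1) `MAot ⊊ SBPot ⊊ AMot`, and `AMot` is not contained in `PPot`: classes of languages; the
verifiers are fixed programs with registers and one tape (`SQ/TDef.lean`: the tape is unbounded and has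
a finite alphabet, in the beginning cell `j` contains bit number `j` of the input; reading or writing
cell `j'` with the head on cell `j` costs `|j - j'|` and the lengths of the numbers; registers and
addresses are numbers of at most `(log n + 2) ^ e` bits) whose running time on the inputs of length `n`
is at most `(n + 1) (log n + 2) ^ d` and which use `(log n + 2) ^ c` coins and message bits.
(2) There are a language `L` and a constant `C` such that `L` has an `SBP` verifier of this kind which
does not write on the tape (`SQ/Def.lean`), with `2 (log n + 2)` coins, threshold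
`2 ^ (-(log n + 2))`, time `C (n + 1) (log n + 2) ^ 2` and registers of `C (log n + 2) ^ 2` bits,
while for every length `n` every nonuniform Merlin-Arthur protocol for the words of `L` of length `n`
with a message of `p` bits and one-tape machines with `2 ^ s` memory states, any tape alphabet, whose
head covers a distance of at most `t` satisfies `n ≤ C ((p + 1) (s + 1) (t / n + 1)) ^ 10`.
(3) There are a language `L` and a constant `C` such that `L` has an Arthur-Merlin verifier which
does not write on the tape, with `log n + 2` coins and message bits and the time and registers of (2),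
while for every length `n` the bound of (2) holds, and, for the same machines, every `SBP` protocol
with threshold `2 ^ (-u)` satisfies `n ≤ C (u + (s + 1) (t / n + 1)) ^ 10`, and every `PP` protocol
with gap `2 ^ (-p)` satisfies `n ≤ C ((p + 1) (s + 1) (t / n + 1)) ^ 10`. -/
theorem result :
    (MAot ⊂ SBPot ∧ SBPot ⊂ AMot ∧ ¬ AMot ⊆ PPot) ∧
    (∃ (L : Set (List Bool)) (C : ℕ),
      L ∈ SBPs (fun n => 2 * (Nat.log 2 n + 2)) (fun n => C * (n + 1) * (Nat.log 2 n + 2) ^ 2)
        (fun n => C * (Nat.log 2 n + 2) ^ 2) (fun n => Nat.log 2 n + 2) ∧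
      ∀ n p s t, HasMAseq (slice L n) p s t → n ≤ C * ((p + 1) * (s + 1) * (t / n + 1)) ^ 10) ∧
    ∃ (L : Set (List Bool)) (C : ℕ),
      L ∈ AMs (fun n => Nat.log 2 n + 2) (fun n => C * (n + 1) * (Nat.log 2 n + 2) ^ 2)
        (fun n => C * (Nat.log 2 n + 2) ^ 2) ∧
      ∀ n, (∀ p s t, HasMAseq (slice L n) p s t →
          n ≤ C * ((p + 1) * (s + 1) * (t / n + 1)) ^ 10) ∧
        (∀ u s t, HasSBPseq (slice L n) u s t → n ≤ C * (u + (s + 1) * (t / n + 1)) ^ 10) ∧
        ∀ p s t, HasPPseq (slice L n) p s t →
          n ≤ C * ((p + 1) * (s + 1) * (t / n + 1)) ^ 10 :=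
  ⟨main_chain_ot, main_sbp, main_am⟩

end Pool.Agent.Lib.MP_ff3ed7_lc.OldOneTapeTime
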