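import Pool.Agent.Lib.MP_ff3ed7_lc.MH.SpecF

/-!
# PROJECT MH, module Psh: transfer of dual objects
-/

set_option autoImplicit false

open Finset

namespace Pool.Agent.Lib.MP_ff3ed7_lc.MH

open Pool.Agent.Lib.MP_ff3ed7_lc.PLT
open Pool.Agent.Lib.MP_ff3ed7_lc.B (JR HasSDual)

section

variable {ι κ : Type}

/-- the extension by `false` -/
private noncomputable def Psh_E (code : κ → ι) (z : κ → Bool) : ι → Bool :=
  Function.extend code z fun _ => false

private theorem Psh_E_code {code : κ → ι} (hc : Function.Injective code) (z : κ → Bool) (c : κ) :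
    Psh_E code z (code c) = z c := by
  unfold Psh_E
  exact hc.extend_apply z _ c

private theorem Psh_E_dep {code : κ → ι} (hc : Function.Injective code)
    (S : Finset ι) (z z' : κ → Bool) (h : ∀ c, code c ∈ S → z c = z' c) :
    ∀ i ∈ S, Psh_E code z i = Psh_E code z' i := by
  intro i hi
  by_cases hr : ∃ c, code c = i
  · obtain ⟨c, rfl⟩ := hr
    rw [Psh_E_code hc, Psh_E_code hc]
    exact h c hi
  · unfold Psh_E
    rw [Function.extend_apply' _ _ _ hr, Function.extend_apply' _ _ _ hr]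

variable [Fintype κ] [Fintype ι] [DecidableEq κ]

open Classical in
/-- the image measure -/
private noncomputable def Psh_P (code : κ → ι) (w : (κ → Bool) → ℝ) (x : ι → Bool) : ℝ :=
  ∑ z, if Psh_E code z = x then w z else 0

private theorem Psh_sum [DecidableEq ι] (code : κ → ι) (w : (κ → Bool) → ℝ) (h : (ι → Bool) → ℝ) :
    ∑ x, Psh_P code w x * h x = ∑ z, w z * h (Psh_E code z) := by
  unfold Psh_P
  simp only [sum_mul]
  rw [sum_comm]
  refine sum_congr rfl fun z _ => ?_
  rw [sum_eq_single (Psh_E code z)]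
  · rw [if_pos rfl]
  · intro x _ hx
    rw [if_neg (Ne.symm hx), zero_mul]
  · intro hx
    exact absurd (mem_univ _) hx

private theorem Psh_one [DecidableEq ι] (code : κ → ι) (w : (κ → Bool) → ℝ) :
    ∑ x, Psh_P code w x = ∑ z, w z := by
  have h := Psh_sum code w fun _ => 1
  simpa using h

private theorem Psh_nonneg (code : κ → ι) (w : (κ → Bool) → ℝ) (hw : ∀ z, 0 ≤ w z)
    (x : ι → Bool) : 0 ≤ Psh_P code w x := by
  unfold Psh_P
  refine sum_nonneg fun z _ => ?_
  split_ifs
  · exact hw z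
  · exact le_refl 0

private theorem Psh_abs [DecidableEq ι] (code : κ → ι) (w : (κ → Bool) → ℝ) :
    ∑ x, |Psh_P code w x| ≤ ∑ z, |w z| := by
  rw [← Psh_one code fun z => |w z|]
  refine sum_le_sum fun x _ => ?_
  unfold Psh_P
  refine (abs_sum_le_sum_abs _ _).trans (le_of_eq (sum_congr rfl fun z _ => ?_))
  split_ifs
  · rfl
  · exact abs_zero

private theorem Psh_supp (code : κ → ι) (w : (κ → Bool) → ℝ) (x : ι → Bool)
    (hx : Psh_P code w x ≠ 0) : ∃ z, Psh_E code z = x ∧ w z ≠ 0 := by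
  unfold Psh_P at hx
  obtain ⟨z, _, hz⟩ := exists_ne_zero_of_sum_ne_zero hx
  by_cases h : Psh_E code z = x
  · rw [if_pos h] at hz
    exact ⟨z, h, hz⟩
  · rw [if_neg h] at hz
    exact absurd rfl hz

private theorem Psh_val {code : κ → ι} (hc : Function.Injective code) {f : (ι → Bool) → Bool}
    {g : (κ → Bool) → Bool} (hfg : ∀ x, f x = g fun c => x (code c)) (w : (κ → Bool) → ℝ)
    (b : Bool) (hw : ∀ z, w z ≠ 0 → g z = b) (x : ι → Bool) (hx : Psh_P code w x ≠ 0) :
    f x = b := by
  obtain ⟨z, rfl, hz⟩ := Psh_supp code w x hx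
  rw [hfg]
  have h : (fun c => Psh_E code z (code c)) = z := funext fun c => Psh_E_code hc z c
  rw [h]
  exact hw z hz

private theorem Psh_card [DecidableEq ι] {code : κ → ι} (hc : Function.Injective code)
    (S : Finset ι) : (univ.filter (fun c => code c ∈ S)).card ≤ S.card :=
  card_le_card_of_injOn code (fun _ h => (mem_filter.1 h).2) fun _ _ _ _ h => hc h

end

theorem tPsh : S_Psh := by
  intro ι κ _ _ _ _ code hc f g hfg
  refine ⟨?_, ?_⟩
  · rintro J D ⟨α, β, γ, hα, hα1, hαf, hβf, hβn, hγn, hd⟩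
    refine ⟨Psh_P code α, Psh_P code β, Psh_P code γ, Psh_nonneg code α hα, ?_,
      Psh_val hc hfg α true hαf, Psh_val hc hfg β false hβf, (Psh_abs code β).trans hβn,
      (Psh_abs code γ).trans hγn, ?_⟩
    · rw [Psh_one, hα1]
    · intro S hS h hh
      rw [Psh_sum, Psh_sum, Psh_sum]
      exact hd (univ.filter (fun c => code c ∈ S)) ((Psh_card hc S).trans hS)
        (fun z => h (Psh_E code z)) fun z z' hz => hh _ _ (Psh_E_dep hc S z z' fun c hcS =>
          hz c (mem_filter.2 ⟨mem_univ _, hcS⟩))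
  · rintro D ⟨α, β, hα, hβ, hα1, hβ1, hαf, hβf, hd⟩
    refine ⟨Psh_P code α, Psh_P code β, Psh_nonneg code α hα, Psh_nonneg code β hβ, ?_, ?_,
      Psh_val hc hfg α true hαf, Psh_val hc hfg β false hβf, ?_⟩
    · rw [Psh_one, hα1]
    · rw [Psh_one, hβ1]
    · intro S hS h hh
      rw [Psh_sum, Psh_sum]
      exact hd (univ.filter (fun c => code c ∈ S)) ((Psh_card hc S).trans hS)
        (fun z => h (Psh_E code z)) fun z z' hz => hh _ _ (Psh_E_dep hc S z z' fun c hcS =>
          hz c (mem_filter.2 ⟨mem_univ _, hcS⟩))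

end Pool.Agent.Lib.MP_ff3ed7_lc.MH
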