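import Pool.Agent.Lib.MP_ff3ed7_lc.MH.Def2
import Pool.Agent.Lib.MP_ff3ed7_lc.B.CM
import Pool.Agent.Lib.MP_ff3ed7_lc.PLT.G4
import Pool.Agent.Lib.MP_ff3ed7_lc.PLT.BLow

/-!
# PROJECT MH, part F: from small Fourier coefficients to a contradiction

Every `S_X` is to be proved as `theorem tX : S_X` in its own module
`Pool/Agent/Lib/MP_ff3ed7_lc/MH/X.lean` (namespace `Pool.Agent.Lib.MP_ff3ed7_lc.MH`), importing this
file.  Statements which are used are hypotheses, so all modules are independent.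

`Ω` is a finite probability space (uniform), `V : Ω → Fin m → Bool` the virtual bits.
-/

set_option autoImplicit false

open Finset

namespace Pool.Agent.Lib.MP_ff3ed7_lc.MH

open Pool.Agent.Lib.MP_ff3ed7_lc.PLT
open Pool.Agent.Lib.MP_ff3ed7_lc.B (JR HasSDual)

/-- **Inv** (Fourier inversion).

`∑ S, chi S Y * chi S X = ∏ j, (1 + x_j * y_j)` with `x_j = if X j then -1 else 1`
(`Finset.prod_one_add` / `Finset.prod_add_one`, `Finset.prod_mul_distrib`), which is `2 ^ m` if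
`X = Y` and `0` otherwise (some factor is `0`).  Exchange the sums (`Finset.sum_mul`,
`Finset.sum_comm`). -/
def S_Inv : Prop := ∀ (m : ℕ) (F : (Fin m → Bool) → ℝ) (X : Fin m → Bool),
  ∑ S : Finset (Fin m), (∑ Y, F Y * chi S Y) * chi S X = 2 ^ m * F X

/-- **Jrc** (sums of characters of small sets).

`Submodule.sum_mem`; for `S.card ≤ D` the function `c S * chi S X` depends only on the coordinates
in `S` (`Submodule.subset_span`), the other terms are `0`. -/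
def S_Jrc : Prop := ∀ (m D : ℕ) (c : Finset (Fin m) → ℝ),
  (fun X : Fin m → Bool => ∑ S : Finset (Fin m), if S.card ≤ D then c S * chi S X else 0) ∈
    JR (Fin m) Bool D

/-- **Tr** (the conditional expectation is almost a function of low degree).

Let `N = card Ω`, `ĝ S = (∑ ω, g ω * chi S (V ω)) / N`.  Since
`∑ ω, g ω * chi S (V ω) = ∑ X, fib V g X * chi S X` (`Finset.sum_comm`, `Finset.sum_ite_eq`),
`S_Inv` gives `F X := 2 ^ m * fib V g X / N = ∑ S, ĝ S * chi S X`.  Let `G` be the part of this sum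
with `S.card ≤ D` (`S_Jrc`).  `|chi S X| = 1`, there are `2 ^ m` sets, so `|F X - G X| ≤ 2 ^ m * e`.
For `g = 1`: `H X := 2 ^ m * fib V 1 X / N` is `1` (the term `S = ∅`) up to `2 ^ m * e ≤ 1 / 2`, so
`H X > 0`.  Finally `cnd V g X = F X / H X ∈ [0, 1]` (`0 ≤ fib V g X ≤ fib V 1 X`), so
`|cnd V g X - F X| = cnd V g X * |1 - H X| ≤ 2 ^ m * e`. -/
def S_Tr : Prop := S_Inv → S_Jrc → ∀ (m D : ℕ) (Ω : Type) [Fintype Ω] [Nonempty Ω]
  (V : Ω → Fin m → Bool) (e : ℝ), 0 ≤ e →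
  (∀ S : Finset (Fin m), S.Nonempty → |∑ ω, chi S (V ω)| ≤ e * Fintype.card Ω) →
  2 ^ m * e ≤ 1 / 2 →
  (∀ X, 0 < fib V (fun _ => 1) X) ∧
  ∀ g : Ω → ℝ, (∀ ω, 0 ≤ g ω ∧ g ω ≤ 1) →
    (∀ S : Finset (Fin m), D < S.card → |∑ ω, g ω * chi S (V ω)| ≤ e * Fintype.card Ω) →
    ∃ G ∈ JR (Fin m) Bool D, ∀ X, |cnd V g X - G X| ≤ 2 * (2 ^ m * e)

/-- **Cnd** (simple properties of the conditional expectation).

`fib` and `cnd` are linear in `g` (`Finset.sum_div`, `Finset.sum_comm`); (2), (3): on the fibre over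
`X` the values of `g` are at least (at most) `c`, and the denominator is positive. -/
def S_Cnd : Prop := ∀ (m : ℕ) (Ω : Type) [Fintype Ω] (V : Ω → Fin m → Bool),
  (∀ X, 0 < fib V (fun _ => 1) X) →
  (∀ (I : Type) (s : Finset I) (w : I → ℝ) (g : I → Ω → ℝ) X,
    cnd V (fun ω => ∑ i ∈ s, w i * g i ω) X = ∑ i ∈ s, w i * cnd V (g i) X) ∧
  (∀ (g : Ω → ℝ) (c : ℝ) X, (∀ ω, V ω = X → c ≤ g ω) → c ≤ cnd V g X) ∧
  ∀ (g : Ω → ℝ) (c : ℝ) X, (∀ ω, V ω = X → g ω ≤ c) → cnd V g X ≤ c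

open Classical in
/-- **Pow** (independent repetitions).

`Nat.card {ρ // P ρ} = (univ.filter P).card = ∑ ρ, if P ρ then 1 else 0`; the power of a sum is the sum over
the functions `Fin K → _` of the products (`Finset.prod_univ_sum`, or `Finset.sum_pow'`,
`Fintype.sum_pow`), and the product of the indicators is the indicator of `∀ c`
(`Finset.prod_ite_zero` or `Finset.prod_boole`). -/
def S_Pow : Prop := ∀ (r K : ℕ) (P : (Fin r → Bool) → Prop),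
  (prob r P) ^ K = (∑ ρ : Fin K → (Fin r → Bool), if ∀ c, P (ρ c) then (1 : ℝ) else 0) /
    (2 ^ r) ^ K

/-- **Nma** (numerical inequality).

Compare `CM_num` in `B/CM.lean`.  With `a = (64 / 729) ^ p`: the first two terms are
`22 / 729 * (44 / 729) ^ p + 1 / 32 * (1 / 64) ^ p ≤ (22 / 729 + 1 / 32) * a`, the right side is
`64 / 729 * a`.  The third term is at most
`(3 * 22 ^ (p + 1)) * (2 ^ p * (2 * (2 ^ m * (1 / 2) ^ (2 * m + 20 * (p + 1) + 10))))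
  ≤ 6 * 22 * (44 / 2 ^ 20) ^ p / 2 ^ 30 ≤ (1 / 10 ^ 6) * a`. -/
def S_Nma : Prop := ∀ (m p : ℕ) (e : ℝ), 0 ≤ e → e ≤ (1 / 2) ^ (2 * m + 20 * (p + 1) + 10) →
  (22 : ℝ) ^ (p + 1) * (2 ^ p * (1 / 3) ^ (6 * (p + 1))) + 4 * (1 / 128) ^ (p + 1) * 2 ^ p +
    (1 + 22 ^ (p + 1) + 4 * (1 / 128) ^ (p + 1)) * (2 ^ p * (2 * (2 ^ m * e))) <
      (2 / 3) ^ (6 * (p + 1))

open Classical in
/-- **Jma** (the sum over the messages).

Put `K = 6 * (p + 1)`, `g y ρ ω = if ∀ c, A y (ρ c) ω then 1 else 0` for `ρ : Fin K → (Fin r → Bool)`,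
`Q ω = ∑ y, (prob r fun ρ => A y ρ ω) ^ K`.  By `S_Pow`, `Q = ∑ y, ∑ ρ, (2 ^ r) ^ (-K) * g y ρ`.  `S_Tr`
gives `G y ρ ∈ JR` with `|cnd V (g y ρ) - G y ρ| ≤ 2 * (2 ^ m * e)`; put
`G = ∑ y, ∑ ρ, (2 ^ r) ^ (-K) * G y ρ` (`Submodule.sum_mem`, `smul_mem`).  `S_Cnd` (linearity; index set
`(Fin p → Bool) × (Fin K → Fin r → Bool)`) gives
`|cnd V Q X - G X| ≤ 2 ^ p * (2 * (2 ^ m * e))` (there are `2 ^ p * (2 ^ r) ^ K` terms). -/
def S_Jma : Prop := S_Inv → S_Jrc → S_Tr → S_Cnd → S_Pow →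
  ∀ (m p r D : ℕ) (Ω : Type) [Fintype Ω] [Nonempty Ω] (V : Ω → Fin m → Bool)
    (A : (Fin p → Bool) → (Fin r → Bool) → Ω → Prop) (e : ℝ), 0 ≤ e →
    (∀ S : Finset (Fin m), S.Nonempty → |∑ ω, chi S (V ω)| ≤ e * Fintype.card Ω) →
    2 ^ m * e ≤ 1 / 2 →
    (∀ y (ρ : Fin (6 * (p + 1)) → (Fin r → Bool)) (S : Finset (Fin m)), D < S.card →
      |∑ ω, (if ∀ c, A y (ρ c) ω then (1 : ℝ) else 0) * chi S (V ω)| ≤ e * Fintype.card Ω) →
    ∃ G ∈ JR (Fin m) Bool D, ∀ X,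
      |cnd V (fun ω => ∑ y, (prob r fun ρ => A y ρ ω) ^ (6 * (p + 1))) X - G X| ≤
        2 ^ p * (2 * (2 ^ m * e))

open Classical in
/-- **Cma** (Merlin-Arthur, signed dual object).

Model: `CM_ma` in `B/CM.lean`.  Let `Φ X = cnd V Q X` (`Q` as in `S_Jma`), `δ = 2 ^ p * (2 * (2 ^ m * e))`,
`K = 6 * (p + 1)`, `J = p + 1`.  By `S_Cnd` (2), (3) (all points of the fibre over `X` have `f (V ω) = f X`):
`(2 / 3) ^ K ≤ Φ X` if `f X = true` (single term), `0 ≤ Φ X ≤ 2 ^ p * (1 / 3) ^ K` if `f X = false`,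
`0 ≤ Φ X ≤ 2 ^ p` always (`prob ≤ 1`).  `S_Jma`: `|Φ - G| ≤ δ`, `G ∈ JR`.  `CM_dualS`:
`∑ α G = ∑ β G + ∑ γ G`.  `∑ α G ≥ (2 / 3) ^ K - δ`;
`∑ β G ≤ 22 ^ J * (2 ^ p * (1 / 3) ^ K + δ)`, `∑ γ G ≤ 4 * (1 / 128) ^ J * (2 ^ p + δ)` (`CM_signed`).  This
contradicts `S_Nma`.  (`2 ^ m * e ≤ 1 / 2` follows from the bound for `e`.) -/
def S_Cma : Prop := S_Inv → S_Jrc → S_Tr → S_Cnd → S_Pow → S_Nma → S_Jma →
  ∀ (m p r D : ℕ) (Ω : Type) [Fintype Ω] [Nonempty Ω] (f : (Fin m → Bool) → Bool)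
    (V : Ω → Fin m → Bool) (A : (Fin p → Bool) → (Fin r → Bool) → Ω → Prop) (e : ℝ), 0 ≤ e →
    HasSDual f (p + 1) D →
    (∀ S : Finset (Fin m), S.Nonempty → |∑ ω, chi S (V ω)| ≤ e * Fintype.card Ω) →
    (∀ y (ρ : Fin (6 * (p + 1)) → (Fin r → Bool)) (S : Finset (Fin m)), D < S.card →
      |∑ ω, (if ∀ c, A y (ρ c) ω then (1 : ℝ) else 0) * chi S (V ω)| ≤ e * Fintype.card Ω) →
    e ≤ (1 / 2) ^ (2 * m + 20 * (p + 1) + 10) →
    (∀ ω, f (V ω) = true → ∃ y, 2 / 3 ≤ prob r fun ρ => A y ρ ω) →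
    (∀ ω, f (V ω) = false → ∀ y, prob r (fun ρ => A y ρ ω) ≤ 1 / 3) → False

open Classical in
/-- **Cme** (Merlin-Arthur, exact dual object).

As `S_Cma`, with `CM_dualE`: `(2 / 3) ^ K - δ ≤ ∑ α G = ∑ β G ≤ 2 ^ p * (1 / 3) ^ K + δ`, which contradicts
`S_Nma` (drop the other terms; `1 ≤ 22 ^ J`). -/
def S_Cme : Prop := S_Inv → S_Jrc → S_Tr → S_Cnd → S_Pow → S_Nma → S_Jma →
  ∀ (m p r D : ℕ) (Ω : Type) [Fintype Ω] [Nonempty Ω] (f : (Fin m → Bool) → Bool)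
    (V : Ω → Fin m → Bool) (A : (Fin p → Bool) → (Fin r → Bool) → Ω → Prop) (e : ℝ), 0 ≤ e →
    HasExactDual f D →
    (∀ S : Finset (Fin m), S.Nonempty → |∑ ω, chi S (V ω)| ≤ e * Fintype.card Ω) →
    (∀ y (ρ : Fin (6 * (p + 1)) → (Fin r → Bool)) (S : Finset (Fin m)), D < S.card →
      |∑ ω, (if ∀ c, A y (ρ c) ω then (1 : ℝ) else 0) * chi S (V ω)| ≤ e * Fintype.card Ω) →
    e ≤ (1 / 2) ^ (2 * m + 20 * (p + 1) + 10) →
    (∀ ω, f (V ω) = true → ∃ y, 2 / 3 ≤ prob r fun ρ => A y ρ ω) →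
    (∀ ω, f (V ω) = false → ∀ y, prob r (fun ρ => A y ρ ω) ≤ 1 / 3) → False

open Classical in
/-- **Cgp** (gap: `SBP` with `a = 2 ^ (-u)`, `PP` with `a = 1 / 2`).

`Q ω = prob r fun ρ => A ρ ω = ∑ ρ, 2 ^ (-r) * (if A ρ ω then 1 else 0)`; `S_Tr` for every `ρ` and `S_Cnd`
give `G ∈ JR` with `|cnd V Q X - G X| ≤ 2 * (2 ^ m * e) =: δ`.  With `Φ = cnd V Q`: `a + (1 / 2) ^ u ≤ Φ X` if
`f X = true`, `Φ X ≤ a` if `f X = false`, so by `CM_dualE`
`a + (1 / 2) ^ u - δ ≤ ∑ α G = ∑ β G ≤ a + δ`; but `2 * δ ≤ 4 * (1 / 2) ^ (u + 10) < (1 / 2) ^ u`. -/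
def S_Cgp : Prop := S_Inv → S_Jrc → S_Tr → S_Cnd →
  ∀ (m u r D : ℕ) (Ω : Type) [Fintype Ω] [Nonempty Ω] (f : (Fin m → Bool) → Bool)
    (V : Ω → Fin m → Bool) (A : (Fin r → Bool) → Ω → Prop) (a e : ℝ), 0 ≤ e →
    HasExactDual f D →
    (∀ S : Finset (Fin m), S.Nonempty → |∑ ω, chi S (V ω)| ≤ e * Fintype.card Ω) →
    (∀ (ρ : Fin r → Bool) (S : Finset (Fin m)), D < S.card →
      |∑ ω, (if A ρ ω then (1 : ℝ) else 0) * chi S (V ω)| ≤ e * Fintype.card Ω) →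
    e ≤ (1 / 2) ^ (2 * m + u + 10) →
    (∀ ω, f (V ω) = true → a + (1 / 2) ^ u ≤ prob r fun ρ => A ρ ω) →
    (∀ ω, f (V ω) = false → prob r (fun ρ => A ρ ω) ≤ a) → False

/-- **Psh** (dual objects of functions which depend on some of the variables).

Put the measures on the inputs which are `false` outside the range of `code`: for `w : (κ → Bool) → ℝ` let
`w' x = if ∀ i ∉ range code, x i = false then w (fun c => x (code c)) else 0`; the map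
`x ↦ x ∘ code` is a bijection from these inputs to `κ → Bool` (inverse
`z ↦ Function.extend code z fun _ => false`), so sums of `w' x * g x` are sums of
`w z * g (extend code z)`.  If `g` depends only on `S`, then `z ↦ g (extend code z)` depends only on the
preimage of `S` (`S.preimage code hc.injOn` or `univ.filter fun c => code c ∈ S`), which has at most
`S.card` elements. -/
def S_Psh : Prop := ∀ (ι κ : Type) [Fintype ι] [DecidableEq ι] [Fintype κ] [DecidableEq κ]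
  (code : κ → ι), Function.Injective code → ∀ (f : (ι → Bool) → Bool) (g : (κ → Bool) → Bool),
    (∀ x, f x = g fun c => x (code c)) →
    (∀ J D, HasSDual g J D → HasSDual f J D) ∧ ∀ D, HasExactDual g D → HasExactDual f D

/-- **Dua** (dual objects for the slices).

(1) `slice_LB` and `codeB_inj` in `PLT/BLow.lean` (see `LB_low`), `hdual` in `fB_low`.  (2) see the proof of
`gLow` in `PLT/G4.lean` (`hfg`, `hinj`) and `exactDual_fb`. -/
def S_Dua : Prop := S_Psh →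
  (∀ m J D : ℕ, 2 ^ 36 ≤ m → 1 ≤ J → J ≤ 2 ^ levB m → D ≤ 2 ^ levB m →
    HasSDual (slice LB m) J D) ∧
  ∀ m D : ℕ, 2 ^ 61 ≤ m → 9 * D ≤ pw 61 10 m → HasExactDual (slice LG m) D

end Pool.Agent.Lib.MP_ff3ed7_lc.MH
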