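import Pool.Agent.Lib.MP_ff3ed7_lc.MH.Def2

/-!
# PROJECT MH: statements for the lower bounds (note: MHnote.md)

Every `S_X` is to be proved as `theorem tX : S_X` in its own module
`Pool/Agent/Lib/MP_ff3ed7_lc/MH/X.lean` (namespace `Pool.Agent.Lib.MP_ff3ed7_lc.MH`), importing this
file.  Statements which are used are hypotheses (`S_A → S_B → ...`), so all modules are independent.
-/

set_option autoImplicit false

open Finset

namespace Pool.Agent.Lib.MP_ff3ed7_lc.MH

open Pool.Agent.Lib.MP_ff3ed7_lc.PLT
open Pool.Agent.Lib.MP_ff3ed7_lc.SQ (dst)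

/-! ### Inner products -/

/-- The inner product of two strings of bits (not reduced modulo `2`). -/
def ipn {B : ℕ} (a b : Fin B → Bool) : ℕ := ∑ i, if (a i && b i) = true then 1 else 0

/-- The sign of the inner product. -/
noncomputable def ips {B : ℕ} (a b : Fin B → Bool) : ℝ := (-1) ^ ipn a b

open Classical in
/-- **Lin** (Lindsey's lemma).  By Cauchy-Schwarz over `a`: the square is at most
`2 ^ B * ∑ a, (∑ b, [A' b] ips a b) ^ 2 = 2 ^ B * ∑ b b', [A' b] [A' b'] ∑ a, ips a b * ips a b'`, and the
inner sum is `2 ^ B` if `b = b'` and `0` otherwise (`ips a b = ∏ i, (if a i && b i then -1 else 1)`;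
`∑ a, ∏ i, g i (a i) = ∏ i, ∑ c, g i c`: `Finset.prod_univ_sum`/`Fintype.piFinset_univ`).  The second
part: `∑ a b ips a b = 2 ^ B` by the same product formula (`∑ a, ips a b = 0` for `b ≠ 0`). -/
def S_Lin : Prop :=
  (∀ (B : ℕ) (A A' : (Fin B → Bool) → Prop),
    (∑ a : Fin B → Bool, ∑ b : Fin B → Bool, if A a ∧ A' b then ips a b else 0) ^ 2 ≤
      (2 : ℝ) ^ (3 * B)) ∧
  ∀ B : ℕ, ∑ a : Fin B → Bool, ∑ b : Fin B → Bool, ips a b = (2 : ℝ) ^ B

/-! ### Good tables -/

/-- Total variation. -/
def tv {n : ℕ} (φ : Fin n → ℕ) : ℕ :=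
  ∑ i : Fin (n - 1), dst (φ ⟨i.1 + 1, by omega⟩) (φ ⟨i.1, by omega⟩)

/-- **TvC** (counting).  `φ` is determined by `φ 0` and the differences; the `n - 1` distances
`dst (φ (i + 1)) (φ i)` are natural numbers with sum at most `V`; there are
`(V + n - 1).choose (n - 1) ≤ (V + n).choose n` such sequences (induction on `n`, or
`Finset.Nat.card_antidiagonalTuple`, `Sym.card_sym_eq_choose`), and for every one at most `2 ^ (n - 1)`
choices of the signs.  A direct induction on `n` (remove the last value; Vandermonde/hockey-stick
`Nat.sum_Icc_choose`, `∑_{v ≤ V} (v + n).choose n = (V + n + 1).choose (n + 1)`) is perhaps shortest: let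
`c n V` be the number of `φ : Fin n → Fin p` with `tv ≤ V`; `c 1 V = p`, and `c (n + 1) V ≤
∑_{e ≤ V} 2 * c n (V - e)`. -/
def S_TvC : Prop := ∀ n P V : ℕ, 1 ≤ n →
  Nat.card {φ : Fin n → Fin P // tv (fun i => (φ i : ℕ)) ≤ V} ≤ P * 2 ^ n * (V + n).choose n

/-- Good tables: all rows are injective, and for every set `S` of `n` indices there is `u < d` such that
no enumeration of (elements of) `S` has small variation in both rows `T u false` and `T u true`. -/
def Good {d m P : ℕ} (n V : ℕ) (T : Fin d → Bool → Fin m → Fin P) : Prop :=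
  (∀ u b, Function.Injective (T u b)) ∧
  ∀ S : Finset (Fin m), S.card = n → ∃ u, ∀ σ : Fin n → Fin m, Function.Injective σ →
    (∀ i, σ i ∈ S) →
    V < tv (fun i => (T u false (σ i) : ℕ)) ∨ V < tv (fun i => (T u true (σ i) : ℕ))

/-- **Tab** (a good table exists).  Counting of the `(P ^ m) ^ (2 d)` tables.
(1) Not injective: for given `u, b` and `j ≠ j'` there are `P ^ (m - 1)` functions with `g j = g j'`; so
at most a fraction `2 d * (m * (m - 1) / 2) / P < 1 / 2` of the tables have a row which is not injective.
(2) For a set `S` with `n` elements and a fixed injective `σ` with values in `S`: `g ↦ g ∘ σ` maps the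
functions onto `Fin n → Fin P` with all fibres of size `P ^ (m - n)`; by `S_TvC` at most
`P ^ (m - n) * (P * 2 ^ n * (V + n).choose n)` functions `g` have `tv (g ∘ σ) ≤ V`.  There are `n !`
injective `σ` with values in `S`.  So at most
`n ! * (P ^ (m - n) * (P * 2 ^ n * (V + n).choose n)) ^ 2` pairs `(g, g')` are bad for `S`, at most the
`d`-th power of this number of tables is bad for `S` for all `u`, and there are at most `m ^ n` sets `S`:
the fraction is smaller than `1 / 2` by the last hypothesis. -/
def S_Tab : Prop := S_TvC → ∀ d m P n V : ℕ, 1 ≤ d → 2 * d * m ^ 2 ≤ P → 1 ≤ n → n ≤ m → 1 ≤ P →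
  2 * m ^ n * (n.factorial * (P * 2 ^ n * (V + n).choose n) ^ 2) ^ d < P ^ (2 * n * d) →
  ∃ T : Fin d → Bool → Fin m → Fin P, Good n V T

/-- **NuT** (numbers for `S_Tab` with `d = 80`).  `(V + n).choose n ≤ (V + n) ^ n / n !`
(`Nat.choose_le_pow_div`) and `n ! ≥ (n / 3) ^ n` (`3 ^ n * n ! ≥ n ^ n`), so
`n ! * (P 2 ^ n choose) ^ 2 ≤ P ^ 2 * (4 (V + n) ^ 2) ^ n / n ! ≤ P ^ 2 * P ^ (2 n) * (12 * 2304 ^ 2 *
τ ^ 2 / n) ^ n ≤ P ^ (2 n + 2) / w ^ n`; its 80-th power is at most
`P ^ (160 n) * P ^ 160 / (w ^ 40) ^ (2 n) ≤ P ^ (160 n) * m ^ 480 / m ^ (2 n)`, and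
`2 * m ^ n * m ^ 480 / m ^ (2 n) = 2 * m ^ 480 / m ^ n < 1`. -/
def S_NuT : Prop := ∀ m P n V τ w : ℕ, P = m ^ 3 → 2 ≤ m → m ≤ w ^ 40 → 1000 ≤ n →
  V + n ≤ 2304 * τ * P → 12 * 2304 ^ 2 * τ ^ 2 * w ≤ n →
  2 * m ^ n * (n.factorial * (P * 2 ^ n * (V + n).choose n) ^ 2) ^ 80 < P ^ (2 * n * 80)

/-! ### Histories -/

section His

variable {k : ℕ} {Q β : Type} [DecidableEq β]

/-- The next memory state on the tape `τ`. -/
def nx (M : HM k Q) (τ : ℕ → Option Bool) (q : Q) : Q :=
  match M.act q with
  | .stop _ => q
  | .jump q' => q'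
  | .visit _ j f => f (τ j)

/-- The zones (for each head the last block where it has been) after the action of the state `q`;
`bl j` is the block of cell `j`. -/
def zn (bl : ℕ → Option β) (M : HM k Q) (z : Fin k → Option β) (q : Q) : Fin k → Option β :=
  match M.act q with
  | .visit i j _ => if bl j = none then z else Function.update z i (bl j)
  | _ => z

/-- `q'` is the first state, from `q` on, whose action changes the zones `z`. -/
def Fst (bl : ℕ → Option β) (M : HM k Q) (τ : ℕ → Option Bool) (z : Fin k → Option β)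
    (q q' : Q) : Prop :=
  ∃ T, (nx M τ)^[T] q = q' ∧ (∀ T' < T, zn bl M z ((nx M τ)^[T'] q) = z) ∧ zn bl M z q' ≠ z

/-- From `q` on the machine accepts without changing the zones `z`. -/
def End (bl : ℕ → Option β) (M : HM k Q) (τ : ℕ → Option Bool) (z : Fin k → Option β)
    (q : Q) : Prop :=
  ∃ T, (∀ T' < T, zn bl M z ((nx M τ)^[T'] q) = z) ∧ M.act ((nx M τ)^[T] q) = .stop true

/-- The machine, started in `q` with the zones `z`, accepts, and the list of the states whose actions
change the zones is the given list. -/
def His (bl : ℕ → Option β) (M : HM k Q) (τ : ℕ → Option Bool) :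
    (Fin k → Option β) → Q → List Q → Prop
  | z, q, [] => End bl M τ z q
  | z, q, q' :: h => Fst bl M τ z q q' ∧ His bl M τ (zn bl M z q') (nx M τ q') h

/-- The list of the zones which belongs to a history. -/
def zs (bl : ℕ → Option β) (M : HM k Q) : (Fin k → Option β) → List Q → List (Fin k → Option β)
  | z, [] => [z]
  | z, q' :: h => z :: zs bl M (zn bl M z q') h

end His

/-- The geometry: regions `ρ`, positions `< P`; different blocks have distance at least `B`; the distance
of two blocks of the same region is at least `B` times the distance of their positions. -/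
structure Geo {ρ : Type} {P : ℕ} (B : ℕ) (bl : ℕ → Option (ρ × Fin P)) : Prop where
  far : ∀ j j' b b', bl j = some b → bl j' = some b' → b ≠ b' → B ≤ dst j j'
  row : ∀ j j' r (a a' : Fin P), bl j = some (r, a) → bl j' = some (r, a') →
    B * dst (a : ℕ) (a' : ℕ) ≤ dst j j'

/-- **HiA** (every accepting run has exactly one history).

`(M.run τ T).q = (nx M τ)^[T] M.start` (induction; `HM.step`).  Existence: induction on the number `T` of
steps to the accepting state, for all `z` and `q`: if no action before `T` changes the zones then `[]`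
(`End`); otherwise take the first one.  Conversely `His` gives a time at which the state is
`stop true`.  Uniqueness: a state with the action `stop` is never left and does not change the zones
(`zn = z`), so `End` and `Fst` exclude each other, and the first change is unique. -/
def S_HiA : Prop := ∀ (k : ℕ) (Q β : Type) [DecidableEq β] (bl : ℕ → Option β) (M : HM k Q)
  (τ : ℕ → Option Bool),
  (M.Acc τ ↔ ∃ h, His bl M τ (fun _ => none) M.start h) ∧
  ∀ h h', His bl M τ (fun _ => none) M.start h → His bl M τ (fun _ => none) M.start h' → h = h'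

/-- **HiL** (the length of a history).

Invariant along the run (induction on `T`): for every head `i` let `z i` be its zone after `T` steps and
`c i` the last cell in a block where it has been, so `bl (c i) = z i`, and let `e i` be the number of
changes of the zone of head `i`; then `∑ i, (B * (e i - 1) + (distance of the head from c i if z i ≠ none))
≤ mot` (natural subtraction; a change from the block `b` to the block `b' ≠ b` covers, together with the
distance from `c i`, at least `B` by `Geo.far` and the triangle inequality for `dst`).  So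
`B * (e - k) ≤ mot ≤ t`, where `e = ∑ i, e i` is the number of changes, which is the length of the
history. -/
def S_HiL : Prop := ∀ (k : ℕ) (Q ρ : Type) [DecidableEq ρ] (P B t : ℕ)
  (bl : ℕ → Option (ρ × Fin P)) (M : HM k Q) (τ : ℕ → Option Bool) (h : List Q), 1 ≤ B →
  Geo B bl → (∀ T, (M.run τ T).mot ≤ t) → His bl M τ (fun _ => none) M.start h →
  h.length ≤ k + t / B

/-- **HiV** (small variation).

`zs bl M (fun _ => none) h` is the list of the zones after the changes number `0, 1, ...`; its entry
number `l` is the vector of zones of the real run after `T l` steps, `T` increasing.  If the zone of head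
`i` is `(r, a)` at the time `T l`, the head has been in a cell `c l` of this block at some time
`T' l ≤ T l` (its last visit of a block), and `T'` is monotone in `l`.  So the distance covered by head
`i` is at least the sum of the `dst (c (l (e + 1))) (c (l e)) ≥ B * dst (a (e + 1)) (a e)`
(`Geo.row`), and it is at most `t`.  (Proof by a potential: along the run
`B * tv (positions up to now) + (distance of the head from its last block cell) ≤ mot`; here one must use
the subsequence of the zones in the region `r`: the inequality for all zones `(r, a)` which occur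
one after the other, and then the triangle inequality for subsequences, also in the case of visits of other
regions in between.) -/
def S_HiV : Prop := ∀ (k : ℕ) (Q ρ : Type) [DecidableEq ρ] (P B t : ℕ)
  (bl : ℕ → Option (ρ × Fin P)) (M : HM k Q) (τ : ℕ → Option Bool) (h : List Q), 1 ≤ B →
  Geo B bl → (∀ T, (M.run τ T).mot ≤ t) → His bl M τ (fun _ => none) M.start h →
  ∀ (i : Fin k) (r : ρ) (n : ℕ) (l : Fin n → ℕ) (a : Fin n → Fin P), StrictMono l →
    (∀ e, ∃ z, (zs bl M (fun _ => none) h)[l e]? = some z ∧ z i = some (r, a e)) →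
    tv (fun e => (a e : ℕ)) ≤ t / B

/-- **HiR** (a history is a rectangle for two blocks which are never visited simultaneously).

`rd x` is the tape with the contents `x` of the blocks; cell `j` depends only on its block (`hrd`).
Cut and paste, by induction on the history: for a list of zones `z, ...` in which `b` and `b'` never
occur together, the condition `His bl M (rd x) z q h` splits into `Fst bl M (rd x) z q q'`, which depends
on `x` only through the blocks in the range of `z` (as long as the zones do not change the machine visits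
only such cells: `zn z q = z` and `M.act q = visit i j f` imply `bl j = none` or `bl j = z i`), and the
next state `nx M (rd x) q'` depends only on `x` in the block `bl j = (zn z q') i`, which is in the range
of the next zones.  Formally: prove for all `h, z, q₀` (`q₀` the state whose action is executed first) by
induction that, if `x` and `x'` differ only in the blocks `b` and `b'`, both have the history, then also
the mixed content has it (on every phase the mixed content agrees on the range of the zones with `x` or
with `x'`).  Then `A v := ∃ w, His (.. v w)` and `A' w := ∃ v, His (.. v w)`. -/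
def S_HiR : Prop := ∀ (k : ℕ) (Q β : Type) [DecidableEq β] (B : ℕ)
  (bl : ℕ → Option β) (M : HM k Q) (rd : (β → Fin B → Bool) → ℕ → Option Bool),
  (∀ x x' j, (∀ b, bl j = some b → x b = x' b) → rd x j = rd x' j) →
  ∀ (b b' : β) (h : List Q), b ≠ b' →
  (∀ z ∈ zs bl M (fun _ => none) h, ¬ ((∃ i, z i = some b) ∧ ∃ i, z i = some b')) →
  ∀ x : β → Fin B → Bool, ∃ A A' : (Fin B → Bool) → Prop, ∀ v w,
    His bl M (rd (Function.update (Function.update x b v) b' w)) (fun _ => none) M.start h ↔
      A v ∧ A' w

/-! ### Fourier coefficients -/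

/-- The virtual word which belongs to the table `T` and the contents `x` of the blocks. -/
def vx {d m P B : ℕ} (T : Fin d → Bool → Fin m → Fin P)
    (x : (Fin d × Bool) × Fin P → Fin B → Bool) (j : Fin m) : Bool :=
  decide ((∑ u : Fin d, ipn (x ((u, false), T u false j)) (x ((u, true), T u true j))) % 2 = 1)

/-- **FoA** (a pair of blocks which is never visited).

Assume that for all `j ∈ S` and `u` there are `c`, an entry `z` of `zs bl (M c) none (h c)` and `i, i'`
with `z i = some ((u, false), T u false j)`, `z i' = some ((u, true), T u true j)`; choose them.  The maps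
`u ↦ (c, i, i')` are in a set of `(K * k ^ 2) ^ d` elements (nonempty), so by the pigeonhole principle
(`Finset.exists_le_card_fiber_of_mul_le_card_of_maps_to` or similar) there is `S' ⊆ S` with exactly `n`
elements (`Finset.exists_subset_card_eq`) on which this map is constant.  Let `u` be as in `Good` for
`S'`.  For `j ∈ S'` let `l j` be an index (say the first one) of an entry with this property;
`l` is injective on `S'` because the entry determines `T u false j` and `T u false` is injective.
Enumerate `S'` by `σ : Fin n → Fin m` such that `l (σ e)` increases (`Finset.orderEmbOfFin` for the image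
of `S'` under `l`).  `S_HiV` for `i` and the region `(u, false)`, and for `i'` and the region `(u, true)`,
gives that both variations are at most `t / B`: contradiction. -/
def S_FoA : Prop := S_HiV →
  ∀ (d m P B n t : ℕ) (T : Fin d → Bool → Fin m → Fin P)
    (bl : ℕ → Option ((Fin d × Bool) × Fin P)),
  1 ≤ d → 1 ≤ B → Good n (t / B) T → Geo B bl →
  ∀ (k K : ℕ) (Q : Type) (M : Fin K → HM k Q) (τ : ℕ → Option Bool) (h : Fin K → List Q),
    (∀ c U, ((M c).run τ U).mot ≤ t) →
    (∀ c, His bl (M c) τ (fun _ => none) (M c).start (h c)) →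
    ∀ S : Finset (Fin m), n * (K * k ^ 2) ^ d ≤ S.card → S.Nonempty →
    ∃ j ∈ S, ∃ u : Fin d, ∀ c, ∀ z ∈ zs bl (M c) (fun _ => none) (h c),
      ¬ ((∃ i, z i = some ((u, false), T u false j)) ∧ ∃ i, z i = some ((u, true), T u true j))

open Classical in
/-- **FoB** (a rectangle has small correlation with the character).

Let `b = ((u, false), T u false j)`, `b' = ((u, true), T u true j)`, `b ≠ b'`.  The sum over `x` is
`(2 ^ B) ^ (- 2)` times the sum over `x, v, w` of the value at `update (update x b v) b' w`
(`(x, v, w) ↦ update ..` has all fibres of size `(2 ^ B) ^ 2`; or fix the other coordinates with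
`Equiv.piSplitAt`/`Equiv.funSplitAt`, or `Finset.sum_comm` with sums over fibres).  For fixed `x`:
`chi S (vx T y) = ∏ j' ∈ S, ∏ u', ips (y ((u', false), T u' false j')) (y ((u', true), T u' true j'))`
(`(-1) ^ n = if n % 2 = 1 then -1 else 1`); for `y = update (update x b v) b' w` the factor of `(j, u)` is
`ips v w`, and the other factors do not depend on `v` and `w`, because the rows of `T` are injective
(`T u false j' = T u false j` only for `j' = j`); their product has the absolute value one.  By `S_Lin`
the sum over `v` and `w` has absolute value at most `sqrt (2 ^ (3 B)) ≤ 2 ^ (2 * B) * (1 / 2) ^ (B / 2)`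
(`2 * (B / 2) ≤ B`; compare the squares, `abs_le_of_sq_le_sq`). -/
def S_FoB : Prop := S_Lin →
  ∀ (d m P B : ℕ) (T : Fin d → Bool → Fin m → Fin P)
    (R : ((Fin d × Bool) × Fin P → Fin B → Bool) → Prop) (S : Finset (Fin m)) (j : Fin m) (u : Fin d),
  (∀ u b, Function.Injective (T u b)) → j ∈ S →
  (∀ x : (Fin d × Bool) × Fin P → Fin B → Bool, ∃ A A' : (Fin B → Bool) → Prop, ∀ v w,
    R (Function.update (Function.update x ((u, false), T u false j) v) ((u, true), T u true j) w) ↔
      A v ∧ A' w) →
  |∑ x : (Fin d × Bool) × Fin P → Fin B → Bool, (if R x then (1 : ℝ) else 0) * chi S (vx T x)| ≤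
    (1 / 2) ^ (B / 2) * Fintype.card ((Fin d × Bool) × Fin P → Fin B → Bool)

open Classical in
/-- **Fou** (the Fourier coefficients of high order are tiny).

Part (1), the sum of `chi`: `S_FoB` with `R = True` (any `j ∈ S`, `u = 0`).

Part (2).  `V = t / B`.  By `S_HiA` and `S_HiL` the event `∀ c, (M c).Acc (rd x)` is the disjoint union,
over the families `h : Fin K → List Q` of lists of length at most `k + V`, of the events
`R h x := ∀ c, His bl (M c) (rd x) (fun _ => none) (M c).start (h c)`; there are at most
`((2 ^ s + 1) ^ (k + V)) ^ K ≤ 2 ^ (K * (s + 1) * (k + V + 1))` families (the finite set of the lists of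
length at most `R` over `Q` has at most `(card Q + 1) ^ R` elements: it is the image of
`Fin R → Option Q` under `f ↦ (List.ofFn f).reduceOption`, or use `List.finite_length_le` and an injection
into `Fin R → Option Q`).  So the sum over `x` is the sum over the families `h` of
`∑ x, (if R h x then 1 else 0) * chi S (vx T x)`; for a family which does not occur the term is `0`; if
`R h x₀` for some `x₀`, `S_FoA` (with `τ = rd x₀`) gives `j` and `u`, and `S_HiR` for every `c` gives the
rectangles (`b ≠ b'` because `(u, false) ≠ (u, true)`; the intersection over `c` of rectangles is a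
rectangle), so by `S_FoB` the term is at most `(1 / 2) ^ (B / 2) * card`. -/
def S_Fou : Prop := S_HiA → S_HiL → S_HiR → S_FoA → S_FoB →
  ∀ (d m P B n t : ℕ) (T : Fin d → Bool → Fin m → Fin P)
    (bl : ℕ → Option ((Fin d × Bool) × Fin P))
    (rd : ((Fin d × Bool) × Fin P → Fin B → Bool) → ℕ → Option Bool),
  1 ≤ d → 1 ≤ B → Good n (t / B) T → Geo B bl →
  (∀ x x' j, (∀ b, bl j = some b → x b = x' b) → rd x j = rd x' j) →
  (∀ S : Finset (Fin m), S.Nonempty →
    |∑ x : (Fin d × Bool) × Fin P → Fin B → Bool, chi S (vx T x)| ≤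
      (1 / 2) ^ (B / 2) * Fintype.card ((Fin d × Bool) × Fin P → Fin B → Bool)) ∧
  ∀ (k s K : ℕ) (Q : Type) [Fintype Q] (M : Fin K → HM k Q), Fintype.card Q ≤ 2 ^ s →
    (∀ c x U, ((M c).run (rd x) U).mot ≤ t) →
    ∀ S : Finset (Fin m), n * (K * k ^ 2) ^ d ≤ S.card → S.Nonempty →
    |∑ x : (Fin d × Bool) × Fin P → Fin B → Bool,
      (if ∀ c, (M c).Acc (rd x) then (1 : ℝ) else 0) * chi S (vx T x)| ≤
      2 ^ (K * (s + 1) * (k + t / B + 1)) * (1 / 2) ^ (B / 2) *
        Fintype.card ((Fin d × Bool) × Fin P → Fin B → Bool)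

/-! ### The layout -/

/-- **Lay** (the layout of the words).

`lam = log_2 N ≥ 320`, `mu = lam / 8 ≥ 40`, `m = 2 ^ mu`, `P = 2 ^ (3 mu)`, `B = 2 ^ (lam - 10 - 3 mu)`, so
`256 * P * (2 * B) = 2 ^ (lam - 1)`.  The region `(u, b)` has the number `2 u + (if b then 1 else 0)`,
smaller than `160`.  The block `((u, b), a)` consists of the cells `blc N (2 u + b) a i`, `i < B`; they are
in `[2 ^ (lam - 1), 2 ^ lam)`, and `N ≥ 2 ^ lam`.  `bl j` is the block of the cell `j` if there is one
(division with remainder of `j - 2 ^ (lam - 1)` by `2 * B` and then by `P`; different blocks have disjoint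
cells).  The cells of the header are `hdc N r j i < 160 * m * (3 mu) ≤ 2 ^ (lam - 1)`
(`160 * 3 * mu ≤ 2 ^ 6 * ... `: `480 * mu * 2 ^ mu ≤ 2 ^ (8 mu - 1)` for `mu ≥ 40`), different for
different `(r, j, i)`, `i < 3 mu`.  The word `mk x`: digit `i` of `T u b j` (`Nat.testBit`) in the cell
`hdc N (2 u + b) j i`; the bit `x ((u, b), a) i` in the cell `blc N (2 u + b) a i`; `false` in all other
cells.  `Geo`: different blocks are separated by the `B` cells behind the first one; for the same region
the distance of two cells is at least `2 * B * |a - a'| - (B - 1) ≥ B * |a - a'|` (zero if `a = a'`).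
Locality is clear.  The virtual word: `hdT (word (mk x)) (2 u + b) j = T u b j` (binary digits of a number
smaller than `2 ^ (3 mu)`: `Nat.ofDigits`/induction, or a lemma `∑ i < n, (a.testBit i) 2 ^ i = a` for
`a < 2 ^ n`), so `vip (word (mk x)) j u = ipn (x ((u, false), T u false j)) (x ((u, true), T u true j))`
and `hw (word (mk x)) = word (vx T x)` (as lists of length `m`; `vm N = 2 ^ mu`); now unfold `slice` and
`hlang` (`2 ^ 320 ≤ N`). -/
def S_Lay : Prop := ∀ N : ℕ, 2 ^ 320 ≤ N → ∀ T : Fin 80 → Bool → Fin (vm N) → Fin (vp N),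
  ∃ (bl : ℕ → Option ((Fin 80 × Bool) × Fin (vp N)))
    (mk : ((Fin 80 × Bool) × Fin (vp N) → Fin (vB N) → Bool) → Fin N → Bool),
    Geo (vB N) bl ∧
    (∀ x x' j, (∀ b, bl j = some b → x b = x' b) → tape (mk x) j = tape (mk x') j) ∧
    ∀ (L : Set (List Bool)) x, slice (hlang L) N (mk x) = slice L (vm N) (vx T x)

open Classical in
/-- **Low** (the lower bound for the Fourier coefficients, for the words of length `N`).

`vp N = vm N ^ 3`; `S_Tab` with `d = 80` and `S_NuT` give a good table (`2 * 80 * m ^ 2 ≤ m ^ 3` as
`m ≥ 2 ^ 40`), then `S_Lay` and `S_Fou` with `rd x = tape (mk x)`;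
`Ω = (Fin 80 × Bool) × Fin (vp N) → Fin (vB N) → Bool`, `X = vx T`, `w = mk`. -/
def S_Low : Prop := S_TvC → S_Tab → S_NuT → S_Lin → S_HiA → S_HiL → S_HiV → S_HiR → S_FoA →
  S_FoB → S_Fou → S_Lay →
  ∀ N t n τ v : ℕ, 2 ^ 320 ≤ N → vm N ≤ v ^ 40 → 1000 ≤ n → n ≤ vm N →
  t / vB N + n ≤ 2304 * τ * vp N → 12 * 2304 ^ 2 * τ ^ 2 * v ≤ n →
  ∃ (Ω : Type) (_ : Fintype Ω) (_ : Nonempty Ω) (X : Ω → Fin (vm N) → Bool) (w : Ω → Fin N → Bool),
    (∀ (L : Set (List Bool)) x, slice (hlang L) N (w x) = slice L (vm N) (X x)) ∧
    (∀ S : Finset (Fin (vm N)), S.Nonempty →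
      |∑ x : Ω, chi S (X x)| ≤ (1 / 2) ^ (vB N / 2) * Fintype.card Ω) ∧
    ∀ (k s K : ℕ) (Q : Type) [Fintype Q] (M : Fin K → HM k Q), Fintype.card Q ≤ 2 ^ s →
      (∀ c (y : Fin N → Bool) U, ((M c).run (tape y) U).mot ≤ t) →
      ∀ S : Finset (Fin (vm N)), n * (K * k ^ 2) ^ 80 ≤ S.card → S.Nonempty →
      |∑ x : Ω, (if ∀ c, (M c).Acc (tape (w x)) then (1 : ℝ) else 0) * chi S (X x)| ≤
        2 ^ (K * (s + 1) * (k + t / vB N + 1)) * (1 / 2) ^ (vB N / 2) * Fintype.card Ω

end Pool.Agent.Lib.MP_ff3ed7_lc.MH
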