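import Pool.Agent.Lib.MP_ff3ed7_lc.MH.SpecF
import Pool.Agent.Lib.MP_ff3ed7_lc.MH.SpecL

/-!
# PROJECT MH, part N: the numbers, and the lower bounds for the slices

Every `S_X` is to be proved as `theorem tX : S_X` in its own module
`Pool/Agent/Lib/MP_ff3ed7_lc/MH/X.lean` (namespace `Pool.Agent.Lib.MP_ff3ed7_lc.MH`), importing this
file.  Statements which are used are hypotheses, so all modules are independent.

Do not let Lean evaluate the large powers (`2 ^ 37000`, `2 ^ 230`): use `pow_add`, `pow_mul`,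
`mul_pow`, `Nat.pow_le_pow_right`, `Nat.pow_le_pow_left`, `lt_of_pow_lt_pow_left`.
-/

set_option autoImplicit false

open Finset

namespace Pool.Agent.Lib.MP_ff3ed7_lc.MH

open Pool.Agent.Lib.MP_ff3ed7_lc.PLT
open Pool.Agent.Lib.MP_ff3ed7_lc.B (JR HasSDual)

/-- The costs: heads, message (or gap), memory, distance. -/
def cst (N k p s t : ℕ) : ℕ := (k + 1) * (p + 1) * (s + 1) * (t / N + 1)

/-- `i = mu / 20`, `mu = log_2 N / 8`. -/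
def ix (N : ℕ) : ℕ := Nat.log 2 N / 8 / 20

/-- **NuA.** `N < 2 ^ (log_2 N + 1)` (`Nat.lt_pow_succ_log_self`), `log_2 N + 1 ≤ 8 mu + 8` and
`mu ≤ 20 i + 19`, so `N < 2 ^ (160 i + 160)`; `37000 = 36800 + 200`, `36800 = 230 * 160`:
`(2 ^ 230 * W ^ 160) ^ 160 * 2 ^ 200 < (2 ^ i) ^ 160 * 2 ^ 160`. -/
def S_NuA : Prop := ∀ N W : ℕ, 2 ^ 37000 * W ^ 25600 < N → 2 ^ 230 * W ^ 160 < 2 ^ ix N

/-- **NuB.** `W = cst N k p s t`; `W ≥ 1`, `W ≥ τ := t / N + 1`, so `2 ^ 230 < 2 ^ i`, `230 < i`,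
`20 i ≤ mu`, `8 mu ≤ log_2 N`, so `2 ^ 320 ≤ 2 ^ log_2 N ≤ N` (`N ≠ 0`: `log_2 0 = 0`).
`vm N = 2 ^ mu`, `mu < 40 (mu / 40 + 1)`.  `mu / 40 = i / 2` (`Nat.div_div_eq_div_mul`).
Last part: `12 * 2304 ^ 2 ≤ 2 ^ 26`; `2 ^ 27 * τ ^ 2 ≤ 2 ^ (i - i / 2)`, because the squares satisfy
`2 ^ 54 * τ ^ 4 ≤ 2 ^ 230 * W ^ 160 ≤ 2 ^ i ≤ 2 ^ (2 * (i - i / 2))`. -/
def S_NuB : Prop := ∀ N k p s t : ℕ, 2 ^ 230 * cst N k p s t ^ 160 < 2 ^ ix N →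
  2 ^ 320 ≤ N ∧ vm N ≤ (2 ^ (Nat.log 2 N / 8 / 40 + 1)) ^ 40 ∧ 1000 ≤ 2 ^ ix N ∧
  2 ^ ix N ≤ vm N ∧ 2 ^ 61 ≤ vm N ∧
  12 * 2304 ^ 2 * (t / N + 1) ^ 2 * 2 ^ (Nat.log 2 N / 8 / 40 + 1) ≤ 2 ^ ix N

/-- **NuC.** As in `S_NuB`, `230 < i`, `20 i ≤ mu`, `8 mu ≤ lam := log_2 N`.  `t < N * τ`
(`Nat.lt_mul_div_succ`), `N < 2 ^ (lam + 1) = vB N * 2 ^ (11 + 3 mu)`, so
`t / vB N ≤ 2048 * τ * P`, `P = vp N = 2 ^ (3 mu)` (`Nat.div_le_of_le_mul`), and `2 ^ i ≤ P`.  This is the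
first part.  Second part: `vB N / 2 = 2 ^ (lam - 11 - 3 mu) ≥ 2 ^ (5 mu - 11)`;
`k + t / vB N + 1 ≤ 2 ^ 12 * ((k + 1) * τ * P)`, so the left side is at most
`2 ^ 15 * (W * P) + 2 * P + 30 * (p + 1) ≤ 2 ^ 16 * (W * P)`, and
`2 ^ 27 * W ≤ 2 ^ i ≤ 2 ^ (2 mu)`. -/
def S_NuC : Prop := ∀ N k p s t : ℕ, 2 ^ 230 * cst N k p s t ^ 160 < 2 ^ ix N →
  t / vB N + 2 ^ ix N ≤ 2304 * (t / N + 1) * vp N ∧
  6 * (p + 1) * (s + 1) * (k + t / vB N + 1) + (2 * vm N + 20 * (p + 1) + 10) ≤ vB N / 2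

/-- **NuD.** `log_2 (vm N) = mu` (`Nat.log_pow`), so `levB (vm N) = (mu - 36) / 10 ≥ 2 i - 4` and
`pw 61 10 (vm N) = 2 ^ ((mu - 61) / 10)`, `(mu - 61) / 10 ≥ 2 i - 7`; `230 < i`.  With
`W = cst N k p s t`: `p + 1 ≤ W ≤ 2 ^ i`.  `(p + 1) * k ^ 2 ≤ W ^ 2`, `6 ^ 80 ≤ 2 ^ 208`
(`6 ^ 10 ≤ 2 ^ 26`), so `2 ^ i * (6 * (p + 1) * k ^ 2) ^ 80 * 2 ^ 22 ≤ 2 ^ i * (2 ^ 230 * W ^ 160) ≤
2 ^ (2 i)`; and `9 ≤ 2 ^ 4`. -/
def S_NuD : Prop := ∀ N k p s t : ℕ, 2 ^ 230 * cst N k p s t ^ 160 < 2 ^ ix N →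
  p + 1 ≤ 2 ^ levB (vm N) ∧ 2 ^ ix N * (6 * (p + 1) * k ^ 2) ^ 80 ≤ 2 ^ levB (vm N) ∧
  9 * (2 ^ ix N * (6 * (p + 1) * k ^ 2) ^ 80) ≤ pw 61 10 (vm N)

/-- The conclusion of `S_Low` (the Fourier coefficients for the words of length `N`). -/
def LowC (N t n : ℕ) : Prop :=
  ∃ (Ω : Type) (_ : Fintype Ω) (_ : Nonempty Ω) (X : Ω → Fin (vm N) → Bool) (w : Ω → Fin N → Bool),
    (∀ (L : Set (List Bool)) x, slice (hlang L) N (w x) = slice L (vm N) (X x)) ∧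
    (∀ S : Finset (Fin (vm N)), S.Nonempty →
      |∑ x : Ω, chi S (X x)| ≤ (1 / 2) ^ (vB N / 2) * Fintype.card Ω) ∧
    ∀ (k s K : ℕ) (Q : Type) [Fintype Q] (M : Fin K → HM k Q), Fintype.card Q ≤ 2 ^ s →
      (∀ c (y : Fin N → Bool) U, ((M c).run (tape y) U).mot ≤ t) →
      ∀ S : Finset (Fin (vm N)), n * (K * k ^ 2) ^ 80 ≤ S.card → S.Nonempty →
      |∑ x : Ω, (open Classical in if ∀ c, (M c).Acc (tape (w x)) then (1 : ℝ) else 0) *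
          chi S (X x)| ≤
        2 ^ (K * (s + 1) * (k + t / vB N + 1)) * (1 / 2) ^ (vB N / 2) * Fintype.card Ω

/-- Everything which is used for the lengths `N` with `2 ^ 230 * cst N k p s t ^ 160 < 2 ^ ix N`. -/
def NumC (N k p s t : ℕ) : Prop :=
  LowC N t (2 ^ ix N) ∧ 2 ^ 61 ≤ vm N ∧
  6 * (p + 1) * (s + 1) * (k + t / vB N + 1) + (2 * vm N + 20 * (p + 1) + 10) ≤ vB N / 2 ∧
  p + 1 ≤ 2 ^ levB (vm N) ∧ 2 ^ ix N * (6 * (p + 1) * k ^ 2) ^ 80 ≤ 2 ^ levB (vm N) ∧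
  9 * (2 ^ ix N * (6 * (p + 1) * k ^ 2) ^ 80) ≤ pw 61 10 (vm N)

/-- **Nuc** (collection).  `S_Low` (its hypotheses are the theorems `S_TvC`, ..., `S_Lay`, which are
given) with `n = 2 ^ ix N`, `τ = t / N + 1`, `v = 2 ^ (log_2 N / 8 / 40 + 1)`. -/
def S_Nuc : Prop := S_TvC → S_Tab → S_NuT → S_Lin → S_HiA → S_HiL → S_HiV → S_HiR → S_FoA →
  S_FoB → S_Fou → S_Lay → S_Low → S_NuA → S_NuB → S_NuC → S_NuD →
  ∀ N k p s t : ℕ, 2 ^ 37000 * cst N k p s t ^ 25600 < N → NumC N k p s t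

/-- **MaB** (part (2): Merlin-Arthur, the language `hlang LB`).

Take `C = 2 ^ 37000`; `W = cst N k p s t`; if `2 ^ 37000 * W ^ 25600 < N` then `NumC` holds
(hypothesis).  Let `K = 6 * (p + 1)`, `m = vm N`, `f = slice LB m`, `D = 2 ^ ix N * (K * k ^ 2) ^ 80`,
`e = 2 ^ (K * (s + 1) * (k + t / vB N + 1)) * (1 / 2) ^ (vB N / 2)`, `(1 / 2) ^ (vB N / 2) ≤ e` and
`e ≤ (1 / 2) ^ (2 m + 20 (p + 1) + 10)` (third part of `NumC`).  `HasMAh` gives `r`, `Q`, `M`; put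
`A y ρ ω = (M y ρ).Acc (tape (w ω))`; `f (X ω) = slice (hlang LB) N (w ω)`.  For `y` and
`ρ : Fin K → (Fin r → Bool)` use `LowC` with the machines `c ↦ M y (ρ c)`.  `HasSDual f (p + 1) D` by the
first part of `S_Dua` (conclusion given).  Now the conclusion of `S_Cma` gives `False`. -/
def S_MaB : Prop :=
  (∀ N k p s t : ℕ, 2 ^ 37000 * cst N k p s t ^ 25600 < N → NumC N k p s t) →
  S_Psh → S_Dua → S_Inv → S_Jrc → S_Tr → S_Cnd → S_Pow → S_Nma → S_Jma → S_Cma →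
  ∃ C : ℕ, ∀ N k p s t : ℕ, HasMAh k (slice (hlang LB) N) p s t → N ≤ C * cst N k p s t ^ 25600

/-- **MaG** (part (3): Merlin-Arthur, the language `hlang LG`).  As `S_MaB`, with
`HasExactDual (slice LG (vm N)) D` (second part of `S_Dua`) and `S_Cme`. -/
def S_MaG : Prop :=
  (∀ N k p s t : ℕ, 2 ^ 37000 * cst N k p s t ^ 25600 < N → NumC N k p s t) →
  S_Psh → S_Dua → S_Inv → S_Jrc → S_Tr → S_Cnd → S_Pow → S_Nma → S_Jma → S_Cme →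
  ∃ C : ℕ, ∀ N k p s t : ℕ, HasMAh k (slice (hlang LG) N) p s t → N ≤ C * cst N k p s t ^ 25600

/-- **SpG** (part (3): `SBP` and `PP`, the language `hlang LG`).  As `S_MaG`, with `K = 1` and `S_Cgp`
(`a = (1 / 2) ^ u` for `SBP`, note `2 * (1 / 2) ^ u = a + (1 / 2) ^ u`; `a = 1 / 2` for `PP`), `p` is
replaced by `u` in the costs.  `D = 2 ^ ix N * (1 * k ^ 2) ^ 80` is at most
`2 ^ ix N * (6 * (u + 1) * k ^ 2) ^ 80`, `e = 2 ^ (1 * (s + 1) * (k + t / vB N + 1)) * (1 / 2) ^ (vB N / 2)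
≤ (1 / 2) ^ (2 m + u + 10)`.  `LowC` for the machine `M ρ` (constant family over `Fin 1`; `∀ c : Fin 1` is
trivial: `forall_const` or `Fin.forall_fin_one`). -/
def S_SpG : Prop :=
  (∀ N k p s t : ℕ, 2 ^ 37000 * cst N k p s t ^ 25600 < N → NumC N k p s t) →
  S_Psh → S_Dua → S_Inv → S_Jrc → S_Tr → S_Cnd → S_Cgp →
  ∃ C : ℕ, ∀ N k u s t : ℕ, (HasSBPh k (slice (hlang LG) N) u s t → N ≤ C * cst N k u s t ^ 25600) ∧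
    (HasPPh k (slice (hlang LG) N) u s t → N ≤ C * cst N k u s t ^ 25600)

end Pool.Agent.Lib.MP_ff3ed7_lc.MH
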